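import Pool.Agent.UMR.Targets

set_option autoImplicit false

namespace Pool.Agent.UMR
namespace EXT_

/-- a complete nontrivially normed ultrametric field -/
theorem ext_complete (F : Type) [NontriviallyNormedField F] [CompleteSpace F] [IsUltrametricDist F]
    (A : Type) [Field A] [Algebra F A] [Algebra.IsAlgebraic F A] :
    ∃ V : AbsoluteValue A ℝ, (∀ x y, V (x + y) ≤ max (V x) (V y)) ∧
      ∀ z, V (algebraMap F A z) = ‖z‖ := by
  refine ⟨{ toFun := spectralMulAlgNorm F A
            map_mul' := fun x y => map_mul (spectralMulAlgNorm F A) x y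
            nonneg' := fun x => apply_nonneg (spectralMulAlgNorm F A) x
            eq_zero' := fun x => ?_
            add_le' := fun x y => map_add_le_add (spectralMulAlgNorm F A) x y }, ?_, ?_⟩
  · exact map_eq_zero_iff_eq_zero (spectralMulAlgNorm F A)
  · intro x y
    exact isNonarchimedean_spectralNorm (K := F) (L := A) x y
  · intro z
    exact spectralNorm_extends z

theorem ultra_completion (K : Type) [Field K] (v : AbsoluteValue K ℝ)
    (hv : ∀ x y, v (x + y) ≤ max (v x) (v y)) : IsUltrametricDist v.Completion := by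
  refine IsUltrametricDist.isUltrametricDist_of_forall_norm_add_le_max_norm ?_
  intro x y
  refine UniformSpace.Completion.induction_on₂ x y ?_ ?_
  · exact isClosed_le (by fun_prop) (by fun_prop)
  · intro a b
    rw [← UniformSpace.Completion.coe_add, UniformSpace.Completion.norm_coe,
      UniformSpace.Completion.norm_coe, UniformSpace.Completion.norm_coe]
    exact hv a.ofAbs b.ofAbs

/-- extension of the ring hom to the completion -/
noncomputable def toCompl (K : Type) [Field K] (v : AbsoluteValue K ℝ) : K →+* v.Completion :=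
  (UniformSpace.Completion.coeRingHom).comp ((WithAbs.equiv v).symm : K →+* WithAbs v)

theorem norm_toCompl (K : Type) [Field K] (v : AbsoluteValue K ℝ) (z : K) :
    ‖toCompl K v z‖ = v z := by
  change ‖((WithAbs.toAbs v z : WithAbs v) : UniformSpace.Completion (WithAbs v))‖ = v z
  rw [UniformSpace.Completion.norm_coe]
  rfl

theorem ext_nontriv (K Ω : Type) [Field K] [Field Ω] [Algebra K Ω] [Algebra.IsAlgebraic K Ω]
    (v : AbsoluteValue K ℝ) (hv : ∀ x y, v (x + y) ≤ max (v x) (v y)) (z₀ : K) (hz₀ : 1 < v z₀) :
    ∃ V : AbsoluteValue Ω ℝ, (∀ x y, V (x + y) ≤ max (V x) (V y)) ∧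
      ∀ z, V (algebraMap K Ω z) = v z := by
  have := ultra_completion K v hv
  let nn : NontriviallyNormedField v.Completion :=
    NontriviallyNormedField.ofNormNeOne (𝕜 := v.Completion) ⟨toCompl K v z₀, by
      intro h0
      have := norm_toCompl K v z₀
      rw [h0, norm_zero] at this
      linarith, by rw [norm_toCompl]; exact ne_of_gt hz₀⟩
  obtain ⟨V, hV1, hV2⟩ := ext_complete v.Completion (AlgebraicClosure v.Completion)
  let alg : Algebra K (AlgebraicClosure v.Completion) :=
    ((algebraMap v.Completion (AlgebraicClosure v.Completion)).comp (toCompl K v)).toAlgebra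
  let φ : Ω →ₐ[K] AlgebraicClosure v.Completion := IsAlgClosed.lift
  refine ⟨V.comp (f := (φ : Ω →+* AlgebraicClosure v.Completion)) φ.toRingHom.injective, ?_, ?_⟩
  · intro x y
    change V (φ (x + y)) ≤ max (V (φ x)) (V (φ y))
    rw [map_add]
    exact hV1 _ _
  · intro z
    change V (φ (algebraMap K Ω z)) = v z
    rw [AlgHom.commutes]
    change V (algebraMap v.Completion (AlgebraicClosure v.Completion) (toCompl K v z)) = v z
    rw [hV2]
    exact norm_toCompl K v z

theorem ext_triv (K Ω : Type) [Field K] [Field Ω] [Algebra K Ω]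
    (v : AbsoluteValue K ℝ) (h : ∀ z : K, z ≠ 0 → v z = 1) :
    ∃ V : AbsoluteValue Ω ℝ, (∀ x y, V (x + y) ≤ max (V x) (V y)) ∧
      ∀ z, V (algebraMap K Ω z) = v z := by
  classical
  refine ⟨{ toFun := fun z => if z = 0 then 0 else 1
            map_mul' := fun x y => ?_
            nonneg' := fun x => ?_
            eq_zero' := fun x => ?_
            add_le' := fun x y => ?_ }, ?_, ?_⟩
  · by_cases hx : x = 0 <;> by_cases hy : y = 0 <;> simp [hx, hy]
  · split_ifs <;> norm_num
  · simp
  · by_cases hx : x = 0
    · simp [hx]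
    · by_cases hy : y = 0
      · simp [hy]
      · simp only [hx, hy, if_false]; split_ifs <;> norm_num
  · intro x y
    change (if x + y = 0 then (0:ℝ) else 1) ≤ max (if x = 0 then (0:ℝ) else 1)
      (if y = 0 then (0:ℝ) else 1)
    by_cases hx : x = 0
    · subst hx; simp
    · simp only [hx, if_false]; split_ifs <;> norm_num
  · intro z
    change (if algebraMap K Ω z = 0 then (0:ℝ) else 1) = v z
    by_cases hz : z = 0
    · subst hz; simp
    · rw [if_neg (by simpa using hz), h z hz]

end EXT_

theorem p_EXT : T_EXT := by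
  intro K Ω _ _ _ _ v hv
  by_cases h : ∀ z : K, z ≠ 0 → v z = 1
  · exact EXT_.ext_triv K Ω v h
  · push Not at h
    obtain ⟨z, hz, hz1⟩ := h
    have hpos : 0 < v z := v.pos hz
    rcases lt_or_gt_of_ne hz1 with h1 | h1
    · refine EXT_.ext_nontriv K Ω v hv z⁻¹ ?_
      rw [map_inv₀]
      exact (one_lt_inv₀ hpos).2 h1
    · exact EXT_.ext_nontriv K Ω v hv z h1

end Pool.Agent.UMR
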