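import Pool.Agent.UMR.Targets

set_option autoImplicit false
set_option maxHeartbeats 4000000

/-!
# Project UMR: target ACL
-/

namespace Pool.Agent.UMR

namespace ACL_

open IntermediateField

theorem mem_cl {L Ω : Type} [Field L] [Field Ω] [Algebra L Ω] (s : Set Ω) (z : Ω) :
    z ∈ (AlgebraicIndependent.matroid L Ω).closure s ↔
      IsAlgebraic (IntermediateField.adjoin L s) z := by
  rw [AlgebraicIndependent.matroid_closure_eq, IntermediateField.isAlgebraic_adjoin_iff]
  exact Iff.rfl

end ACL_

open ACL_ in
theorem p_ACL : T_ACL := by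
  intro L Ω _ _ _ k t z ht hz hl
  have hempty : z ∈ (AlgebraicIndependent.matroid L Ω).closure ∅ := by
    rcases Nat.eq_zero_or_pos k with hk | hk
    · subst hk
      rw [mem_cl]
      have : Set.range t = ∅ := Set.range_eq_empty t
      rwa [this] at hz
    · have hI : (AlgebraicIndependent.matroid L Ω).Indep (Set.range t) := by
        rw [AlgebraicIndependent.matroid_indep_iff]
        exact ht.to_subtype_range
      let X : Set (Set Ω) := Set.range (fun l : Fin k => t '' {j | j ≠ l})
      have hX : X.Nonempty := ⟨_, ⟨⟨0, hk⟩, rfl⟩⟩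
      have h1 := hI.closure_sInter_eq_biInter_closure_of_forall_subset hX (by
        rintro _ ⟨l, rfl⟩
        exact Set.image_subset_range _ _)
      have h2 : ⋂₀ X = ∅ := by
        ext y
        simp only [Set.mem_sInter, Set.mem_empty_iff_false, iff_false]
        intro hy
        obtain ⟨j, hj, rfl⟩ := hy _ ⟨⟨0, hk⟩, rfl⟩
        obtain ⟨j', hj', hjj⟩ := hy _ ⟨j, rfl⟩
        exact hj' (ht.injective hjj)
      rw [h2] at h1
      rw [h1]
      simp only [Set.mem_iInter]
      rintro _ ⟨l, rfl⟩
      exact (mem_cl _ _).2 (hl l)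
  rw [AlgebraicIndependent.matroid_closure_eq] at hempty
  have h3 : IsAlgebraic (Algebra.adjoin L (∅ : Set Ω)) z := hempty
  have : Algebra.IsAlgebraic L (Algebra.adjoin L (∅ : Set Ω)) := by
    rw [← Subalgebra.isAlgebraic_iff, Subalgebra.isAlgebraic_iff]
    rw [Algebra.adjoin_empty]
    infer_instance
  exact h3.restrictScalars L

end Pool.Agent.UMR
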