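import Pool.Agent.UMR.Targets

set_option autoImplicit false
set_option maxHeartbeats 4000000

/-! BD: upper and lower bounds for the norm of the image. -/

namespace Pool.Agent.UMR

open Finset
open scoped BigOperators

namespace BD_

variable {K : Type} [Field K] {v : AbsoluteValue K ℝ}

lemma nm_nonneg (x : K × K) : 0 ≤ nm v x := le_max_of_le_left (v.nonneg _)

lemma nm_pos {x : K × K} (hx : x ≠ 0) : 0 < nm v x := by
  by_contra h
  push Not at h
  have h1 : v x.1 ≤ 0 := le_trans (le_max_left _ _) h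
  have h2 : v x.2 ≤ 0 := le_trans (le_max_right _ _) h
  exact hx (Prod.ext (v.eq_zero.1 (le_antisymm h1 (v.nonneg _)))
    (v.eq_zero.1 (le_antisymm h2 (v.nonneg _))))

lemma nm_smul (c : K) (x : K × K) : nm v (c • x) = v c * nm v x := by
  unfold nm
  rw [mul_max_of_nonneg _ _ (v.nonneg c)]
  simp

lemma sum_le (hv : VV v) {ι : Type} (s : Finset ι) (g : ι → K) {B : ℝ} (hB : 0 ≤ B)
    (h : ∀ i ∈ s, v (g i) ≤ B) : v (∑ i ∈ s, g i) ≤ B := by
  classical
  induction s using Finset.induction_on with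
  | empty => simpa using hB
  | insert a s ha ih =>
    rw [Finset.sum_insert ha]
    exact le_trans (hv.ultra _ _) (max_le (h a (Finset.mem_insert_self _ _))
      (ih fun i hi => h i (Finset.mem_insert_of_mem hi)))

lemma le_gn {n : ℕ} (c : Fin (n + 1) → K) (i : Fin (n + 1)) : v (c i) ≤ gn v c :=
  le_ciSup (f := fun i => v (c i)) (Set.finite_range _).bddAbove i

lemma gn_nonneg {n : ℕ} (c : Fin (n + 1) → K) : 0 ≤ gn v c := le_trans (v.nonneg _) (le_gn c 0)

lemma cn_nonneg {d : ℕ} (f : Pr K d) : 0 ≤ cn v f := le_max_of_le_left (gn_nonneg _)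

lemma fv_le (hv : VV v) {n : ℕ} (c : Fin (n + 1) → K) (x : K × K) :
    v (fv c x) ≤ gn v c * nm v x ^ n := by
  unfold fv
  refine sum_le hv _ _ (mul_nonneg (gn_nonneg _) (pow_nonneg (nm_nonneg _) _)) fun i _ => ?_
  have h1 : v x.1 ≤ nm v x := le_max_left _ _
  have h2 : v x.2 ≤ nm v x := le_max_right _ _
  have hi : (i : ℕ) ≤ n := Nat.lt_succ_iff.1 i.2
  rw [v.map_mul, v.map_mul, v.map_pow, v.map_pow, mul_assoc]
  refine mul_le_mul (le_gn c i) ?_ (by positivity) (gn_nonneg _)
  calc v x.1 ^ (i : ℕ) * v x.2 ^ (n - (i : ℕ))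
      ≤ nm v x ^ (i : ℕ) * nm v x ^ (n - (i : ℕ)) :=
        mul_le_mul (pow_le_pow_left₀ (v.nonneg _) h1 _) (pow_le_pow_left₀ (v.nonneg _) h2 _)
          (by positivity) (pow_nonneg (nm_nonneg _) _)
    _ = nm v x ^ n := by rw [← pow_add]; congr 1; omega

lemma st_le (hv : VV v) {d : ℕ} (f : Pr K d) (x : K × K) :
    nm v (st f x) ≤ cn v f * nm v x ^ d := by
  have hp : 0 ≤ nm v x ^ d := pow_nonneg (nm_nonneg _) _
  refine max_le ?_ ?_
  · exact le_trans (fv_le hv f.1 x) (mul_le_mul_of_nonneg_right (le_max_left _ _) hp)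
  · exact le_trans (fv_le hv f.2 x) (mul_le_mul_of_nonneg_right (le_max_right _ _) hp)

lemma wd_le (hv : VV v) (x y : K × K) : v (wd x y) ≤ nm v x * nm v y := by
  unfold wd
  rw [sub_eq_add_neg]
  refine le_trans (hv.ultra _ _) (max_le ?_ ?_)
  · rw [v.map_mul]
    exact mul_le_mul (le_max_left _ _) (le_max_right _ _) (v.nonneg _) (nm_nonneg _)
  · rw [v.map_neg, v.map_mul]
    exact mul_le_mul (le_max_right _ _) (le_max_left _ _) (v.nonneg _) (nm_nonneg _)

lemma fv_smul {n : ℕ} (c : Fin (n + 1) → K) (t : K) (x : K × K) :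
    fv c (t • x) = t ^ n * fv c x := by
  unfold fv
  rw [Finset.mul_sum]
  refine Finset.sum_congr rfl fun i _ => ?_
  have hi : (i : ℕ) ≤ n := Nat.lt_succ_iff.1 i.2
  have h1 : t ^ n = t ^ (i : ℕ) * t ^ (n - (i : ℕ)) := by rw [← pow_add]; congr 1; omega
  simp only [Prod.smul_fst, Prod.smul_snd, smul_eq_mul, mul_pow]
  rw [h1]; ring

lemma st_smul {d : ℕ} (f : Pr K d) (t : K) (x : K × K) : st f (t • x) = t ^ d • st f x := by
  unfold st
  rw [fv_smul, fv_smul]
  rfl

lemma prop_of_wd {x y : K × K} (hx : x ≠ 0) (h : wd x y = 0) : ∃ t : K, y = t • x := by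
  unfold wd at h
  by_cases h1 : x.1 = 0
  · have h2 : x.2 ≠ 0 := fun h2 => hx (Prod.ext h1 h2)
    refine ⟨y.2 / x.2, Prod.ext ?_ ?_⟩
    · rw [h1, zero_mul, zero_sub, neg_eq_zero, mul_eq_zero] at h
      simp only [Prod.smul_fst, smul_eq_mul, h1, mul_zero]
      exact h.resolve_left h2
    · simp only [Prod.smul_snd, smul_eq_mul]
      field_simp
  · refine ⟨y.1 / x.1, Prod.ext ?_ ?_⟩
    · simp only [Prod.smul_fst, smul_eq_mul]
      field_simp
    · simp only [Prod.smul_snd, smul_eq_mul]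
      field_simp
      linear_combination h

lemma wd_self (x : K × K) : wd x x = 0 := by unfold wd; ring

lemma zero_pow_smul {d : ℕ} (hd : 2 ≤ d) (f : Pr K d) : st f 0 = 0 := by
  have h := st_smul f 0 0
  rw [zero_smul, zero_pow (by omega), zero_smul] at h
  exact h

lemma st_ne {d : ℕ} {f : Pr K d} {ρ : K} (h : AG f ρ) {x : K × K} (hx : x ≠ 0) : st f x ≠ 0 := by
  intro h0
  obtain ⟨γ, y, hγ, hy, hw⟩ := h.gam (1, 0) (by simp)
  have h1 := hw x
  rw [h0] at h1
  have hγ0 : γ ≠ 0 := by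
    rintro rfl
    rw [zero_pow (by have := h.hd; omega)] at hγ
    exact h.ne hγ.symm
  have h2 : wd (0 : K × K) (1, 0) = 0 := by unfold wd; simp
  rw [h2] at h1
  have h3 : ∏ b, wd x (y b) = 0 := (mul_eq_zero.1 h1.symm).resolve_left hγ0
  obtain ⟨b, -, hb⟩ := Finset.prod_eq_zero_iff.1 h3
  obtain ⟨t, ht⟩ := prop_of_wd hx hb
  have h4 := hy b
  rw [ht, st_smul, h0, smul_zero] at h4
  simpa using congrArg Prod.fst h4

end BD_

open BD_

theorem p_BD (h1 : T_GEN) : T_BD := by
  intro K _ _ v d f ρ hv hA x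
  refine ⟨st_le hv f x, ?_⟩
  have hd := hA.hd
  by_cases hx : x = 0
  · subst hx
    have : nm v (0 : K × K) = 0 := by unfold nm; simp
    rw [this, zero_pow (by omega), mul_zero]
    exact mul_nonneg (pow_nonneg (cn_nonneg _) _) (nm_nonneg _)
  · have hw0 : st f x ≠ 0 := st_ne hA hx
    obtain ⟨γ, y, hγ, hy, hw⟩ := hA.gam _ hw0
    have hγ0 : γ ≠ 0 := by
      rintro rfl
      rw [zero_pow (by omega)] at hγ
      exact hA.ne hγ.symm
    have hy0 : ∀ b, y b ≠ 0 := by
      intro b hb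
      have := hy b
      rw [hb, zero_pow_smul hd] at this
      exact hw0 this.symm
    -- the point y_b proportional to x
    have h2 := hw x
    rw [wd_self] at h2
    have h3 : ∏ b, wd x (y b) = 0 := (mul_eq_zero.1 h2.symm).resolve_left hγ0
    obtain ⟨b0, -, hb0⟩ := Finset.prod_eq_zero_iff.1 h3
    obtain ⟨t, ht⟩ := prop_of_wd hx hb0
    have hvt : v t = 1 := by
      have h4 := hy b0
      rw [ht, st_smul] at h4
      have h5 : t ^ d = 1 := by
        by_contra hne
        apply hw0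
        have h6 : (t ^ d - 1) • st f x = 0 := by rw [sub_smul, h4, one_smul, sub_self]
        exact (smul_eq_zero.1 h6).resolve_left (sub_ne_zero.2 hne)
      have h6 : v t ^ d = 1 := by rw [← v.map_pow, h5, v.map_one]
      exact (pow_eq_one_iff_of_nonneg (v.nonneg _) (by omega)).1 h6
    have hnb0 : nm v (y b0) = nm v x := by rw [ht, nm_smul, hvt, one_mul]
    -- normalised vectors
    have hex : ∀ b, ∃ s : K, s ≠ 0 ∧ v s = nm v (y b) := by
      intro b
      have hp := nm_pos (v := v) (hy0 b)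
      unfold nm at hp ⊢
      rcases le_total (v (y b).1) (v (y b).2) with h | h
      · rw [max_eq_right h] at hp ⊢
        exact ⟨_, (v.pos_iff.1 hp), rfl⟩
      · rw [max_eq_left h] at hp ⊢
        exact ⟨_, (v.pos_iff.1 hp), rfl⟩
    choose s hs0 hs using hex
    obtain ⟨x', hx'1, -, hx'2⟩ := h1 K v hv (Set.range fun b => (s b)⁻¹ • y b) 1
      (Set.finite_range _) (by
        rintro z ⟨b, rfl⟩
        simp only
        rw [nm_smul, map_inv₀, hs, inv_mul_cancel₀]
        exact (nm_pos (hy0 b)).ne')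
    have hgen : ∀ b, v (wd (x' 0) (y b)) = nm v (y b) := by
      intro b
      have h4 := hx'2 0 _ ⟨b, rfl⟩
      simp only at h4
      have h5 : wd (x' 0) ((s b)⁻¹ • y b) = (s b)⁻¹ * wd (x' 0) (y b) := by
        unfold wd; simp only [Prod.smul_fst, Prod.smul_snd, smul_eq_mul]; ring
      rw [h5, v.map_mul, map_inv₀, hs] at h4
      have hp := nm_pos (v := v) (hy0 b)
      field_simp at h4
      linarith
    -- main inequality
    have h4 : v γ * ∏ b, nm v (y b) ≤ cn v f * nm v (st f x) := by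
      have h5 := hw (x' 0)
      have h6 : v (wd (st f (x' 0)) (st f x)) = v γ * ∏ b, nm v (y b) := by
        rw [h5, v.map_mul, map_prod]
        simp only [hgen]
      rw [← h6]
      refine le_trans (wd_le hv _ _) (mul_le_mul_of_nonneg_right ?_ (nm_nonneg _))
      have h7 := st_le hv f (x' 0)
      rwa [hx'1, one_pow, mul_one] at h7
    have h5 : v ρ * (∏ b, nm v (y b)) ^ d ≤ cn v f ^ d * nm v (st f x) ^ d := by
      rw [← hγ, v.map_pow, ← mul_pow, ← mul_pow]
      exact pow_le_pow_left₀ (mul_nonneg (v.nonneg _) (Finset.prod_nonneg fun b _ => nm_nonneg _)) h4 d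
    have h6 : (∏ b, nm v (y b)) ^ d = nm v x ^ d * ∏ b ∈ univ.erase b0, nm v (y b) ^ d := by
      rw [← Finset.mul_prod_erase _ _ (Finset.mem_univ b0), hnb0, mul_pow, Finset.prod_pow]
    have h7 : nm v (st f x) ^ (d - 1) ≤ cn v f ^ (d - 1) * ∏ b ∈ univ.erase b0, nm v (y b) ^ d := by
      have hcard : (univ.erase b0 : Finset (Fin d)).card = d - 1 := by
        rw [Finset.card_erase_of_mem (Finset.mem_univ _)]; simp
      calc nm v (st f x) ^ (d - 1) = ∏ b ∈ univ.erase b0, nm v (st f x) := by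
            rw [Finset.prod_const, hcard]
        _ ≤ ∏ b ∈ univ.erase b0, (cn v f * nm v (y b) ^ d) := by
            refine Finset.prod_le_prod (fun _ _ => nm_nonneg _) fun b _ => ?_
            rw [← hy b]
            exact st_le hv f (y b)
        _ = cn v f ^ (d - 1) * ∏ b ∈ univ.erase b0, nm v (y b) ^ d := by
            rw [Finset.prod_mul_distrib, Finset.prod_const, hcard]
    have hnw : 0 < nm v (st f x) := nm_pos hw0
    have hc := cn_nonneg (v := v) f
    have h8 : v ρ * nm v x ^ d * nm v (st f x) ^ (d - 1) ≤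
        cn v f ^ (2 * d - 1) * nm v (st f x) * nm v (st f x) ^ (d - 1) := by
      have e1 : cn v f ^ (2 * d - 1) = cn v f ^ (d - 1) * cn v f ^ d := by
        rw [← pow_add]; congr 1; omega
      have e2 : nm v (st f x) ^ d = nm v (st f x) * nm v (st f x) ^ (d - 1) := by
        rw [← pow_succ']; congr 1; omega
      calc v ρ * nm v x ^ d * nm v (st f x) ^ (d - 1)
          ≤ v ρ * nm v x ^ d * (cn v f ^ (d - 1) * ∏ b ∈ univ.erase b0, nm v (y b) ^ d) :=
            mul_le_mul_of_nonneg_left h7 (mul_nonneg (v.nonneg _) (pow_nonneg (nm_nonneg _) _))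
        _ = cn v f ^ (d - 1) * (v ρ * (∏ b, nm v (y b)) ^ d) := by rw [h6]; ring
        _ ≤ cn v f ^ (d - 1) * (cn v f ^ d * nm v (st f x) ^ d) :=
            mul_le_mul_of_nonneg_left h5 (pow_nonneg hc _)
        _ = cn v f ^ (2 * d - 1) * nm v (st f x) * nm v (st f x) ^ (d - 1) := by
            rw [e1, e2]; ring
    exact le_of_mul_le_mul_right h8 (pow_pos hnw _)

end Pool.Agent.UMR
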