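import Pool.Agent.UMR.Targets
import Pool.Agent.HGR.BEZ

set_option autoImplicit false

namespace Pool.Agent.UMR

open Finset

namespace BZ_

theorem val_eq {A : Type} [CommRing A] {d : ℕ} (c : Fin (d + 1) → ℤ) (x : A × A) :
    Pool.Agent.HGR.val c x.1 x.2 = fv (fun i => (c i : A)) x := by
  unfold Pool.Agent.HGR.val fv
  refine Finset.sum_congr rfl fun i _ => ?_
  rw [show d + 1 - 1 - (i : ℕ) = d - (i : ℕ) by omega]

theorem maps_eq {d X : ℕ} {f : Pr ℤ d} (hf : f ∈ Maps d X) : f ∈ Pool.Agent.HGR.Maps d X := by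
  refine ⟨hf.1, hf.2.1, fun x y h1 h2 => ?_⟩
  have h := hf.2.2 (x, y) (by
    have e1 := val_eq (A := ℂ) f.1 (x, y)
    have e2 := val_eq (A := ℂ) f.2 (x, y)
    simp only at e1 e2
    unfold st mp
    simp only [Int.coe_castRingHom]
    rw [← e1, ← e2, h1, h2]
    rfl)
  exact ⟨congrArg Prod.fst h, congrArg Prod.snd h⟩

theorem val_int {d : ℕ} (c : Fin (d + 1) → ℤ) (x : ℤ × ℤ) :
    Pool.Agent.HGR.val c x.1 x.2 = fv c x := by
  rw [val_eq]; simp

end BZ_

open BZ_ in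
theorem p_BZ : T_BZ := by
  intro d hd
  obtain ⟨C, hC⟩ := Pool.Agent.HGR.p_BEZ d hd
  refine ⟨2 * C, fun X hX f hf => ?_⟩
  obtain ⟨D, hD0, U, V, U', V', hU, hV, -, -, hid⟩ := hC X hX f (maps_eq hf)
  refine ⟨D, hD0, ?_, ?_⟩
  · -- evaluate at (1, 0)
    have h1 := (hid 1 0).1
    rw [one_pow, mul_one] at h1
    have hval : ∀ {n : ℕ} (c : Fin (n + 1) → ℤ), Pool.Agent.HGR.val c (1 : ℤ) 0 =
        c (Fin.last n) := by
      intro n c
      unfold Pool.Agent.HGR.val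
      rw [Finset.sum_eq_single (Fin.last n)]
      · simp
      · intro i _ hi
        have hlt : (i : ℕ) < n := by
          have := Fin.val_lt_last hi
          exact this
        rw [zero_pow (by omega)]
        simp
      · intro h; exact absurd (Finset.mem_univ _) h
    obtain ⟨e, rfl⟩ : ∃ e, d = e + 1 := ⟨d - 1, by omega⟩
    rw [hval U, hval V, hval f.1, hval f.2] at h1
    rw [h1]
    have hX2 : (X : ℤ) ^ (2 * (e + 1)) = (X : ℤ) ^ (2 * (e + 1) - 1) * X := by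
      rw [← pow_succ]; congr 1
    have b1 : |U (Fin.last e) * f.1 (Fin.last (e + 1))| ≤
        (C : ℤ) * (X : ℤ) ^ (2 * (e + 1) - 1) * X := by
      rw [abs_mul]
      exact mul_le_mul (hU _) (hf.1 _) (abs_nonneg _) (by positivity)
    have b2 : |V (Fin.last e) * f.2 (Fin.last (e + 1))| ≤
        (C : ℤ) * (X : ℤ) ^ (2 * (e + 1) - 1) * X := by
      rw [abs_mul]
      exact mul_le_mul (hV _) (hf.2.1 _) (abs_nonneg _) (by positivity)
    refine le_trans (abs_add_le _ _) ?_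
    rw [hX2]
    push_cast
    linarith
  · intro q x hq h1 h2 hqD
    have hqp : Prime (q : ℤ) := Nat.prime_iff_prime_int.mp hq
    have e1 : (q : ℤ) ∣ Pool.Agent.HGR.val f.1 x.1 x.2 := by rw [val_int]; exact h1
    have e2 : (q : ℤ) ∣ Pool.Agent.HGR.val f.2 x.1 x.2 := by rw [val_int]; exact h2
    obtain ⟨i1, i2⟩ := hid x.1 x.2
    constructor
    · have : (q : ℤ) ∣ D * x.1 ^ (2 * d - 1) := by
        rw [i1]; exact dvd_add (Dvd.dvd.mul_left e1 _) (Dvd.dvd.mul_left e2 _)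
      exact hqp.dvd_of_dvd_pow ((hqp.dvd_or_dvd this).resolve_left hqD)
    · have : (q : ℤ) ∣ D * x.2 ^ (2 * d - 1) := by
        rw [i2]; exact dvd_add (Dvd.dvd.mul_left e1 _) (Dvd.dvd.mul_left e2 _)
      exact hqp.dvd_of_dvd_pow ((hqp.dvd_or_dvd this).resolve_left hqD)

end Pool.Agent.UMR
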