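import Pool.Agent.UMR.Targets

set_option autoImplicit false

namespace Pool.Agent.UMR

open Finset
open scoped BigOperators

theorem CJX_key {K : Type} [Field K] (e₁ e₂ z : K × K) (D : K) (hD : D = wd e₁ e₂) (h0 : D ≠ 0) :
    lin e₁ e₂ (lin (e₂.2 / D, -(e₁.2 / D)) (-(e₂.1 / D), e₁.1 / D) z) = z := by
  unfold wd at hD
  unfold lin
  refine Prod.ext ?_ ?_
  · simp only
    have e : (z.1 * (e₂.2 / D) + z.2 * -(e₂.1 / D)) * e₁.1 +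
        (z.1 * -(e₁.2 / D) + z.2 * (e₁.1 / D)) * e₂.1 = z.1 * (e₁.1 * e₂.2 - e₁.2 * e₂.1) / D := by
      ring
    rw [e, ← hD]
    field_simp
  · simp only
    have e : (z.1 * (e₂.2 / D) + z.2 * -(e₂.1 / D)) * e₁.2 +
        (z.1 * -(e₁.2 / D) + z.2 * (e₁.1 / D)) * e₂.2 = z.2 * (e₁.1 * e₂.2 - e₁.2 * e₂.1) / D := by
      ring
    rw [e, ← hD]
    field_simp

theorem p_CJX (h1 : T_CL) : T_CJX := by
  intro K _ d f e₁ e₂ hD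
  obtain ⟨h, hh⟩ := h1 K d f e₁ e₂ (e₂.2 / wd e₁ e₂, -(e₁.2 / wd e₁ e₂))
    (-(e₂.1 / wd e₁ e₂), e₁.1 / wd e₁ e₂)
  refine ⟨h, fun x => ?_⟩
  rw [hh]
  exact CJX_key e₁ e₂ _ _ rfl hD

end Pool.Agent.UMR
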