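import Pool.Agent.UMR.Targets

set_option autoImplicit false

/-!
# Linear changes on both sides
-/

namespace Pool.Agent.UMR

open Finset

namespace CL_

/-- A linear map as a pair of forms of degree one. -/
def ln {A : Type} [CommRing A] (e₁ e₂ : A × A) : Pr A 1 := (![e₂.1, e₁.1], ![e₂.2, e₁.2])

theorem st_ln {A : Type} [CommRing A] (e₁ e₂ x : A × A) : st (ln e₁ e₂) x = lin e₁ e₂ x := by
  unfold st ln lin fv
  apply Prod.ext
  · simp
    ring
  · simp
    ring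

end CL_

open CL_ in
theorem p_CL (h1 : T_COMP) : T_CL := by
  intro A _ d f e₁ e₂ a₁ a₂
  obtain ⟨h, hh⟩ := h1 A 1 d f (ln e₁ e₂)
  obtain ⟨h', hh'⟩ := h1 A (1 * d) 1 (ln a₁ a₂) h
  have key : ∀ m : ℕ, m = d → (∃ h : Pr A m, ∀ x, st h x = lin a₁ a₂ (st f (lin e₁ e₂ x))) →
      ∃ h : Pr A d, ∀ x, st h x = lin a₁ a₂ (st f (lin e₁ e₂ x)) := by
    rintro m rfl h
    exact h
  refine key (1 * d * 1) (by ring) ⟨h', fun x => ?_⟩
  rw [hh', hh, st_ln, st_ln]

end Pool.Agent.UMR
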