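import Pool.Agent.UMR.Targets

set_option autoImplicit false

/-!
# Infinite subsets with positive Green function
-/

namespace Pool.Agent.UMR

open Finset

namespace CLASS_

variable {K : Type} [Field K]

theorem pair_smul_fst (a : K) (x : K × K) : (a • x).1 = a * x.1 := rfl

theorem pair_smul_snd (a : K) (x : K × K) : (a • x).2 = a * x.2 := rfl

theorem wd_smul (a b : K) (x y : K × K) : wd (a • x) (b • y) = a * b * wd x y := by
  unfold wd
  simp only [pair_smul_fst, pair_smul_snd]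
  ring

theorem ne_zero_of_wd_left {x y : K × K} (h : wd x y ≠ 0) : x ≠ 0 := by
  rintro rfl
  apply h
  unfold wd
  simp

theorem ne_zero_of_wd_right {x y : K × K} (h : wd x y ≠ 0) : y ≠ 0 := by
  rintro rfl
  apply h
  unfold wd
  simp

theorem nm_pos {v : AbsoluteValue K ℝ} {x : K × K} (h : x ≠ 0) : 0 < nm v x := by
  unfold nm
  by_cases h1 : x.1 = 0
  · have h2 : x.2 ≠ 0 := fun h2 => h (Prod.ext h1 h2)
    exact lt_max_of_lt_right (v.pos h2)
  · exact lt_max_of_lt_left (v.pos h1)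

theorem ne_zero_of_nm {v : AbsoluteValue K ℝ} {x : K × K} (h : nm v x = 1) : x ≠ 0 := by
  rintro rfl
  unfold nm at h
  simp at h

theorem fst_le (v : AbsoluteValue K ℝ) (x : K × K) : v x.1 ≤ nm v x := le_max_left _ _

theorem snd_le (v : AbsoluteValue K ℝ) (x : K × K) : v x.2 ≤ nm v x := le_max_right _ _

/-- normalization -/
theorem exists_smul (v : AbsoluteValue K ℝ) {x : K × K} (h : x ≠ 0) :
    ∃ a : K, a ≠ 0 ∧ nm v (a • x) = 1 := by
  rcases le_total (v x.1) (v x.2) with h1 | h1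
  · have h2 : x.2 ≠ 0 := by
      intro h2
      rw [h2, map_zero] at h1
      have h3 : x.1 = 0 := by
        by_contra h4
        exact absurd (v.pos h4) (not_lt.mpr h1)
      exact h (Prod.ext h3 h2)
    refine ⟨x.2⁻¹, inv_ne_zero h2, ?_⟩
    unfold nm
    rw [pair_smul_fst, pair_smul_snd, inv_mul_cancel₀ h2, map_one, map_mul, map_inv₀]
    apply max_eq_right
    rw [inv_mul_le_iff₀ (v.pos h2), mul_one]
    exact h1
  · have h2 : x.1 ≠ 0 := by
      intro h2
      rw [h2, map_zero] at h1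
      have h3 : x.2 = 0 := by
        by_contra h4
        exact absurd (v.pos h4) (not_lt.mpr h1)
      exact h (Prod.ext h2 h3)
    refine ⟨x.1⁻¹, inv_ne_zero h2, ?_⟩
    unfold nm
    rw [pair_smul_fst, pair_smul_snd, inv_mul_cancel₀ h2, map_one, map_mul, map_inv₀]
    apply max_eq_left
    rw [inv_mul_le_iff₀ (v.pos h2), mul_one]
    exact h1

theorem wd_le {v : AbsoluteValue K ℝ} (hv : VV v) (x y : K × K) :
    v (wd x y) ≤ nm v x * nm v y := by
  unfold wd
  rw [sub_eq_add_neg]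
  refine (hv.ultra _ _).trans (max_le ?_ ?_)
  · rw [map_mul]
    exact mul_le_mul (fst_le v x) (snd_le v y) (v.nonneg _) ((v.nonneg _).trans (fst_le v x))
  · rw [map_neg_eq_map, map_mul]
    exact mul_le_mul (snd_le v x) (fst_le v y) (v.nonneg _) ((v.nonneg _).trans (fst_le v x))

/-- Pluecker: the wedge of two vectors which are near to `z` -/
theorem wd_near {v : AbsoluteValue K ℝ} (hv : VV v) {x y z : K × K} (hx : nm v x = 1)
    (hy : nm v y = 1) (hz : nm v z = 1) :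
    v (wd x y) ≤ max (v (wd x z)) (v (wd y z)) := by
  have h1 : v (wd x y * z.1) ≤ max (v (wd x z)) (v (wd y z)) := by
    have e : wd x y * z.1 = wd x z * y.1 + -(wd y z * x.1) := by unfold wd; ring
    rw [e]
    refine (hv.ultra _ _).trans (max_le_max ?_ ?_)
    · rw [map_mul]
      exact mul_le_of_le_one_right (v.nonneg _) (hy ▸ fst_le v y)
    · rw [map_neg_eq_map, map_mul]
      exact mul_le_of_le_one_right (v.nonneg _) (hx ▸ fst_le v x)
  have h2 : v (wd x y * z.2) ≤ max (v (wd x z)) (v (wd y z)) := by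
    have e : wd x y * z.2 = wd x z * y.2 + -(wd y z * x.2) := by unfold wd; ring
    rw [e]
    refine (hv.ultra _ _).trans (max_le_max ?_ ?_)
    · rw [map_mul]
      exact mul_le_of_le_one_right (v.nonneg _) (hy ▸ snd_le v y)
    · rw [map_neg_eq_map, map_mul]
      exact mul_le_of_le_one_right (v.nonneg _) (hx ▸ snd_le v x)
  have h3 := max_choice (v z.1) (v z.2)
  unfold nm at hz
  rw [hz] at h3
  rw [map_mul] at h1 h2
  rcases h3 with h3 | h3
  · rwa [← h3, mul_one] at h1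
  · rwa [← h3, mul_one] at h2

theorem exists_compl (v : AbsoluteValue K ℝ) {z : K × K} (hz : nm v z = 1) :
    ∃ z' : K × K, nm v z' = 1 ∧ v (wd z z') = 1 := by
  have h3 := max_choice (v z.1) (v z.2)
  unfold nm at hz
  rw [hz] at h3
  rcases h3 with h3 | h3
  · refine ⟨(0, 1), ?_, ?_⟩
    · unfold nm; simp
    · unfold wd; simp [← h3]
  · refine ⟨(1, 0), ?_, ?_⟩
    · unfold nm; simp
    · unfold wd; simp [← h3]

theorem lin_ne {e₁ e₂ : K × K} (h : wd e₁ e₂ ≠ 0) {x : K × K} (hx : x ≠ 0) :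
    lin e₁ e₂ x ≠ 0 := by
  intro h0
  have h1 : x.1 * e₁.1 + x.2 * e₂.1 = 0 := congrArg Prod.fst h0
  have h2 : x.1 * e₁.2 + x.2 * e₂.2 = 0 := congrArg Prod.snd h0
  apply hx
  unfold wd at h
  apply Prod.ext
  · apply (mul_eq_zero.mp ?_).resolve_right h
    linear_combination e₂.2 * h1 - e₂.1 * h2
  · apply (mul_eq_zero.mp ?_).resolve_right h
    linear_combination e₁.1 * h2 - e₁.2 * h1

theorem kp_conj {v : AbsoluteValue K ℝ} {d : ℕ} (hd : 2 ≤ d) {ρ w : K} (hρ : ρ ≠ 0)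
    (hw : w ≠ 0) : kp d v (ρ * w ^ (d * (d - 1))) = kp d v ρ - Real.log (v w) := by
  unfold kp
  have h1 : (2 : ℝ) ≤ d := by exact_mod_cast hd
  have h2 : (d : ℝ) * ((d : ℝ) - 1) ≠ 0 := (mul_pos (by linarith) (by linarith)).ne'
  rw [map_mul, map_pow, Real.log_mul (v.pos hρ).ne' (pow_ne_zero _ (v.pos hw).ne'), Real.log_pow]
  have h3 : ((d * (d - 1) : ℕ) : ℝ) = (d : ℝ) * ((d : ℝ) - 1) := by
    rw [Nat.cast_mul, Nat.cast_sub (by omega), Nat.cast_one]
  rw [h3, div_eq_iff h2, sub_mul, div_mul_cancel₀ _ h2]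
  ring

/-- The claim: positivity at one point. -/
theorem claim [IsAlgClosed K] [CharZero K] (h2 : T_CJX) (h3 : T_CONJ) (h4 : T_POS)
    (v : AbsoluteValue K ℝ) (d : ℕ) (f : Pr K d) (ρ : K) (H : K × K → ℝ) (C c : ℝ)
    (hL : LD v f ρ H C)
    (hc : ∀ (e₁ e₂ : K × K) (f' : Pr K d), wd e₁ e₂ ≠ 0 → Cj f f' e₁ e₂ →
      c ≤ kp d v (ρ * wd e₁ e₂ ^ (d * (d - 1))) + 2 / (d - 1) * Real.log (cn v f'))
    (z : K × K) (hz : nm v z = 1) (a : K) (ha : a ≠ 0) (ha1 : v a ≤ 1) (b : ℝ)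
    (hb : ∀ y : K × K, y ≠ 0 → nm v y ≤ 1 → v (wd y z) ≤ v a → H y ≤ b) :
    c / 16 ≤ kp d v ρ - Real.log (v a) + 2 * b := by
  obtain ⟨z', hz', hzz⟩ := exists_compl v hz
  have hzz0 : wd z z' ≠ 0 := by
    intro h
    rw [h, map_zero] at hzz
    exact zero_ne_one hzz
  have hwe : wd z (a • z') = a * wd z z' := by
    have := wd_smul 1 a z z'
    rwa [one_smul, one_mul] at this
  have hw0 : wd z (a • z') ≠ 0 := by
    rw [hwe]
    exact mul_ne_zero ha hzz0
  have hvw : v (wd z (a • z')) = v a := by rw [hwe, map_mul, hzz, mul_one]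
  obtain ⟨f', hf'⟩ := h2 K d f z (a • z') hw0
  obtain ⟨C', hL'⟩ := h3 K v d f f' ρ H C z (a • z') hL hw0 hf'
  have hp := h4 K v d f' _ _ C' hL'
  have hq := hc z (a • z') f' hw0 hf'
  have hk := kp_conj (v := v) hL.ag.hd hL.ag.ne hw0
  rw [hvw] at hk
  have hG : GG v (fun x => H (lin z (a • z') x)) ≤ b := by
    unfold GG
    apply csSup_le
    · exact ⟨_, (1, 0), by simp, by unfold nm; simp, rfl⟩
    · rintro r ⟨x, hx, hx1, rfl⟩
      have hx1' : v x.1 ≤ 1 := (fst_le v x).trans hx1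
      have hx2' : v x.2 ≤ 1 := (snd_le v x).trans hx1
      have m1 : ∀ s t : K, v s ≤ 1 → v t ≤ 1 → v (s * t) ≤ 1 := fun s t hs ht => by
        rw [map_mul]
        exact mul_le_one₀ hs (v.nonneg _) ht
      apply hb _ (lin_ne hw0 hx)
      · unfold nm lin
        apply max_le
        · refine (hL.vv.ultra _ _).trans (max_le (m1 _ _ hx1' (hz ▸ fst_le v z)) ?_)
          exact m1 _ _ hx2' (m1 _ _ ha1 (hz' ▸ fst_le v z'))
        · refine (hL.vv.ultra _ _).trans (max_le (m1 _ _ hx1' (hz ▸ snd_le v z)) ?_)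
          exact m1 _ _ hx2' (m1 _ _ ha1 (hz' ▸ snd_le v z'))
      · have e : wd (lin z (a • z') x) z = -(x.2 * (a * wd z z')) := by
          unfold wd lin
          simp only [pair_smul_fst, pair_smul_snd]
          ring
        rw [e, map_neg_eq_map, map_mul, map_mul, hzz, mul_one]
        exact mul_le_of_le_one_left (v.nonneg _) hx2'
  rw [hk] at hp hq
  linarith

/-- the theorem for normalized vectors -/
theorem normalized [IsAlgClosed K] [CharZero K] (h1 : T_ETA) (h2 : T_CJX) (h3 : T_CONJ)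
    (h4 : T_POS)
    (v : AbsoluteValue K ℝ) (d : ℕ) (f : Pr K d) (ρ : K) (H : K × K → ℝ) (C c : ℝ)
    (hL : LD v f ρ H C) (hc0 : 0 < c)
    (hc : ∀ (e₁ e₂ : K × K) (f' : Pr K d), wd e₁ e₂ ≠ 0 → Cj f f' e₁ e₂ →
      c ≤ kp d v (ρ * wd e₁ e₂ ^ (d * (d - 1))) + 2 / (d - 1) * Real.log (cn v f'))
    (x : ℕ → K × K) (hx : ∀ n m, n ≠ m → wd (x n) (x m) ≠ 0) (hx1 : ∀ n, nm v (x n) = 1) :
    ∃ T : Set ℕ, T.Infinite ∧
      ∀ n ∈ T, ∀ m ∈ T, n ≠ m → c / 64 ≤ gg d v ρ H (x n) (x m) := by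
  have hd : (2 : ℝ) ≤ d := by exact_mod_cast hL.ag.hd
  -- choice of `k`
  obtain ⟨k, hk⟩ : ∃ k : ℕ, C / d ^ k ≤ c / 1000 := by
    obtain ⟨k, hk⟩ := pow_unbounded_of_one_lt (C * 1000 / c) (by linarith : (1 : ℝ) < d)
    refine ⟨k, ?_⟩
    have hdk : (0 : ℝ) < (d : ℝ) ^ k := by positivity
    rw [div_le_iff₀ hdk]
    rw [div_lt_iff₀ hc0] at hk
    linarith
  obtain ⟨Z, η, hZne, hZ1, hnear, hup, hmono, hbelow⟩ := h1 K v d f ρ H C hL k
  set δ : ℝ := C / d ^ k with hδ
  -- nearest points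
  have hex : ∀ n, ∃ z ∈ Z, ∀ z' ∈ Z, v (wd (x n) z) ≤ v (wd (x n) z') := fun n =>
    Finset.exists_min_image Z (fun z => v (wd (x n) z)) hZne
  choose zn hznZ hznmin using hex
  -- pigeonhole
  obtain ⟨z, hz⟩ : ∃ z : Z, (((fun n => (⟨zn n, hznZ n⟩ : Z)) ⁻¹' {z}) : Set ℕ).Infinite := by
    obtain ⟨z, hz⟩ := Finite.exists_infinite_fiber (fun n => (⟨zn n, hznZ n⟩ : Z))
    exact ⟨z, Set.infinite_coe_iff.mp hz⟩
  obtain ⟨z, hzZ⟩ := z
  have hz1 := hZ1 z hzZ
  set T0 : Set ℕ := {n | zn n = z ∧ wd (x n) z ≠ 0} with hT0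
  have hT0inf : T0.Infinite := by
    have hsub : ((fun n => (⟨zn n, hznZ n⟩ : Z)) ⁻¹' {⟨z, hzZ⟩}) ⊆
        T0 ∪ {n | zn n = z ∧ wd (x n) z = 0} := by
      intro n hn
      have hn' : zn n = z := congrArg Subtype.val (Set.mem_singleton_iff.mp hn)
      by_cases h0 : wd (x n) z = 0
      · exact Or.inr ⟨hn', h0⟩
      · exact Or.inl ⟨hn', h0⟩
    have hfin : {n | zn n = z ∧ wd (x n) z = 0}.Finite := by
      apply Set.Subsingleton.finite
      intro n hn m hm
      by_contra hne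
      have h5 := wd_near hL.vv (hx1 n) (hx1 m) hz1
      rw [hn.2, hm.2, map_zero, max_self] at h5
      exact absurd (v.pos (hx n m hne)) (not_lt.mpr h5)
    intro hfin'
    exact (hz.mono hsub) (hfin'.union hfin)
  obtain ⟨b, hb⟩ := hbelow z hzZ
  set r : ℕ → ℝ := fun n => v (wd (x n) z) with hr
  have hrpos : ∀ n ∈ T0, 0 < r n := fun n hn => v.pos hn.2
  have hr1 : ∀ n, r n ≤ 1 := fun n => by
    have := wd_le hL.vv (x n) z
    rwa [hx1 n, hz1, mul_one] at this
  have hHr : ∀ n ∈ T0, |H (x n) - η z (r n)| ≤ δ := by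
    intro n hn
    apply hnear (x n) (hx1 n) z hzZ _ hn.2
    intro z' hz'
    have := hznmin n z' hz'
    rwa [hn.1] at this
  have hclaim : ∀ n ∈ T0, c / 16 ≤ kp d v ρ - Real.log (r n) + 2 * (η z (r n) + δ) := by
    intro n hn
    refine claim h2 h3 h4 v d f ρ H C c hL hc z hz1 (wd (x n) z) hn.2 (hr1 n) _ ?_
    intro y hy hy1 hyz
    exact hup z hzZ y (r n) (hrpos n hn) hy hy1 hyz
  -- the basic inequality
  have hgg : ∀ n ∈ T0, ∀ m ∈ T0, n ≠ m → r m ≤ r n →
      - Real.log (r n) + η z (r n) + η z (r m) - 2 * δ + kp d v ρ ≤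
        gg d v ρ H (x n) (x m) := by
    intro n hn m hm hne hle
    have h5 := wd_near hL.vv (hx1 n) (hx1 m) hz1
    have h6 : v (wd (x n) (x m)) ≤ r n := h5.trans (max_le le_rfl hle)
    have h7 := Real.log_le_log (v.pos (hx n m hne)) h6
    have h8 := (abs_le.mp (hHr n hn)).1
    have h9 := (abs_le.mp (hHr m hm)).1
    unfold gg
    linarith
  have hsymm : ∀ n m, gg d v ρ H (x n) (x m) = gg d v ρ H (x m) (x n) := by
    intro n m
    unfold gg
    have e : wd (x n) (x m) = -wd (x m) (x n) := by unfold wd; ring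
    rw [e, map_neg_eq_map]
    ring
  set B : ℝ := c - 2 * b - kp d v ρ + 2 * δ with hB
  by_cases hcase : {n ∈ T0 | B ≤ - Real.log (r n)}.Infinite
  · refine ⟨_, hcase, ?_⟩
    have key : ∀ n ∈ T0, ∀ m ∈ T0, n ≠ m → B ≤ - Real.log (r n) → r m ≤ r n →
        c / 64 ≤ gg d v ρ H (x n) (x m) := by
      intro n hn m hm hne hBn hle
      have h5 := hgg n hn m hm hne hle
      have h6 := hb (r n) (hrpos n hn)
      have h7 := hb (r m) (hrpos m hm)
      linarith
    rintro n ⟨hn, hBn⟩ m ⟨hm, hBm⟩ hne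
    rcases le_total (r m) (r n) with hle | hle
    · exact key n hn m hm hne hBn hle
    · rw [hsymm]
      exact key m hm n hn hne.symm hBm hle
  · rw [Set.not_infinite] at hcase
    set T2 : Set ℕ := {n ∈ T0 | - Real.log (r n) < B} with hT2
    have hT2inf : T2.Infinite := by
      have hsub : T0 ⊆ T2 ∪ {n ∈ T0 | B ≤ - Real.log (r n)} := by
        intro n hn
        rcases lt_or_ge (- Real.log (r n)) B with h | h
        · exact Or.inl ⟨hn, h⟩
        · exact Or.inr ⟨hn, h⟩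
      intro hfin
      exact (hT0inf.mono hsub) (hfin.union hcase)
    -- pigeonhole on intervals
    have hinf : Infinite T2 := hT2inf.to_subtype
    set q : ℕ → ℕ := fun n => ⌊- Real.log (r n) * 100 / c⌋₊ with hq
    have hqb : ∀ n ∈ T2, q n < ⌊B * 100 / c⌋₊ + 1 := by
      intro n hn
      apply Nat.lt_succ_of_le
      apply Nat.floor_le_floor
      apply div_le_div_of_nonneg_right _ hc0.le
      linarith [hn.2]
    obtain ⟨j, hj⟩ := Finite.exists_infinite_fiber
      (fun n : T2 => (⟨q n, hqb n n.2⟩ : Fin (⌊B * 100 / c⌋₊ + 1)))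
    refine ⟨Subtype.val '' ((fun n : T2 => (⟨q n, hqb n n.2⟩ : Fin (⌊B * 100 / c⌋₊ + 1))) ⁻¹' {j}),
      ?_, ?_⟩
    · exact (Set.infinite_coe_iff.mp hj).image Subtype.val_injective.injOn
    · have key : ∀ n ∈ T0, ∀ m ∈ T0, n ≠ m → q n = q m → r m ≤ r n →
          c / 64 ≤ gg d v ρ H (x n) (x m) := by
        intro n hn m hm hne hqq hle
        have h5 := hgg n hn m hm hne hle
        have h6 := (hmono z hzZ (r m) (r n) (hrpos m hm) hle).2
        have h7 := hclaim n hn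
        have hlog1 : 0 ≤ - Real.log (r n) := by
          have := Real.log_nonpos (hrpos n hn).le (hr1 n)
          linarith
        have hlog2 : 0 ≤ - Real.log (r m) := by
          have := Real.log_nonpos (hrpos m hm).le (hr1 m)
          linarith
        have h8 : (q n : ℝ) ≤ - Real.log (r n) * 100 / c := Nat.floor_le (by positivity)
        have h9 : - Real.log (r m) * 100 / c < (q m : ℝ) + 1 := Nat.lt_floor_add_one _
        have h10 : (q n : ℝ) = q m := by rw [hqq]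
        rw [le_div_iff₀ hc0] at h8
        rw [div_lt_iff₀ hc0] at h9
        rw [h10] at h8
        have h11 : Real.log (r n) - Real.log (r m) ≤ c / 100 := by linarith
        linarith
      rintro n ⟨⟨n, hn⟩, hn1, rfl⟩ m ⟨⟨m, hm⟩, hm1, rfl⟩ hne
      have e1 : q n = j := congrArg Fin.val (Set.mem_singleton_iff.mp hn1)
      have e2 : q m = j := congrArg Fin.val (Set.mem_singleton_iff.mp hm1)
      simp only at hne ⊢
      rcases le_total (r m) (r n) with hle | hle
      · exact key n hn.1 m hm.1 hne (e1.trans e2.symm) hle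
      · rw [hsymm]
        exact key m hm.1 n hn.1 hne.symm (e2.trans e1.symm) hle

end CLASS_

open CLASS_ in
theorem p_CLASS (h1 : T_ETA) (h2 : T_CJX) (h3 : T_CONJ) (h4 : T_POS) : T_CLASS := by
  intro K _ _ _ v d f ρ H C c hL hc0 hc x hx
  have hx0 : ∀ n, x n ≠ 0 := fun n => ne_zero_of_wd_left (hx n (n + 1) (by omega))
  choose a ha hax using fun n => exists_smul v (hx0 n)
  obtain ⟨T, hT, hTg⟩ := normalized h1 h2 h3 h4 v d f ρ H C c hL hc0 hc (fun n => a n • x n)
    (fun n m hne => by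
      rw [wd_smul]
      exact mul_ne_zero (mul_ne_zero (ha n) (ha m)) (hx n m hne)) hax
  refine ⟨T, hT, ?_⟩
  intro n hn m hm hne
  refine (hTg n hn m hm hne).trans (le_of_eq ?_)
  unfold gg
  rw [wd_smul, hL.hom _ _ (ha n) (hx0 n), hL.hom _ _ (ha m) (hx0 m), map_mul, map_mul,
    Real.log_mul (mul_ne_zero (v.pos (ha n)).ne' (v.pos (ha m)).ne') (v.pos (hx n m hne)).ne',
    Real.log_mul (v.pos (ha n)).ne' (v.pos (ha m)).ne']
  ring

end Pool.Agent.UMR
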