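import Pool.Agent.UMR.Targets

set_option autoImplicit false
set_option maxHeartbeats 4000000

namespace Pool.Agent.UMR

open Finset
open scoped BigOperators

namespace CONJ_

variable {K : Type} [Field K]

/-- the inverse of `lin e₁ e₂` -/
def inv (e₁ e₂ x : K × K) : K × K :=
  ((x.1 * e₂.2 - x.2 * e₂.1) / wd e₁ e₂, (x.2 * e₁.1 - x.1 * e₁.2) / wd e₁ e₂)

lemma lin_inv (e₁ e₂ : K × K) (h : wd e₁ e₂ ≠ 0) (x : K × K) :
    lin e₁ e₂ (inv e₁ e₂ x) = x := by
  unfold lin inv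
  ext
  · simp only
    field_simp
    unfold wd
    ring
  · simp only
    field_simp
    unfold wd
    ring

lemma wd_lin (e₁ e₂ x y : K × K) :
    wd (lin e₁ e₂ x) (lin e₁ e₂ y) = wd e₁ e₂ * wd x y := by
  unfold wd lin
  ring

lemma lin_inj (e₁ e₂ : K × K) (h : wd e₁ e₂ ≠ 0) {x y : K × K}
    (hxy : lin e₁ e₂ x = lin e₁ e₂ y) : x = y := by
  have h1 : x.1 * e₁.1 + x.2 * e₂.1 = y.1 * e₁.1 + y.2 * e₂.1 := congrArg Prod.fst hxy
  have h2 : x.1 * e₁.2 + x.2 * e₂.2 = y.1 * e₁.2 + y.2 * e₂.2 := congrArg Prod.snd hxy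
  have e1 : wd e₁ e₂ * (x.1 - y.1) = 0 := by
    unfold wd
    linear_combination e₂.2 * h1 - e₂.1 * h2
  have e2 : wd e₁ e₂ * (x.2 - y.2) = 0 := by
    unfold wd
    linear_combination e₁.1 * h2 - e₁.2 * h1
  ext
  · exact sub_eq_zero.1 ((mul_eq_zero.1 e1).resolve_left h)
  · exact sub_eq_zero.1 ((mul_eq_zero.1 e2).resolve_left h)

lemma lin_zero (e₁ e₂ : K × K) : lin e₁ e₂ 0 = 0 := by
  unfold lin
  simp

lemma lin_ne (e₁ e₂ : K × K) (h : wd e₁ e₂ ≠ 0) {x : K × K} (hx : x ≠ 0) :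
    lin e₁ e₂ x ≠ 0 := fun h0 => hx (lin_inj e₁ e₂ h (h0.trans (lin_zero e₁ e₂).symm))

lemma lin_smul (e₁ e₂ : K × K) (c : K) (x : K × K) :
    lin e₁ e₂ (c • x) = c • lin e₁ e₂ x := by
  unfold lin
  ext
  · simp only [Prod.smul_fst, Prod.smul_snd, smul_eq_mul]
    ring
  · simp only [Prod.smul_fst, Prod.smul_snd, smul_eq_mul]
    ring

lemma nm_pos (v : AbsoluteValue K ℝ) {x : K × K} (hx : x ≠ 0) : 0 < nm v x := by
  unfold nm
  by_cases h1 : x.1 = 0
  · have h2 : x.2 ≠ 0 := fun h2 => hx (Prod.ext h1 h2)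
    exact lt_max_of_lt_right (v.pos h2)
  · exact lt_max_of_lt_left (v.pos h1)

lemma nm_nonneg (v : AbsoluteValue K ℝ) (x : K × K) : 0 ≤ nm v x :=
  le_max_of_le_left (v.nonneg _)

lemma bnd (v : AbsoluteValue K ℝ) (hu : ∀ x y, v (x + y) ≤ max (v x) (v y)) (a b s t : K)
    (A B : ℝ) (ha : v a ≤ A) (hb : v b ≤ A) (hs : v s ≤ B) (ht : v t ≤ B) :
    v (s * a + t * b) ≤ A * B := by
  have hA : 0 ≤ A := (v.nonneg _).trans ha
  have hB : 0 ≤ B := (v.nonneg _).trans hs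
  refine (hu _ _).trans (max_le ?_ ?_)
  · rw [map_mul, mul_comm]
    exact mul_le_mul ha hs (v.nonneg _) hA
  · rw [map_mul, mul_comm]
    exact mul_le_mul hb ht (v.nonneg _) hA

lemma nm_lin_le (v : AbsoluteValue K ℝ) (hu : ∀ x y, v (x + y) ≤ max (v x) (v y))
    (e₁ e₂ x : K × K) : nm v (lin e₁ e₂ x) ≤ max (nm v e₁) (nm v e₂) * nm v x := by
  unfold lin
  refine max_le ?_ ?_
  · exact bnd v hu _ _ _ _ _ _ ((le_max_left _ _).trans (le_max_left _ _))
      ((le_max_left _ _).trans (le_max_right _ _)) (le_max_left _ _) (le_max_right _ _)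
  · exact bnd v hu _ _ _ _ _ _ ((le_max_right _ _).trans (le_max_left _ _))
      ((le_max_right _ _).trans (le_max_right _ _)) (le_max_left _ _) (le_max_right _ _)

lemma nm_le_lin (v : AbsoluteValue K ℝ) (hu : ∀ x y, v (x + y) ≤ max (v x) (v y))
    (e₁ e₂ : K × K) (h : wd e₁ e₂ ≠ 0) (x : K × K) :
    v (wd e₁ e₂) * nm v x ≤ max (nm v e₁) (nm v e₂) * nm v (lin e₁ e₂ x) := by
  set y := lin e₁ e₂ x with hy
  have hy1 : y.1 = x.1 * e₁.1 + x.2 * e₂.1 := rfl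
  have hy2 : y.2 = x.1 * e₁.2 + x.2 * e₂.2 := rfl
  have e1 : wd e₁ e₂ * x.1 = y.1 * e₂.2 + y.2 * (-e₂.1) := by
    rw [hy1, hy2]
    unfold wd
    ring
  have e2 : wd e₁ e₂ * x.2 = y.2 * e₁.1 + y.1 * (-e₁.2) := by
    rw [hy1, hy2]
    unfold wd
    ring
  have hmul : v (wd e₁ e₂) * nm v x = max (v (wd e₁ e₂) * v x.1) (v (wd e₁ e₂) * v x.2) := by
    unfold nm
    rw [mul_max_of_nonneg _ _ (v.nonneg _)]
  rw [hmul, ← map_mul, ← map_mul, e1, e2]
  refine max_le ?_ ?_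
  · refine bnd v hu _ _ _ _ _ _ ((le_max_right _ _).trans (le_max_right _ _)) ?_
      (le_max_left _ _) (le_max_right _ _)
    rw [v.map_neg]
    exact (le_max_left _ _).trans (le_max_right _ _)
  · refine bnd v hu _ _ _ _ _ _ ((le_max_left _ _).trans (le_max_left _ _)) ?_
      (le_max_right _ _) (le_max_left _ _)
    rw [v.map_neg]
    exact (le_max_right _ _).trans (le_max_left _ _)

end CONJ_

open CONJ_ in
theorem p_CONJ : T_CONJ := by
  intro K _ _ v d f f' ρ H C e₁ e₂ hL hδ hC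
  set δ := wd e₁ e₂ with hδdef
  set c := max (nm v e₁) (nm v e₂) with hc
  have hvδ : 0 < v δ := v.pos hδ
  have he1 : e₁ ≠ 0 := by
    rintro rfl
    apply hδ
    rw [hδdef]
    unfold wd
    simp
  have hcpos : 0 < c := lt_max_of_lt_left (nm_pos v he1)
  have hu := hL.vv.ultra
  refine ⟨C + (|Real.log c| + |Real.log (c / v δ)|), hL.vv, ⟨hL.ag.hd, ?_, ?_⟩, ?_, ?_, ?_⟩
  · exact mul_ne_zero hL.ag.ne (pow_ne_zero _ hδ)
  · intro w hw
    obtain ⟨γ, y, hγ, hy, hx⟩ := hL.ag.gam (lin e₁ e₂ w) (lin_ne e₁ e₂ hδ hw)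
    refine ⟨γ * δ ^ (d - 1), fun b => inv e₁ e₂ (y b), ?_, ?_, ?_⟩
    · rw [mul_pow, hγ, ← pow_mul, mul_comm (d - 1) d]
    · intro b
      apply lin_inj e₁ e₂ hδ
      rw [hC, lin_inv e₁ e₂ hδ, hy]
    · intro x
      have h1 : δ * wd (st f' x) w = δ * (γ * δ ^ (d - 1) * ∏ b, wd x (inv e₁ e₂ (y b))) := by
        have h2 : δ * wd (st f' x) w = wd (st f (lin e₁ e₂ x)) (lin e₁ e₂ w) := by
          rw [hδdef, ← wd_lin, hC]
        have h3 : ∀ b, wd (lin e₁ e₂ x) (y b) = δ * wd x (inv e₁ e₂ (y b)) := by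
          intro b
          rw [hδdef, ← wd_lin, lin_inv e₁ e₂ hδ]
        rw [h2, hx]
        simp only [h3]
        rw [Finset.prod_mul_distrib, Finset.prod_const, Finset.card_univ, Fintype.card_fin]
        have h4 : δ ^ d = δ * δ ^ (d - 1) := by
          rw [← pow_succ']
          congr 1
          have := hL.ag.hd
          omega
        rw [h4]
        ring
      exact mul_left_cancel₀ hδ h1
  · intro x hx
    show H (lin e₁ e₂ (st f' x)) = d * H (lin e₁ e₂ x)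
    rw [hC]
    exact hL.fe _ (lin_ne e₁ e₂ hδ hx)
  · intro x hx
    have hMx := lin_ne e₁ e₂ hδ hx
    have h1 := hL.near _ hMx
    have hp1 := nm_pos v hx
    have hp2 := nm_pos v hMx
    have h2 : Real.log (nm v (lin e₁ e₂ x)) ≤ Real.log c + Real.log (nm v x) := by
      rw [← Real.log_mul hcpos.ne' hp1.ne']
      exact Real.log_le_log hp2 (nm_lin_le v hu e₁ e₂ x)
    have h3 : Real.log (nm v x) ≤ Real.log (c / v δ) + Real.log (nm v (lin e₁ e₂ x)) := by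
      have h3a : 0 < c / v δ := div_pos hcpos hvδ
      rw [← Real.log_mul h3a.ne' hp2.ne']
      apply Real.log_le_log hp1
      rw [div_mul_eq_mul_div, le_div_iff₀ hvδ, mul_comm (nm v x)]
      exact nm_le_lin v hu e₁ e₂ hδ x
    have h4 := le_abs_self (Real.log c)
    have h5 := le_abs_self (Real.log (c / v δ))
    have h6 := abs_nonneg (Real.log c)
    have h7 := abs_nonneg (Real.log (c / v δ))
    rw [abs_le] at h1 ⊢
    constructor
    · show -(C + (|Real.log c| + |Real.log (c / v δ)|)) ≤ H (lin e₁ e₂ x) - Real.log (nm v x)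
      linarith [h1.1, h1.2]
    · show H (lin e₁ e₂ x) - Real.log (nm v x) ≤ C + (|Real.log c| + |Real.log (c / v δ)|)
      linarith [h1.1, h1.2]
  · intro c' x hc' hx
    show H (lin e₁ e₂ (c' • x)) = H (lin e₁ e₂ x) + Real.log (v c')
    rw [lin_smul]
    exact hL.hom _ _ hc' (lin_ne e₁ e₂ hδ hx)

end Pool.Agent.UMR
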