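import Pool.Agent.UMR.Targets

set_option autoImplicit false

/-!
# UMR-CONJQ: from cross-ratios to conjugacy
-/

namespace Pool.Agent.UMR

namespace CONJQ_

open Polynomial

/-! ### naturality -/

lemma map_fv {A B : Type} [CommRing A] [CommRing B] (φ : A →+* B) {n : ℕ} (c : Fin (n + 1) → A)
    (x : A × A) : φ (fv c x) = fv (fun i => φ (c i)) (mv φ x) := by
  unfold fv mv
  rw [map_sum]
  refine Finset.sum_congr rfl fun i _ => ?_
  rw [map_mul, map_mul, map_pow, map_pow]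

lemma mv_st {A B : Type} [CommRing A] [CommRing B] (φ : A →+* B) {d : ℕ} (f : Pr A d)
    (x : A × A) : mv φ (st f x) = st (mp φ f) (mv φ x) :=
  Prod.ext (map_fv φ f.1 x) (map_fv φ f.2 x)

lemma mv_lin {A B : Type} [CommRing A] [CommRing B] (φ : A →+* B) (e₁ e₂ x : A × A) :
    mv φ (lin e₁ e₂ x) = lin (mv φ e₁) (mv φ e₂) (mv φ x) := by
  unfold mv lin
  simp only [map_add, map_mul]

lemma map_wd {A B : Type} [CommRing A] [CommRing B] (φ : A →+* B) (x y : A × A) :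
    φ (wd x y) = wd (mv φ x) (mv φ y) := by
  unfold wd mv
  simp only [map_sub, map_mul]

/-! ### homogeneity -/

lemma fv_smul {A : Type} [CommRing A] {n : ℕ} (c : Fin (n + 1) → A) (s : A) (x : A × A) :
    fv c (s • x) = s ^ n * fv c x := by
  unfold fv
  rw [Finset.mul_sum]
  refine Finset.sum_congr rfl fun i _ => ?_
  have h1 : s ^ n = s ^ (i : ℕ) * s ^ (n - (i : ℕ)) := by
    rw [← pow_add]
    congr 1
    have := i.2
    omega
  rw [h1, Prod.smul_fst, Prod.smul_snd, smul_eq_mul, smul_eq_mul, mul_pow, mul_pow]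
  ring

lemma st_smul {A : Type} [CommRing A] {d : ℕ} (f : Pr A d) (s : A) (x : A × A) :
    st f (s • x) = s ^ d • st f x :=
  Prod.ext (fv_smul f.1 s x) (fv_smul f.2 s x)

lemma lin_smul {A : Type} [CommRing A] (e₁ e₂ : A × A) (s : A) (x : A × A) :
    lin e₁ e₂ (s • x) = s • lin e₁ e₂ x := by
  unfold lin
  refine Prod.ext ?_ ?_
  · simp only [Prod.smul_fst, Prod.smul_snd, smul_eq_mul]
    ring
  · simp only [Prod.smul_fst, Prod.smul_snd, smul_eq_mul]
    ring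

lemma wd_smul {A : Type} [CommRing A] (s t : A) (x y : A × A) :
    wd (s • x) (t • y) = s * t * wd x y := by
  unfold wd
  simp only [Prod.smul_fst, Prod.smul_snd, smul_eq_mul]
  ring

lemma wd_self {A : Type} [CommRing A] (x : A × A) : wd x x = 0 := by
  unfold wd
  ring

lemma prop_of_wd {K : Type} [Field K] (a b : K × K) (h : wd a b = 0) (hb : b ≠ 0) :
    ∃ t : K, a = t • b := by
  unfold wd at h
  by_cases h1 : b.1 = 0
  · have h2 : b.2 ≠ 0 := fun h2 => hb (Prod.ext h1 h2)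
    refine ⟨a.2 / b.2, Prod.ext ?_ ?_⟩
    · rw [h1, mul_zero, sub_zero] at h
      rw [Prod.smul_fst, h1, smul_zero]
      exact (mul_eq_zero.1 h).resolve_right h2
    · rw [Prod.smul_snd, smul_eq_mul, div_mul_cancel₀ _ h2]
  · refine ⟨a.1 / b.1, Prod.ext ?_ ?_⟩
    · rw [Prod.smul_fst, smul_eq_mul, div_mul_cancel₀ _ h1]
    · rw [Prod.smul_snd, smul_eq_mul]
      field_simp
      linear_combination -h

lemma lin_eq_zero {K : Type} [Field K] (e₁ e₂ x : K × K) (he : wd e₁ e₂ ≠ 0)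
    (h : lin e₁ e₂ x = 0) : x = 0 := by
  have h1 : x.1 * e₁.1 + x.2 * e₂.1 = 0 := (Prod.ext_iff.1 h).1
  have h2 : x.1 * e₁.2 + x.2 * e₂.2 = 0 := (Prod.ext_iff.1 h).2
  have h3 : x.1 * wd e₁ e₂ = 0 := by
    unfold wd
    linear_combination e₂.2 * h1 - e₂.1 * h2
  have h4 : x.2 * wd e₁ e₂ = 0 := by
    unfold wd
    linear_combination e₁.1 * h2 - e₁.2 * h1
  exact Prod.ext ((mul_eq_zero.1 h3).resolve_right he) ((mul_eq_zero.1 h4).resolve_right he)

/-! ### the linear map -/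

/-- The linear map that sends the first points of the second orbit to those of the first. -/
lemma exists_lin (N : ℕ) (X Y : ℕ → ℚ × ℚ) (hN : 3 ≤ N)
    (hX : ∀ n m, n < N → m < N → n ≠ m → wd (X n) (X m) ≠ 0)
    (hY : ∀ n m, n < N → m < N → n ≠ m → wd (Y n) (Y m) ≠ 0) (hc : CRel X Y N) :
    ∃ e₁ e₂ : ℚ × ℚ, wd e₁ e₂ ≠ 0 ∧ ∀ n, n < N → wd (lin e₁ e₂ (Y n)) (X n) = 0 := by
  set α := wd (Y 0) (Y 2) * wd (X 1) (X 2) with hα
  set β := wd (Y 1) (Y 2) * wd (X 0) (X 2) with hβ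
  have hα0 : α ≠ 0 := mul_ne_zero (hY 0 2 (by omega) (by omega) (by omega))
    (hX 1 2 (by omega) (by omega) (by omega))
  have hβ0 : β ≠ 0 := mul_ne_zero (hY 1 2 (by omega) (by omega) (by omega))
    (hX 0 2 (by omega) (by omega) (by omega))
  have hX01 : wd (X 0) (X 1) ≠ 0 := hX 0 1 (by omega) (by omega) (by omega)
  have hY01 : wd (Y 0) (Y 1) ≠ 0 := hY 0 1 (by omega) (by omega) (by omega)
  set e₁ : ℚ × ℚ := (α * (Y 1).2 * (X 0).1 - β * (Y 0).2 * (X 1).1,
    α * (Y 1).2 * (X 0).2 - β * (Y 0).2 * (X 1).2) with he₁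
  set e₂ : ℚ × ℚ := (-(α * (Y 1).1 * (X 0).1) + β * (Y 0).1 * (X 1).1,
    -(α * (Y 1).1 * (X 0).2) + β * (Y 0).1 * (X 1).2) with he₂
  refine ⟨e₁, e₂, ?_, ?_⟩
  · have h1 : wd e₁ e₂ = α * β * (wd (X 0) (X 1) * wd (Y 0) (Y 1)) := by
      simp only [he₁, he₂, wd]
      ring
    rw [h1]
    exact mul_ne_zero (mul_ne_zero hα0 hβ0) (mul_ne_zero hX01 hY01)
  · intro n hn
    have h1 : wd (lin e₁ e₂ (Y n)) (X n) =
        α * wd (Y n) (Y 1) * wd (X 0) (X n) + β * wd (Y 0) (Y n) * wd (X 1) (X n) := by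
      simp only [he₁, he₂, wd, lin]
      ring
    rw [h1, hα, hβ]
    have h2 := hc 2 1 0 n (by omega) (by omega) (by omega) hn
    have anti : ∀ a b : ℚ × ℚ, wd a b = - wd b a := by
      intro a b
      unfold wd
      ring
    rw [anti (X 2) (X 1), anti (Y 2) (Y 0), anti (Y 2) (Y 1), anti (X 2) (X 0)] at h2
    rw [anti (Y n) (Y 1)]
    linear_combination -h2

/-! ### degrees -/

lemma natDegree_fv {n : ℕ} (c : Fin (n + 1) → ℚ) (u : ℚ[X] × ℚ[X]) (h1 : u.1.natDegree ≤ 1)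
    (h2 : u.2.natDegree ≤ 1) : (fv (fun i => C (c i)) u).natDegree ≤ n := by
  unfold fv
  refine natDegree_sum_le_of_forall_le _ _ fun i _ => ?_
  have h3 : (u.1 ^ (i : ℕ)).natDegree ≤ (i : ℕ) := by
    refine le_trans natDegree_pow_le ?_
    calc (i : ℕ) * u.1.natDegree ≤ (i : ℕ) * 1 := Nat.mul_le_mul_left _ h1
      _ = i := mul_one _
  have h4 : (u.2 ^ (n - (i : ℕ))).natDegree ≤ n - (i : ℕ) := by
    refine le_trans natDegree_pow_le ?_
    calc (n - (i : ℕ)) * u.2.natDegree ≤ (n - (i : ℕ)) * 1 := Nat.mul_le_mul_left _ h2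
      _ = _ := mul_one _
  have h5 : (C (c i) * u.1 ^ (i : ℕ)).natDegree ≤ (i : ℕ) := by
    refine le_trans natDegree_mul_le ?_
    rw [natDegree_C, zero_add]
    exact h3
  have h6 : (C (c i) * u.1 ^ (i : ℕ) * u.2 ^ (n - (i : ℕ))).natDegree ≤
      (C (c i) * u.1 ^ (i : ℕ)).natDegree + (u.2 ^ (n - (i : ℕ))).natDegree := natDegree_mul_le
  show (C (c i) * u.1 ^ (i : ℕ) * u.2 ^ (n - (i : ℕ))).natDegree ≤ n
  have := i.2
  omega

lemma natDegree_lin (e₁ e₂ : ℚ × ℚ) (u : ℚ[X] × ℚ[X]) (k : ℕ) (h1 : u.1.natDegree ≤ k)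
    (h2 : u.2.natDegree ≤ k) : (lin (mv C e₁) (mv C e₂) u).1.natDegree ≤ k ∧
      (lin (mv C e₁) (mv C e₂) u).2.natDegree ≤ k := by
  unfold lin mv
  constructor
  · refine le_trans (natDegree_add_le _ _) (max_le ?_ ?_)
    · exact le_trans (natDegree_mul_C_le _ _) h1
    · exact le_trans (natDegree_mul_C_le _ _) h2
  · refine le_trans (natDegree_add_le _ _) (max_le ?_ ?_)
    · exact le_trans (natDegree_mul_C_le _ _) h1
    · exact le_trans (natDegree_mul_C_le _ _) h2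

/-! ### evaluation -/

lemma mp_eval {d : ℕ} (f : Pr ℚ d) (t : ℚ) : mp (evalRingHom t) (mp C f) = f := by
  unfold mp
  refine Prod.ext ?_ ?_
  · funext i; simp
  · funext i; simp

lemma mv_eval (e : ℚ × ℚ) (t : ℚ) : mv (evalRingHom t) (mv C e) = e := by
  unfold mv
  refine Prod.ext ?_ ?_
  · simp
  · simp

lemma mp_aeval {d : ℕ} (f : Pr ℤ d) (a : ℂ) :
    mp ((aeval a : ℚ[X] →ₐ[ℚ] ℂ) : ℚ[X] →+* ℂ) (mp C (qf f)) = mp (Int.castRingHom ℂ) f := by
  unfold mp qf mp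
  refine Prod.ext ?_ ?_
  · funext i; simp
  · funext i; simp

lemma mv_aeval (e : ℚ × ℚ) (a : ℂ) :
    mv ((aeval a : ℚ[X] →ₐ[ℚ] ℂ) : ℚ[X] →+* ℂ) (mv C e) = mv (algebraMap ℚ ℂ) e := by
  unfold mv
  refine Prod.ext ?_ ?_
  · simp
  · simp

end CONJQ_

open CONJQ_ Polynomial in
theorem p_CONJQ : T_CONJQ := by
  classical
  intro d f g x y hd hf hg hX hY hc
  set N := 2 * d + 3 with hN
  obtain ⟨e₁, e₂, he, hM⟩ := exists_lin N (orb (qf f) x) (orb (qf g) y) (by omega) hX hY hc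
  set X' := orb (qf f) x with hX'
  set Y' := orb (qf g) y with hY'
  have hXs : ∀ n, st (qf f) (X' n) = X' (n + 1) := fun n =>
    (Function.iterate_succ_apply' _ _ _).symm
  have hYs : ∀ n, st (qf g) (Y' n) = Y' (n + 1) := fun n =>
    (Function.iterate_succ_apply' _ _ _).symm
  have hX0 : ∀ n, n < N → X' n ≠ 0 := by
    intro n hn h0
    rcases Nat.eq_zero_or_pos n with h | h
    · refine hX n 1 hn (by omega) (by omega) ?_
      rw [h0]
      simp [wd]
    · refine hX n 0 hn (by omega) (by omega) ?_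
      rw [h0]
      simp [wd]
  -- the two maps agree at many points
  have hW : ∀ n, n < 2 * d + 2 → wd (st (qf f) (lin e₁ e₂ (Y' n))) (lin e₁ e₂ (st (qf g) (Y' n))) = 0 := by
    intro n hn
    obtain ⟨t, ht⟩ := prop_of_wd _ _ (hM n (by omega)) (hX0 n (by omega))
    obtain ⟨t', ht'⟩ := prop_of_wd _ _ (hM (n + 1) (by omega)) (hX0 (n + 1) (by omega))
    rw [hYs, ht', ht, st_smul, hXs, wd_smul, wd_self, mul_zero]
  -- polynomials
  set U : ℚ[X] × ℚ[X] := (X, 1) with hU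
  set PA := st (mp C (qf f)) (lin (mv C e₁) (mv C e₂) U) with hPA
  set PB := lin (mv C e₁) (mv C e₂) (st (mp C (qf g)) U) with hPB
  have hU1 : U.1.natDegree ≤ 1 := natDegree_X_le
  have hU2 : U.2.natDegree ≤ 1 := by
    show (1 : ℚ[X]).natDegree ≤ 1
    rw [natDegree_one]
    omega
  have hPAd : PA.1.natDegree ≤ d ∧ PA.2.natDegree ≤ d := by
    have h1 := natDegree_lin e₁ e₂ U 1 hU1 hU2
    exact ⟨natDegree_fv (qf f).1 _ h1.1 h1.2, natDegree_fv (qf f).2 _ h1.1 h1.2⟩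
  have hPBd : PB.1.natDegree ≤ d ∧ PB.2.natDegree ≤ d :=
    natDegree_lin e₁ e₂ _ d (natDegree_fv (qf g).1 U hU1 hU2) (natDegree_fv (qf g).2 U hU1 hU2)
  have hevA : ∀ t : ℚ, mv (evalRingHom t) PA = st (qf f) (lin e₁ e₂ (t, 1)) := by
    intro t
    rw [hPA, mv_st, mv_lin, mp_eval, mv_eval, mv_eval]
    congr 2
    unfold mv
    simp [hU]
  have hevB : ∀ t : ℚ, mv (evalRingHom t) PB = lin e₁ e₂ (st (qf g) (t, 1)) := by
    intro t
    rw [hPB, mv_lin, mv_st, mp_eval, mv_eval, mv_eval]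
    congr 2
    unfold mv
    simp [hU]
  -- the wedge is zero
  have hWd : (wd PA PB).natDegree ≤ 2 * d := by
    unfold wd
    refine le_trans (natDegree_sub_le _ _) (max_le ?_ ?_)
    · refine le_trans natDegree_mul_le ?_
      omega
    · refine le_trans natDegree_mul_le ?_
      omega
  have hW0 : wd PA PB = 0 := by
    set G := (Finset.range (2 * d + 2)).filter fun n => (Y' n).2 ≠ 0 with hG
    have hG1 : 2 * d + 1 ≤ G.card := by
      have h1 := Finset.card_filter_add_card_filter_not (s := Finset.range (2 * d + 2))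
        (fun n => (Y' n).2 ≠ 0)
      rw [Finset.card_range, ← hG] at h1
      have h2 : ((Finset.range (2 * d + 2)).filter fun n => ¬ (Y' n).2 ≠ 0).card ≤ 1 := by
        rw [Finset.card_le_one]
        intro a ha b hb
        rw [Finset.mem_filter, Finset.mem_range, not_not] at ha hb
        by_contra hab
        refine hY a b (by omega) (by omega) hab ?_
        show (Y' a).1 * (Y' b).2 - (Y' a).2 * (Y' b).1 = 0
        rw [ha.2, hb.2]
        ring
      omega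
    set Z := G.image fun n => (Y' n).1 / (Y' n).2 with hZ
    have hZc : Z.card = G.card := by
      refine Finset.card_image_of_injOn ?_
      intro a ha b hb hab
      have ha' := Finset.mem_filter.1 (Finset.mem_coe.1 ha)
      have hb' := Finset.mem_filter.1 (Finset.mem_coe.1 hb)
      by_contra hne
      refine hY a b (by have := Finset.mem_range.1 ha'.1; omega)
        (by have := Finset.mem_range.1 hb'.1; omega) hne ?_
      have h1 : (Y' a).1 / (Y' a).2 = (Y' b).1 / (Y' b).2 := hab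
      rw [div_eq_div_iff ha'.2 hb'.2] at h1
      show (Y' a).1 * (Y' b).2 - (Y' a).2 * (Y' b).1 = 0
      linear_combination h1
    refine eq_zero_of_natDegree_lt_card_of_eval_eq_zero' _ Z ?_ (by omega)
    intro t ht
    rw [hZ, Finset.mem_image] at ht
    obtain ⟨n, hn, rfl⟩ := ht
    have hn' := Finset.mem_filter.1 hn
    have hn0 := hn'.2
    have hu : (((Y' n).1 / (Y' n).2, 1) : ℚ × ℚ) = ((Y' n).2)⁻¹ • Y' n := by
      refine Prod.ext ?_ ?_
      · rw [Prod.smul_fst, smul_eq_mul]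
        field_simp
      · rw [Prod.smul_snd, smul_eq_mul, inv_mul_cancel₀ hn0]
    have h1 : evalRingHom ((Y' n).1 / (Y' n).2) (wd PA PB) = 0 := by
      rw [map_wd, hevA, hevB, hu, st_smul, lin_smul, st_smul, lin_smul, wd_smul,
        hW n (Finset.mem_range.1 hn'.1), mul_zero]
    exact h1
  -- coprimality
  have heC : wd (mv (algebraMap ℚ ℂ) e₁) (mv (algebraMap ℚ ℂ) e₂) ≠ 0 := by
    rw [← map_wd]
    exact (_root_.map_ne_zero _).2 he
  have hUC : ∀ a : ℂ, mv ((aeval a : ℚ[X] →ₐ[ℚ] ℂ) : ℚ[X] →+* ℂ) U = (a, 1) := by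
    intro a
    unfold mv
    simp [hU]
  have hcopA : IsCoprime PA.1 PA.2 := by
    refine (isCoprime_iff_aeval_ne_zero_of_isAlgClosed ℚ ℂ PA.1 PA.2).2 ?_
    intro a
    by_contra hcon
    push Not at hcon
    have h1 : mv ((aeval a : ℚ[X] →ₐ[ℚ] ℂ) : ℚ[X] →+* ℂ) PA = 0 := Prod.ext hcon.1 hcon.2
    rw [hPA, mv_st, mv_lin, mp_aeval, mv_aeval, mv_aeval, hUC] at h1
    have h2 := lin_eq_zero _ _ _ heC (hf _ h1)
    exact one_ne_zero (Prod.ext_iff.1 h2).2
  have hcopB : IsCoprime PB.1 PB.2 := by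
    refine (isCoprime_iff_aeval_ne_zero_of_isAlgClosed ℚ ℂ PB.1 PB.2).2 ?_
    intro a
    by_contra hcon
    push Not at hcon
    have h1 : mv ((aeval a : ℚ[X] →ₐ[ℚ] ℂ) : ℚ[X] →+* ℂ) PB = 0 := Prod.ext hcon.1 hcon.2
    rw [hPB, mv_lin, mv_st, mp_aeval, mv_aeval, mv_aeval, hUC] at h1
    have h2 := hg _ (lin_eq_zero _ _ _ heC h1)
    exact one_ne_zero (Prod.ext_iff.1 h2).2
  -- the constant
  obtain ⟨a, b, hab⟩ := hcopA
  have hW0' : PA.1 * PB.2 = PA.2 * PB.1 := sub_eq_zero.1 hW0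
  set w := a * PB.1 + b * PB.2 with hw
  have hB1 : PB.1 = w * PA.1 := by
    rw [hw]
    linear_combination (-PB.1) * hab - b * hW0'
  have hB2 : PB.2 = w * PA.2 := by
    rw [hw]
    linear_combination (-PB.2) * hab + a * hW0'
  have hwu : IsUnit w := by
    obtain ⟨r, s, hrs⟩ := hcopB
    refine IsUnit.of_mul_eq_one (r * PA.1 + s * PA.2) ?_
    rw [← hrs, hB1, hB2]
    ring
  obtain ⟨c, hcu, hcw⟩ := Polynomial.isUnit_iff.1 hwu
  have hc0 : c ≠ 0 := hcu.ne_zero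
  have key1 : ∀ t : ℚ, lin e₁ e₂ (st (qf g) (t, 1)) = c • st (qf f) (lin e₁ e₂ (t, 1)) := by
    intro t
    rw [← hevA, ← hevB]
    refine Prod.ext ?_ ?_
    · show evalRingHom t PB.1 = c * evalRingHom t PA.1
      rw [hB1, ← hcw, map_mul]
      simp
    · show evalRingHom t PB.2 = c * evalRingHom t PA.2
      rw [hB2, ← hcw, map_mul]
      simp
  have key2 : ∀ u : ℚ × ℚ, u.2 ≠ 0 →
      lin e₁ e₂ (st (qf g) u) = c • st (qf f) (lin e₁ e₂ u) := by
    intro u hu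
    have h1 : u = u.2 • ((u.1 / u.2, 1) : ℚ × ℚ) := by
      refine Prod.ext ?_ ?_
      · rw [Prod.smul_fst, smul_eq_mul, mul_div_cancel₀ _ hu]
      · rw [Prod.smul_snd, smul_eq_mul, mul_one]
    rw [h1, st_smul, lin_smul, key1, lin_smul, st_smul, smul_comm]
  refine ⟨e₁, e₂, c, he, hc0, ?_⟩
  intro u
  -- points with second coordinate zero
  set V : ℚ[X] × ℚ[X] := (C u.1, X) with hV
  set QA := st (mp C (qf f)) (lin (mv C e₁) (mv C e₂) V) with hQA
  set QB := lin (mv C e₁) (mv C e₂) (st (mp C (qf g)) V) with hQB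
  have hevV : ∀ t : ℚ, mv (evalRingHom t) V = (u.1, t) := by
    intro t
    unfold mv
    simp [hV]
  have hevQA : ∀ t : ℚ, mv (evalRingHom t) QA = st (qf f) (lin e₁ e₂ (u.1, t)) := by
    intro t
    rw [hQA, mv_st, mv_lin, mp_eval, mv_eval, mv_eval, hevV]
  have hevQB : ∀ t : ℚ, mv (evalRingHom t) QB = lin e₁ e₂ (st (qf g) (u.1, t)) := by
    intro t
    rw [hQB, mv_lin, mv_st, mp_eval, mv_eval, mv_eval, hevV]
  have hinf : (({0} : Set ℚ)ᶜ).Infinite := (Set.finite_singleton 0).infinite_compl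
  have h1 : QB.1 - C c * QA.1 = 0 := by
    refine eq_zero_of_infinite_isRoot _ (hinf.mono fun t ht => ?_)
    have ht0 : ((u.1, t) : ℚ × ℚ).2 ≠ 0 := ht
    have h2 := key2 _ ht0
    rw [← hevQA, ← hevQB] at h2
    have h3 : evalRingHom t QB.1 = c * evalRingHom t QA.1 := (Prod.ext_iff.1 h2).1
    show eval t (QB.1 - C c * QA.1) = 0
    rw [eval_sub, eval_mul, eval_C, sub_eq_zero]
    exact h3
  have h1' : QB.2 - C c * QA.2 = 0 := by
    refine eq_zero_of_infinite_isRoot _ (hinf.mono fun t ht => ?_)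
    have ht0 : ((u.1, t) : ℚ × ℚ).2 ≠ 0 := ht
    have h2 := key2 _ ht0
    rw [← hevQA, ← hevQB] at h2
    have h3 : evalRingHom t QB.2 = c * evalRingHom t QA.2 := (Prod.ext_iff.1 h2).2
    show eval t (QB.2 - C c * QA.2) = 0
    rw [eval_sub, eval_mul, eval_C, sub_eq_zero]
    exact h3
  have hu' : u = (u.1, u.2) := rfl
  rw [hu', ← hevQA, ← hevQB]
  refine Prod.ext ?_ ?_
  · show evalRingHom u.2 QB.1 = c * evalRingHom u.2 QA.1
    rw [sub_eq_zero.1 h1, map_mul]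
    simp
  · show evalRingHom u.2 QB.2 = c * evalRingHom u.2 QA.2
    rw [sub_eq_zero.1 h1', map_mul]
    simp

end Pool.Agent.UMR
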