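import Pool.Agent.UMR.Targets

set_option autoImplicit false
set_option maxHeartbeats 4000000

namespace Pool.Agent.UMR.DETV_

open Finset
open scoped BigOperators

variable {K : Type} [Field K]

theorem isForm_zero (n : ℕ) : IsForm n (fun _ : K × K => (0 : K)) :=
  ⟨fun _ => 0, fun x => by simp [fv]⟩

theorem isForm_add {n : ℕ} {φ ψ : K × K → K} (h1 : IsForm n φ) (h2 : IsForm n ψ) :
    IsForm n (fun x => φ x + ψ x) := by
  obtain ⟨c, hc⟩ := h1
  obtain ⟨c', hc'⟩ := h2
  refine ⟨fun i => c i + c' i, fun x => ?_⟩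
  simp only [hc, hc', fv]
  rw [← Finset.sum_add_distrib]
  exact Finset.sum_congr rfl fun i _ => by ring

theorem isForm_smul {n : ℕ} {φ : K × K → K} (a : K) (h1 : IsForm n φ) :
    IsForm n (fun x => a * φ x) := by
  obtain ⟨c, hc⟩ := h1
  refine ⟨fun i => a * c i, fun x => ?_⟩
  simp only [hc, fv]
  rw [Finset.mul_sum]
  exact Finset.sum_congr rfl fun i _ => by ring

theorem isForm_sum {n : ℕ} {ι : Type} (s : Finset ι) (φ : ι → K × K → K)
    (h : ∀ i ∈ s, IsForm n (φ i)) : IsForm n (fun x => ∑ i ∈ s, φ i x) := by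
  classical
  induction s using Finset.induction_on with
  | empty => simpa using isForm_zero n
  | insert a s ha ih =>
    simp only [Finset.sum_insert ha]
    exact isForm_add (h a (Finset.mem_insert_self a s))
      (ih fun i hi => h i (Finset.mem_insert_of_mem hi))

theorem isForm_mono {n a b : ℕ} (h : a + b = n) :
    IsForm n (fun x : K × K => x.1 ^ a * x.2 ^ b) := by
  have ha : a < n + 1 := by omega
  refine ⟨fun i => if i = (⟨a, ha⟩ : Fin (n + 1)) then 1 else 0, fun x => ?_⟩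
  simp only [fv]
  rw [Finset.sum_eq_single (⟨a, ha⟩ : Fin (n + 1))]
  · have : n - a = b := by omega
    simp [this]
  · intro i _ hi
    simp [hi]
  · simp

theorem isForm_mul {m n : ℕ} {φ ψ : K × K → K} (h1 : IsForm m φ) (h2 : IsForm n ψ) :
    IsForm (m + n) (fun x => φ x * ψ x) := by
  obtain ⟨c, hc⟩ := h1
  obtain ⟨c', hc'⟩ := h2
  have key : (fun x : K × K => φ x * ψ x) = fun x => ∑ i : Fin (m + 1), ∑ j : Fin (n + 1),
      (c i * c' j) * (x.1 ^ ((i : ℕ) + j) * x.2 ^ ((m - i) + (n - j))) := by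
    funext x
    rw [hc, hc', fv, fv, Finset.sum_mul_sum]
    refine Finset.sum_congr rfl fun i _ => Finset.sum_congr rfl fun j _ => ?_
    rw [pow_add, pow_add]
    ring
  rw [key]
  refine isForm_sum _ _ fun i _ => isForm_sum _ _ fun j _ => isForm_smul _ (isForm_mono ?_)
  omega

theorem isForm_pow {m : ℕ} {φ : K × K → K} (h1 : IsForm m φ) (k : ℕ) :
    IsForm (m * k) (fun x => φ x ^ k) := by
  induction k with
  | zero => simpa using isForm_mono (K := K) (n := 0) (a := 0) (b := 0) rfl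
  | succ k ih =>
    have := isForm_mul ih h1
    simpa [pow_succ, Nat.mul_succ] using this

theorem isForm_comp {d n : ℕ} {φ : K × K → K} (h1 : IsForm n φ) (f : Pr K d) :
    IsForm (d * n) (fun x => φ (st f x)) := by
  obtain ⟨c, hc⟩ := h1
  have key : (fun x : K × K => φ (st f x)) = fun x => ∑ i : Fin (n + 1),
      c i * (fv f.1 x ^ (i : ℕ) * fv f.2 x ^ (n - (i : ℕ))) := by
    funext x
    rw [hc, fv]
    exact Finset.sum_congr rfl fun i _ => by simp only [st]; ring
  rw [key]
  refine isForm_sum _ _ fun i _ => isForm_smul _ ?_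
  have e : d * n = d * (i : ℕ) + d * (n - (i : ℕ)) := by
    rw [← Nat.mul_add]; congr 1; omega
  rw [e]
  exact isForm_mul (isForm_pow ⟨f.1, fun x => rfl⟩ _) (isForm_pow ⟨f.2, fun x => rfl⟩ _)

theorem nm_nonneg (v : AbsoluteValue K ℝ) (x : K × K) : 0 ≤ nm v x :=
  le_max_of_le_left (v.nonneg _)

theorem v_sum_le {v : AbsoluteValue K ℝ} (hv : VV v) {ι : Type} (s : Finset ι) (a : ι → K)
    (B : ℝ) (hB : 0 ≤ B) (h : ∀ i ∈ s, v (a i) ≤ B) : v (∑ i ∈ s, a i) ≤ B := by
  classical
  induction s using Finset.induction_on with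
  | empty => simpa using hB
  | insert b s hb ih =>
    rw [Finset.sum_insert hb]
    exact (hv.ultra _ _).trans (max_le (h b (Finset.mem_insert_self b s))
      (ih fun i hi => h i (Finset.mem_insert_of_mem hi)))

theorem v_det_le {v : AbsoluteValue K ℝ} (hv : VV v) {N : ℕ} (M : Matrix (Fin N) (Fin N) K)
    (B : Fin N → ℝ) (h : ∀ s i, v (M s i) ≤ B i) : v M.det ≤ ∏ i, B i := by
  have hB : ∀ i, 0 ≤ B i := fun i => (v.nonneg _).trans (h i i)
  rw [Matrix.det_apply]
  refine v_sum_le hv _ _ _ (Finset.prod_nonneg fun i _ => hB i) fun σ _ => ?_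
  have hs : v (Equiv.Perm.sign σ • ∏ i, M (σ i) i) = v (∏ i, M (σ i) i) := by
    rcases Int.units_eq_one_or (Equiv.Perm.sign σ) with h' | h'
    · rw [h', one_smul]
    · rw [h', Units.neg_smul, one_smul, v.map_neg]
  rw [hs, map_prod]
  exact Finset.prod_le_prod (fun i _ => v.nonneg _) fun i _ => h _ _

theorem main (h2 : T_DSTEP) [IsAlgClosed K] [CharZero K] (v : AbsoluteValue K ℝ)
    (d : ℕ) (f : Pr K d) (ρ : K) (hf : AG f ρ) : ∀ (m N : ℕ), N = d ^ m →
    ∃ (φ : Fin N → K × K → K) (κ : K), (∀ s, IsForm (N - 1) (φ s)) ∧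
      (∀ s x, v (φ s x) ≤ ∏ k ∈ range m, nm v ((st f)^[k] x) ^ (d - 1)) ∧
      v κ = v ρ ^ (ee d m) ∧
      ∀ x : Fin N → K × K, (Matrix.of fun s i => φ s (x i)).det = κ * VP x := by
  intro m
  induction m with
  | zero =>
    intro N hN
    rw [pow_zero] at hN
    subst hN
    refine ⟨fun _ _ => 1, 1, fun s => ?_, fun s x => ?_, ?_, fun x => ?_⟩
    · simpa using isForm_mono (K := K) (n := 0) (a := 0) (b := 0) rfl
    · simp
    · simp [ee]
    · simp [VP, Matrix.det_unique]
  | succ m ih =>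
    intro N' hN'
    obtain ⟨ψ, κ, hform, hbd, hκ, hdet⟩ := ih (d ^ m) rfl
    have hN : N' = d * d ^ m := by rw [hN', pow_succ]; ring
    subst hN
    have hd := hf.hd
    have hpos : 1 ≤ d ^ m := Nat.one_le_pow _ _ (by omega)
    obtain ⟨κ', hκ', hdet'⟩ := h2 K d f ρ hf (d ^ m) ψ κ hpos hform hdet finProdFinEquiv
    refine ⟨fun s x => x.1 ^ ((finProdFinEquiv.symm s).1 : ℕ) *
      x.2 ^ (d - 1 - ((finProdFinEquiv.symm s).1 : ℕ)) * ψ (finProdFinEquiv.symm s).2 (st f x),
      κ', fun s => ?_, fun s x => ?_, ?_, hdet'⟩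
    · have hc := (finProdFinEquiv.symm s).1.2
      have e : d * d ^ m - 1 = (d - 1) + d * (d ^ m - 1) := by
        obtain ⟨t, ht⟩ := Nat.exists_eq_add_of_le hpos
        rw [ht, Nat.add_sub_cancel_left, Nat.mul_add, Nat.mul_one]
        omega
      rw [e]
      refine isForm_mul (isForm_mono ?_) (isForm_comp (hform _) f)
      omega
    · have hc := (finProdFinEquiv.symm s).1.2
      rw [map_mul, map_mul, map_pow, map_pow, Finset.prod_range_succ', mul_comm (∏ _ ∈ _, _)]
      refine mul_le_mul ?_ ?_ (v.nonneg _) (pow_nonneg (nm_nonneg _ _) _)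
      · simp only [Function.iterate_zero, id_eq]
        calc v x.1 ^ ((finProdFinEquiv.symm s).1 : ℕ) *
              v x.2 ^ (d - 1 - ((finProdFinEquiv.symm s).1 : ℕ))
            ≤ nm v x ^ ((finProdFinEquiv.symm s).1 : ℕ) *
              nm v x ^ (d - 1 - ((finProdFinEquiv.symm s).1 : ℕ)) := by
              refine mul_le_mul ?_ ?_ (pow_nonneg (v.nonneg _) _) (pow_nonneg (nm_nonneg _ _) _)
              · exact pow_le_pow_left₀ (v.nonneg _) (le_max_left _ _) _
              · exact pow_le_pow_left₀ (v.nonneg _) (le_max_right _ _) _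
          _ = nm v x ^ (d - 1) := by
              rw [← pow_add]; congr 1; omega
      · exact hbd _ _
    · have h3 : v κ' = v ρ ^ (d ^ m * (d ^ m - 1) / 2) * v κ ^ d := by
        rcases hκ' with h | h
        · rw [h, map_mul, map_pow, map_pow]
        · rw [h, v.map_neg, map_mul, map_pow, map_pow]
      rw [h3, hκ, ee, ← pow_mul, ← pow_add]
      congr 1
      ring

end Pool.Agent.UMR.DETV_

namespace Pool.Agent.UMR

open Finset
open scoped BigOperators

theorem p_DETV (_h1 : T_VAN) (h2 : T_DSTEP) : T_DETV := by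
  intro K _ _ _ v d f ρ hv hf m x
  obtain ⟨φ, κ, -, hbd, hκ, hdet⟩ := DETV_.main h2 v d f ρ hf m (d ^ m) rfl
  rw [← hκ, ← map_mul, ← hdet x]
  exact DETV_.v_det_le hv _ _ fun s i => hbd s (x i)

end Pool.Agent.UMR
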