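import Pool.Agent.UMR.Targets

set_option autoImplicit false
set_option maxHeartbeats 4000000

/-!
# DICH: dichotomy for the Green function
-/

namespace Pool.Agent.UMR

namespace DICH_

/-- the wedge product under a linear map -/
theorem wd_lin {K : Type} [Field K] (e₁ e₂ x y : K × K) :
    wd (lin e₁ e₂ x) (lin e₁ e₂ y) = wd e₁ e₂ * wd x y := by
  simp only [wd, lin]
  ring

/-- surjectivity of an invertible linear map -/
theorem lin_surj {K : Type} [Field K] (e₁ e₂ : K × K) (h : wd e₁ e₂ ≠ 0) (x : K × K) :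
    ∃ x' : K × K, lin e₁ e₂ x' = x := by
  refine ⟨(wd x e₂ / wd e₁ e₂, wd e₁ x / wd e₁ e₂), ?_⟩
  apply Prod.ext
  · have : wd x e₂ / wd e₁ e₂ * e₁.1 + wd e₁ x / wd e₁ e₂ * e₂.1 =
        (wd x e₂ * e₁.1 + wd e₁ x * e₂.1) / wd e₁ e₂ := by ring
    simp only [lin]
    rw [this, div_eq_iff h]
    simp only [wd]
    ring
  · have : wd x e₂ / wd e₁ e₂ * e₁.2 + wd e₁ x / wd e₁ e₂ * e₂.2 =
        (wd x e₂ * e₁.2 + wd e₁ x * e₂.2) / wd e₁ e₂ := by ring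
    simp only [lin]
    rw [this, div_eq_iff h]
    simp only [wd]
    ring

/-- invariance of the Green function under conjugation -/
theorem gg_conj {K : Type} [Field K] (v : AbsoluteValue K ℝ) (d : ℕ) (hd : 2 ≤ d) (ρ : K)
    (hρ : ρ ≠ 0) (H : K × K → ℝ) (e₁ e₂ : K × K) (h : wd e₁ e₂ ≠ 0) (x y : K × K)
    (hxy : wd x y ≠ 0) :
    gg d v (ρ * wd e₁ e₂ ^ (d * (d - 1))) (fun x => H (lin e₁ e₂ x)) x y =
      gg d v ρ H (lin e₁ e₂ x) (lin e₁ e₂ y) := by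
  have h1 : v (wd e₁ e₂) ≠ 0 := (v.ne_zero_iff).2 h
  have h2 : v (wd x y) ≠ 0 := (v.ne_zero_iff).2 hxy
  have h3 : v ρ ≠ 0 := (v.ne_zero_iff).2 hρ
  have h4 : Real.log (v (wd (lin e₁ e₂ x) (lin e₁ e₂ y))) =
      Real.log (v (wd e₁ e₂)) + Real.log (v (wd x y)) := by
    rw [wd_lin, v.map_mul, Real.log_mul h1 h2]
  have h5 : Real.log (v (ρ * wd e₁ e₂ ^ (d * (d - 1)))) =
      Real.log (v ρ) + (d * (d - 1) : ℝ) * Real.log (v (wd e₁ e₂)) := by
    rw [v.map_mul, v.map_pow, Real.log_mul h3 (pow_ne_zero _ h1), Real.log_pow]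
    have : ((d * (d - 1) : ℕ) : ℝ) = (d * (d - 1) : ℝ) := by
      rw [Nat.cast_mul, Nat.cast_sub (by omega)]
      norm_num
    rw [this]
  have hd0 : (d : ℝ) * (d - 1) ≠ 0 := by
    have : (2 : ℝ) ≤ d := by exact_mod_cast hd
    have h' : (d : ℝ) - 1 ≠ 0 := by linarith
    have h'' : (d : ℝ) ≠ 0 := by linarith
    exact mul_ne_zero h'' h'
  have h6 : - (Real.log (v ρ) + (d * (d - 1) : ℝ) * Real.log (v (wd e₁ e₂))) /
      ((d : ℝ) * (d - 1)) = - Real.log (v ρ) / ((d : ℝ) * (d - 1)) -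
        Real.log (v (wd e₁ e₂)) := by
    rw [div_eq_iff hd0, sub_mul, div_mul_cancel₀ _ hd0]
    ring
  simp only [gg, kp]
  rw [h4, h5, h6]
  ring

end DICH_

theorem p_DICH (_ : T_CJX) (h2 : T_CONJ) (h3 : T_CLASS) (h4 : T_GOODB) : T_DICH := by
  intro K _ _ _ v d f ρ H C hL
  by_cases hc : ∃ c : ℝ, 0 < c ∧ ∀ (e₁ e₂ : K × K) (f' : Pr K d), wd e₁ e₂ ≠ 0 →
      Cj f f' e₁ e₂ → c ≤ kp d v (ρ * wd e₁ e₂ ^ (d * (d - 1))) +
        2 / (d - 1) * Real.log (cn v f')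
  · obtain ⟨c, hc0, hc⟩ := hc
    right
    exact ⟨c / 64, by positivity, fun x hx => h3 K v d f ρ H C c hL hc0 hc x hx⟩
  · left
    push Not at hc
    intro x y hxy
    have hd2 : 2 ≤ d := hL.ag.hd
    have hd : (2 : ℝ) ≤ d := by exact_mod_cast hd2
    have hpos : (0 : ℝ) < 2 * d - 1 := by linarith
    by_contra hneg
    push Not at hneg
    obtain ⟨e₁, e₂, f', he, hf', hlt⟩ := hc (- gg d v ρ H x y / (2 * d - 1))
      (div_pos (by linarith) hpos)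
    obtain ⟨C', hL'⟩ := h2 K v d f f' ρ H C e₁ e₂ hL he hf'
    obtain ⟨x', hx'⟩ := DICH_.lin_surj e₁ e₂ he x
    obtain ⟨y', hy'⟩ := DICH_.lin_surj e₁ e₂ he y
    have hw : wd x' y' ≠ 0 := by
      intro h0
      apply hxy
      rw [← hx', ← hy', DICH_.wd_lin, h0, mul_zero]
    have hG := h4 K v d f' _ _ C' hL' x' y' hw
    rw [DICH_.gg_conj v d hd2 ρ hL.ag.ne H e₁ e₂ he x' y' hw, hx', hy'] at hG
    rw [lt_div_iff₀ hpos] at hlt
    nlinarith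

end Pool.Agent.UMR
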