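import Pool.Agent.UMR.Targets

set_option autoImplicit false
set_option maxHeartbeats 4000000

/-!
# UMR, target DSTEP: one step of the determinant formula
-/

namespace Pool.Agent.UMR

open Finset
open scoped BigOperators Kronecker

namespace DSTEP_

/-- the product of the wedges of all the ordered pairs -/
def Qx {K ι : Type} [Field K] [Fintype ι] [DecidableEq ι] (y : ι → K × K) : K :=
  ∏ a, ∏ b, if a = b then 1 else wd (y a) (y b)

/-- the sign -/
def sg (K : Type) [Field K] (n : ℕ) : K := (-1) ^ (n * (n - 1) / 2)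

theorem sg_sq (K : Type) [Field K] (n : ℕ) : sg K n * sg K n = 1 := by
  unfold sg
  rw [← pow_add, ← two_mul, pow_mul]
  simp

theorem even_half (n : ℕ) : 2 * (n * (n - 1) / 2) = n * (n - 1) := by
  have h : Even (n * (n - 1)) := by
    rcases n with _ | n
    · simp
    · have h1 := Nat.even_mul_succ_self n
      simpa [mul_comm] using h1
  exact Nat.two_mul_div_two_of_even h

theorem sg_mul (K : Type) [Field K] (d N : ℕ) :
    sg K (d * N) = sg K N ^ d * sg K d ^ N := by
  unfold sg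
  rw [← pow_mul, ← pow_mul, ← pow_add]
  have h1 := even_half N
  have h2 := even_half d
  have h3 := even_half (d * N)
  set a := N * (N - 1) / 2 with ha
  set b := d * (d - 1) / 2 with hb
  set c := d * N * (d * N - 1) / 2 with hc
  have h4 : c = a * d + b * N + 2 * (a * b) := by
    rcases Nat.eq_zero_or_pos d with hd | hd
    · subst hd
      simp only [Nat.zero_mul] at h2 h3
      have hb0 : b = 0 := by omega
      have hc0 : c = 0 := by omega
      rw [hb0, hc0]
      simp
    rcases Nat.eq_zero_or_pos N with hN | hN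
    · subst hN
      simp only [Nat.zero_mul, Nat.mul_zero] at h1 h3
      have ha0 : a = 0 := by omega
      have hc0 : c = 0 := by omega
      rw [ha0, hc0]
      simp
    obtain ⟨d', rfl⟩ : ∃ d', d = d' + 1 := ⟨d - 1, by omega⟩
    obtain ⟨N', rfl⟩ : ∃ N', N = N' + 1 := ⟨N - 1, by omega⟩
    simp only [Nat.add_sub_cancel] at h1 h2
    have h5 : (d' + 1) * (N' + 1) - 1 = d' * N' + d' + N' := by
      have : (d' + 1) * (N' + 1) = d' * N' + d' + N' + 1 := by ring
      omega
    rw [h5] at h3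
    have h6 : 2 * c = 2 * (a * (d' + 1) + b * (N' + 1) + 2 * (a * b)) := by
      calc 2 * c = (d' + 1) * (N' + 1) * (d' * N' + d' + N') := h3
        _ = (N' + 1) * N' * (d' + 1) + (d' + 1) * d' * (N' + 1)
            + ((N' + 1) * N') * ((d' + 1) * d') := by ring
        _ = (2 * a) * (d' + 1) + (2 * b) * (N' + 1) + (2 * a) * (2 * b) := by rw [h1, h2]
        _ = 2 * (a * (d' + 1) + b * (N' + 1) + 2 * (a * b)) := by ring
    omega
  rw [h4, pow_add _ _ (2 * (a * b)), pow_mul _ 2]
  simp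

theorem wd_neg {K : Type} [Field K] (x y : K × K) : wd x y = -1 * wd y x := by
  unfold wd
  ring

theorem VP_ite {K : Type} [Field K] {n : ℕ} (x : Fin n → K × K) :
    VP x = ∏ a, ∏ b, if a < b then wd (x a) (x b) else 1 := by
  unfold VP
  refine Finset.prod_congr rfl fun a _ => ?_
  rw [← Finset.prod_filter]
  refine Finset.prod_congr ?_ fun _ _ => rfl
  ext b
  simp

theorem count (K : Type) [Field K] (n : ℕ) :
    (∏ a : Fin n, ∏ b : Fin n, if a < b then (-1 : K) else 1) = sg K n := by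
  have h : ∀ a : Fin n, (∏ b : Fin n, if a < b then (-1 : K) else 1) =
      (-1) ^ (n - 1 - (a : ℕ)) := by
    intro a
    rw [← Finset.prod_filter, Finset.prod_const]
    have h1 : (Finset.univ.filter fun b : Fin n => a < b) = Ioi a := by
      ext b
      simp
    rw [h1, Fin.card_Ioi]
  rw [Finset.prod_congr rfl fun a _ => h a, Finset.prod_pow_eq_pow_sum]
  unfold sg
  rw [Fin.sum_univ_eq_sum_range (fun i => n - 1 - i) n,
    Finset.sum_range_reflect (fun i => i) n, Finset.sum_range_id]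

theorem Qx_VP {K : Type} [Field K] {n : ℕ} (x : Fin n → K × K) :
    Qx x = sg K n * VP x ^ 2 := by
  have h1 : ∀ a b : Fin n, (if a = b then (1 : K) else wd (x a) (x b)) =
      (if a < b then wd (x a) (x b) else 1) * (if b < a then wd (x a) (x b) else 1) := by
    intro a b
    rcases lt_trichotomy a b with h | h | h
    · rw [if_neg (ne_of_lt h), if_pos h, if_neg (not_lt_of_gt h), mul_one]
    · subst h
      simp
    · rw [if_neg (ne_of_gt h), if_neg (not_lt_of_gt h), if_pos h, one_mul]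
  have h2 : ∀ a b : Fin n, (if b < a then wd (x a) (x b) else 1) =
      (if b < a then (-1 : K) else 1) * (if b < a then wd (x b) (x a) else 1) := by
    intro a b
    split_ifs
    · exact wd_neg _ _
    · simp
  have h3 : (∏ a, ∏ b, if b < a then wd (x a) (x b) else 1) = sg K n * VP x := by
    rw [VP_ite, ← count K n, ← Finset.prod_mul_distrib, Finset.prod_comm]
    refine Finset.prod_congr rfl fun b _ => ?_
    rw [← Finset.prod_mul_distrib]
    exact Finset.prod_congr rfl fun a _ => h2 a b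
  unfold Qx
  have h4 : ∀ a : Fin n, (∏ b, if a = b then (1 : K) else wd (x a) (x b)) =
      (∏ b, if a < b then wd (x a) (x b) else 1) *
        ∏ b, if b < a then wd (x a) (x b) else 1 := by
    intro a
    rw [← Finset.prod_mul_distrib]
    exact Finset.prod_congr rfl fun b _ => h1 a b
  rw [Finset.prod_congr rfl fun a _ => h4 a, Finset.prod_mul_distrib, h3, ← VP_ite]
  ring

theorem VP_Qx {K : Type} [Field K] {n : ℕ} (x : Fin n → K × K) :
    VP x ^ 2 = sg K n * Qx x := by
  rw [Qx_VP, ← mul_assoc, sg_sq, one_mul]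

theorem Qx_equiv {K ι κ : Type} [Field K] [Fintype ι] [DecidableEq ι] [Fintype κ]
    [DecidableEq κ] (e : ι ≃ κ) (y : κ → K × K) : Qx (fun a => y (e a)) = Qx y := by
  unfold Qx
  rw [← Equiv.prod_comp e (fun a => ∏ b, if a = b then (1 : K) else wd (y a) (y b))]
  refine Finset.prod_congr rfl fun a _ => ?_
  rw [← Equiv.prod_comp e (fun b => if e a = b then (1 : K) else wd (y (e a)) (y b))]
  refine Finset.prod_congr rfl fun b _ => ?_
  simp only [e.apply_eq_iff_eq]

theorem Qx_ne {K ι : Type} [Field K] [Fintype ι] [DecidableEq ι] (y : ι → K × K)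
    (h : ∀ a b, a ≠ b → wd (y a) (y b) ≠ 0) : Qx y ≠ 0 := by
  unfold Qx
  refine Finset.prod_ne_zero_iff.mpr fun a _ => Finset.prod_ne_zero_iff.mpr fun b _ => ?_
  split_ifs with hab
  · exact one_ne_zero
  · exact h a b hab

theorem detA {K : Type} [Field K] {d : ℕ} (y : Fin d → K × K) :
    (Matrix.of fun (c b : Fin d) => (y b).1 ^ (c : ℕ) * (y b).2 ^ (d - 1 - (c : ℕ))).det ^ 2 =
      VP y ^ 2 := by
  have h1 : (Matrix.of fun (c b : Fin d) => (y b).1 ^ (c : ℕ) *
      (y b).2 ^ (d - 1 - (c : ℕ))) =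
      (Matrix.projVandermonde (fun b => (y b).1) (fun b => (y b).2)).transpose := by
    ext c b
    rw [Matrix.transpose_apply, Matrix.projVandermonde_apply, Matrix.of_apply]
    have h2 : (c.rev : ℕ) = d - 1 - (c : ℕ) := by
      rw [Fin.val_rev]
      omega
    rw [h2]
  rw [h1, Matrix.det_transpose, Matrix.det_projVandermonde]
  unfold VP
  rw [← Finset.prod_pow, ← Finset.prod_pow]
  refine Finset.prod_congr rfl fun i _ => ?_
  rw [← Finset.prod_pow, ← Finset.prod_pow]
  refine Finset.prod_congr rfl fun j _ => ?_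
  unfold wd
  ring

/-- the determinant of the matrix at the special points -/
theorem detP {K : Type} [Field K] {d N : ℕ} (A : Fin N → Matrix (Fin d) (Fin d) K)
    (B : Matrix (Fin N) (Fin N) K) :
    (Matrix.of fun (p q : Fin d × Fin N) => A q.2 p.1 q.1 * B p.2 q.2).det =
      B.det ^ d * ∏ i, (A i).det := by
  have h : (Matrix.of fun (p q : Fin d × Fin N) => A q.2 p.1 q.1 * B p.2 q.2) =
      ((1 : Matrix (Fin d) (Fin d) K) ⊗ₖ B) * Matrix.blockDiagonal A := by
    ext p q
    rw [Matrix.mul_apply, Fintype.sum_prod_type, Finset.sum_eq_single p.1,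
      Finset.sum_eq_single q.2]
    · simp [Matrix.blockDiagonal_apply, mul_comm]
    · intro j _ hj
      simp [Matrix.blockDiagonal_apply, hj]
    · intro h
      exact absurd (Finset.mem_univ _) h
    · intro c _ hc
      refine Finset.sum_eq_zero fun j _ => ?_
      simp [Matrix.one_apply_ne (Ne.symm hc)]
    · intro h
      exact absurd (Finset.mem_univ _) h
  rw [h, Matrix.det_mul, Matrix.det_kronecker, Matrix.det_blockDiagonal]
  simp

theorem prod_diag {K : Type} [Field K] {N : ℕ} (u : Fin N → K) (v : Fin N → Fin N → K) :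
    (∏ i, ∏ j, if i = j then u i else v i j) =
      (∏ i, u i) * ∏ i, ∏ j, if i = j then 1 else v i j := by
  rw [← Finset.prod_mul_distrib]
  refine Finset.prod_congr rfl fun i _ => ?_
  have h : ∀ j : Fin N, (if i = j then u i else v i j) =
      (if i = j then u i else 1) * (if i = j then 1 else v i j) := by
    intro j
    split_ifs <;> simp
  rw [Finset.prod_congr rfl fun j _ => h j, Finset.prod_mul_distrib]
  congr 1
  rw [Finset.prod_ite_eq]
  simp

theorem prod_rho {K : Type} [Field K] (N : ℕ) (r : K) :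
    (∏ i : Fin N, ∏ j : Fin N, if i = j then 1 else r) = r ^ (N * (N - 1)) := by
  have h : ∀ i : Fin N, (∏ j : Fin N, if i = j then 1 else r) = r ^ (N - 1) := by
    intro i
    have h1 : (∏ j : Fin N, if i = j then 1 else r) =
        ∏ j : Fin N, if j ≠ i then r else 1 := by
      refine Finset.prod_congr rfl fun j _ => ?_
      by_cases h2 : i = j
      · rw [if_pos h2, if_neg (fun h3 => h3 h2.symm)]
      · rw [if_neg h2, if_pos (fun h3 => h2 h3.symm)]
    rw [h1, ← Finset.prod_filter, Finset.prod_const, Finset.filter_ne', 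
      Finset.card_erase_of_mem (Finset.mem_univ i), Finset.card_univ, Fintype.card_fin]
  rw [Finset.prod_congr rfl fun i _ => h i, Finset.prod_const, Finset.card_univ,
    Fintype.card_fin, ← pow_mul, mul_comm]

/-- the product over all the points -/
theorem Qx_total {K : Type} [Field K] {d N : ℕ} (ρ : K) (F : K × K → K × K)
    (w : Fin N → K × K) (y : Fin N → Fin d → K × K) (γ : Fin N → K)
    (h1 : ∀ i b, F (y i b) = w i) (h4 : ∀ i, γ i ^ d = ρ)
    (h5 : ∀ i x, wd (F x) (w i) = γ i * ∏ b, wd x (y i b)) :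
    Qx (fun p : Fin d × Fin N => y p.2 p.1) * ρ ^ (N * (N - 1)) =
      (∏ i, Qx (y i)) * Qx w ^ d := by
  have e1 : Qx (fun p : Fin d × Fin N => y p.2 p.1) =
      ∏ i, ∏ j, if i = j then Qx (y i) else ∏ b, ∏ b', wd (y i b) (y j b') := by
    unfold Qx
    rw [Fintype.prod_prod_type, Finset.prod_comm]
    refine Finset.prod_congr rfl fun i _ => ?_
    have e2 : ∀ b : Fin d, (∏ q : Fin d × Fin N, if (b, i) = q then (1 : K) else
        wd (y i b) (y q.2 q.1)) = ∏ j, ∏ b', if (b, i) = (b', j) then (1 : K) else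
        wd (y i b) (y j b') := by
      intro b
      rw [Fintype.prod_prod_type, Finset.prod_comm]
    rw [Finset.prod_congr rfl fun b _ => e2 b, Finset.prod_comm]
    refine Finset.prod_congr rfl fun j _ => ?_
    split_ifs with hij
    · subst hij
      refine Finset.prod_congr rfl fun b _ => Finset.prod_congr rfl fun b' _ => ?_
      by_cases hb : b = b'
      · subst hb
        simp
      · rw [if_neg hb, if_neg]
        intro h
        exact hb (Prod.ext_iff.mp h).1
    · refine Finset.prod_congr rfl fun b _ => Finset.prod_congr rfl fun b' _ => ?_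
      rw [if_neg]
      intro h
      exact hij (Prod.ext_iff.mp h).2
  rw [e1, prod_diag, mul_assoc]
  congr 1
  rw [← prod_rho N ρ, ← Finset.prod_mul_distrib]
  unfold Qx
  rw [← Finset.prod_pow]
  refine Finset.prod_congr rfl fun i _ => ?_
  rw [← Finset.prod_mul_distrib, ← Finset.prod_pow]
  refine Finset.prod_congr rfl fun j _ => ?_
  split_ifs with hij
  · simp
  · have e3 : ρ = ∏ _b : Fin d, γ j := by
      rw [Finset.prod_const, Finset.card_univ, Fintype.card_fin, h4]
    rw [e3, ← Finset.prod_mul_distrib]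
    have e4 : ∀ b : Fin d, (∏ b', wd (y i b) (y j b')) * γ j = wd (w i) (w j) := by
      intro b
      rw [mul_comm, ← h5 j (y i b), h1]
    rw [Finset.prod_congr rfl fun b _ => e4 b]
    simp

theorem isF_mul {A : Type} [CommRing A] {a b : ℕ} {φ ψ : A × A → A}
    (h1 : ∃ c : Fin (a + 1) → A, ∀ x, φ x = fv c x)
    (h2 : ∃ c : Fin (b + 1) → A, ∀ x, ψ x = fv c x) :
    ∃ c : Fin (a + b + 1) → A, ∀ x, φ x * ψ x = fv c x := by
  obtain ⟨c, hc⟩ := h1
  obtain ⟨e, he⟩ := h2
  refine ⟨fun s => ∑ i : Fin (a + 1), ∑ j : Fin (b + 1),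
    if (i : ℕ) + (j : ℕ) = (s : ℕ) then c i * e j else 0, fun x => ?_⟩
  rw [hc, he]
  unfold fv
  rw [Finset.sum_mul_sum]
  have h3 : ∀ s : Fin (a + b + 1), (∑ i : Fin (a + 1), ∑ j : Fin (b + 1),
      if (i : ℕ) + (j : ℕ) = (s : ℕ) then c i * e j else 0) * x.1 ^ (s : ℕ) *
        x.2 ^ (a + b - (s : ℕ)) = ∑ i : Fin (a + 1), ∑ j : Fin (b + 1),
      if (i : ℕ) + (j : ℕ) = (s : ℕ) then c i * e j * x.1 ^ (s : ℕ) *
        x.2 ^ (a + b - (s : ℕ)) else 0 := by
    intro s
    rw [Finset.sum_mul, Finset.sum_mul]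
    refine Finset.sum_congr rfl fun i _ => ?_
    rw [Finset.sum_mul, Finset.sum_mul]
    refine Finset.sum_congr rfl fun j _ => ?_
    split_ifs
    · rfl
    · ring
  simp only [h3]
  symm
  rw [Finset.sum_comm]
  refine Finset.sum_congr rfl fun i _ => ?_
  rw [Finset.sum_comm]
  refine Finset.sum_congr rfl fun j _ => ?_
  have hi : (i : ℕ) ≤ a := Nat.lt_succ_iff.mp i.2
  have hj : (j : ℕ) ≤ b := Nat.lt_succ_iff.mp j.2
  have hs : (i : ℕ) + (j : ℕ) < a + b + 1 := by omega
  rw [Finset.sum_eq_single (⟨(i : ℕ) + (j : ℕ), hs⟩ : Fin (a + b + 1))]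
  · rw [if_pos rfl]
    have h4 : a + b - ((i : ℕ) + (j : ℕ)) = (a - (i : ℕ)) + (b - (j : ℕ)) := by omega
    simp only [h4, pow_add]
    ring
  · intro s _ hne
    rw [if_neg]
    intro h5
    exact hne (Fin.ext h5.symm)
  · intro h5
    exact absurd (Finset.mem_univ _) h5

theorem isF_mono {A : Type} [CommRing A] {n : ℕ} (k : ℕ) (hk : k ≤ n) :
    ∃ c : Fin (n + 1) → A, ∀ x : A × A, x.1 ^ k * x.2 ^ (n - k) = fv c x := by
  refine ⟨fun i => if (i : ℕ) = k then 1 else 0, fun x => ?_⟩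
  unfold fv
  rw [Finset.sum_eq_single (⟨k, by omega⟩ : Fin (n + 1))]
  · simp
  · intro i _ hi
    show (if (i : ℕ) = k then (1 : A) else 0) * _ * _ = 0
    rw [if_neg]
    · simp
    · intro h
      exact hi (Fin.ext h)
  · intro h
    exact absurd (Finset.mem_univ _) h

end DSTEP_

open DSTEP_ in
theorem p_DSTEP (h1 : T_NCG) (h2 : T_VAN) (h3 : T_COMP) : T_DSTEP := by
  intro K _ _ _ d f ρ hf N ψ κ hN hψ hdet e
  have hd : 2 ≤ d := hf.hd
  -- the new functions are forms
  have hform : ∀ s : Fin (d * N), IsForm (d * N - 1) (fun x : K × K =>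
      x.1 ^ ((e.symm s).1 : ℕ) * x.2 ^ (d - 1 - ((e.symm s).1 : ℕ)) *
        ψ (e.symm s).2 (st f x)) := by
    intro s
    obtain ⟨c, hc⟩ := hψ (e.symm s).2
    obtain ⟨g, hg⟩ := h3 K d (N - 1) (c, c) f
    have k1 : ∃ c' : Fin (d * (N - 1) + 1) → K, ∀ x, ψ (e.symm s).2 (st f x) = fv c' x := by
      refine ⟨g.1, fun x => ?_⟩
      rw [hc]
      exact (congrArg Prod.fst (hg x)).symm
    have k2 := isF_mul (isF_mono (A := K) (n := d - 1) ((e.symm s).1 : ℕ)
      (by have := (e.symm s).1.2; omega)) k1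
    have k3 : d - 1 + d * (N - 1) = d * N - 1 := by
      obtain ⟨N', rfl⟩ : ∃ N', N = N' + 1 := ⟨N - 1, by omega⟩
      rw [Nat.add_sub_cancel, Nat.mul_add]
      omega
    rw [k3] at k2
    exact k2
  have hdN : 1 ≤ d * N := Nat.mul_pos (by omega) hN
  obtain ⟨κ', hκ'⟩ := h2 K (d * N) _ hdN hform
  refine ⟨κ', ?_, hκ'⟩
  obtain ⟨w, y, γ, a1, a2, a3, a4, a5⟩ := h1 K d f ρ N hf
  -- evaluation at the special points
  have b1 := hκ' (fun t => y (e.symm t).2 (e.symm t).1)
  obtain ⟨AA, hAA⟩ : ∃ AA : Fin N → Matrix (Fin d) (Fin d) K, ∀ i,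
      AA i = Matrix.of fun (c b : Fin d) =>
        (y i b).1 ^ (c : ℕ) * (y i b).2 ^ (d - 1 - (c : ℕ)) := ⟨_, fun _ => rfl⟩
  obtain ⟨BB, hBB⟩ : ∃ BB : Matrix (Fin N) (Fin N) K,
      BB = Matrix.of fun s i => ψ s (w i) := ⟨_, rfl⟩
  have b2 : (Matrix.of fun s i : Fin (d * N) =>
      (y (e.symm i).2 (e.symm i).1).1 ^ ((e.symm s).1 : ℕ) *
      (y (e.symm i).2 (e.symm i).1).2 ^ (d - 1 - ((e.symm s).1 : ℕ)) *
        ψ (e.symm s).2 (st f (y (e.symm i).2 (e.symm i).1))) =
      (Matrix.of fun (p q : Fin d × Fin N) =>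
        AA q.2 p.1 q.1 * BB p.2 q.2).submatrix e.symm e.symm := by
    ext s i
    simp only [Matrix.submatrix_apply, Matrix.of_apply, a1, hAA, hBB]
  rw [b2, Matrix.det_submatrix_equiv_self, detP, hBB, hdet w] at b1
  have b3 : (κ * VP w) ^ (2 * d) * ∏ i, VP (y i) ^ 2 =
      κ' ^ 2 * VP (fun t => y (e.symm t).2 (e.symm t).1) ^ 2 := by
    have b5 : ∏ i, VP (y i) ^ 2 = (∏ i, (AA i).det) ^ 2 := by
      rw [← Finset.prod_pow]
      refine Finset.prod_congr rfl fun i _ => ?_
      rw [hAA, detA]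
    rw [b5, ← mul_pow κ' _ 2, ← b1, mul_pow _ _ 2, ← pow_mul, mul_comm 2 d]
  have c1 : Qx (fun t : Fin (d * N) => y (e.symm t).2 (e.symm t).1) =
      Qx (fun p : Fin d × Fin N => y p.2 p.1) :=
    Qx_equiv e.symm (fun p : Fin d × Fin N => y p.2 p.1)
  have c2 := Qx_total ρ (st f) w y γ a1 a4 a5
  have c3 : (∏ i, Qx (y i)) * Qx w ^ d ≠ 0 := by
    refine mul_ne_zero (Finset.prod_ne_zero_iff.mpr fun i _ => Qx_ne _ (a3 i)) ?_
    exact pow_ne_zero _ (Qx_ne _ a2)
  have c4 : (κ * VP w) ^ (2 * d) * ∏ i, VP (y i) ^ 2 =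
      κ ^ (2 * d) * (sg K N ^ d * sg K d ^ N) * ((∏ i, Qx (y i)) * Qx w ^ d) := by
    have c5 : ∏ i, VP (y i) ^ 2 = sg K d ^ N * ∏ i, Qx (y i) := by
      rw [Finset.prod_congr rfl fun i _ => VP_Qx (y i), Finset.prod_mul_distrib,
        Finset.prod_const, Finset.card_univ, Fintype.card_fin]
    rw [c5, mul_pow, pow_mul (VP w) 2 d, VP_Qx w]
    ring
  rw [c4, VP_Qx, c1, ← c2, sg_mul] at b3
  have c6 : Qx (fun p : Fin d × Fin N => y p.2 p.1) ≠ 0 := by
    intro h
    rw [h, zero_mul] at c2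
    exact c3 c2.symm
  have c7 : sg K N ^ d * sg K d ^ N ≠ 0 := by
    have h0 : ∀ n, sg K n ≠ 0 := fun n h => by
      have := sg_sq K n
      rw [h, zero_mul] at this
      exact zero_ne_one this
    exact mul_ne_zero (pow_ne_zero _ (h0 N)) (pow_ne_zero _ (h0 d))
  have c8 : κ' ^ 2 = (ρ ^ (N * (N - 1) / 2) * κ ^ d) ^ 2 := by
    rw [mul_pow, ← pow_mul, ← pow_mul, mul_comm (N * (N - 1) / 2) 2, even_half,
      mul_comm d 2]
    have c9 : (sg K N ^ d * sg K d ^ N) * Qx (fun p : Fin d × Fin N => y p.2 p.1) ≠ 0 :=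
      mul_ne_zero c7 c6
    refine mul_right_cancel₀ c9 ?_
    rw [← b3]
    ring
  exact sq_eq_sq_iff_eq_or_eq_neg.mp c8

end Pool.Agent.UMR
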