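import Pool.Agent.UMR.Targets

set_option autoImplicit false

/-!
# ENERGY: lower bound for the energy of `d ^ m` points
-/

namespace Pool.Agent.UMR

open Finset
open scoped BigOperators

namespace ENERGY_

theorem pairs {N : ℕ} (hN : 1 ≤ N) (a : Fin N → ℝ) :
    ∑ i, ∑ j ∈ Ioi i, (a i + a j) = ((N : ℝ) - 1) * ∑ i, a i := by
  have h1 : ∑ i, ∑ j ∈ Ioi i, (a i + a j) =
      ∑ i, ∑ j ∈ Ioi i, a i + ∑ i, ∑ j ∈ Ioi i, a j := by
    rw [← Finset.sum_add_distrib]
    apply Finset.sum_congr rfl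
    intro i _
    rw [Finset.sum_add_distrib]
  have h2 : ∑ i : Fin N, ∑ j ∈ Ioi i, a j = ∑ j : Fin N, ∑ i ∈ Iio j, a j := by
    apply Finset.sum_comm'
    intro x y
    simp [Finset.mem_Ioi, Finset.mem_Iio]
  rw [h1, h2, ← Finset.sum_add_distrib, Finset.mul_sum]
  apply Finset.sum_congr rfl
  intro i _
  rw [Finset.sum_const, Finset.sum_const, ← add_smul, nsmul_eq_mul]
  congr 1
  rw [Fin.card_Ioi, Fin.card_Iio]
  have : N - 1 - (i : ℕ) + (i : ℕ) = N - 1 := by
    have := i.2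
    omega
  rw [this, Nat.cast_sub hN, Nat.cast_one]

theorem pairs_const {N : ℕ} (hN : 1 ≤ N) (c : ℝ) :
    ∑ i : Fin N, ∑ _j ∈ Ioi i, c = (N : ℝ) * ((N : ℝ) - 1) / 2 * c := by
  have h := pairs hN (fun _ => c / 2)
  simp only [add_halves, Finset.sum_const, Finset.card_univ, Fintype.card_fin, nsmul_eq_mul] at h
  simp only [Finset.sum_const, nsmul_eq_mul]
  rw [h]
  ring

/-- closed form of the exponents -/
theorem ee_closed (d : ℕ) (hd : 2 ≤ d) (m : ℕ) :
    (ee d m : ℝ) = (d : ℝ) ^ m * ((d : ℝ) ^ m - 1) / (2 * (d * (d - 1))) -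
      (d : ℝ) ^ m * m / (2 * d) := by
  have hd0 : (d : ℝ) ≠ 0 := by
    have : d ≠ 0 := by omega
    exact_mod_cast this
  have hd1 : (d : ℝ) - 1 ≠ 0 := by
    have : (2 : ℝ) ≤ d := by exact_mod_cast hd
    linarith
  induction m with
  | zero => simp [ee]
  | succ m ih =>
    have h1 : ((d ^ m * (d ^ m - 1) / 2 : ℕ) : ℝ) = (d : ℝ) ^ m * ((d : ℝ) ^ m - 1) / 2 := by
      rw [Nat.cast_div (Nat.even_mul_pred_self _).two_dvd (by norm_num)]
      rw [Nat.cast_mul, Nat.cast_sub (Nat.one_le_pow _ _ (by omega))]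
      push_cast
      ring
    rw [ee, Nat.cast_add, Nat.cast_mul, ih, h1, pow_succ]
    push_cast
    field_simp
    ring

theorem prop_of_wd {K : Type} [Field K] {x y : K × K} (hx : x ≠ 0) (h : wd x y = 0) :
    ∃ c : K, y = c • x := by
  unfold wd at h
  by_cases h1 : x.1 = 0
  · have h2 : x.2 ≠ 0 := by
      intro h2
      exact hx (Prod.ext h1 h2)
    refine ⟨y.2 / x.2, ?_⟩
    apply Prod.ext
    · simp only [Prod.smul_fst, smul_eq_mul]
      rw [h1] at h
      have h3 : x.2 * y.1 = 0 := by linear_combination -h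
      rcases mul_eq_zero.1 h3 with h4 | h4
      · exact absurd h4 h2
      · rw [h4, h1, mul_zero]
    · simp only [Prod.smul_snd, smul_eq_mul]
      field_simp
  · refine ⟨y.1 / x.1, ?_⟩
    apply Prod.ext
    · simp only [Prod.smul_fst, smul_eq_mul]
      field_simp
    · simp only [Prod.smul_snd, smul_eq_mul]
      field_simp
      linear_combination h

theorem fv_smul {K : Type} [Field K] {n : ℕ} (c : Fin (n + 1) → K) (t : K) (x : K × K) :
    fv c (t • x) = t ^ n * fv c x := by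
  unfold fv
  rw [Finset.mul_sum]
  apply Finset.sum_congr rfl
  intro i _
  simp only [Prod.smul_fst, Prod.smul_snd, smul_eq_mul]
  have h1 : t ^ n = t ^ (i : ℕ) * t ^ (n - (i : ℕ)) := by
    rw [← pow_add]
    congr 1
    have := i.2
    omega
  rw [mul_pow, mul_pow, h1]
  ring

theorem st_smul {K : Type} [Field K] {d : ℕ} (f : Pr K d) (t : K) (x : K × K) :
    st f (t • x) = t ^ d • st f x := by
  unfold st
  rw [fv_smul, fv_smul]
  rfl

theorem st_ne {K : Type} [Field K] {d : ℕ} {f : Pr K d} {ρ : K} (h : AG f ρ) {x : K × K}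
    (hx : x ≠ 0) : st f x ≠ 0 := by
  intro h0
  obtain ⟨γ, y, hγ, hy, hprod⟩ := h.gam (1, 0) (by simp)
  have hd := h.hd
  have hγ0 : γ ≠ 0 := by
    rintro rfl
    rw [zero_pow (by omega)] at hγ
    exact h.ne hγ.symm
  have h1 := hprod x
  rw [h0] at h1
  have h2 : wd (0 : K × K) (1, 0) = 0 := by simp [wd]
  rw [h2] at h1
  have h3 : ∏ b, wd x (y b) = 0 := by
    rcases mul_eq_zero.1 h1.symm with h | h
    · exact absurd h hγ0
    · exact h
  obtain ⟨b, -, hb⟩ := Finset.prod_eq_zero_iff.1 h3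
  obtain ⟨c, hc⟩ := prop_of_wd hx hb
  have h4 := hy b
  rw [hc, st_smul, h0, smul_zero] at h4
  have := congrArg Prod.fst h4
  simp at this

theorem iter_ne {K : Type} [Field K] {d : ℕ} {f : Pr K d} {ρ : K} (h : AG f ρ) {x : K × K}
    (hx : x ≠ 0) (k : ℕ) : (st f)^[k] x ≠ 0 := by
  induction k with
  | zero => exact hx
  | succ k ih =>
    rw [Function.iterate_succ_apply']
    exact st_ne h ih

theorem H_iter {K : Type} [Field K] {d : ℕ} {v : AbsoluteValue K ℝ} {f : Pr K d} {ρ : K}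
    {H : K × K → ℝ} {C : ℝ} (h : LD v f ρ H C) {x : K × K} (hx : x ≠ 0) (k : ℕ) :
    H ((st f)^[k] x) = (d : ℝ) ^ k * H x := by
  induction k with
  | zero => simp
  | succ k ih =>
    rw [Function.iterate_succ_apply', h.fe _ (iter_ne h.ag hx k), ih, pow_succ]
    ring

theorem nm_pos {K : Type} [Field K] (v : AbsoluteValue K ℝ) {x : K × K} (hx : x ≠ 0) :
    0 < nm v x := by
  unfold nm
  rw [lt_max_iff]
  by_contra hcon
  push Not at hcon
  apply hx
  apply Prod.ext
  · have := le_antisymm hcon.1 (v.nonneg _)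
    simpa using this
  · have := le_antisymm hcon.2 (v.nonneg _)
    simpa using this

end ENERGY_

open ENERGY_ in
theorem p_ENERGY (h1 : T_DETV) : T_ENERGY := by
  intro K _ _ _ v d f ρ H C hLD
  have hd := hLD.ag.hd
  have hd2 : (2 : ℝ) ≤ d := by exact_mod_cast hd
  have hρ : 0 < v ρ := by
    rw [AbsoluteValue.pos_iff]
    exact hLD.ag.ne
  refine ⟨|Real.log (v ρ)| / (2 * d) + (d - 1) * |C|, by
    have : (0 : ℝ) ≤ d - 1 := by linarith
    positivity, ?_⟩
  intro m x hw hx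
  have hN : 1 ≤ d ^ m := Nat.one_le_pow _ _ (by omega)
  have hdet := h1 K v d f ρ hLD.vv hLD.ag m x
  have hVP : v (VP x) = ∏ i, ∏ j ∈ Ioi i, v (wd (x i) (x j)) := by
    unfold VP
    rw [map_prod]
    apply Finset.prod_congr rfl
    intro i _
    rw [map_prod]
  have hwpos : ∀ i : Fin (d ^ m), ∀ j ∈ Ioi i, 0 < v (wd (x i) (x j)) := by
    intro i j hj
    rw [AbsoluteValue.pos_iff]
    exact hw i j (Finset.mem_Ioi.1 hj).ne
  have hVP0 : 0 < v (VP x) := by
    rw [hVP]
    exact Finset.prod_pos (fun i _ => Finset.prod_pos (fun j hj => hwpos i j hj))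
  have hlogVP : Real.log (v (VP x)) = ∑ i, ∑ j ∈ Ioi i, Real.log (v (wd (x i) (x j))) := by
    rw [hVP, Real.log_prod (fun i _ => (Finset.prod_pos (fun j hj => hwpos i j hj)).ne')]
    apply Finset.sum_congr rfl
    intro i _
    rw [Real.log_prod (fun j hj => (hwpos i j hj).ne')]
  have hlog := Real.log_le_log (mul_pos (pow_pos hρ _) hVP0) hdet
  rw [Real.log_mul (pow_pos hρ _).ne' hVP0.ne', Real.log_pow, hlogVP] at hlog
  have hnm : ∀ i : Fin (d ^ m), ∀ k ∈ range m, 0 < nm v ((st f)^[k] (x i)) ^ (d - 1) :=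
    fun i k _ => pow_pos (nm_pos v (iter_ne hLD.ag (hx i) k)) _
  have hrhs : Real.log (∏ i, ∏ k ∈ range m, nm v ((st f)^[k] (x i)) ^ (d - 1)) ≤
      ((d : ℝ) ^ m - 1) * ∑ i, H (x i) + (d - 1) * |C| * m * (d : ℝ) ^ m := by
    rw [Real.log_prod (fun i _ => (Finset.prod_pos (fun k hk => hnm i k hk)).ne')]
    have h2 : ∀ i : Fin (d ^ m), Real.log (∏ k ∈ range m, nm v ((st f)^[k] (x i)) ^ (d - 1)) ≤
        ((d : ℝ) ^ m - 1) * H (x i) + (d - 1) * |C| * m := by
      intro i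
      rw [Real.log_prod (fun k hk => (hnm i k hk).ne')]
      have h3 : ∀ k ∈ range m, Real.log (nm v ((st f)^[k] (x i)) ^ (d - 1)) ≤
          ((d : ℝ) - 1) * ((d : ℝ) ^ k * H (x i)) + (d - 1) * |C| := by
        intro k _
        rw [Real.log_pow, Nat.cast_sub (by omega), Nat.cast_one]
        have h4 := hLD.near _ (iter_ne hLD.ag (hx i) k)
        rw [H_iter hLD (hx i) k] at h4
        have h5 := (abs_le.1 h4).1
        have h6 : C ≤ |C| := le_abs_self C
        have h7 : (0 : ℝ) ≤ d - 1 := by linarith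
        have h8 : Real.log (nm v ((st f)^[k] (x i))) ≤ (d : ℝ) ^ k * H (x i) + |C| := by linarith
        calc ((d : ℝ) - 1) * Real.log (nm v ((st f)^[k] (x i)))
            ≤ ((d : ℝ) - 1) * ((d : ℝ) ^ k * H (x i) + |C|) := mul_le_mul_of_nonneg_left h8 h7
          _ = _ := by ring
      refine (Finset.sum_le_sum h3).trans (le_of_eq ?_)
      rw [Finset.sum_add_distrib, Finset.sum_const, Finset.card_range, nsmul_eq_mul,
        ← Finset.mul_sum, ← Finset.sum_mul]
      have h9 : ((d : ℝ) - 1) * ∑ k ∈ range m, (d : ℝ) ^ k = (d : ℝ) ^ m - 1 := by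
        rw [mul_comm]
        exact geom_sum_mul (d : ℝ) m
      rw [← mul_assoc, h9]
      ring
    refine (Finset.sum_le_sum (fun i _ => h2 i)).trans (le_of_eq ?_)
    rw [Finset.sum_add_distrib, ← Finset.mul_sum, Finset.sum_const, Finset.card_univ,
      Fintype.card_fin, nsmul_eq_mul]
    push_cast
    ring
  have hsum : ∑ i, ∑ j ∈ Ioi i, gg d v ρ H (x i) (x j) =
      -(∑ i, ∑ j ∈ Ioi i, Real.log (v (wd (x i) (x j)))) +
        ((d : ℝ) ^ m - 1) * ∑ i, H (x i) +
        (d : ℝ) ^ m * ((d : ℝ) ^ m - 1) / 2 * kp d v ρ := by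
    have h3 := pairs hN (fun i => H (x i))
    have h4 := pairs_const hN (kp d v ρ)
    push_cast at h3 h4
    rw [← h3, ← h4, ← Finset.sum_neg_distrib, ← Finset.sum_add_distrib,
      ← Finset.sum_add_distrib]
    apply Finset.sum_congr rfl
    intro i _
    rw [← Finset.sum_neg_distrib, ← Finset.sum_add_distrib, ← Finset.sum_add_distrib]
    apply Finset.sum_congr rfl
    intro j _
    unfold gg
    ring
  rw [hsum]
  have hkp : kp d v ρ = - Real.log (v ρ) / (d * (d - 1)) := rfl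
  have hee := ee_closed d hd m
  rw [hee] at hlog
  have hd0 : (d : ℝ) ≠ 0 := by linarith
  have hd1 : (d : ℝ) - 1 ≠ 0 := by linarith
  have hkey : (d : ℝ) ^ m * ((d : ℝ) ^ m - 1) / 2 * kp d v ρ +
      ((d : ℝ) ^ m * ((d : ℝ) ^ m - 1) / (2 * (d * (d - 1))) - (d : ℝ) ^ m * m / (2 * d)) *
        Real.log (v ρ) = - ((d : ℝ) ^ m * m / (2 * d) * Real.log (v ρ)) := by
    rw [hkp]
    field_simp
    ring
  have habs : (d : ℝ) ^ m * m / (2 * d) * Real.log (v ρ) ≤
      |Real.log (v ρ)| / (2 * d) * m * (d : ℝ) ^ m := by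
    calc (d : ℝ) ^ m * m / (2 * d) * Real.log (v ρ)
        ≤ (d : ℝ) ^ m * m / (2 * d) * |Real.log (v ρ)| := by
          apply mul_le_mul_of_nonneg_left (le_abs_self _)
          positivity
      _ = |Real.log (v ρ)| / (2 * d) * m * (d : ℝ) ^ m := by ring
  have hfin : -((|Real.log (v ρ)| / (2 * d) + (d - 1) * |C|) * m * (d : ℝ) ^ m) =
      -(|Real.log (v ρ)| / (2 * d) * m * (d : ℝ) ^ m) - (d - 1) * |C| * m * (d : ℝ) ^ m := by
    ring
  rw [hfin]
  linarith

end Pool.Agent.UMR
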