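import Pool.Agent.UMR.Targets

set_option autoImplicit false

/-!
# Existence of the escape rate
-/

namespace Pool.Agent.UMR

open Finset Filter Topology

namespace ESC_

variable {K : Type} [Field K]

theorem fv_smul {n : ℕ} (c : Fin (n + 1) → K) (a : K) (x : K × K) :
    fv c (a • x) = a ^ n * fv c x := by
  unfold fv
  rw [Finset.mul_sum]
  apply Finset.sum_congr rfl
  intro i _
  have e : a ^ n = a ^ (i : ℕ) * a ^ (n - (i : ℕ)) := by
    rw [← pow_add]
    congr 1
    have := i.2
    omega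
  change c i * (a * x.1) ^ (i : ℕ) * (a * x.2) ^ (n - (i : ℕ)) = _
  rw [e, mul_pow, mul_pow]
  ring

theorem st_smul {d : ℕ} (f : Pr K d) (a : K) (x : K × K) :
    st f (a • x) = a ^ d • st f x := by
  unfold st
  rw [fv_smul, fv_smul]
  rfl

theorem iter_smul {d : ℕ} (f : Pr K d) (a : K) (x : K × K) (n : ℕ) :
    (st f)^[n] (a • x) = a ^ (d ^ n) • (st f)^[n] x := by
  induction n with
  | zero => simp
  | succ n ih =>
    rw [Function.iterate_succ_apply', ih, st_smul, Function.iterate_succ_apply', ← pow_mul,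
      pow_succ]

theorem nm_smul (v : AbsoluteValue K ℝ) (a : K) (x : K × K) : nm v (a • x) = v a * nm v x := by
  unfold nm
  change max (v (a * x.1)) (v (a * x.2)) = _
  rw [map_mul, map_mul, mul_max_of_nonneg _ _ (v.nonneg a)]

theorem nm_nonneg (v : AbsoluteValue K ℝ) (x : K × K) : 0 ≤ nm v x :=
  (v.nonneg x.1).trans (le_max_left _ _)

theorem nm_pos {v : AbsoluteValue K ℝ} {x : K × K} (h : x ≠ 0) : 0 < nm v x := by
  unfold nm
  by_cases h1 : x.1 = 0
  · have h2 : x.2 ≠ 0 := fun h2 => h (Prod.ext h1 h2)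
    exact lt_max_of_lt_right (v.pos h2)
  · exact lt_max_of_lt_left (v.pos h1)

theorem cn_nonneg (v : AbsoluteValue K ℝ) {d : ℕ} (f : Pr K d) : 0 ≤ cn v f := by
  unfold cn gn
  exact (Real.iSup_nonneg fun i => v.nonneg _).trans (le_max_left _ _)

end ESC_

open ESC_ in
theorem p_ESC (h1 : T_BD) : T_ESC := by
  intro K _ _ v d f ρ hv hag
  have hBD := h1 K v d f ρ hv hag
  have hd2 : (2 : ℝ) ≤ d := by exact_mod_cast hag.hd
  have hd0 : (0 : ℝ) < d := by linarith
  have hρ : 0 < v ρ := v.pos hag.ne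
  have hcn : 0 < cn v f := by
    rcases (cn_nonneg v f).lt_or_eq with h | h
    · exact h
    · exfalso
      have h2 := (hBD (1, 0)).2
      have h3 : nm v ((1, 0) : K × K) = 1 := by unfold nm; simp
      rw [h3, one_pow, mul_one, ← h, zero_pow (by have := hag.hd; omega), zero_mul] at h2
      linarith
  have hpos : ∀ x : K × K, x ≠ 0 → 0 < nm v (st f x) := by
    intro x hx
    have h2 := (hBD x).2
    have h3 : 0 < v ρ * nm v x ^ d := mul_pos hρ (pow_pos (nm_pos hx) _)
    have h4 : 0 < cn v f ^ (2 * d - 1) * nm v (st f x) := h3.trans_le h2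
    exact pos_of_mul_pos_right h4 (pow_pos hcn _).le
  have hne : ∀ x : K × K, x ≠ 0 → st f x ≠ 0 := by
    intro x hx h0
    have h2 := hpos x hx
    rw [h0] at h2
    unfold nm at h2
    simp at h2
  have hnen : ∀ (n : ℕ) (x : K × K), x ≠ 0 → (st f)^[n] x ≠ 0 := by
    intro n x hx
    induction n with
    | zero => exact hx
    | succ n ih => rw [Function.iterate_succ_apply']; exact hne _ ih
  obtain ⟨C0, hC0⟩ : ∃ C0 : ℝ, ∀ x : K × K, x ≠ 0 →
      |Real.log (nm v (st f x)) - d * Real.log (nm v x)| ≤ C0 := by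
    refine ⟨|Real.log (cn v f)| + |((2 * d - 1 : ℕ) : ℝ) * Real.log (cn v f) - Real.log (v ρ)|,
      ?_⟩
    intro x hx
    have hx1 := nm_pos (v := v) hx
    have hx2 := hpos x hx
    have l1 := Real.log_le_log hx2 (hBD x).1
    rw [Real.log_mul hcn.ne' (pow_pos hx1 _).ne', Real.log_pow] at l1
    have l2 := Real.log_le_log (mul_pos hρ (pow_pos hx1 _)) (hBD x).2
    rw [Real.log_mul hρ.ne' (pow_pos hx1 _).ne', Real.log_mul (pow_pos hcn _).ne' hx2.ne',
      Real.log_pow, Real.log_pow] at l2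
    have a1 := le_abs_self (Real.log (cn v f))
    have a2 := le_abs_self (((2 * d - 1 : ℕ) : ℝ) * Real.log (cn v f) - Real.log (v ρ))
    have a3 := abs_nonneg (Real.log (cn v f))
    have a4 := abs_nonneg (((2 * d - 1 : ℕ) : ℝ) * Real.log (cn v f) - Real.log (v ρ))
    rw [abs_le]
    constructor <;> linarith
  set h : ℕ → K × K → ℝ := fun n x => Real.log (nm v ((st f)^[n] x)) / (d : ℝ) ^ n with hh
  have hstep : ∀ x : K × K, x ≠ 0 → ∀ n, dist (h n x) (h (n + 1) x) ≤ C0 / d * (1 / (d : ℝ)) ^ n := by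
    intro x hx n
    have h2 := hC0 _ (hnen n x hx)
    have e : h (n + 1) x - h n x = (Real.log (nm v (st f ((st f)^[n] x))) -
        d * Real.log (nm v ((st f)^[n] x))) / (d : ℝ) ^ (n + 1) := by
      simp only [hh]
      rw [Function.iterate_succ_apply', pow_succ]
      field_simp
    rw [dist_comm, Real.dist_eq, e, abs_div, abs_of_pos (pow_pos hd0 (n + 1)),
      div_le_iff₀ (pow_pos hd0 (n + 1))]
    have e2 : C0 / d * (1 / (d : ℝ)) ^ n * (d : ℝ) ^ (n + 1) = C0 := by
      rw [pow_succ, one_div, inv_pow]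
      field_simp
    rw [e2]
    exact h2
  have hr : 1 / (d : ℝ) < 1 := by
    rw [div_lt_one hd0]
    linarith
  have hlim : ∀ x : K × K, x ≠ 0 → ∃ a : ℝ, Tendsto (fun n => h n x) atTop (𝓝 a) := fun x hx =>
    cauchySeq_tendsto_of_complete (cauchySeq_of_le_geometric _ _ hr (hstep x hx))
  classical
  set H : K × K → ℝ := fun x => if hx : x ≠ 0 then (hlim x hx).choose else 0 with hH
  have hHl : ∀ x : K × K, x ≠ 0 → Tendsto (fun n => h n x) atTop (𝓝 (H x)) := by
    intro x hx
    simp only [hH]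
    rw [dif_pos hx]
    exact (hlim x hx).choose_spec
  refine ⟨H, C0 / d / (1 - 1 / d), hv, hag, ?_, ?_, ?_⟩
  · intro x hx
    have t1 := hHl _ (hne x hx)
    have t2 := ((tendsto_add_atTop_iff_nat 1).mpr (hHl x hx)).const_mul (d : ℝ)
    apply tendsto_nhds_unique t1
    refine t2.congr ?_
    intro n
    simp only [hh]
    rw [Function.iterate_succ_apply, pow_succ]
    field_simp
  · intro x hx
    have t := dist_le_of_le_geometric_of_tendsto₀ _ _ hr (hstep x hx) (hHl x hx)
    have e : h 0 x = Real.log (nm v x) := by simp [hh]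
    rw [e, dist_comm, Real.dist_eq] at t
    exact t
  · intro c x hc hx
    have hcx : c • x ≠ 0 := smul_ne_zero hc hx
    apply tendsto_nhds_unique (hHl _ hcx)
    refine ((hHl x hx).add_const (Real.log (v c))).congr ?_
    intro n
    simp only [hh]
    rw [iter_smul, nm_smul, map_pow, Real.log_mul (pow_pos (v.pos hc) _).ne'
      (nm_pos (hnen n x hx)).ne', Real.log_pow, Nat.cast_pow]
    field_simp
    ring

end Pool.Agent.UMR
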