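import Pool.Agent.UMR.Targets

set_option autoImplicit false

/-!
# ETA: the escape rate near finitely many points
-/

namespace Pool.Agent.UMR

open Finset
open scoped BigOperators

namespace ETA_

theorem prop_of_wd {K : Type} [Field K] {x y : K × K} (hx : x ≠ 0) (h : wd x y = 0) :
    ∃ c : K, y = c • x := by
  unfold wd at h
  by_cases h1 : x.1 = 0
  · have h2 : x.2 ≠ 0 := by
      intro h2
      exact hx (Prod.ext h1 h2)
    refine ⟨y.2 / x.2, ?_⟩
    apply Prod.ext
    · simp only [Prod.smul_fst, smul_eq_mul]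
      rw [h1] at h
      have h3 : x.2 * y.1 = 0 := by linear_combination -h
      rcases mul_eq_zero.1 h3 with h4 | h4
      · exact absurd h4 h2
      · rw [h4, h1, mul_zero]
    · simp only [Prod.smul_snd, smul_eq_mul]
      field_simp
  · refine ⟨y.1 / x.1, ?_⟩
    apply Prod.ext
    · simp only [Prod.smul_fst, smul_eq_mul]
      field_simp
    · simp only [Prod.smul_snd, smul_eq_mul]
      field_simp
      linear_combination h

theorem fv_smul {K : Type} [Field K] {n : ℕ} (c : Fin (n + 1) → K) (t : K) (x : K × K) :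
    fv c (t • x) = t ^ n * fv c x := by
  unfold fv
  rw [Finset.mul_sum]
  apply Finset.sum_congr rfl
  intro i _
  simp only [Prod.smul_fst, Prod.smul_snd, smul_eq_mul]
  have h1 : t ^ n = t ^ (i : ℕ) * t ^ (n - (i : ℕ)) := by
    rw [← pow_add]
    congr 1
    have := i.2
    omega
  rw [mul_pow, mul_pow, h1]
  ring

theorem st_smul {K : Type} [Field K] {d : ℕ} (f : Pr K d) (t : K) (x : K × K) :
    st f (t • x) = t ^ d • st f x := by
  unfold st
  rw [fv_smul, fv_smul]
  rfl

theorem st_ne {K : Type} [Field K] {d : ℕ} {f : Pr K d} {ρ : K} (h : AG f ρ) {x : K × K}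
    (hx : x ≠ 0) : st f x ≠ 0 := by
  intro h0
  obtain ⟨γ, y, hγ, hy, hprod⟩ := h.gam (1, 0) (by simp)
  have hd := h.hd
  have hγ0 : γ ≠ 0 := by
    rintro rfl
    rw [zero_pow (by omega)] at hγ
    exact h.ne hγ.symm
  have h1 := hprod x
  rw [h0] at h1
  have h2 : wd (0 : K × K) (1, 0) = 0 := by simp [wd]
  rw [h2] at h1
  have h3 : ∏ b, wd x (y b) = 0 := by
    rcases mul_eq_zero.1 h1.symm with h | h
    · exact absurd h hγ0
    · exact h
  obtain ⟨b, -, hb⟩ := Finset.prod_eq_zero_iff.1 h3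
  obtain ⟨c, hc⟩ := prop_of_wd hx hb
  have h4 := hy b
  rw [hc, st_smul, h0, smul_zero] at h4
  have := congrArg Prod.fst h4
  simp at this

theorem iter_ne {K : Type} [Field K] {d : ℕ} {f : Pr K d} {ρ : K} (h : AG f ρ) {x : K × K}
    (hx : x ≠ 0) (k : ℕ) : (st f)^[k] x ≠ 0 := by
  induction k with
  | zero => exact hx
  | succ k ih =>
    rw [Function.iterate_succ_apply']
    exact st_ne h ih

theorem H_iter {K : Type} [Field K] {d : ℕ} {v : AbsoluteValue K ℝ} {f : Pr K d} {ρ : K}
    {H : K × K → ℝ} {C : ℝ} (h : LD v f ρ H C) {x : K × K} (hx : x ≠ 0) (k : ℕ) :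
    H ((st f)^[k] x) = (d : ℝ) ^ k * H x := by
  induction k with
  | zero => simp
  | succ k ih =>
    rw [Function.iterate_succ_apply', h.fe _ (iter_ne h.ag hx k), ih, pow_succ]
    ring

theorem nm_pos {K : Type} [Field K] (v : AbsoluteValue K ℝ) {x : K × K} (hx : x ≠ 0) :
    0 < nm v x := by
  unfold nm
  rw [lt_max_iff]
  by_contra hcon
  push Not at hcon
  apply hx
  apply Prod.ext
  · have := le_antisymm hcon.1 (v.nonneg _)
    simpa using this
  · have := le_antisymm hcon.2 (v.nonneg _)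
    simpa using this


theorem ultra3 {K : Type} [Field K] {v : AbsoluteValue K ℝ} (hv : VV v) (x y z : K × K)
    (hx : nm v x ≤ 1) (hy : nm v y = 1) (hz : nm v z = 1) :
    v (wd x z) ≤ max (v (wd x y)) (v (wd y z)) := by
  have h1 : wd x z * y.1 = wd x y * z.1 + wd y z * x.1 := by
    unfold wd; ring
  have h2 : wd x z * y.2 = wd x y * z.2 + wd y z * x.2 := by
    unfold wd; ring
  have hx1 : v x.1 ≤ 1 := (le_max_left _ _).trans hx
  have hx2 : v x.2 ≤ 1 := (le_max_right _ _).trans hx
  have hz1 : v z.1 ≤ 1 := (le_max_left _ _).trans hz.le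
  have hz2 : v z.2 ≤ 1 := (le_max_right _ _).trans hz.le
  have h3 : v (wd x z) * v y.1 ≤ max (v (wd x y)) (v (wd y z)) := by
    rw [← map_mul, h1]
    refine (hv.ultra _ _).trans (max_le_max ?_ ?_)
    · rw [map_mul]
      exact mul_le_of_le_one_right (v.nonneg _) hz1
    · rw [map_mul]
      exact mul_le_of_le_one_right (v.nonneg _) hx1
  have h4 : v (wd x z) * v y.2 ≤ max (v (wd x y)) (v (wd y z)) := by
    rw [← map_mul, h2]
    refine (hv.ultra _ _).trans (max_le_max ?_ ?_)
    · rw [map_mul]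
      exact mul_le_of_le_one_right (v.nonneg _) hz2
    · rw [map_mul]
      exact mul_le_of_le_one_right (v.nonneg _) hx2
  unfold nm at hy
  rcases max_choice (v y.1) (v y.2) with h | h
  · rw [h] at hy
    rwa [hy, mul_one] at h3
  · rw [h] at hy
    rwa [hy, mul_one] at h4

theorem wd_comm' {K : Type} [Field K] (v : AbsoluteValue K ℝ) (x y : K × K) :
    v (wd x y) = v (wd y x) := by
  have : wd x y = - wd y x := by unfold wd; ring
  rw [this, AbsoluteValue.map_neg]

theorem wd_self {K : Type} [Field K] (x : K × K) : wd x x = 0 := by unfold wd; ring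

theorem near_eq {K : Type} [Field K] {v : AbsoluteValue K ℝ} (hv : VV v) (x z z' : K × K)
    (hx : nm v x = 1) (hz : nm v z = 1) (hz' : nm v z' = 1)
    (h : v (wd x z) ≤ v (wd x z')) : v (wd x z') = max (v (wd x z)) (v (wd z z')) := by
  apply le_antisymm
  · exact ultra3 hv x z z' hx.le hz hz'
  · apply max_le h
    have h1 := ultra3 hv z x z' hz.le hx hz'
    rw [wd_comm' v z x] at h1
    rwa [max_eq_right h] at h1

/-- one factor -/
noncomputable def PE {K : Type} [Field K] (v : AbsoluteValue K ℝ) {D : ℕ} (A : ℝ)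
    (w : Fin D → K × K) (z : K × K) (r : ℝ) : ℝ := A * ∏ j, max r (v (wd z (w j)))

theorem PE_nonneg {K : Type} [Field K] (v : AbsoluteValue K ℝ) {D : ℕ} {A : ℝ} (hA : 0 ≤ A)
    (w : Fin D → K × K) (z : K × K) {r : ℝ} : 0 ≤ PE v A w z r := by
  unfold PE
  exact mul_nonneg hA (Finset.prod_nonneg (fun j _ => le_max_of_le_right (v.nonneg _)))

theorem PE_mono {K : Type} [Field K] (v : AbsoluteValue K ℝ) {D : ℕ} {A : ℝ} (hA : 0 ≤ A)
    (w : Fin D → K × K) (z : K × K) {r r' : ℝ} (hr : r ≤ r') :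
    PE v A w z r ≤ PE v A w z r' := by
  unfold PE
  apply mul_le_mul_of_nonneg_left _ hA
  apply Finset.prod_le_prod
  · intro j _; exact le_max_of_le_right (v.nonneg _)
  · intro j _; exact max_le_max hr le_rfl

theorem PE_grow {K : Type} [Field K] (v : AbsoluteValue K ℝ) {D : ℕ} {A : ℝ} (hA : 0 ≤ A)
    (w : Fin D → K × K) (z : K × K) {r r' : ℝ} (hr0 : 0 < r) (hr : r ≤ r') :
    PE v A w z r' ≤ (r' / r) ^ D * PE v A w z r := by
  unfold PE
  have h1 : (1 : ℝ) ≤ r' / r := by rw [le_div_iff₀ hr0]; linarith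
  have h2 : ∏ j, max r' (v (wd z (w j))) ≤ ∏ j : Fin D, (r' / r) * max r (v (wd z (w j))) := by
    apply Finset.prod_le_prod
    · intro j _; exact le_max_of_le_right (v.nonneg _)
    · intro j _
      apply max_le
      · calc r' = (r' / r) * r := by field_simp
          _ ≤ (r' / r) * max r (v (wd z (w j))) :=
            mul_le_mul_of_nonneg_left (le_max_left _ _) (by linarith)
      · calc v (wd z (w j)) ≤ max r (v (wd z (w j))) := le_max_right _ _
          _ ≤ (r' / r) * max r (v (wd z (w j))) := by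
            apply le_mul_of_one_le_left _ h1
            exact le_max_of_le_left hr0.le
  rw [Finset.prod_mul_distrib, Finset.prod_const, Finset.card_univ, Fintype.card_fin] at h2
  calc A * ∏ j, max r' (v (wd z (w j)))
      ≤ A * ((r' / r) ^ D * ∏ j, max r (v (wd z (w j)))) := mul_le_mul_of_nonneg_left h2 hA
    _ = _ := by ring

end ETA_

open ETA_ in
open Classical in
theorem p_ETA (h1 : T_ITER) (h2 : T_GAUSS) : T_ETA := by
  intro K _ _ v d f ρ H C hLD k
  have hv := hLD.vv
  have hd := hLD.ag.hd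
  obtain ⟨h, hh⟩ := h1 K d f k
  obtain ⟨w1, hw1, hf1⟩ := h2 K v hv (d ^ k) h.1
  obtain ⟨w2, hw2, hf2⟩ := h2 K v hv (d ^ k) h.2
  have hA1 : 0 ≤ gn v h.1 := Real.iSup_nonneg (fun i => v.nonneg _)
  have hA2 : 0 ≤ gn v h.2 := Real.iSup_nonneg (fun i => v.nonneg _)
  have hD : 1 ≤ d ^ k := Nat.one_le_pow _ _ (by omega)
  have hDr : (1 : ℝ) ≤ (d : ℝ) ^ k := by exact_mod_cast hD
  have hD0 : (0 : ℝ) < (d : ℝ) ^ k := by linarith
  set Z : Finset (K × K) := Finset.univ.image w1 ∪ Finset.univ.image w2 with hZ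
  have hZ1 : ∀ j, w1 j ∈ Z := fun j => by
    rw [hZ, Finset.mem_union]
    exact Or.inl (Finset.mem_image_of_mem _ (Finset.mem_univ _))
  have hZ2 : ∀ j, w2 j ∈ Z := fun j => by
    rw [hZ, Finset.mem_union]
    exact Or.inr (Finset.mem_image_of_mem _ (Finset.mem_univ _))
  have hZn : ∀ z ∈ Z, nm v z = 1 := by
    intro z hz
    rw [hZ, Finset.mem_union] at hz
    rcases hz with hz | hz
    · obtain ⟨j, -, rfl⟩ := Finset.mem_image.1 hz
      exact hw1 j
    · obtain ⟨j, -, rfl⟩ := Finset.mem_image.1 hz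
      exact hw2 j
  set EE : K × K → ℝ → ℝ := fun z r => max (PE v (gn v h.1) w1 z r) (PE v (gn v h.2) w2 z r)
    with hEE
  -- the norm of the image
  have hnmF : ∀ x : K × K, nm v ((st f)^[k] x) =
      max (gn v h.1 * ∏ j, v (wd x (w1 j))) (gn v h.2 * ∏ j, v (wd x (w2 j))) := by
    intro x
    rw [← hh x, ← hf1, ← hf2]
    rfl
  have hup : ∀ z ∈ Z, ∀ (y : K × K) (r : ℝ), nm v y ≤ 1 → v (wd y z) ≤ r →
      nm v ((st f)^[k] y) ≤ EE z r := by
    intro z hz y r hy hr
    rw [hnmF y]
    apply max_le_max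
    · unfold PE
      apply mul_le_mul_of_nonneg_left _ hA1
      apply Finset.prod_le_prod
      · intro j _; exact v.nonneg _
      · intro j _
        exact (ultra3 hv y z (w1 j) hy (hZn z hz) (hw1 j)).trans (max_le_max hr le_rfl)
    · unfold PE
      apply mul_le_mul_of_nonneg_left _ hA2
      apply Finset.prod_le_prod
      · intro j _; exact v.nonneg _
      · intro j _
        exact (ultra3 hv y z (w2 j) hy (hZn z hz) (hw2 j)).trans (max_le_max hr le_rfl)
  have hne_of_nm : ∀ z : K × K, nm v z = 1 → z ≠ 0 := by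
    rintro z hz rfl
    simp [nm] at hz
  have hlow : ∀ z ∈ Z, ∀ r : ℝ, 0 < r → nm v ((st f)^[k] z) ≤ EE z r := by
    intro z hz r hr
    apply hup z hz z r (hZn z hz).le
    rw [wd_self, map_zero]
    exact hr.le
  have hzpos : ∀ z ∈ Z, 0 < nm v ((st f)^[k] z) := fun z hz =>
    nm_pos v (iter_ne hLD.ag (hne_of_nm z (hZn z hz)) k)
  have hEpos : ∀ z ∈ Z, ∀ r : ℝ, 0 < r → 0 < EE z r := fun z hz r hr =>
    (hzpos z hz).trans_le (hlow z hz r hr)
  refine ⟨Z, fun z r => Real.log (EE z r) / (d : ℝ) ^ k, ?_, hZn, ?_, ?_, ?_, ?_⟩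
  · exact ⟨w1 ⟨0, by omega⟩, hZ1 _⟩
  · intro x hx z hz hmin hne
    have hx0 := hne_of_nm x hx
    have h3 : nm v ((st f)^[k] x) = EE z (v (wd x z)) := by
      rw [hnmF x]
      simp only [hEE, PE]
      congr 1
      · congr 1
        apply Finset.prod_congr rfl
        intro j _
        exact near_eq hv x z (w1 j) hx (hZn z hz) (hw1 j) (hmin _ (hZ1 j))
      · congr 1
        apply Finset.prod_congr rfl
        intro j _
        exact near_eq hv x z (w2 j) hx (hZn z hz) (hw2 j) (hmin _ (hZ2 j))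
    have h4 := hLD.near _ (iter_ne hLD.ag hx0 k)
    rw [H_iter hLD hx0 k, h3] at h4
    have h5 : H x - Real.log (EE z (v (wd x z))) / (d : ℝ) ^ k =
        ((d : ℝ) ^ k * H x - Real.log (EE z (v (wd x z)))) / (d : ℝ) ^ k := by
      field_simp
    rw [h5, abs_div, abs_of_pos hD0]
    exact div_le_div_of_nonneg_right h4 hD0.le
  · intro z hz y r hr hy0 hy hyz
    have h3 := hup z hz y r hy hyz
    have h4 := hLD.near _ (iter_ne hLD.ag hy0 k)
    rw [H_iter hLD hy0 k] at h4
    have h5 := (abs_le.1 h4).2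
    have h6 : Real.log (nm v ((st f)^[k] y)) ≤ Real.log (EE z r) :=
      Real.log_le_log (nm_pos v (iter_ne hLD.ag hy0 k)) h3
    rw [← add_div, le_div_iff₀ hD0]
    linarith
  · intro z hz r r' hr hrr'
    have hr' : 0 < r' := hr.trans_le hrr'
    constructor
    · apply div_le_div_of_nonneg_right _ hD0.le
      apply Real.log_le_log (hEpos z hz r hr)
      exact max_le_max (PE_mono v hA1 w1 z hrr') (PE_mono v hA2 w2 z hrr')
    · have h3 : EE z r' ≤ (r' / r) ^ (d ^ k) * EE z r := by
        apply max_le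
        · refine (PE_grow v hA1 w1 z hr hrr').trans ?_
          apply mul_le_mul_of_nonneg_left (le_max_left _ _)
          positivity
        · refine (PE_grow v hA2 w2 z hr hrr').trans ?_
          apply mul_le_mul_of_nonneg_left (le_max_right _ _)
          positivity
      have h4 := Real.log_le_log (hEpos z hz r' hr') h3
      rw [Real.log_mul (by positivity) (hEpos z hz r hr).ne', Real.log_pow,
        Real.log_div hr'.ne' hr.ne'] at h4
      push_cast at h4
      rw [div_le_iff₀ hD0]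
      have h5 : (Real.log (EE z r) / (d : ℝ) ^ k + (Real.log r' - Real.log r)) * (d : ℝ) ^ k =
          (d : ℝ) ^ k * (Real.log r' - Real.log r) + Real.log (EE z r) := by
        field_simp
        ring
      rw [h5]
      exact h4
  · intro z hz
    refine ⟨Real.log (nm v ((st f)^[k] z)) / (d : ℝ) ^ k, ?_⟩
    intro r hr
    apply div_le_div_of_nonneg_right _ hD0.le
    exact Real.log_le_log (hzpos z hz) (hlow z hz r hr)

end Pool.Agent.UMR
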