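import Pool.Agent.UMR.Targets

set_option autoImplicit false

/-!
# FACT: forms over an algebraically closed field are products of linear forms
-/

namespace Pool.Agent.UMR

open Finset
open scoped BigOperators

namespace FACT_

/-- the polynomial of a form -/
noncomputable def pl {K : Type} [Field K] {n : ℕ} (c : Fin (n + 1) → K) : Polynomial K :=
  ∑ i : Fin (n + 1), Polynomial.C (c i) * Polynomial.X ^ (i : ℕ)

theorem coeff_pl {K : Type} [Field K] {n : ℕ} (c : Fin (n + 1) → K) (j : ℕ) :
    (pl c).coeff j = if h : j < n + 1 then c ⟨j, h⟩ else 0 := by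
  unfold pl
  rw [Polynomial.finsetSum_coeff]
  simp only [Polynomial.coeff_C_mul_X_pow]
  split_ifs with h
  · rw [Finset.sum_eq_single (⟨j, h⟩ : Fin (n + 1))]
    · simp
    · intro b _ hb
      have : ¬ j = (b : ℕ) := fun e => hb (Fin.ext e.symm)
      simp [this]
    · intro h'
      exact absurd (Finset.mem_univ _) h'
  · apply Finset.sum_eq_zero
    intro b _
    have : ¬ j = (b : ℕ) := fun e => h (e ▸ b.isLt)
    simp [this]

theorem natDegree_pl {K : Type} [Field K] {n : ℕ} (c : Fin (n + 1) → K) :
    (pl c).natDegree ≤ n := by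
  rw [Polynomial.natDegree_le_iff_coeff_eq_zero]
  intro j hj
  rw [coeff_pl]
  have : ¬ j < n + 1 := by omega
  simp [this]

theorem eval_pl {K : Type} [Field K] {n : ℕ} (c : Fin (n + 1) → K) (t : K) :
    (pl c).eval t = ∑ i : Fin (n + 1), c i * t ^ (i : ℕ) := by
  unfold pl
  rw [Polynomial.eval_finsetSum]
  simp

theorem fv_eq {K : Type} [Field K] {n : ℕ} (c : Fin (n + 1) → K) (x : K × K) (hx : x.2 ≠ 0) :
    fv c x = x.2 ^ n * (pl c).eval (x.1 / x.2) := by
  rw [eval_pl, Finset.mul_sum]
  unfold fv
  apply Finset.sum_congr rfl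
  intro i _
  have h1 : (i : ℕ) + (n - (i : ℕ)) = n := by have := i.isLt; omega
  have h2 : x.2 ^ n = x.2 ^ (i : ℕ) * x.2 ^ (n - (i : ℕ)) := by rw [← pow_add, h1]
  rw [h2, div_pow]
  field_simp

theorem fv_zero {K : Type} [Field K] {n : ℕ} (c : Fin (n + 1) → K) (x : K × K) (hx : x.2 = 0) :
    fv c x = x.1 ^ n * (pl c).coeff n := by
  unfold fv
  rw [hx, coeff_pl, dif_pos (Nat.lt_succ_self n)]
  rw [Finset.sum_eq_single (⟨n, Nat.lt_succ_self n⟩ : Fin (n + 1))]
  · simp [mul_comm]
  · intro b _ hb
    have h1 : (b : ℕ) ≠ n := fun e => hb (Fin.ext e)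
    have h2 : n - (b : ℕ) ≠ 0 := by have := b.isLt; omega
    rw [zero_pow h2, mul_zero]
  · intro h'
    exact absurd (Finset.mem_univ _) h'

end FACT_

open FACT_ in
theorem p_FACT : T_FACT := by
  intro K _ _ n c
  by_cases hc : c = 0
  · refine ⟨0, fun _ => (1, 0), ?_, ?_, ?_⟩
    · intro j h
      have := congrArg Prod.fst h
      simp at this
    · intro x
      subst hc
      simp [fv]
    · intro h
      exact absurd hc h
  have hp : pl c ≠ 0 := by
    intro h
    apply hc
    funext i
    have := coeff_pl c (i : ℕ)
    rw [h, dif_pos i.isLt] at this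
    simpa using this.symm
  set p := pl c with hpd
  have hsp := IsAlgClosed.splits p
  have hcard : p.natDegree = Multiset.card p.roots := hsp.natDegree_eq_card_roots
  have hprod : p = Polynomial.C p.leadingCoeff *
      (p.roots.map (fun r => Polynomial.X - Polynomial.C r)).prod := hsp.eq_prod_roots
  have hdeg : p.natDegree ≤ n := natDegree_pl c
  set L : List (K × K) := p.roots.toList.map (fun r => ((r, 1) : K × K)) ++
    List.replicate (n - p.natDegree) ((-1, 0) : K × K) with hL
  have hlen : L.length = n := by
    rw [hL, List.length_append, List.length_map, List.length_replicate, Multiset.length_toList,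
      ← hcard]
    omega
  obtain ⟨z, hz⟩ : ∃ z : Fin n → K × K, List.ofFn z = L := by
    clear_value L
    subst hlen
    exact ⟨L.get, List.ofFn_get L⟩
  have hprodL : ∀ x : K × K, ∏ j, wd x (z j) =
      (p.roots.map (fun r => x.1 - x.2 * r)).prod * x.2 ^ (n - p.natDegree) := by
    intro x
    have h1 : ∏ j, wd x (z j) = (L.map (wd x)).prod := by
      rw [← hz, List.map_ofFn, List.prod_ofFn]
      rfl
    rw [h1, hL, List.map_append, List.prod_append, List.map_map, List.map_replicate,
      List.prod_replicate]
    congr 1
    · have h2 : (p.roots.map (fun r => x.1 - x.2 * r)).prod =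
          ((p.roots.toList : Multiset K).map (fun r => x.1 - x.2 * r)).prod := by
        rw [Multiset.coe_toList]
      rw [h2, Multiset.map_coe, Multiset.prod_coe]
      congr 1
      apply List.map_congr_left
      intro r _
      simp [wd]
    · simp [wd]
  refine ⟨p.leadingCoeff, z, ?_, ?_, ?_⟩
  · intro j h
    have hj : z j ∈ L := by
      rw [← hz, List.mem_ofFn]
      exact ⟨j, rfl⟩
    rw [hL, List.mem_append] at hj
    rcases hj with hj | hj
    · obtain ⟨r, _, hr⟩ := List.mem_map.mp hj
      rw [h] at hr
      have := congrArg Prod.snd hr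
      simp at this
    · have := List.eq_of_mem_replicate hj
      rw [h] at this
      have := congrArg Prod.fst this
      simp at this
  · intro x
    rw [hprodL]
    by_cases hx : x.2 = 0
    · rw [fv_zero c x hx, ← hpd]
      by_cases hn : p.natDegree = n
      · have h1 : (p.roots.map (fun r => x.1 - x.2 * r)).prod = x.1 ^ n := by
          rw [hx]
          simp only [zero_mul, sub_zero]
          rw [Multiset.map_const', Multiset.prod_replicate, ← hcard, hn]
        rw [h1, hn, Nat.sub_self, pow_zero, mul_one, Polynomial.leadingCoeff, hn, mul_comm]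
      · have h1 : n - p.natDegree ≠ 0 := by omega
        have h2 : p.coeff n = 0 := Polynomial.coeff_eq_zero_of_natDegree_lt (by omega)
        rw [h2, hx, zero_pow h1]
        simp
    · rw [fv_eq c x hx, ← hpd]
      have h1 : p.eval (x.1 / x.2) = p.leadingCoeff *
          (p.roots.map (fun r => x.1 / x.2 - r)).prod := by
        conv_lhs => rw [hprod]
        rw [Polynomial.eval_mul, Polynomial.eval_C, Polynomial.eval_multiset_prod,
          Multiset.map_map]
        simp
      have h2 : (p.roots.map (fun r => x.1 - x.2 * r)).prod = x.2 ^ p.natDegree *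
          (p.roots.map (fun r => x.1 / x.2 - r)).prod := by
        have h3 : (p.roots.map (fun r => x.1 - x.2 * r)) =
            p.roots.map (fun r => x.2 * (x.1 / x.2 - r)) := by
          apply Multiset.map_congr rfl
          intro r _
          field_simp
        rw [h3, Multiset.prod_map_mul, Multiset.map_const', Multiset.prod_replicate, ← hcard]
      rw [h1, h2]
      have h4 : x.2 ^ n = x.2 ^ p.natDegree * x.2 ^ (n - p.natDegree) := by
        rw [← pow_add]
        congr 1
        omega
      rw [h4]
      ring
  · intro _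
    exact Polynomial.leadingCoeff_ne_zero.mpr hp

end Pool.Agent.UMR
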