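import Pool.Agent.UMR.Targets

set_option autoImplicit false

/-!
# UMR, Block 5: assembly of the arithmetic half
-/

namespace Pool.Agent.UMR

open Finset
open scoped BigOperators

namespace FINAL_

theorem fv_smul {A : Type} [CommRing A] {n : ℕ} (c : Fin (n + 1) → A) (t : A) (x : A × A) :
    fv c (t • x) = t ^ n * fv c x := by
  unfold fv
  rw [Finset.mul_sum]
  refine Finset.sum_congr rfl fun i _ => ?_
  have h : t ^ n = t ^ (i : ℕ) * t ^ (n - (i : ℕ)) := by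
    rw [← pow_add]; congr 1; omega
  rw [h]
  simp only [Prod.smul_fst, Prod.smul_snd, smul_eq_mul, mul_pow]
  ring

theorem st_smul {A : Type} [CommRing A] {d : ℕ} (f : Pr A d) (t : A) (x : A × A) :
    st f (t • x) = t ^ d • st f x := by
  unfold st
  rw [fv_smul, fv_smul]
  rfl

theorem fv_map {A B : Type} [CommRing A] [CommRing B] (φ : A →+* B) {n : ℕ}
    (c : Fin (n + 1) → A) (x : A × A) : fv (fun i => φ (c i)) (mv φ x) = φ (fv c x) := by
  unfold fv mv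
  simp only [map_sum, map_mul, map_pow]

theorem st_map {A B : Type} [CommRing A] [CommRing B] (φ : A →+* B) {d : ℕ}
    (f : Pr A d) (x : A × A) : st (mp φ f) (mv φ x) = mv φ (st f x) := by
  unfold st mp
  simp only
  rw [fv_map, fv_map]
  rfl

theorem orb_succ {A : Type} [CommRing A] {d : ℕ} (f : Pr A d) (x : A × A) (n : ℕ) :
    orb f x (n + 1) = st f (orb f x n) := by
  unfold orb
  rw [Function.iterate_succ_apply']

theorem mp_comp {d : ℕ} (f : Pr ℤ d) :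
    mp (algebraMap ℚ ℂ) (qf f) = mp (Int.castRingHom ℂ) f := by
  unfold qf mp
  simp

theorem mv_smul (t : ℤ) (x : ℤ × ℤ) :
    mv (Int.castRingHom ℚ) (t • x) = (t : ℚ) • mv (Int.castRingHom ℚ) x := by
  unfold mv
  ext <;> simp

theorem po_orb {d : ℕ} {f : Pr ℤ d} {p : ℕ → ℤ × ℤ} (h : PO f p) (n : ℕ) :
    ∃ c : ℚ, c ≠ 0 ∧ orb (qf f) (mv (Int.castRingHom ℚ) (p 0)) n =
      c • mv (Int.castRingHom ℚ) (p n) := by
  induction n with
  | zero => exact ⟨1, one_ne_zero, by simp [orb]⟩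
  | succ n ih =>
    obtain ⟨c, hc, he⟩ := ih
    obtain ⟨c', hc', he'⟩ := h.nxt n
    refine ⟨c ^ d * (c' : ℚ), mul_ne_zero (pow_ne_zero _ hc) (by exact_mod_cast hc'), ?_⟩
    rw [orb_succ, he, st_smul]
    unfold qf
    rw [st_map, he', mv_smul, smul_smul]

theorem po_orbZ {d : ℕ} {f : Pr ℤ d} {p : ℕ → ℤ × ℤ} (h : PO f p) (n : ℕ) :
    ∃ c : ℤ, orb f (p 0) n = c • p n := by
  induction n with
  | zero => exact ⟨1, by simp [orb]⟩
  | succ n ih =>
    obtain ⟨c, he⟩ := ih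
    obtain ⟨c', _, he'⟩ := h.nxt n
    exact ⟨c ^ d * c', by rw [orb_succ, he, st_smul, he', smul_smul]⟩

theorem orb_congr_smul {d : ℕ} (f : Pr ℚ d) (c : ℚ) (hc : c ≠ 0) (x : ℚ × ℚ) (n : ℕ) :
    ∃ c' : ℚ, c' ≠ 0 ∧ orb f (c • x) n = c' • orb f x n := by
  induction n with
  | zero => exact ⟨c, hc, by simp [orb]⟩
  | succ n ih =>
    obtain ⟨c', hc', he⟩ := ih
    exact ⟨c' ^ d, pow_ne_zero _ hc', by rw [orb_succ, he, st_smul, orb_succ]⟩

theorem wd_smul {A : Type} [CommRing A] (a b : A) (x y : A × A) :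
    wd (a • x) (b • y) = a * b * wd x y := by
  unfold wd
  simp only [Prod.smul_fst, Prod.smul_snd, smul_eq_mul]
  ring

theorem mrel_smul {A : Type} [CommRing A] (k : ℕ) (μ : Finset (Fin k) → A) (y z : Fin k → A × A)
    (c : Fin k → A) (hz : ∀ t, z t = c t • y t) (h : MRel k μ y) : MRel k μ z := by
  unfold MRel at *
  have key : ∀ S : Finset (Fin k), (∏ t : Fin k, (if t ∈ S then (z t).1 else (z t).2)) =
      (∏ t, c t) * ∏ t : Fin k, (if t ∈ S then (y t).1 else (y t).2) := by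
    intro S
    rw [← Finset.prod_mul_distrib]
    refine Finset.prod_congr rfl fun t _ => ?_
    rw [hz t]
    split_ifs <;> rfl
  simp only [key]
  calc ∑ S : Finset (Fin k), μ S * ((∏ t, c t) *
        ∏ t : Fin k, (if t ∈ S then (y t).1 else (y t).2))
      = (∏ t, c t) * ∑ S : Finset (Fin k), μ S *
        ∏ t : Fin k, (if t ∈ S then (y t).1 else (y t).2) := by
        rw [Finset.mul_sum]
        refine Finset.sum_congr rfl fun S _ => ?_
        ring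
    _ = 0 := by rw [h, mul_zero]

theorem conj_refl {d : ℕ} (f : Pr ℤ d) : Conj f f := by
  refine ⟨(1, 0), (0, 1), 1, by simp [wd], one_ne_zero, fun x => ?_⟩
  have h : ∀ z : ℚ × ℚ, lin (1, 0) (0, 1) z = z := fun z => by simp [lin]
  rw [h, h, one_smul]

/-- a maximal pairwise unrelated subset -/
theorem dominate {α : Type} (c : Set α) (r : α → α → Prop) (hs : ∀ a b, r a b → r b a) (M : ℕ)
    (h : ∀ t : Fin (M + 1) → α, (∀ j, t j ∈ c) → ∃ j j', j ≠ j' ∧ r (t j) (t j')) :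
    ∃ F : Finset α, F.card ≤ M ∧ (∀ b ∈ F, b ∈ c) ∧ ∀ a ∈ c, ∃ b ∈ F, a = b ∨ r a b := by
  classical
  have hcard : ∀ F : Finset α, (∀ b ∈ F, b ∈ c) → (∀ a ∈ F, ∀ b ∈ F, a ≠ b → ¬ r a b) →
      F.card ≤ M := by
    intro F hF hF2
    by_contra hlt
    obtain ⟨F', hF', hc'⟩ := Finset.exists_subset_card_eq (n := M + 1) (s := F) (by omega)
    let e : Fin (M + 1) ≃ F' := (finCongr hc'.symm).trans F'.equivFin.symm
    obtain ⟨j, j', hj, hr⟩ := h (fun j => (e j : α)) (fun j => hF _ (hF' (e j).2))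
    refine hF2 _ (hF' (e j).2) _ (hF' (e j').2) ?_ hr
    intro he
    exact hj (e.injective (Subtype.ext he))
  have hex : ∃ n, ∃ F : Finset α, F.card = n ∧ (∀ b ∈ F, b ∈ c) ∧
      (∀ a ∈ F, ∀ b ∈ F, a ≠ b → ¬ r a b) :=
    ⟨0, ∅, rfl, by simp, by simp⟩
  have hbd : ∀ n, (∃ F : Finset α, F.card = n ∧ (∀ b ∈ F, b ∈ c) ∧
      (∀ a ∈ F, ∀ b ∈ F, a ≠ b → ¬ r a b)) → n ≤ M := by
    rintro n ⟨F, h1, h2, h3⟩
    rw [← h1]; exact hcard F h2 h3
  obtain ⟨F, h1, h2, h3⟩ := Nat.findGreatest_spec (P := fun n => ∃ F : Finset α, F.card = n ∧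
    (∀ b ∈ F, b ∈ c) ∧ (∀ a ∈ F, ∀ b ∈ F, a ≠ b → ¬ r a b)) (m := 0) (n := M) (Nat.zero_le _)
    ⟨∅, rfl, by simp, by simp⟩
  refine ⟨F, hcard F h2 h3, h2, fun a ha => ?_⟩
  by_contra hno
  push Not at hno
  have haF : a ∉ F := fun h' => (hno a h').1 rfl
  have hins : ∃ F' : Finset α, F'.card = F.card + 1 ∧ (∀ b ∈ F', b ∈ c) ∧
      (∀ a ∈ F', ∀ b ∈ F', a ≠ b → ¬ r a b) := by
    refine ⟨insert a F, Finset.card_insert_of_notMem haF, ?_, ?_⟩
    · intro b hb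
      rcases Finset.mem_insert.mp hb with rfl | hb
      · exact ha
      · exact h2 b hb
    · intro x hx y hy hxy
      rcases Finset.mem_insert.mp hx with hxa | hx1
      · rcases Finset.mem_insert.mp hy with hya | hy1
        · exact absurd (hxa.trans hya.symm) hxy
        · rw [hxa]
          exact (hno y hy1).2
      · rcases Finset.mem_insert.mp hy with hya | hy1
        · rw [hya]
          exact fun hr => (hno x hx1).2 (hs _ _ hr)
        · exact h3 x hx1 y hy1 hxy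
  have hle := hbd _ hins
  have := Nat.le_findGreatest (P := fun n => ∃ F : Finset α, F.card = n ∧
    (∀ b ∈ F, b ∈ c) ∧ (∀ a ∈ F, ∀ b ∈ F, a ≠ b → ¬ r a b)) hle hins
  omega

theorem crel_symm {A : Type} [CommRing A] {x x' : ℕ → A × A} {N : ℕ} (h : CRel x x' N) :
    CRel x' x N := by
  intro i j k l hi hj hk hl
  exact (h i j k l hi hj hk hl).symm

/-- the residues of the parameters -/
def key {d : ℕ} (q : ℕ) (a : Pr ℤ d × (ℕ → ℤ × ℤ)) :
    ((Fin (d + 1) → ZMod q) × (Fin (d + 1) → ZMod q)) × (ZMod q × ZMod q) :=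
  ((fun i => (a.1.1 i : ZMod q), fun i => (a.1.2 i : ZMod q)), (((a.2 0).1 : ZMod q),
    ((a.2 0).2 : ZMod q)))

theorem key_cg {d : ℕ} {q : ℕ} {a b : Pr ℤ d × (ℕ → ℤ × ℤ)} (h : key q a = key q b) :
    Cg q a.1 b.1 (a.2 0) (b.2 0) := by
  have h1 := congrArg (fun z => z.1.1) h
  have h2 := congrArg (fun z => z.1.2) h
  have h3 := congrArg (fun z => z.2.1) h
  have h4 := congrArg (fun z => z.2.2) h
  simp only [key] at h1 h2 h3 h4
  have hc : ∀ x y : ℤ, (x : ZMod q) = (y : ZMod q) → (q : ℤ) ∣ x - y := by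
    intro x y hxy
    have := (ZMod.intCast_eq_intCast_iff_dvd_sub y x q).mp hxy.symm
    exact this
  exact ⟨fun i => hc _ _ (congrFun h1 i), fun i => hc _ _ (congrFun h2 i), hc _ _ h3, hc _ _ h4⟩

theorem card_key (d q : ℕ) [NeZero q] :
    Fintype.card (((Fin (d + 1) → ZMod q) × (Fin (d + 1) → ZMod q)) × (ZMod q × ZMod q)) =
      q ^ (2 * d + 4) := by
  simp only [Fintype.card_prod, Fintype.card_fun, ZMod.card, Fintype.card_fin]
  ring

/-- one prime -/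
theorem onePrime {d : ℕ} (q : ℕ) (hq : q.Prime) (M : ℕ) (A : Set (Pr ℤ d × (ℕ → ℤ × ℤ)))
    (h : ∀ c ⊆ A, (∀ a ∈ c, ∀ b ∈ c, Cg q a.1 b.1 (a.2 0) (b.2 0)) →
      ∃ F : Finset (Pr ℤ d), F.card ≤ M ∧ ∀ a ∈ c, ∃ g ∈ F, Conj a.1 g) :
    ∃ F : Finset (Pr ℤ d), F.card ≤ q ^ (2 * d + 4) * M ∧ ∀ a ∈ A, ∃ g ∈ F, Conj a.1 g := by
  classical
  have : NeZero q := ⟨hq.ne_zero⟩
  have hch : ∀ κ : ((Fin (d + 1) → ZMod q) × (Fin (d + 1) → ZMod q)) × (ZMod q × ZMod q),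
      ∃ F : Finset (Pr ℤ d), F.card ≤ M ∧ ∀ a ∈ A, key q a = κ → ∃ g ∈ F, Conj a.1 g := by
    intro κ
    obtain ⟨F, h1, h2⟩ := h {a | a ∈ A ∧ key q a = κ} (fun a ha => ha.1)
      (fun a ha b hb => key_cg (ha.2.trans hb.2.symm))
    exact ⟨F, h1, fun a ha hk => h2 a ⟨ha, hk⟩⟩
  choose F hF1 hF2 using hch
  refine ⟨Finset.univ.biUnion F, ?_, fun a ha => ?_⟩
  · refine le_trans Finset.card_biUnion_le ?_
    refine le_trans (Finset.sum_le_sum fun κ _ => hF1 κ) ?_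
    rw [Finset.sum_const, Finset.card_univ, card_key, smul_eq_mul]
  · obtain ⟨g, hg, hc⟩ := hF2 (key q a) a ha rfl
    exact ⟨g, Finset.mem_biUnion.mpr ⟨_, Finset.mem_univ _, hg⟩, hc⟩

end FINAL_

open FINAL_ in
theorem p_FINAL (hG : T_GEOM) (hR : T_REL) (hP : T_PRI) (hB : T_BZ) (hH : T_HBD) (hL : T_LONG)
    (hC : T_CONJQ) (hPar : T_PARAM) : T_FINAL := by
  classical
  intro d ε hd hε
  obtain ⟨C1, hC1⟩ := hB d (by omega)
  obtain ⟨C2, hC2⟩ := hH d hd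
  obtain ⟨k, h, J, C', hk, hch, hX⟩ := hPar d (max C1 C2) ε hd hε
  obtain ⟨K, M, hK, hGeom⟩ := hG d k hd
  obtain ⟨B, hB'⟩ := hL d K hd
  refine ⟨B, M * C', fun X hX1 => ?_⟩
  obtain ⟨P, hP1, hP2, hP3, hP4⟩ := hX X hX1
  obtain ⟨s, hs1, hs2, hs3⟩ := hP J P hP1
  set Y : ℕ := max C1 C2 * X ^ (2 * d - 1) with hY
  -- the data at the prime `q`
  let A : ℕ → Set (Pr ℤ d × (ℕ → ℤ × ℤ)) := fun q => {a | a.1 ∈ Maps d X ∧ PO a.1 a.2 ∧
    (∀ n, |(a.2 n).1| ≤ (Y : ℤ) ∧ |(a.2 n).2| ≤ (Y : ℤ)) ∧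
    (∀ n, ¬ ((q : ℤ) ∣ (orb a.1 (a.2 0) n).1 ∧ (q : ℤ) ∣ (orb a.1 (a.2 0) n).2)) ∧
    ∀ n m, n < K → m < K → n ≠ m → wd (orb (qf a.1) (mv (Int.castRingHom ℚ) (a.2 0)) n)
      (orb (qf a.1) (mv (Int.castRingHom ℚ) (a.2 0)) m) ≠ 0}
  have hclass : ∀ q ∈ s, ∃ F : Finset (Pr ℤ d), F.card ≤ q ^ (2 * d + 4) * M ∧
      ∀ a ∈ A q, ∃ g ∈ F, Conj a.1 g := by
    intro q hq
    obtain ⟨hqp, hqP, hqle⟩ := hs2 q hq
    refine onePrime q hqp M (A q) fun c hc hcg => ?_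
    have hpow : (2 ^ k * Y ^ k) ^ 2 < q ^ (h + 1) :=
      lt_of_lt_of_le hP2 (Nat.pow_le_pow_left hqP.le _)
    obtain ⟨μ, hμ, hrel⟩ := hR d k h Y q hqp hch hpow c (fun a ha => (hc ha).2.1)
      (fun a ha => (hc ha).2.2.1) hcg (fun a ha => (hc ha).2.2.2.1)
    obtain ⟨F, hF1, hF2, hF3⟩ := dominate c (fun a b =>
      CRel (orb (qf a.1) (mv (Int.castRingHom ℚ) (a.2 0)))
        (orb (qf b.1) (mv (Int.castRingHom ℚ) (b.2 0))) (2 * d + 3))
      (fun a b hab => crel_symm hab) M (by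
        intro t ht
        refine hGeom μ (fun j => qf (t j).1) (fun j => mv (Int.castRingHom ℚ) ((t j).2 0))
          (fun i _ => hμ i) ?_ ?_ ?_ ?_
        · intro j
          rw [mp_comp]
          exact (hc (ht j)).1.2.2
        · intro j h0
          have hcop := (hc (ht j)).2.1.cop 0
          have h1 : (((t j).2 0).1 : ℚ) = 0 := congrArg Prod.fst h0
          have h2 : (((t j).2 0).2 : ℚ) = 0 := congrArg Prod.snd h0
          rw [Int.cast_eq_zero] at h1 h2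
          rw [h1, h2] at hcop
          exact not_isCoprime_zero_zero hcop
        · intro j n m hn hm hnm
          exact (hc (ht j)).2.2.2.2 n m hn hm hnm
        · intro j i _
          have hpo := (hc (ht j)).2.1
          have hor := po_orb hpo
          choose cc hcc1 hcc2 using hor
          exact mrel_smul k (μ i) _ _ (fun t' => cc (i + t'))
            (fun t' => hcc2 (i + t')) (hrel (t j) (ht j) i))
    refine ⟨F.image Prod.fst, le_trans Finset.card_image_le hF1, fun a ha => ?_⟩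
    obtain ⟨b, hb, hab⟩ := hF3 a ha
    refine ⟨b.1, Finset.mem_image_of_mem _ hb, ?_⟩
    rcases hab with rfl | hab
    · exact conj_refl _
    · have hac := hc ha
      have hbc := hc (hF2 b hb)
      refine hC d a.1 b.1 _ _ hd hac.1.2.2 hbc.1.2.2 ?_ ?_ hab
      · intro n m hn hm hnm
        exact hac.2.2.2.2 n m (by omega) (by omega) hnm
      · intro n m hn hm hnm
        exact hbc.2.2.2.2 n m (by omega) (by omega) hnm
  have hch' : ∀ q : ℕ, ∃ F : Finset (Pr ℤ d), q ∈ s → (F.card ≤ q ^ (2 * d + 4) * M ∧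
      ∀ a ∈ A q, ∃ g ∈ F, Conj a.1 g) := by
    intro q
    by_cases hq : q ∈ s
    · obtain ⟨F, hF⟩ := hclass q hq
      exact ⟨F, fun _ => hF⟩
    · exact ⟨∅, fun h' => absurd h' hq⟩
  choose F hF using hch'
  refine ⟨s.biUnion F, ?_, ?_⟩
  · have h1 : (s.biUnion F).card ≤ J * ((2 ^ J * P) ^ (2 * d + 4) * M) := by
      refine le_trans Finset.card_biUnion_le ?_
      refine le_trans (Finset.sum_le_sum fun q hq => (hF q hq).1) ?_
      refine le_trans (Finset.sum_le_sum fun q hq => Nat.mul_le_mul_right M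
        (Nat.pow_le_pow_left (hs2 q hq).2.2 _)) ?_
      rw [Finset.sum_const, hs1, smul_eq_mul]
    have h2 : ((s.biUnion F).card : ℝ) ≤ (J : ℝ) * (((2 : ℝ) ^ J * P) ^ (2 * d + 4) * M) := by
      exact_mod_cast h1
    calc ((s.biUnion F).card : ℝ) ≤ (J : ℝ) * (((2 : ℝ) ^ J * P) ^ (2 * d + 4) * M) := h2
      _ = M * ((J : ℝ) * ((2 : ℝ) ^ J * P) ^ (2 * d + 4)) := by ring
      _ ≤ M * (C' * (X : ℝ) ^ ε) := by
        exact mul_le_mul_of_nonneg_left hP4 (Nat.cast_nonneg _)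
      _ = M * C' * (X : ℝ) ^ ε := by ring
  · rintro f hf ⟨T, hT, hTp, hTd⟩
    obtain ⟨v, hv, hvd⟩ := hB' (qf f) (by rw [mp_comp]; exact hf.2.2) T
      (fun v hv => (hTp v hv).1) hTd hT
    obtain ⟨p, hpo, ⟨c, hc, hvc⟩, hpb⟩ := hC2 X hX1 f hf v (hTp v hv)
    obtain ⟨D, hD0, hD1, hD2⟩ := hC1 X hX1 f hf
    have hDlt : |D| < (P : ℤ) ^ J := by
      refine lt_of_le_of_lt hD1 ?_
      have h1 : C1 * X ^ (2 * d) ≤ max C1 C2 * X ^ (2 * d) :=
        Nat.mul_le_mul_right _ (le_max_left _ _)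
      have h2 : C1 * X ^ (2 * d) < P ^ J := lt_of_le_of_lt h1 hP3
      exact_mod_cast h2
    obtain ⟨q, hq, hqD⟩ := hs3 D hD0 hDlt
    obtain ⟨hqp, -, -⟩ := hs2 q hq
    have hprim : ∀ n, ¬ ((q : ℤ) ∣ (orb f (p 0) n).1 ∧ (q : ℤ) ∣ (orb f (p 0) n).2) := by
      intro n
      induction n with
      | zero =>
        rintro ⟨h1, h2⟩
        have hcop := hpo.cop 0
        have : IsUnit (q : ℤ) := hcop.isUnit_of_dvd' h1 h2
        rw [Int.isUnit_iff] at this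
        have := hqp.one_lt
        omega
      | succ n ih =>
        rintro ⟨h1, h2⟩
        rw [orb_succ] at h1 h2
        exact ih (hD2 q _ hqp h1 h2 hqD)
    have hbd : ∀ n, |(p n).1| ≤ (Y : ℤ) ∧ |(p n).2| ≤ (Y : ℤ) := by
      intro n
      have h1 : (C2 : ℤ) * (X : ℤ) ^ (2 * d - 1) ≤ (Y : ℤ) := by
        rw [hY]
        push_cast
        have : (C2 : ℤ) ≤ max (C1 : ℤ) (C2 : ℤ) := le_max_right _ _
        exact mul_le_mul_of_nonneg_right this (by positivity)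
      exact ⟨le_trans (hpb n).1 h1, le_trans (hpb n).2 h1⟩
    have hmem : (f, p) ∈ A q := by
      refine ⟨hf, hpo, hbd, hprim, fun n m hn hm hnm h0 => ?_⟩
      apply hvd n m hn hm hnm
      rw [hvc]
      obtain ⟨c1, _, he1⟩ := orb_congr_smul (qf f) c hc (mv (Int.castRingHom ℚ) (p 0)) n
      obtain ⟨c2, _, he2⟩ := orb_congr_smul (qf f) c hc (mv (Int.castRingHom ℚ) (p 0)) m
      rw [he1, he2, wd_smul, h0, mul_zero]
    obtain ⟨g, hg, hcj⟩ := (hF q hq).2 (f, p) hmem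
    exact ⟨g, Finset.mem_biUnion.mpr ⟨q, hq, hg⟩, hcj⟩

end Pool.Agent.UMR
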