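import Pool.Agent.UMR.Targets

set_option autoImplicit false

/-!
# GAM: the algebraic data of a pair of forms without a common zero
-/

namespace Pool.Agent.UMR

open Finset
open scoped BigOperators

namespace GAM_

theorem fv_smul {K : Type} [Field K] {n : ℕ} (c : Fin (n + 1) → K) (s : K) (x : K × K) :
    fv c (s • x) = s ^ n * fv c x := by
  unfold fv
  rw [Finset.mul_sum]
  apply Finset.sum_congr rfl
  intro i _
  have h1 : (i : ℕ) + (n - (i : ℕ)) = n := by have := i.isLt; omega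
  have h2 : s ^ n = s ^ (i : ℕ) * s ^ (n - (i : ℕ)) := by rw [← pow_add, h1]
  rw [h2, Prod.smul_fst, Prod.smul_snd, smul_eq_mul, smul_eq_mul, mul_pow, mul_pow]
  ring

theorem st_smul {K : Type} [Field K] {d : ℕ} (f : Pr K d) (s : K) (x : K × K) :
    st f (s • x) = s ^ d • st f x := by
  unfold st
  rw [fv_smul, fv_smul]
  rfl

theorem wd_self {K : Type} [Field K] (x : K × K) : wd x x = 0 := by
  unfold wd
  ring

theorem wd_comm {K : Type} [Field K] (x y : K × K) : wd x y = - wd y x := by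
  unfold wd
  ring

theorem wd_smul {K : Type} [Field K] (s : K) (x y : K × K) : wd x (s • y) = s * wd x y := by
  unfold wd
  simp only [Prod.smul_fst, Prod.smul_snd, smul_eq_mul]
  ring

theorem prop {K : Type} [Field K] (u w : K × K) (hw : w ≠ 0) (h : wd u w = 0) :
    ∃ s : K, u = s • w := by
  unfold wd at h
  by_cases h1 : w.1 = 0
  · have h2 : w.2 ≠ 0 := by
      intro h2
      exact hw (Prod.ext h1 h2)
    refine ⟨u.2 / w.2, ?_⟩
    rw [h1, mul_zero, sub_zero] at h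
    have h3 : u.1 = 0 := (mul_eq_zero.mp h).resolve_right h2
    apply Prod.ext
    · rw [Prod.smul_fst, h3, h1, smul_zero]
    · rw [Prod.smul_snd, smul_eq_mul, div_mul_cancel₀ _ h2]
  · refine ⟨u.1 / w.1, ?_⟩
    apply Prod.ext
    · rw [Prod.smul_fst, smul_eq_mul, div_mul_cancel₀ _ h1]
    · rw [Prod.smul_snd, smul_eq_mul]
      field_simp
      linear_combination -h

theorem wd_st {K : Type} [Field K] {d : ℕ} (f : Pr K d) (w x : K × K) :
    wd (st f x) w = fv (fun i => f.1 i * w.2 - f.2 i * w.1) x := by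
  unfold wd st fv
  simp only
  rw [Finset.sum_mul, Finset.sum_mul, ← Finset.sum_sub_distrib]
  apply Finset.sum_congr rfl
  intro i _
  ring

/-- a form of positive degree has a nontrivial zero -/
theorem exists_zero (hF : T_FACT) {K : Type} [Field K] [IsAlgClosed K] {n : ℕ} (hn : 1 ≤ n)
    (c : Fin (n + 1) → K) : ∃ z : K × K, z ≠ 0 ∧ fv c z = 0 := by
  obtain ⟨a, z, hz, h, _⟩ := hF K n c
  refine ⟨z ⟨0, hn⟩, hz _, ?_⟩
  rw [h]
  have : ∏ j, wd (z ⟨0, hn⟩) (z j) = 0 :=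
    Finset.prod_eq_zero (Finset.mem_univ (⟨0, hn⟩ : Fin n)) (wd_self _)
  rw [this, mul_zero]

theorem cw_ne (hF : T_FACT) {K : Type} [Field K] [IsAlgClosed K] {d : ℕ} (hd : 1 ≤ d)
    (f : Pr K d) (hf : NZ f) (w : K × K) (hw : w ≠ 0) :
    (fun i => f.1 i * w.2 - f.2 i * w.1) ≠ 0 := by
  intro h
  have hz : ∀ x, fv f.1 x * w.2 - fv f.2 x * w.1 = 0 := by
    intro x
    have h1 := wd_st f w x
    rw [h] at h1
    unfold wd st at h1
    simp only at h1
    rw [h1]
    simp [fv]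
  by_cases h1 : w.1 = 0
  · have h2 : w.2 ≠ 0 := by
      intro h2
      exact hw (Prod.ext h1 h2)
    obtain ⟨z, hz0, hz1⟩ := exists_zero hF hd f.2
    have h3 := hz z
    rw [h1, mul_zero, sub_zero] at h3
    exact hz0 (hf z (Prod.ext ((mul_eq_zero.mp h3).resolve_right h2) hz1))
  · obtain ⟨z, hz0, hz1⟩ := exists_zero hF hd f.1
    have h3 := hz z
    rw [hz1, zero_mul, zero_sub, neg_eq_zero] at h3
    exact hz0 (hf z (Prod.ext hz1 ((mul_eq_zero.mp h3).resolve_right h1)))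

theorem basic (hF : T_FACT) {K : Type} [Field K] [IsAlgClosed K] {d : ℕ} (hd : 1 ≤ d)
    (f : Pr K d) (hf : NZ f) (w : K × K) (hw : w ≠ 0) :
    ∃ (γ : K) (y : Fin d → K × K), γ ≠ 0 ∧ (∀ b, st f (y b) = w) ∧
      ∀ x, wd (st f x) w = γ * ∏ b, wd x (y b) := by
  obtain ⟨a, z, hz, h, ha⟩ := hF K d (fun i => f.1 i * w.2 - f.2 i * w.1)
  have ha0 := ha (cw_ne hF hd f hf w hw)
  have h' : ∀ x, wd (st f x) w = a * ∏ j, wd x (z j) := fun x => by rw [wd_st, h]
  have key : ∀ b, ∃ t : K, t ≠ 0 ∧ st f (z b) = t ^ d • w := by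
    intro b
    have h1 : wd (st f (z b)) w = 0 := by
      rw [h' (z b), Finset.prod_eq_zero (Finset.mem_univ b) (wd_self _), mul_zero]
    obtain ⟨s, hs⟩ := prop _ _ hw h1
    have hs0 : s ≠ 0 := by
      intro h0
      rw [h0, zero_smul] at hs
      exact hz b (hf _ hs)
    obtain ⟨t, ht⟩ := IsAlgClosed.exists_pow_nat_eq s (n := d) (by omega)
    refine ⟨t, ?_, ?_⟩
    · intro h0
      rw [h0, zero_pow (by omega)] at ht
      exact hs0 ht.symm
    · rw [ht, hs]
  choose t ht0 ht using key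
  refine ⟨a * ∏ b, t b, fun b => (t b)⁻¹ • z b, ?_, ?_, ?_⟩
  · exact mul_ne_zero ha0 (Finset.prod_ne_zero_iff.mpr fun b _ => ht0 b)
  · intro b
    simp only
    rw [st_smul, ht b, smul_smul, ← mul_pow, inv_mul_cancel₀ (ht0 b), one_pow, one_smul]
  · intro x
    rw [h' x]
    have : ∏ b, wd x ((t b)⁻¹ • z b) = (∏ b, (t b)⁻¹) * ∏ b, wd x (z b) := by
      rw [← Finset.prod_mul_distrib]
      apply Finset.prod_congr rfl
      intro b _
      rw [wd_smul]
    rw [this]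
    have h2 : (∏ b, t b) * (∏ b, (t b)⁻¹) = 1 := by
      rw [← Finset.prod_mul_distrib]
      apply Finset.prod_eq_one
      intro b _
      exact mul_inv_cancel₀ (ht0 b)
    calc a * ∏ j, wd x (z j) = a * ((∏ b, t b) * (∏ b, (t b)⁻¹)) * ∏ j, wd x (z j) := by
          rw [h2, mul_one]
      _ = _ := by ring

theorem indep {K : Type} [Field K] {d : ℕ} (f : Pr K d) (w w' : K × K)
    (γ γ' : K) (y y' : Fin d → K × K) (hne : wd w' w ≠ 0)
    (h1 : ∀ b, st f (y b) = w) (h2 : ∀ x, wd (st f x) w = γ * ∏ b, wd x (y b))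
    (h1' : ∀ b, st f (y' b) = w') (h2' : ∀ x, wd (st f x) w' = γ' * ∏ b, wd x (y' b)) :
    γ ^ d = γ' ^ d := by
  have e1 : (wd w' w) ^ d = γ ^ d * ∏ a, ∏ b, wd (y' a) (y b) := by
    have : ∏ a : Fin d, wd (st f (y' a)) w = ∏ a : Fin d, (γ * ∏ b, wd (y' a) (y b)) :=
      Finset.prod_congr rfl fun a _ => h2 _
    rw [Finset.prod_mul_distrib, Finset.prod_const, Finset.card_univ, Fintype.card_fin] at this
    rw [← this]
    simp only [h1']
    rw [Finset.prod_const, Finset.card_univ, Fintype.card_fin]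
  have e2 : (wd w w') ^ d = γ' ^ d * ∏ b, ∏ a, wd (y b) (y' a) := by
    have : ∏ b : Fin d, wd (st f (y b)) w' = ∏ b : Fin d, (γ' * ∏ a, wd (y b) (y' a)) :=
      Finset.prod_congr rfl fun b _ => h2' _
    rw [Finset.prod_mul_distrib, Finset.prod_const, Finset.card_univ, Fintype.card_fin] at this
    rw [← this]
    simp only [h1]
    rw [Finset.prod_const, Finset.card_univ, Fintype.card_fin]
  have e3 : ∏ b, ∏ a, wd (y b) (y' a) = (-1) ^ (d * d) * ∏ a, ∏ b, wd (y' a) (y b) := by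
    rw [Finset.prod_comm]
    have : ∀ a b : Fin d, wd (y b) (y' a) = (-1) * wd (y' a) (y b) := by
      intro a b
      rw [wd_comm]
      ring
    simp only [this]
    simp only [Finset.prod_mul_distrib, Finset.prod_const, Finset.card_univ, Fintype.card_fin]
    rw [← pow_mul]
  have e4 : (wd w w') ^ d = (-1) ^ d * (wd w' w) ^ d := by
    rw [wd_comm w w', ← mul_pow]
    congr 1
    ring
  have e5 : ((-1 : K)) ^ (d * d) = (-1) ^ d := by
    rcases Nat.even_or_odd d with h | h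
    · rw [h.neg_one_pow, (h.mul_left d).neg_one_pow]
    · rw [h.neg_one_pow, (h.mul h).neg_one_pow]
  rw [e3, e5, e4, e1] at e2
  set P := ∏ a, ∏ b, wd (y' a) (y b) with hP
  have hP0 : P ≠ 0 := by
    intro h
    rw [h, mul_zero] at e1
    exact (pow_ne_zero d hne) e1
  have hs : ((-1 : K)) ^ d ≠ 0 := pow_ne_zero d (neg_ne_zero.mpr one_ne_zero)
  have e6 : (-1 : K) ^ d * P * γ ^ d = (-1) ^ d * P * γ' ^ d := by
    linear_combination e2
  exact mul_left_cancel₀ (mul_ne_zero hs hP0) e6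

end GAM_

open GAM_ in
theorem p_GAM (hF : T_FACT) : T_GAM := by
  intro K _ _ _ d f hd hf
  have hd1 : 1 ≤ d := by omega
  have n10 : ((1, 0) : K × K) ≠ 0 := by
    intro h
    have := congrArg Prod.fst h
    simp at this
  have n01 : ((0, 1) : K × K) ≠ 0 := by
    intro h
    have := congrArg Prod.snd h
    simp at this
  obtain ⟨γ₀, y₀, hγ₀, h1₀, h2₀⟩ := basic hF hd1 f hf (1, 0) n10
  obtain ⟨γ₁, y₁, hγ₁, h1₁, h2₁⟩ := basic hF hd1 f hf (0, 1) n01
  refine ⟨γ₀ ^ d, hd, pow_ne_zero d hγ₀, ?_⟩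
  intro w hw
  obtain ⟨γ, y, hγ, h1, h2⟩ := basic hF hd1 f hf w hw
  refine ⟨γ, y, ?_, h1, h2⟩
  have h01 : γ₁ ^ d = γ₀ ^ d := indep f (0, 1) (1, 0) γ₁ γ₀ y₁ y₀ (by simp [wd]) h1₁ h2₁ h1₀ h2₀
  by_cases h0 : w.2 = 0
  · have hw1 : w.1 ≠ 0 := fun h => hw (Prod.ext h h0)
    rw [← h01]
    refine indep f w (0, 1) γ γ₁ y y₁ ?_ h1 h2 h1₁ h2₁
    simp [wd, hw1]
  · refine indep f w (1, 0) γ γ₀ y y₀ ?_ h1 h2 h1₀ h2₀
    simp [wd, h0]

end Pool.Agent.UMR
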