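import Pool.Agent.UMR.Targets

set_option autoImplicit false
set_option maxHeartbeats 4000000

namespace Pool.Agent.UMR

open Finset
open scoped BigOperators

namespace GAUSS_

variable {K : Type} [Field K]

lemma v_sum_le (v : AbsoluteValue K ℝ) (hu : ∀ x y, v (x + y) ≤ max (v x) (v y)) {ι : Type}
    (s : Finset ι) (f : ι → K) (A : ℝ) (hA : 0 ≤ A) (h : ∀ i ∈ s, v (f i) ≤ A) :
    v (∑ i ∈ s, f i) ≤ A := by
  classical
  induction s using Finset.induction_on with
  | empty => simpa using hA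
  | insert a s ha ih =>
    rw [Finset.sum_insert ha]
    refine (hu _ _).trans (max_le (h _ (Finset.mem_insert_self _ _)) ?_)
    exact ih fun i hi => h i (Finset.mem_insert_of_mem hi)

lemma le_gn (v : AbsoluteValue K ℝ) {n : ℕ} (c : Fin (n + 1) → K) (i : Fin (n + 1)) :
    v (c i) ≤ gn v c := by
  unfold gn
  exact le_ciSup (f := fun i => v (c i)) (Set.finite_range _).bddAbove i

lemma gn_le (v : AbsoluteValue K ℝ) {n : ℕ} (c : Fin (n + 1) → K) (A : ℝ)
    (h : ∀ i, v (c i) ≤ A) : gn v c ≤ A := by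
  unfold gn
  exact ciSup_le h

lemma gn_nonneg (v : AbsoluteValue K ℝ) {n : ℕ} (c : Fin (n + 1) → K) : 0 ≤ gn v c :=
  (v.nonneg _).trans (le_gn v c 0)

lemma fv_le (v : AbsoluteValue K ℝ) (hu : ∀ x y, v (x + y) ≤ max (v x) (v y)) {n : ℕ}
    (c : Fin (n + 1) → K) (x : K × K) (hx : nm v x ≤ 1) : v (fv c x) ≤ gn v c := by
  unfold fv
  have h1 : v x.1 ≤ 1 := (le_max_left _ _).trans hx
  have h2 : v x.2 ≤ 1 := (le_max_right _ _).trans hx
  refine v_sum_le v hu _ _ _ (gn_nonneg v c) fun i _ => ?_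
  rw [map_mul, map_mul, map_pow, map_pow]
  have h3 : v x.1 ^ (i : ℕ) ≤ 1 := pow_le_one₀ (v.nonneg _) h1
  have h4 : v x.2 ^ (n - (i : ℕ)) ≤ 1 := pow_le_one₀ (v.nonneg _) h2
  have h5 := le_gn v c i
  calc v (c i) * v x.1 ^ (i : ℕ) * v x.2 ^ (n - (i : ℕ)) ≤ v (c i) * 1 * 1 := by
        gcongr
    _ = v (c i) := by ring
    _ ≤ gn v c := h5

lemma coeff_mul_le (v : AbsoluteValue K ℝ) (hu : ∀ x y, v (x + y) ≤ max (v x) (v y))
    (p q : Polynomial K) (A B : ℝ) (hA : 0 ≤ A) (hB : 0 ≤ B) (hp : ∀ i, v (p.coeff i) ≤ A)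
    (hq : ∀ i, v (q.coeff i) ≤ B) (k : ℕ) : v ((p * q).coeff k) ≤ A * B := by
  rw [Polynomial.coeff_mul]
  refine v_sum_le v hu _ _ _ (mul_nonneg hA hB) fun i _ => ?_
  rw [map_mul]
  exact mul_le_mul (hp _) (hq _) (v.nonneg _) hA

lemma coeff_one_le (v : AbsoluteValue K ℝ) (i : ℕ) : v ((1 : Polynomial K).coeff i) ≤ 1 := by
  rw [Polynomial.coeff_one]
  split_ifs <;> simp

lemma coeff_prod_le (v : AbsoluteValue K ℝ) (hu : ∀ x y, v (x + y) ≤ max (v x) (v y))
    {ι : Type} (s : Finset ι) (p : ι → Polynomial K) (hp : ∀ j i, v ((p j).coeff i) ≤ 1) (k : ℕ) :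
    v ((∏ j ∈ s, p j).coeff k) ≤ 1 := by
  classical
  induction s using Finset.induction_on generalizing k with
  | empty => simpa using coeff_one_le v k
  | insert a s ha ih =>
    rw [Finset.prod_insert ha]
    have := coeff_mul_le v hu (p a) (∏ j ∈ s, p j) 1 1 zero_le_one zero_le_one (hp a) ih k
    simpa using this

lemma coeff_lin_le (v : AbsoluteValue K ℝ) (hu : ∀ x y, v (x + y) ≤ max (v x) (v y))
    (z : K × K) (hz : nm v z ≤ 1) (i : ℕ) :
    v ((Polynomial.X * Polynomial.C z.2 - Polynomial.C z.1 : Polynomial K).coeff i) ≤ 1 := by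
  have h1 : v z.1 ≤ 1 := (le_max_left _ _).trans hz
  have h2 : v z.2 ≤ 1 := (le_max_right _ _).trans hz
  rw [Polynomial.coeff_sub, Polynomial.coeff_mul_C, Polynomial.coeff_X, Polynomial.coeff_C]
  rw [sub_eq_add_neg]
  refine (hu _ _).trans (max_le ?_ ?_)
  · split_ifs
    · simpa using h2
    · simp
  · rw [v.map_neg]
    split_ifs
    · exact h1
    · simp

lemma exists_scale (v : AbsoluteValue K ℝ) (z : K × K) (hz : z ≠ 0) :
    ∃ (s : K) (y : K × K), z = s • y ∧ nm v y = 1 := by
  have key : ∀ s : K, s ≠ 0 → nm v z = v s → ∃ (s : K) (y : K × K), z = s • y ∧ nm v y = 1 := by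
    intro s hs h
    refine ⟨s, s⁻¹ • z, by rw [smul_smul, mul_inv_cancel₀ hs, one_smul], ?_⟩
    have h1 : nm v (s⁻¹ • z) = v s⁻¹ * nm v z := by
      unfold nm
      rw [mul_max_of_nonneg _ _ (v.nonneg _)]
      simp
    rw [h1, h, ← map_mul, inv_mul_cancel₀ hs, map_one]
  rcases le_total (v z.1) (v z.2) with h | h
  · have hz2 : z.2 ≠ 0 := by
      intro h2
      apply hz
      have h1 : z.1 = 0 := by
        rw [h2, map_zero] at h
        exact v.eq_zero.1 (le_antisymm h (v.nonneg _))
      exact Prod.ext h1 h2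
    exact key z.2 hz2 (max_eq_right h)
  · have hz1 : z.1 ≠ 0 := by
      intro h1
      apply hz
      have h2 : z.2 = 0 := by
        rw [h1, map_zero] at h
        exact v.eq_zero.1 (le_antisymm h (v.nonneg _))
      exact Prod.ext h1 h2
    exact key z.1 hz1 (max_eq_left h)

lemma wd_smul (s : K) (x y : K × K) : wd x (s • y) = s * wd x y := by
  unfold wd
  simp
  ring

end GAUSS_

open GAUSS_ in
theorem p_GAUSS (h1 : T_FACT) (h2 : T_GEN) : T_GAUSS := by
  intro K _ _ v hv n c
  have hu := hv.ultra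
  obtain ⟨a, z, hz, hx, -⟩ := h1 K n c
  choose s y hzy hy using fun j => exists_scale v (z j) (hz j)
  have hx' : ∀ x, fv c x = (a * ∏ j, s j) * ∏ j, wd x (y j) := by
    intro x
    rw [hx]
    have : ∀ j, wd x (z j) = s j * wd x (y j) := by
      intro j
      rw [hzy j, wd_smul]
    simp only [this]
    rw [Finset.prod_mul_distrib]
    ring
  set a' := a * ∏ j, s j with ha'
  have hgn : v a' = gn v c := by
    apply le_antisymm
    · obtain ⟨x, hx1, -, hx3⟩ := h2 K v hv (Set.range y) 1 (Set.finite_range y)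
        (by rintro _ ⟨j, rfl⟩; exact hy j)
      have h3 : v (fv c (x 0)) = v a' := by
        rw [hx', map_mul, map_prod]
        have : ∀ j, v (wd (x 0) (y j)) = 1 := fun j => hx3 0 (y j) ⟨j, rfl⟩
        simp [this]
      rw [← h3]
      exact fv_le v hu c _ (hx1 0).le
    · apply gn_le
      intro i
      have hpq : (∑ i : Fin (n + 1), Polynomial.monomial (i : ℕ) (c i) : Polynomial K) =
          Polynomial.C a' * ∏ j, (Polynomial.X * Polynomial.C (y j).2 - Polynomial.C (y j).1) := by
        apply Polynomial.funext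
        intro t
        have h4 := hx' (t, 1)
        unfold fv wd at h4
        simp only [one_pow, mul_one, one_mul] at h4
        rw [Polynomial.eval_finsetSum]
        simp only [Polynomial.eval_monomial, Polynomial.eval_mul, Polynomial.eval_C,
          Polynomial.eval_prod, Polynomial.eval_sub, Polynomial.eval_X]
        exact h4
      have h5 : c i = (∑ i : Fin (n + 1), Polynomial.monomial (i : ℕ) (c i) : Polynomial K).coeff i := by
        rw [Polynomial.finset_sum_coeff]
        simp only [Polynomial.coeff_monomial]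
        rw [Finset.sum_eq_single i]
        · simp
        · intro j _ hj
          rw [if_neg]
          intro h
          exact hj (Fin.ext h)
        · simp
      rw [h5, hpq, Polynomial.coeff_C_mul, map_mul]
      have h6 := coeff_prod_le v hu Finset.univ
        (fun j => (Polynomial.X * Polynomial.C (y j).2 - Polynomial.C (y j).1 : Polynomial K))
        (fun j i => coeff_lin_le v hu (y j) (hy j).le i) (i : ℕ)
      calc v a' * _ ≤ v a' * 1 := mul_le_mul_of_nonneg_left h6 (v.nonneg _)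
        _ = v a' := mul_one _
  refine ⟨y, hy, fun x => ?_⟩
  rw [hx', map_mul, map_prod, hgn]

end Pool.Agent.UMR
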