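import Pool.Agent.UMR.Targets

set_option autoImplicit false

/-! GEN: generic vectors. -/

namespace Pool.Agent.UMR

open Finset
open scoped BigOperators

namespace GEN_

variable {K : Type} [Field K] {v : AbsoluteValue K ℝ}

theorem v_int (hv : VV v) (n m : ℕ) (h : n ≠ m) : v ((n : K) - (m : K)) = 1 := by
  rcases Nat.lt_or_gt_of_ne h with h | h
  · have h1 := hv.nat (m - n) (by omega)
    rw [Nat.cast_sub h.le] at h1
    rw [AbsoluteValue.map_sub]
    exact h1
  · have h1 := hv.nat (n - m) (by omega)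
    rwa [Nat.cast_sub h.le] at h1

theorem v_nat_le (hv : VV v) (n : ℕ) : v (n : K) ≤ 1 := by
  by_cases h : n = 0
  · subst h
    simp
  · exact (hv.nat n h).le

theorem v_sub (hv : VV v) (x y : K) : v (x - y) ≤ max (v x) (v y) := by
  have h := hv.ultra x (-y)
  rw [AbsoluteValue.map_neg, ← sub_eq_add_neg] at h
  exact h

theorem sub_single (hv : VV v) (z : K × K) (hz : nm v z = 1) :
    {n : ℕ | v (z.2 - (n : K) * z.1) < 1}.Subsingleton := by
  intro n hn m hm
  by_contra hne
  simp only [Set.mem_setOf_eq] at hn hm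
  have h1 : v z.1 < 1 := by
    have h2 : ((m : K) - (n : K)) * z.1 = (z.2 - (n : K) * z.1) - (z.2 - (m : K) * z.1) := by ring
    have h3 : v z.1 = v (((m : K) - (n : K)) * z.1) := by
      rw [AbsoluteValue.map_mul, v_int hv m n (Ne.symm hne), one_mul]
    rw [h3, h2]
    exact lt_of_le_of_lt (v_sub hv _ _) (max_lt hn hm)
  have h2 : v z.2 < 1 := by
    have h3 : z.2 = (z.2 - (n : K) * z.1) + (n : K) * z.1 := by ring
    rw [h3]
    refine lt_of_le_of_lt (hv.ultra _ _) (max_lt hn ?_)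
    rw [AbsoluteValue.map_mul]
    calc v (n : K) * v z.1 ≤ 1 * v z.1 :=
          mul_le_mul_of_nonneg_right (v_nat_le hv n) (AbsoluteValue.nonneg v _)
      _ < 1 := by rw [one_mul]; exact h1
  have h3 : nm v z < 1 := max_lt h1 h2
  rw [hz] at h3
  exact lt_irrefl _ h3

end GEN_

open GEN_ in
theorem p_GEN : T_GEN := by
  intro K _ v hv Z N hZ hn
  have hfin : (⋃ z ∈ Z, {n : ℕ | v (z.2 - (n : K) * z.1) < 1}).Finite :=
    hZ.biUnion fun z hz => (sub_single hv z (hn z hz)).finite
  have hinf := hfin.infinite_compl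
  set e := Set.Infinite.natEmbedding _ hinf with he
  refine ⟨fun i => (1, ((e i.1 : ℕ) : K)), fun i => ?_, fun i j hij => ?_, fun i z hz => ?_⟩
  · show max (v 1) (v ((e i.1 : ℕ) : K)) = 1
    rw [AbsoluteValue.map_one]
    exact max_eq_left (v_nat_le hv _)
  · show v (1 * ((e j.1 : ℕ) : K) - ((e i.1 : ℕ) : K) * 1) = 1
    rw [one_mul, mul_one]
    apply v_int hv
    intro h
    have h1 : e j.1 = e i.1 := Subtype.ext h
    have h2 := e.injective h1
    exact hij (Fin.ext h2.symm)
  · show v (1 * z.2 - ((e i.1 : ℕ) : K) * z.1) = 1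
    rw [one_mul]
    have h1 : (e i.1 : ℕ) ∉ ⋃ z ∈ Z, {n : ℕ | v (z.2 - (n : K) * z.1) < 1} := (e i.1).2
    have h2 : ¬ v (z.2 - ((e i.1 : ℕ) : K) * z.1) < 1 := by
      intro h
      apply h1
      simp only [Set.mem_iUnion, Set.mem_setOf_eq]
      exact ⟨z, hz, h⟩
    apply le_antisymm _ (not_lt.1 h2)
    refine (v_sub hv _ _).trans ?_
    have h3 : nm v z = 1 := hn z hz
    have h4 : v z.1 ≤ 1 := by rw [← h3]; exact le_max_left _ _
    have h5 : v z.2 ≤ 1 := by rw [← h3]; exact le_max_right _ _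
    refine max_le h5 ?_
    rw [AbsoluteValue.map_mul]
    exact mul_le_one₀ (v_nat_le hv _) (AbsoluteValue.nonneg v _) h4

end Pool.Agent.UMR
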