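import Pool.Agent.UMR.Targets

set_option autoImplicit false
set_option maxHeartbeats 4000000

namespace Pool.Agent.UMR

open Finset

namespace GEOM_

theorem fv_map {A B : Type} [CommRing A] [CommRing B] (φ : A →+* B) {n : ℕ}
    (c : Fin (n + 1) → A) (x : A × A) : fv (fun i => φ (c i)) (mv φ x) = φ (fv c x) := by
  unfold fv mv
  rw [map_sum]
  refine sum_congr rfl (fun i _ => ?_)
  simp only [map_mul, map_pow]

theorem st_map {A B : Type} [CommRing A] [CommRing B] (φ : A →+* B) {d : ℕ}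
    (f : Pr A d) (x : A × A) : st (mp φ f) (mv φ x) = mv φ (st f x) := by
  unfold st
  refine Prod.ext ?_ ?_
  · exact fv_map φ f.1 x
  · exact fv_map φ f.2 x

theorem orb_map {A B : Type} [CommRing A] [CommRing B] (φ : A →+* B) {d : ℕ}
    (f : Pr A d) (x : A × A) (n : ℕ) : orb (mp φ f) (mv φ x) n = mv φ (orb f x n) := by
  unfold orb
  induction n with
  | zero => rfl
  | succ n ih => rw [Function.iterate_succ_apply', Function.iterate_succ_apply', ih, st_map]

theorem wd_map {A B : Type} [CommRing A] [CommRing B] (φ : A →+* B) (x y : A × A) :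
    wd (mv φ x) (mv φ y) = φ (wd x y) := by
  unfold wd mv
  simp only [map_sub, map_mul]

/-- the sum in `MRel` -/
def rs {A : Type} [CommRing A] (k : ℕ) (μ : Finset (Fin k) → A) (y : Fin k → A × A) : A :=
  ∑ S : Finset (Fin k), μ S * ∏ t : Fin k, (if t ∈ S then (y t).1 else (y t).2)

theorem rs_map {A B : Type} [CommRing A] [CommRing B] (φ : A →+* B) (k : ℕ)
    (μ : Finset (Fin k) → A) (y : Fin k → A × A) :
    rs k (fun S => φ (μ S)) (fun t => mv φ (y t)) = φ (rs k μ y) := by
  unfold rs mv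
  rw [map_sum]
  refine sum_congr rfl (fun S _ => ?_)
  rw [map_mul, map_prod]
  congr 1
  refine prod_congr rfl (fun t _ => ?_)
  split_ifs <;> rfl

/-- the difference in `CRel` -/
def cd {A : Type} [CommRing A] (x x' : ℕ → A × A) (i j k l : ℕ) : A :=
  wd (x i) (x j) * wd (x k) (x l) * (wd (x' i) (x' k) * wd (x' j) (x' l)) -
      wd (x' i) (x' j) * wd (x' k) (x' l) * (wd (x i) (x k) * wd (x j) (x l))

theorem cd_map {A B : Type} [CommRing A] [CommRing B] (φ : A →+* B) (x x' : ℕ → A × A)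
    (i j k l : ℕ) : cd (fun n => mv φ (x n)) (fun n => mv φ (x' n)) i j k l =
      φ (cd x x' i j k l) := by
  unfold cd
  simp only [wd_map, map_sub, map_mul]

theorem res_map {A B : Type} [CommRing A] [CommRing B] (φ : A →+* B) {d : ℕ} (f : Pr A d) :
    res (mp φ f) = φ (res f) := by
  unfold res mp
  rw [← Polynomial.resultant_map_map]
  congr 1 <;> simp [Polynomial.map_sum, Polynomial.map_monomial]

/-- evaluation of a sequence -/
def evn (n : ℕ) : (ℕ → ℚ) →+* ℚ := Pi.evalRingHom (fun _ : ℕ => ℚ) n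

end GEOM_

open GEOM_

theorem p_GEOM (h1 : T_GINF) (h2 : T_RESNZ) : T_GEOM := by
  intro d k hd
  by_contra hcon
  push Not at hcon
  -- counterexamples
  have hc := fun n : ℕ => hcon (n + (2 * d + 3)) (n + (2 * d + 3)) (by omega)
  choose μ f x hμ hNZ hx hD hR hC using hc
  -- the index
  set idx : ∀ n : ℕ, ℕ → Fin (n + (2 * d + 3) + 1) := fun n j =>
    if h : j < n + (2 * d + 3) + 1 then ⟨j, h⟩ else 0 with hidx
  set F : ℕ → Pr (ℕ → ℚ) d := fun j =>
    (fun i n => (f n (idx n j)).1 i, fun i n => (f n (idx n j)).2 i) with hF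
  set Xx : ℕ → (ℕ → ℚ) × (ℕ → ℚ) := fun j =>
    (fun n => (x n (idx n j)).1, fun n => (x n (idx n j)).2) with hXx
  set MU : ℕ → Finset (Fin k) → (ℕ → ℚ) := fun i S n => μ n i S with hMU
  have hFe : ∀ j n, mp (evn n) (F j) = f n (idx n j) := fun j n => rfl
  have hXe : ∀ j n, mv (evn n) (Xx j) = x n (idx n j) := fun j n => rfl
  have hMe : ∀ i n, (fun S => evn n (MU i S)) = μ n i := fun i n => rfl
  -- the ultrafilter and the field
  set U : Filter ℕ := ((Filter.hyperfilter ℕ : Ultrafilter ℕ) : Filter ℕ) with hU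
  set G : Type := Filter.Germ ((Filter.hyperfilter ℕ : Ultrafilter ℕ) : Filter ℕ) ℚ with hG
  let θ0 : (ℕ → ℚ) →+* G := Filter.Germ.coeRingHom _
  let L : Type := AlgebraicClosure G
  let θ : (ℕ → ℚ) →+* L := (algebraMap G L).comp θ0
  have : CharZero G := by
    refine charZero_of_injective_algebraMap (R := ℚ) (algebraMap ℚ G).injective
  have : CharZero L := by
    refine charZero_of_injective_algebraMap (R := G) (algebraMap G L).injective
  have hθ : ∀ a : ℕ → ℚ, θ a = 0 ↔ ∀ᶠ n in U, a n = 0 := by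
    intro a
    have e1 : θ a = 0 ↔ θ0 a = 0 := by
      change algebraMap G L (θ0 a) = 0 ↔ _
      exact map_eq_zero _
    rw [e1]
    change (Filter.Germ.ofFun a : G) = ((0 : ℕ → ℚ) : G) ↔ _
    exact Filter.Germ.coe_eq
  have hlarge : ∀ N : ℕ, ∀ᶠ n in U, N ≤ n := by
    intro N
    have : U ≤ Filter.atTop := by
      rw [hU, ← Nat.cofinite_eq_atTop]
      exact Filter.hyperfilter_le_cofinite
    exact this (Filter.eventually_ge_atTop N)
  have hne : U.NeBot := by rw [hU]; infer_instance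
  have hOe : ∀ j n m, mv (evn n) (orb (F j) (Xx j) m) = orb (f n (idx n j)) (x n (idx n j)) m := by
    intro j n m
    rw [← orb_map]
    rfl
  have g1 : ∀ i, (fun S => θ (MU i S)) ≠ 0 := by
    intro i h0
    have e1 : ∀ᶠ n in U, ∀ S ∈ (univ : Finset (Finset (Fin k))), μ n i S = 0 := by
      rw [Filter.eventually_all_finset]
      intro S _
      exact (hθ (MU i S)).1 (congrFun h0 S)
    obtain ⟨n, hn1, hn2⟩ := (e1.and (hlarge i)).exists
    exact hμ n i (by omega) (funext fun S => hn1 S (mem_univ S))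
  have g2 : ∀ j, NZ (mp θ (F j)) := by
    intro j
    have e1 := (h2 L L (RingHom.id L) d (mp θ (F j)) (by omega)).2
    refine e1 ?_
    rw [res_map]
    intro h0
    obtain ⟨n, hn⟩ := ((hθ _).1 h0).exists
    have e2 : evn n (res (F j)) = 0 := hn
    rw [← res_map] at e2
    exact (h2 ℚ ℂ (algebraMap ℚ ℂ) d (f n (idx n j)) (by omega)).1 (hNZ n (idx n j)) e2
  have g3 : ∀ j, mv θ (Xx j) ≠ 0 := by
    intro j h0
    have e1 := (hθ _).1 (congrArg Prod.fst h0)
    have e2 := (hθ _).1 (congrArg Prod.snd h0)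
    obtain ⟨n, hn1, hn2⟩ := (e1.and e2).exists
    exact hx n (idx n j) (Prod.ext hn1 hn2)
  have g4 : ∀ j, Dist (mp θ (F j)) (mv θ (Xx j)) := by
    intro j a b hab h0
    have e0 : θ (wd (orb (F j) (Xx j) a) (orb (F j) (Xx j) b)) = 0 := by
      rw [← wd_map, ← orb_map, ← orb_map]; exact h0
    obtain ⟨n, hn1, hn2, hn3⟩ := (((hθ _).1 e0).and ((hlarge a).and (hlarge b))).exists
    have e2 : evn n (wd (orb (F j) (Xx j) a) (orb (F j) (Xx j) b)) = 0 := hn1
    rw [← wd_map, hOe, hOe] at e2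
    exact hD n (idx n j) a b (by omega) (by omega) hab e2
  have g5 : ∀ j i, MRel k (fun S => θ (MU i S)) (fun t : Fin k => orb (mp θ (F j)) (mv θ (Xx j)) (i + t)) := by
    intro j i
    have e0 : θ (rs k (MU i) (fun t : Fin k => orb (F j) (Xx j) (i + t))) = 0 := by
      rw [hθ]
      filter_upwards [hlarge i] with n hn
      have e1 : evn n (rs k (MU i) (fun t : Fin k => orb (F j) (Xx j) (i + t))) = 0 := by
        rw [← rs_map]
        simp only [hOe]
        exact hR n (idx n j) i (by omega)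
      exact e1
    rw [← rs_map] at e0
    simp only [← orb_map] at e0
    exact e0
  obtain ⟨j, j', hjj, hcr⟩ := h1 L d k (fun i S => θ (MU i S)) (fun j => mp θ (F j))
    (fun j => mv θ (Xx j)) hd g1 g2 g3 g4 g5
  have hq : ∀ᶠ n in U, ∀ i < 2 * d + 3, ∀ j1 < 2 * d + 3, ∀ k1 < 2 * d + 3, ∀ l < 2 * d + 3,
      cd (orb (f n (idx n j)) (x n (idx n j))) (orb (f n (idx n j')) (x n (idx n j'))) i j1 k1 l
        = 0 := by
    rw [(show (∀ᶠ n in U, ∀ i < 2 * d + 3, ∀ j1 < 2 * d + 3, ∀ k1 < 2 * d + 3, ∀ l < 2 * d + 3,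
      cd (orb (f n (idx n j)) (x n (idx n j))) (orb (f n (idx n j')) (x n (idx n j'))) i j1 k1 l
        = 0) ↔ ∀ᶠ n in U, ∀ q ∈ range (2 * d + 3) ×ˢ (range (2 * d + 3) ×ˢ
          (range (2 * d + 3) ×ˢ range (2 * d + 3))),
      cd (orb (f n (idx n j)) (x n (idx n j))) (orb (f n (idx n j')) (x n (idx n j')))
        q.1 q.2.1 q.2.2.1 q.2.2.2 = 0 from ?_)]
    · rw [Filter.eventually_all_finset]
      rintro ⟨i, j1, k1, l⟩ hq
      simp only [mem_product, mem_range] at hq
      have e1 := hcr (2 * d + 3) i j1 k1 l hq.1 hq.2.1 hq.2.2.1 hq.2.2.2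
      have e2 : θ (cd (orb (F j) (Xx j)) (orb (F j') (Xx j')) i j1 k1 l) = 0 := by
        rw [← cd_map]
        unfold cd
        rw [sub_eq_zero]
        simp only [← orb_map]
        exact e1
      have e3 := (hθ _).1 e2
      filter_upwards [e3] with n hn
      have e4 : evn n (cd (orb (F j) (Xx j)) (orb (F j') (Xx j')) i j1 k1 l) = 0 := hn
      rw [← cd_map] at e4
      simp only [hOe] at e4
      exact e4
    · refine Filter.eventually_congr (Filter.Eventually.of_forall (fun n => ?_))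
      constructor
      · rintro h ⟨i, j1, k1, l⟩ hq
        simp only [mem_product, mem_range] at hq
        exact h i hq.1 j1 hq.2.1 k1 hq.2.2.1 l hq.2.2.2
      · intro h i hi j1 hj1 k1 hk1 l hl
        exact h ⟨i, j1, k1, l⟩ (by simp only [mem_product, mem_range]; exact ⟨hi, hj1, hk1, hl⟩)
  obtain ⟨n, hn1, hn2, hn3⟩ := (hq.and ((hlarge j).and (hlarge j'))).exists
  refine hC n (idx n j) (idx n j') ?_ ?_
  · intro h
    apply hjj
    have e1 : idx n j = ⟨j, by omega⟩ := by
      rw [hidx]; simp only; rw [dif_pos (show j < n + (2 * d + 3) + 1 by omega)]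
    have e2 : idx n j' = ⟨j', by omega⟩ := by
      rw [hidx]; simp only; rw [dif_pos (show j' < n + (2 * d + 3) + 1 by omega)]
    rw [e1, e2] at h
    exact Fin.mk.inj h
  · intro i j1 k1 l hi hj1 hk1 hl
    exact sub_eq_zero.1 (hn1 i hi j1 hj1 k1 hk1 l hl)

end Pool.Agent.UMR
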