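import Pool.Agent.UMR.Targets

set_option autoImplicit false
set_option maxHeartbeats 4000000

namespace Pool.Agent.UMR

open Finset

namespace GINF_

theorem fv_map {A B : Type} [CommRing A] [CommRing B] (φ : A →+* B) {n : ℕ}
    (c : Fin (n + 1) → A) (x : A × A) : fv (fun i => φ (c i)) (mv φ x) = φ (fv c x) := by
  unfold fv mv
  rw [map_sum]
  refine sum_congr rfl (fun i _ => ?_)
  simp only [map_mul, map_pow]

theorem st_map {A B : Type} [CommRing A] [CommRing B] (φ : A →+* B) {d : ℕ}
    (f : Pr A d) (x : A × A) : st (mp φ f) (mv φ x) = mv φ (st f x) := by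
  unfold st
  refine Prod.ext ?_ ?_
  · exact fv_map φ f.1 x
  · exact fv_map φ f.2 x

theorem orb_map {A B : Type} [CommRing A] [CommRing B] (φ : A →+* B) {d : ℕ}
    (f : Pr A d) (x : A × A) (n : ℕ) : orb (mp φ f) (mv φ x) n = mv φ (orb f x n) := by
  unfold orb
  induction n with
  | zero => rfl
  | succ n ih => rw [Function.iterate_succ_apply', Function.iterate_succ_apply', ih, st_map]

theorem wd_map {A B : Type} [CommRing A] [CommRing B] (φ : A →+* B) (x y : A × A) :
    wd (mv φ x) (mv φ y) = φ (wd x y) := by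
  unfold wd mv
  simp only [map_sub, map_mul]

/-- the sum in `MRel` -/
def rs {A : Type} [CommRing A] (k : ℕ) (μ : Finset (Fin k) → A) (y : Fin k → A × A) : A :=
  ∑ S : Finset (Fin k), μ S * ∏ t : Fin k, (if t ∈ S then (y t).1 else (y t).2)

theorem rs_map {A B : Type} [CommRing A] [CommRing B] (φ : A →+* B) (k : ℕ)
    (μ : Finset (Fin k) → A) (y : Fin k → A × A) :
    rs k (fun S => φ (μ S)) (fun t => mv φ (y t)) = φ (rs k μ y) := by
  unfold rs mv
  rw [map_sum]
  refine sum_congr rfl (fun S _ => ?_)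
  rw [map_mul, map_prod]
  congr 1
  refine prod_congr rfl (fun t _ => ?_)
  split_ifs <;> rfl

theorem res_map {A B : Type} [CommRing A] [CommRing B] (φ : A →+* B) {d : ℕ} (f : Pr A d) :
    res (mp φ f) = φ (res f) := by
  unfold res mp
  rw [← Polynomial.resultant_map_map]
  congr 1 <;> simp [Polynomial.map_sum, Polynomial.map_monomial]

theorem wd_self {A : Type} [CommRing A] (x : A × A) : wd x x = 0 := by
  unfold wd; ring

end GINF_

open GINF_

theorem p_GINF (h1 : T_ISO) (h2 : T_RESNZ) : T_GINF := by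
  intro L _ _ _ d k μ f x hd hμ hNZ hx hD hR
  let σ : Type := Fin (d + 1) ⊕ (Fin (d + 1) ⊕ Fin 2)
  let A : Type := MvPolynomial σ L
  let fg : Pr A d := (fun i => MvPolynomial.X (Sum.inl i), fun i => MvPolynomial.X (Sum.inr (Sum.inl i)))
  let xg : A × A := (MvPolynomial.X (Sum.inr (Sum.inr 0)), MvPolynomial.X (Sum.inr (Sum.inr 1)))
  let pt : ℕ → σ → L := fun j => Sum.elim (f j).1 (Sum.elim (f j).2 ![(x j).1, (x j).2])
  let ev : ℕ → (A →+* L) := fun j => MvPolynomial.eval (pt j)
  have hfe : ∀ j, mp (ev j) fg = f j := by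
    intro j
    refine Prod.ext ?_ ?_
    · funext i
      change MvPolynomial.eval (pt j) (MvPolynomial.X (Sum.inl i)) = _
      rw [MvPolynomial.eval_X]; rfl
    · funext i
      change MvPolynomial.eval (pt j) (MvPolynomial.X (Sum.inr (Sum.inl i))) = _
      rw [MvPolynomial.eval_X]; rfl
  have hxe : ∀ j, mv (ev j) xg = x j := by
    intro j
    refine Prod.ext ?_ ?_
    · change MvPolynomial.eval (pt j) (MvPolynomial.X (Sum.inr (Sum.inr 0))) = _
      rw [MvPolynomial.eval_X]; rfl
    · change MvPolynomial.eval (pt j) (MvPolynomial.X (Sum.inr (Sum.inr 1))) = _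
      rw [MvPolynomial.eval_X]; rfl
  have hoe : ∀ j n, mv (ev j) (orb fg xg n) = orb (f j) (x j) n := by
    intro j n
    rw [← orb_map, hfe, hxe]
  let rel : ℕ → A := fun i => rs k (fun S => MvPolynomial.C (μ i S)) (fun t => orb fg xg (i + t))
  let J : Ideal A := Ideal.span (Set.range rel)
  have hJ : ∀ j, J ≤ RingHom.ker (ev j) := by
    intro j
    rw [Ideal.span_le]
    rintro _ ⟨i, rfl⟩
    change ev j (rs k (fun S => MvPolynomial.C (μ i S)) (fun t => orb fg xg (i + t))) = 0
    rw [← rs_map]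
    simp only [hoe]
    have e1 : (fun S => ev j (MvPolynomial.C (μ i S))) = μ i := by
      funext S
      exact MvPolynomial.eval_C _
    rw [e1]
    exact hR j i
  have hpr : ∀ j, (RingHom.ker (ev j)).IsPrime := fun j => RingHom.ker_isPrime (ev j)
  have hmin : ∀ j, ∃ p ∈ J.minimalPrimes, p ≤ RingHom.ker (ev j) := by
    intro j
    haveI := hpr j
    exact Ideal.exists_minimalPrimes_le (hJ j)
  choose P hP1 hP2 using hmin
  have hfin : J.minimalPrimes.Finite := Ideal.finite_minimalPrimes_of_isNoetherianRing A J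
  haveI : Finite J.minimalPrimes := hfin
  obtain ⟨j, j', hjj, hpp⟩ := Finite.exists_ne_map_eq_of_infinite
    (fun j : ℕ => (⟨P j, hP1 j⟩ : J.minimalPrimes))
  have hpp' : P j = P j' := congrArg Subtype.val hpp
  set p : Ideal A := P j with hp
  haveI hprime : p.IsPrime := (hP1 j).1.1
  have hJp : J ≤ p := (hP1 j).1.2
  have hk1 : p ≤ RingHom.ker (ev j) := hP2 j
  have hk2 : p ≤ RingHom.ker (ev j') := by rw [hpp']; exact hP2 j'
  let Q : Type := A ⧸ p
  let F : Type := FractionRing Q
  let π : A →+* F := (algebraMap Q F).comp (Ideal.Quotient.mk p)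
  have hπ : ∀ a, π a = 0 ↔ a ∈ p := by
    intro a
    change algebraMap Q F (Ideal.Quotient.mk p a) = 0 ↔ _
    rw [map_eq_zero_iff _ (IsFractionRing.injective Q F), Ideal.Quotient.eq_zero_iff_mem]
  have hπC : ∀ c : L, π (MvPolynomial.C c) = algebraMap L F c := by
    intro c
    rfl
  have hne : ∀ a, ev j a ≠ 0 → π a ≠ 0 := by
    intro a ha h0
    exact ha (hk1 ((hπ a).1 h0))
  have hadj : ∀ a : A, π a ∈ IntermediateField.adjoin L (Set.range fun i : σ => π (MvPolynomial.X i)) := by
    intro a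
    induction a using MvPolynomial.induction_on with
    | C c => rw [hπC]; exact IntermediateField.algebraMap_mem _ c
    | add a b ha hb => rw [map_add]; exact add_mem ha hb
    | mul_X a i ha =>
      rw [map_mul]
      exact mul_mem ha (IntermediateField.subset_adjoin L _ ⟨i, rfl⟩)
  have hfg : ∃ s : Set F, s.Finite ∧ IntermediateField.adjoin L s = ⊤ := by
    refine ⟨Set.range fun i : σ => π (MvPolynomial.X i), Set.finite_range _, ?_⟩
    rw [eq_top_iff]
    intro z _
    obtain ⟨a, b, hb, rfl⟩ := IsFractionRing.div_surjective (A := Q) z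
    obtain ⟨a, rfl⟩ := Ideal.Quotient.mk_surjective a
    obtain ⟨b, rfl⟩ := Ideal.Quotient.mk_surjective b
    exact div_mem (hadj a) (hadj b)
  have hres : res (mp π fg) ≠ 0 := by
    rw [res_map]
    apply hne
    rw [← res_map, hfe]
    exact (h2 L L (RingHom.id L) d (f j) (by omega)).1 (hNZ j)
  have hiso := h1 L F hfg d k (mp π fg) (mv π xg) μ hd
    ((h2 F (AlgebraicClosure F) (algebraMap F (AlgebraicClosure F)) d (mp π fg) (by omega)).2 hres)
    (by
      intro h0
      apply hx j
      rw [← hxe j]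
      refine Prod.ext ?_ ?_
      · exact hk1 ((hπ _).1 (congrArg Prod.fst h0))
      · exact hk1 ((hπ _).1 (congrArg Prod.snd h0)))
    (by
      intro n m hnm
      rw [orb_map, orb_map, wd_map]
      apply hne
      rw [← wd_map, hoe, hoe]
      exact hD j n m hnm)
    hμ
    (by
      intro i
      have e1 : π (rel i) = 0 := (hπ _).2 (hJp (Ideal.subset_span ⟨i, rfl⟩))
      have e2 : rs k (fun S => π (MvPolynomial.C (μ i S))) (fun t : Fin k => mv π (orb fg xg (i + t))) = 0 := by
        rw [rs_map]; exact e1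
      simp only [← orb_map] at e2
      exact e2)
  refine ⟨j, j', hjj, ?_⟩
  intro N i j1 k1 l _ _ _ _
  by_cases hik : i = k1
  · subst hik
    rw [wd_self, wd_self]; ring
  by_cases hjl : j1 = l
  · subst hjl
    rw [wd_self, wd_self]; ring
  obtain ⟨c, hc⟩ := hiso i j1 k1 l hik hjl
  rw [orb_map, orb_map, orb_map, orb_map, wd_map, wd_map, wd_map, wd_map, ← hπC, ← map_mul,
    ← map_mul, ← map_mul, ← sub_eq_zero, ← map_sub, hπ] at hc
  have c1 : ev j _ = 0 := hk1 hc
  have c2 : ev j' _ = 0 := hk2 hc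
  have hC : ∀ j, ev j (MvPolynomial.C c) = c := fun j => MvPolynomial.eval_C _
  rw [map_sub, map_mul, map_mul, map_mul, hC, ← wd_map, ← wd_map, ← wd_map, ← wd_map, hoe, hoe, hoe,
    hoe, sub_eq_zero] at c1 c2
  rw [c1, c2]; ring

end Pool.Agent.UMR
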