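import Pool.Agent.UMR.Targets

set_option autoImplicit false

namespace Pool.Agent.UMR

open Finset
open scoped BigOperators

namespace GOODB_

theorem nm_nonneg {K : Type} [Field K] (v : AbsoluteValue K ℝ) (x : K × K) : 0 ≤ nm v x :=
  le_max_of_le_left (v.nonneg _)

theorem nm_pos {K : Type} [Field K] (v : AbsoluteValue K ℝ) (x : K × K) (hx : x ≠ 0) :
    0 < nm v x := by
  unfold nm
  by_cases h : x.1 = 0
  · have h2 : x.2 ≠ 0 := fun h2 => hx (Prod.ext h h2)
    exact lt_max_of_lt_right (v.pos h2)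
  · exact lt_max_of_lt_left (v.pos h)

theorem v_wd_le {K : Type} [Field K] (v : AbsoluteValue K ℝ) (hv : VV v) (x y : K × K) :
    v (wd x y) ≤ nm v x * nm v y := by
  unfold wd
  rw [sub_eq_add_neg]
  refine (hv.ultra _ _).trans (max_le ?_ ?_)
  · rw [v.map_mul]
    exact mul_le_mul (le_max_left _ _) (le_max_right _ _) (v.nonneg _) (nm_nonneg v x)
  · rw [v.map_neg, v.map_mul]
    exact mul_le_mul (le_max_right _ _) (le_max_left _ _) (v.nonneg _) (nm_nonneg v x)

end GOODB_

open GOODB_ in
theorem p_GOODB (h1 : T_BD) : T_GOODB := by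
  intro K _ _ v d f ρ H C hL x y hxy
  have hv := hL.vv
  have hd := hL.ag.hd
  have hd1 : (2 : ℝ) ≤ d := by exact_mod_cast hd
  have hx : x ≠ 0 := by
    rintro rfl
    apply hxy
    simp [wd]
  have hy : y ≠ 0 := by
    rintro rfl
    apply hxy
    simp [wd]
  have hρ : 0 < v ρ := v.pos hL.ag.ne
  -- the image of a nonzero vector is nonzero, and `cn` is positive
  have hne : ∀ z : K × K, z ≠ 0 → st f z ≠ 0 := by
    intro z hz h0
    have h := (h1 K v d f ρ hv hL.ag z).2
    have hz0 := nm_pos v z hz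
    rw [h0] at h
    have e : nm v (0 : K × K) = 0 := by simp [nm]
    rw [e, mul_zero] at h
    have : 0 < v ρ * nm v z ^ d := by positivity
    linarith
  have hcn0 : 0 ≤ cn v f := by
    unfold cn
    refine le_max_of_le_left ?_
    exact Real.iSup_nonneg fun i => v.nonneg _
  have hcn : 0 < cn v f := by
    rcases hcn0.lt_or_eq with h | h
    · exact h
    · exfalso
      have h2 := (h1 K v d f ρ hv hL.ag x).1
      rw [← h, zero_mul] at h2
      exact absurd h2 (not_le.2 (nm_pos v _ (hne x hx)))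
  set c0 : ℝ := Real.log (v ρ) - (2 * d - 1) * Real.log (cn v f) with hc0
  have hlog : ∀ z : K × K, z ≠ 0 →
      d * Real.log (nm v z) + c0 ≤ Real.log (nm v (st f z)) := by
    intro z hz
    have h := (h1 K v d f ρ hv hL.ag z).2
    have hz0 := nm_pos v z hz
    have hw0 := nm_pos v _ (hne z hz)
    have h3 := Real.log_le_log (by positivity) h
    rw [Real.log_mul hρ.ne' (by positivity), Real.log_mul (by positivity) hw0.ne', Real.log_pow,
      Real.log_pow] at h3
    have e : ((2 * d - 1 : ℕ) : ℝ) = 2 * d - 1 := by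
      rw [Nat.cast_sub (by omega)]
      push_cast
      ring
    rw [e] at h3
    rw [hc0]
    linarith
  -- the estimate for H
  have hH : ∀ z : K × K, z ≠ 0 → Real.log (nm v z) + c0 / (d - 1) ≤ H z := by
    intro z hz
    have hiter : ∀ n : ℕ, (st f)^[n] z ≠ 0 ∧ H ((st f)^[n] z) = (d : ℝ) ^ n * H z ∧
        (d : ℝ) ^ n * (Real.log (nm v z) + c0 / (d - 1)) - c0 / (d - 1) ≤
          Real.log (nm v ((st f)^[n] z)) := by
      intro n
      induction n with
      | zero =>
        refine ⟨hz, by simp, ?_⟩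
        simp
      | succ n ih =>
        obtain ⟨i1, i2, i3⟩ := ih
        rw [Function.iterate_succ_apply']
        refine ⟨hne _ i1, ?_, ?_⟩
        · rw [hL.fe _ i1, i2, pow_succ]
          ring
        · have h := hlog _ i1
          have h' : (d : ℝ) * ((d : ℝ) ^ n * (Real.log (nm v z) + c0 / (d - 1)) - c0 / (d - 1)) ≤
              d * Real.log (nm v ((st f)^[n] z)) := mul_le_mul_of_nonneg_left i3 (by positivity)
          have e : (d : ℝ) ^ (n + 1) * (Real.log (nm v z) + c0 / (d - 1)) - c0 / (d - 1) =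
              (d : ℝ) * ((d : ℝ) ^ n * (Real.log (nm v z) + c0 / (d - 1)) - c0 / (d - 1)) + c0 := by
            have : (d : ℝ) - 1 ≠ 0 := by linarith
            field_simp
            ring
          rw [e]
          linarith
    by_contra hcon
    push Not at hcon
    have hδ : 0 < Real.log (nm v z) + c0 / (d - 1) - H z := by linarith
    obtain ⟨n, hn⟩ := pow_unbounded_of_one_lt
      ((C + c0 / (d - 1)) / (Real.log (nm v z) + c0 / (d - 1) - H z))
      (by linarith : (1 : ℝ) < d)
    rw [div_lt_iff₀ hδ] at hn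
    obtain ⟨i1, i2, i3⟩ := hiter n
    have h := abs_le.1 (hL.near _ i1)
    rw [i2] at h
    nlinarith [h.1, h.2]
  -- conclusion
  have hw : 0 < v (wd x y) := v.pos hxy
  have h5 := Real.log_le_log hw (v_wd_le v hv x y)
  rw [Real.log_mul (nm_pos v x hx).ne' (nm_pos v y hy).ne'] at h5
  have hx6 := hH x hx
  have hy6 := hH y hy
  unfold gg kp
  have e : -((2 * (d : ℝ) - 1) * (-Real.log (v ρ) / (d * (d - 1)) +
      2 / (d - 1) * Real.log (cn v f))) = 2 * (c0 / (d - 1)) + -Real.log (v ρ) / (d * (d - 1)) := by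
    have h1 : (d : ℝ) - 1 ≠ 0 := by linarith
    have h2 : (d : ℝ) ≠ 0 := by linarith
    rw [hc0]
    field_simp
    ring
  rw [e]
  linarith

end Pool.Agent.UMR
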