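import Pool.Agent.UMR.Targets

set_option autoImplicit false

/-!
# GR: the escape rate in the case of good reduction
-/

namespace Pool.Agent.UMR

open Finset
open scoped BigOperators

namespace GR_

theorem nm_pos {K : Type} [Field K] (v : AbsoluteValue K ℝ) {x : K × K} (hx : x ≠ 0) :
    0 < nm v x := by
  unfold nm
  by_cases h1 : x.1 = 0
  · have h2 : x.2 ≠ 0 := fun h2 => hx (Prod.ext h1 h2)
    exact lt_max_of_lt_right (v.pos h2)
  · exact lt_max_of_lt_left (v.pos h1)

theorem nm_smul {K : Type} [Field K] (v : AbsoluteValue K ℝ) (c : K) (x : K × K) :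
    nm v (c • x) = v c * nm v x := by
  unfold nm
  rw [Prod.smul_fst, Prod.smul_snd, smul_eq_mul, smul_eq_mul, v.map_mul, v.map_mul,
    mul_max_of_nonneg _ _ (v.nonneg c)]

end GR_

open GR_ in
theorem p_GR (hB : T_BD) : T_GR := by
  intro K _ _ v d f ρ hv hag hρ hcn
  have hst : ∀ x : K × K, nm v (st f x) = nm v x ^ d := by
    intro x
    obtain ⟨h1, h2⟩ := hB K v d f ρ hv hag x
    have hnx : 0 ≤ nm v x := le_max_of_le_left (v.nonneg _)
    have hns : 0 ≤ nm v (st f x) := le_max_of_le_left (v.nonneg _)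
    have hcn0 : 0 ≤ cn v f := by
      unfold cn
      exact le_max_of_le_left (Real.iSup_nonneg fun i => v.nonneg _)
    apply le_antisymm
    · calc nm v (st f x) ≤ cn v f * nm v x ^ d := h1
        _ ≤ 1 * nm v x ^ d := mul_le_mul_of_nonneg_right hcn (pow_nonneg hnx d)
        _ = _ := one_mul _
    · rw [hρ, one_mul] at h2
      calc nm v x ^ d ≤ cn v f ^ (2 * d - 1) * nm v (st f x) := h2
        _ ≤ 1 * nm v (st f x) :=
          mul_le_mul_of_nonneg_right (pow_le_one₀ hcn0 hcn) hns
        _ = _ := one_mul _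
  refine ⟨hv, hag, ?_, ?_, ?_⟩
  · intro x _
    rw [hst x, Real.log_pow]
  · intro x _
    simp
  · intro c x hc hx
    rw [nm_smul, Real.log_mul (ne_of_gt (v.pos hc)) (ne_of_gt (nm_pos v hx))]
    ring

end Pool.Agent.UMR
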