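import Pool.Agent.UMR.Targets

set_option autoImplicit false

namespace Pool.Agent.UMR

open Finset
open scoped BigOperators

namespace GRHO_

theorem nm_nonneg {K : Type} [Field K] (v : AbsoluteValue K ℝ) (x : K × K) : 0 ≤ nm v x :=
  le_max_of_le_left (v.nonneg _)

theorem nm_pos {K : Type} [Field K] (v : AbsoluteValue K ℝ) (x : K × K) (hx : x ≠ 0) :
    0 < nm v x := by
  unfold nm
  by_cases h : x.1 = 0
  · have h2 : x.2 ≠ 0 := fun h2 => hx (Prod.ext h h2)
    exact lt_max_of_lt_right (v.pos h2)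
  · exact lt_max_of_lt_left (v.pos h)

theorem v_wd_le {K : Type} [Field K] (v : AbsoluteValue K ℝ) (hv : VV v) (x y : K × K) :
    v (wd x y) ≤ nm v x * nm v y := by
  unfold wd
  rw [sub_eq_add_neg]
  refine (hv.ultra _ _).trans (max_le ?_ ?_)
  · rw [v.map_mul]
    exact mul_le_mul (le_max_left _ _) (le_max_right _ _) (v.nonneg _) (nm_nonneg v x)
  · rw [v.map_neg, v.map_mul]
    exact mul_le_mul (le_max_right _ _) (le_max_left _ _) (v.nonneg _) (nm_nonneg v x)

theorem ag_nz {K : Type} [Field K] {d : ℕ} {f : Pr K d} {ρ : K} (h : AG f ρ) (x : K × K)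
    (hx : x ≠ 0) : st f x ≠ 0 := by
  intro h0
  -- choose w = (1,0) and w = (0,1)
  have hd := h.hd
  have key : ∀ w : K × K, w ≠ 0 → ∃ c : K, w = st f (c • x) := by
    intro w hw
    obtain ⟨γ, y, hγ, hy, hx2⟩ := h.gam w hw
    have hγ0 : γ ≠ 0 := by
      rintro rfl
      rw [zero_pow (by omega)] at hγ
      exact h.ne hγ.symm
    have h1 := hx2 x
    rw [h0] at h1
    have h2 : wd (0 : K × K) w = 0 := by simp [wd]
    rw [h2] at h1
    have h3 : ∏ b, wd x (y b) = 0 := by
      rcases mul_eq_zero.1 h1.symm with h4 | h4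
      · exact absurd h4 hγ0
      · exact h4
    obtain ⟨b, -, hb⟩ := Finset.prod_eq_zero_iff.1 h3
    -- y b is proportional to x
    have hpr : ∃ c : K, y b = c • x := by
      unfold wd at hb
      by_cases hx1 : x.1 = 0
      · have hx2' : x.2 ≠ 0 := fun h => hx (Prod.ext hx1 h)
        refine ⟨(y b).2 / x.2, Prod.ext ?_ ?_⟩
        · simp only [Prod.smul_fst, smul_eq_mul, hx1, mul_zero]
          rw [hx1, zero_mul, zero_sub, neg_eq_zero] at hb
          rcases mul_eq_zero.1 hb with h | h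
          · exact absurd h hx2'
          · exact h
        · simp only [Prod.smul_snd, smul_eq_mul]
          field_simp
      · refine ⟨(y b).1 / x.1, Prod.ext ?_ ?_⟩
        · simp only [Prod.smul_fst, smul_eq_mul]
          field_simp
        · simp only [Prod.smul_snd, smul_eq_mul]
          field_simp
          linear_combination hb
    obtain ⟨c, hc⟩ := hpr
    exact ⟨c, by rw [← hc, hy b]⟩
  have hom : ∀ c : K, st f (c • x) = c ^ d • st f x := by
    intro c
    unfold st fv
    refine Prod.ext ?_ ?_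
    · simp only [Prod.smul_fst, Prod.smul_snd, smul_eq_mul, Finset.mul_sum]
      refine Finset.sum_congr rfl fun i _ => ?_
      have hi : c ^ d = c ^ (i : ℕ) * c ^ (d - (i : ℕ)) := by
        rw [← pow_add]
        congr 1
        have := i.2
        omega
      rw [mul_pow, mul_pow, hi]
      ring
    · simp only [Prod.smul_fst, Prod.smul_snd, smul_eq_mul, Finset.mul_sum]
      refine Finset.sum_congr rfl fun i _ => ?_
      have hi : c ^ d = c ^ (i : ℕ) * c ^ (d - (i : ℕ)) := by
        rw [← pow_add]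
        congr 1
        have := i.2
        omega
      rw [mul_pow, mul_pow, hi]
      ring
  obtain ⟨c, hc⟩ := key ((1 : K), (0 : K)) (by
    intro h
    exact one_ne_zero (congrArg Prod.fst h))
  rw [hom, h0, smul_zero] at hc
  exact one_ne_zero (congrArg Prod.fst hc)

theorem iter_ne {K : Type} [Field K] {d : ℕ} {f : Pr K d} {ρ : K} (h : AG f ρ) (x : K × K)
    (hx : x ≠ 0) (n : ℕ) : (st f)^[n] x ≠ 0 := by
  induction n with
  | zero => exact hx
  | succ n ih =>
    rw [Function.iterate_succ_apply']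
    exact ag_nz h _ ih

theorem H_iter {K : Type} [Field K] {d : ℕ} {v : AbsoluteValue K ℝ} {f : Pr K d} {ρ : K}
    {H : K × K → ℝ} {C : ℝ} (h : LD v f ρ H C) (x : K × K) (hx : x ≠ 0) (n : ℕ) :
    H ((st f)^[n] x) = (d : ℝ) ^ n * H x := by
  induction n with
  | zero => simp
  | succ n ih =>
    rw [Function.iterate_succ_apply', h.fe _ (iter_ne h.ag x hx n), ih, pow_succ]
    ring

theorem near_iter {K : Type} [Field K] {d : ℕ} {v : AbsoluteValue K ℝ} {f : Pr K d} {ρ : K}
    {H : K × K → ℝ} {C : ℝ} (h : LD v f ρ H C) (x : K × K) (hx : x ≠ 0) (n : ℕ) :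
    |(d : ℝ) ^ n * H x - Real.log (nm v ((st f)^[n] x))| ≤ C := by
  rw [← H_iter h x hx n]
  exact h.near _ (iter_ne h.ag x hx n)

end GRHO_

open GRHO_ in
theorem p_GRHO (h1 : T_ITER) (h2 : T_CL) (h3 : T_GAUSS) (h4 : T_GEN) : T_GRHO := by
  intro K _ _ v d f ρ H C lam hL hlam hgn y hy hy1
  have hv := hL.vv
  have hC : 0 ≤ C := by
    have h := hL.near ((1 : K), (0 : K)) (by
      intro h
      exact one_ne_zero (congrArg Prod.fst h))
    exact (abs_nonneg _).trans h
  have hd := hL.ag.hd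
  have hd0 : (0 : ℝ) < d := by exact_mod_cast (by omega : 0 < d)
  -- the supremum
  have hbdd : BddAbove {r | ∃ x, x ≠ 0 ∧ nm v x ≤ 1 ∧ r = H x} := by
    refine ⟨C, ?_⟩
    rintro r ⟨x, hx, hx1, rfl⟩
    have h := abs_le.1 (hL.near x hx)
    have hl : Real.log (nm v x) ≤ 0 := Real.log_nonpos (nm_nonneg v x) hx1
    linarith [h.2]
  have hGG : ∀ x : K × K, x ≠ 0 → nm v x ≤ 1 → H x ≤ GG v H := fun x hx hx1 =>
    le_csSup hbdd ⟨x, hx, hx1, rfl⟩
  have hy' : ((y.1, lam * y.2) : K × K) ≠ 0 := by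
    intro h
    apply hy
    have e1 : y.1 = 0 := congrArg Prod.fst h
    have e2 : lam * y.2 = 0 := congrArg Prod.snd h
    exact Prod.ext e1 ((mul_eq_zero.1 e2).resolve_left hlam)
  -- main estimate
  have main : ∀ n : ℕ, (d : ℝ) ^ n * H (y.1, lam * y.2) ≤ (d : ℝ) ^ n * (d * GG v H) + 2 * C := by
    intro n
    obtain ⟨h, hh⟩ := h1 K d f n
    obtain ⟨P, hP⟩ := h2 K (d ^ n) h ((1 : K), (0 : K)) ((0 : K), lam) ((1 : K), (0 : K))
      ((0 : K), (1 : K))
    have hP' : ∀ x, st P x = (st f)^[n] (x.1, lam * x.2) := by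
      intro x
      rw [hP, hh]
      have e : lin ((1 : K), (0 : K)) ((0 : K), lam) x = (x.1, lam * x.2) := by
        unfold lin
        refine Prod.ext ?_ ?_
        · simp
        · simp [mul_comm]
      rw [e]
      unfold lin
      simp
    obtain ⟨z1, hz1, hzf1⟩ := h3 K v hv (d ^ n) P.1
    obtain ⟨z2, hz2, hzf2⟩ := h3 K v hv (d ^ n) P.2
    have hgn0 : ∀ (m : ℕ) (c : Fin (m + 1) → K), 0 ≤ gn v c := fun m c =>
      Real.iSup_nonneg fun i => v.nonneg _
    have hup : ∀ (m : ℕ) (c : Fin (m + 1) → K) (z : Fin m → K × K), (∀ j, nm v (z j) = 1) →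
        (∀ x, v (fv c x) = gn v c * ∏ j, v (wd x (z j))) → ∀ x : K × K, nm v x ≤ 1 →
        v (fv c x) ≤ gn v c := by
      intro m c z hz hzf x hx
      rw [hzf x]
      refine mul_le_of_le_one_right (hgn0 m c) ?_
      refine Finset.prod_le_one (fun j _ => v.nonneg _) fun j _ => ?_
      refine (v_wd_le v hv x (z j)).trans ?_
      rw [hz j, mul_one]
      exact hx
    have hA : nm v (st P y) ≤ cn v P := by
      unfold nm cn st
      exact max_le_max (hup _ _ z1 hz1 hzf1 y hy1) (hup _ _ z2 hz2 hzf2 y hy1)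
    -- the forms in x
    have hform : ∀ z : K × K, nm v z = 1 → ∃ w : Fin d → K × K, (∀ j, nm v (w j) = 1) ∧
        ∀ x, v (wd (fv f.1 x, fv f.2 x / lam) z) = ∏ j, v (wd x (w j)) := by
      intro z hz
      obtain ⟨w, hw, hwf⟩ := h3 K v hv d (fun i => z.2 * f.1 i + (-(z.1 / lam)) * f.2 i)
      refine ⟨w, hw, fun x => ?_⟩
      have e1 : gn v (fun i => z.2 * f.1 i + (-(z.1 / lam)) * f.2 i) = 1 := by
        rw [hgn, v.map_neg, ← v.map_mul, div_mul_cancel₀ _ hlam, max_comm]
        exact hz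
      have e2 := hwf x
      rw [e1, one_mul] at e2
      rw [← e2]
      congr 1
      unfold wd fv
      simp only
      rw [Finset.sum_div, Finset.sum_mul, Finset.sum_mul, ← Finset.sum_sub_distrib]
      refine Finset.sum_congr rfl fun i _ => ?_
      field_simp
      ring
    choose! W hW hWf using hform
    obtain ⟨x, hx1, -, hxZ⟩ := h4 K v hv
      ((⋃ i, Set.range (W (z1 i))) ∪ (⋃ i, Set.range (W (z2 i)))) 1
      (by
        refine Set.Finite.union ?_ ?_
        · exact Set.finite_iUnion fun i => Set.finite_range _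
        · exact Set.finite_iUnion fun i => Set.finite_range _)
      (by
        rintro z (hz | hz)
        · obtain ⟨i, j, rfl⟩ := Set.mem_iUnion.1 hz
          exact hW _ (hz1 i) j
        · obtain ⟨i, j, rfl⟩ := Set.mem_iUnion.1 hz
          exact hW _ (hz2 i) j)
    set x0 := x 0 with hx0
    have hx01 : nm v x0 = 1 := hx1 0
    have hx0ne : x0 ≠ 0 := by
      intro h
      rw [h] at hx01
      simp [nm] at hx01
    have hF0 : st f x0 ≠ 0 := ag_nz hL.ag x0 hx0ne
    have hval1 : v (fv P.1 (fv f.1 x0, fv f.2 x0 / lam)) = gn v P.1 := by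
      rw [hzf1]
      rw [Finset.prod_eq_one, mul_one]
      intro i _
      rw [hWf _ (hz1 i)]
      refine Finset.prod_eq_one fun j _ => hxZ 0 _ ?_
      left
      exact Set.mem_iUnion.2 ⟨i, j, rfl⟩
    have hval2 : v (fv P.2 (fv f.1 x0, fv f.2 x0 / lam)) = gn v P.2 := by
      rw [hzf2]
      rw [Finset.prod_eq_one, mul_one]
      intro i _
      rw [hWf _ (hz2 i)]
      refine Finset.prod_eq_one fun j _ => hxZ 0 _ ?_
      right
      exact Set.mem_iUnion.2 ⟨i, j, rfl⟩
    have hA2 : nm v (st P (fv f.1 x0, fv f.2 x0 / lam)) = cn v P := by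
      unfold nm cn st
      simp only
      rw [hval1, hval2]
    have hPF : st P (fv f.1 x0, fv f.2 x0 / lam) = (st f)^[n] (st f x0) := by
      rw [hP']
      congr 1
      unfold st
      refine Prod.ext rfl ?_
      simp only
      field_simp
    -- combine
    have hPy : st P y ≠ 0 := by
      rw [hP']
      exact iter_ne hL.ag _ hy' n
    have b1 := abs_le.1 (near_iter hL _ hy' n)
    rw [← hP' y] at b1
    have b2 := abs_le.1 (near_iter hL _ hF0 n)
    rw [← hPF, hA2, hL.fe _ hx0ne] at b2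
    have b3 : Real.log (nm v (st P y)) ≤ Real.log (cn v P) :=
      Real.log_le_log (nm_pos v _ hPy) hA
    have b4 : (d : ℝ) ^ n * (d * H x0) ≤ (d : ℝ) ^ n * (d * GG v H) := by
      refine mul_le_mul_of_nonneg_left ?_ (by positivity)
      exact mul_le_mul_of_nonneg_left (hGG _ hx0ne hx01.le) hd0.le
    linarith [b1.2, b2.1]
  by_contra hcon
  push Not at hcon
  have hδ : 0 < H (y.1, lam * y.2) - d * GG v H := by linarith
  obtain ⟨n, hn⟩ := pow_unbounded_of_one_lt (2 * C / (H (y.1, lam * y.2) - d * GG v H))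
    (by exact_mod_cast (by omega : 1 < d) : (1 : ℝ) < d)
  rw [div_lt_iff₀ hδ] at hn
  have := main n
  nlinarith [this]

end Pool.Agent.UMR
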