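import Pool.Agent.UMR.Targets
import Pool.Agent.HGR.BEZ
import Pool.Agent.HGR.RES

set_option autoImplicit false
set_option maxHeartbeats 4000000

namespace Pool.Agent.UMR

open Finset
open scoped BigOperators

namespace HBD_

lemma fv_map {A B : Type} [CommRing A] [CommRing B] (φ : A →+* B) {n : ℕ}
    (c : Fin (n + 1) → A) (x : A × A) : φ (fv c x) = fv (fun i => φ (c i)) (mv φ x) := by
  unfold fv mv
  simp only [map_sum, map_mul, map_pow]

lemma st_map {A B : Type} [CommRing A] [CommRing B] (φ : A →+* B) {d : ℕ}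
    (f : Pr A d) (x : A × A) : mv φ (st f x) = st (mp φ f) (mv φ x) := by
  unfold st
  ext
  · exact fv_map φ _ _
  · exact fv_map φ _ _

lemma fv_smul {A : Type} [CommRing A] {n : ℕ} (c : Fin (n + 1) → A) (s : A) (x : A × A) :
    fv c (s • x) = s ^ n * fv c x := by
  unfold fv
  rw [Finset.mul_sum]
  refine Finset.sum_congr rfl fun i _ => ?_
  simp only [Prod.smul_fst, Prod.smul_snd, smul_eq_mul]
  have h : s ^ n = s ^ (i : ℕ) * s ^ (n - (i : ℕ)) := by
    rw [← pow_add]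
    congr 1
    have := i.2
    omega
  rw [h, mul_pow, mul_pow]
  ring

lemma st_smul {A : Type} [CommRing A] {d : ℕ} (f : Pr A d) (s : A) (x : A × A) :
    st f (s • x) = s ^ d • st f x := by
  unfold st
  ext
  · simp only [fv_smul, Prod.smul_fst, smul_eq_mul]
  · simp only [fv_smul, Prod.smul_snd, smul_eq_mul]

lemma orb_succ {A : Type} [CommRing A] {d : ℕ} (f : Pr A d) (x : A × A) (n : ℕ) :
    orb f x (n + 1) = st f (orb f x n) := by
  unfold orb
  rw [Function.iterate_succ_apply']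

lemma prim (w : ℤ × ℤ) (hw : w ≠ 0) :
    ∃ (c : ℤ) (y : ℤ × ℤ), c ≠ 0 ∧ IsCoprime y.1 y.2 ∧ w = c • y := by
  have hg : (Int.gcd w.1 w.2 : ℤ) ≠ 0 := by
    intro h
    apply hw
    have h' : Int.gcd w.1 w.2 = 0 := by exact_mod_cast h
    rw [Int.gcd_eq_zero_iff] at h'
    exact Prod.ext h'.1 h'.2
  have h0 : 0 < Int.gcd w.1 w.2 := by
    have : Int.gcd w.1 w.2 ≠ 0 := by exact_mod_cast hg
    omega
  obtain ⟨a, b, hab, h1, h2⟩ := Int.exists_gcd_one (m := w.1) (n := w.2) h0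
  refine ⟨Int.gcd w.1 w.2, (a, b), hg, Int.isCoprime_iff_gcd_eq_one.2 hab, ?_⟩
  ext
  · simp only [Prod.smul_fst, smul_eq_mul]
    rw [mul_comm]
    exact h1
  · simp only [Prod.smul_snd, smul_eq_mul]
    rw [mul_comm]
    exact h2

lemma primQ (v : ℚ × ℚ) (hv : v ≠ 0) :
    ∃ (c : ℚ) (y : ℤ × ℤ), c ≠ 0 ∧ IsCoprime y.1 y.2 ∧ v = c • mv (Int.castRingHom ℚ) y := by
  have hd1 : (v.1.den : ℚ) ≠ 0 := by exact_mod_cast v.1.den_ne_zero
  have hd2 : (v.2.den : ℚ) ≠ 0 := by exact_mod_cast v.2.den_ne_zero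
  have hw : ((v.1.num * v.2.den, v.2.num * v.1.den) : ℤ × ℤ) ≠ 0 := by
    intro h
    apply hv
    have h1 : v.1.num * (v.2.den : ℤ) = 0 := congrArg Prod.fst h
    have h2 : v.2.num * (v.1.den : ℤ) = 0 := congrArg Prod.snd h
    have hd1' : (v.1.den : ℤ) ≠ 0 := by exact_mod_cast v.1.den_ne_zero
    have hd2' : (v.2.den : ℤ) ≠ 0 := by exact_mod_cast v.2.den_ne_zero
    have h3 : v.1.num = 0 := (mul_eq_zero.1 h1).resolve_right hd2'
    have h4 : v.2.num = 0 := (mul_eq_zero.1 h2).resolve_right hd1'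
    exact Prod.ext (Rat.zero_of_num_zero h3) (Rat.zero_of_num_zero h4)
  obtain ⟨c, y, hc, hy, hcy⟩ := prim _ hw
  have h1 : v.1.num * (v.2.den : ℤ) = c * y.1 := congrArg Prod.fst hcy
  have h2 : v.2.num * (v.1.den : ℤ) = c * y.2 := congrArg Prod.snd hcy
  have h1' : (v.1.num : ℚ) * (v.2.den : ℚ) = c * y.1 := by exact_mod_cast h1
  have h2' : (v.2.num : ℚ) * (v.1.den : ℚ) = c * y.2 := by exact_mod_cast h2
  have hc' : (c : ℚ) ≠ 0 := by exact_mod_cast hc
  refine ⟨(c : ℚ) / (v.1.den * v.2.den), y, div_ne_zero hc' (mul_ne_zero hd1 hd2), hy, ?_⟩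
  ext
  · simp only [Prod.smul_fst, smul_eq_mul, mv, eq_intCast]
    rw [div_mul_eq_mul_div, eq_div_iff (mul_ne_zero hd1 hd2), ← h1', ← mul_assoc,
      Rat.mul_den_eq_num]
  · simp only [Prod.smul_snd, smul_eq_mul, mv, eq_intCast]
    rw [div_mul_eq_mul_div, eq_div_iff (mul_ne_zero hd1 hd2), ← h2',
      mul_comm (v.1.den : ℚ), ← mul_assoc, Rat.mul_den_eq_num]

lemma mx_eq (a b : ℤ × ℤ) (ha : IsCoprime a.1 a.2) (hb : IsCoprime b.1 b.2) (c : ℚ) (hc : c ≠ 0)
    (h : mv (Int.castRingHom ℚ) a = c • mv (Int.castRingHom ℚ) b) :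
    HGR.mx a.1 a.2 = HGR.mx b.1 b.2 := by
  have h1 : (a.1 : ℚ) = c * b.1 := congrArg Prod.fst h
  have h2 : (a.2 : ℚ) = c * b.2 := congrArg Prod.snd h
  have hcd : (c.den : ℚ) ≠ 0 := by exact_mod_cast c.den_ne_zero
  have hnum : c.num ≠ 0 := Rat.num_ne_zero.2 hc
  have e1 : (c.den : ℤ) * a.1 = c.num * b.1 := by
    have : (c.den : ℚ) * a.1 = c.num * b.1 := by
      rw [h1]
      have h3 := Rat.mul_den_eq_num c
      linear_combination (b.1 : ℚ) * h3
    exact_mod_cast this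
  have e2 : (c.den : ℤ) * a.2 = c.num * b.2 := by
    have : (c.den : ℚ) * a.2 = c.num * b.2 := by
      rw [h2]
      have h3 := Rat.mul_den_eq_num c
      linear_combination (b.2 : ℚ) * h3
    exact_mod_cast this
  have g1 : Int.gcd (c.den * a.1) (c.den * a.2) = c.den := by
    rw [Int.gcd_mul_left, Int.isCoprime_iff_gcd_eq_one.1 ha]
    simp
  have g2 : Int.gcd (c.num * b.1) (c.num * b.2) = c.num.natAbs := by
    rw [Int.gcd_mul_left, Int.isCoprime_iff_gcd_eq_one.1 hb]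
    simp
  have hg : c.den = c.num.natAbs := by
    rw [← g1, ← g2, e1, e2]
  have hpos : 0 < c.num.natAbs := Int.natAbs_pos.2 hnum
  have n1 : a.1.natAbs = b.1.natAbs := by
    have := congrArg Int.natAbs e1
    rw [Int.natAbs_mul, Int.natAbs_mul, Int.natAbs_natCast, hg] at this
    exact Nat.eq_of_mul_eq_mul_left hpos this
  have n2 : a.2.natAbs = b.2.natAbs := by
    have := congrArg Int.natAbs e2
    rw [Int.natAbs_mul, Int.natAbs_mul, Int.natAbs_natCast, hg] at this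
    exact Nat.eq_of_mul_eq_mul_left hpos this
  unfold HGR.mx
  rw [n1, n2]

lemma val_eq {R : Type} [CommRing R] {d : ℕ} (c : Fin (d + 1) → ℤ) (x : R × R) :
    HGR.val c x.1 x.2 = fv (fun i => Int.castRingHom R (c i)) x := by
  unfold HGR.val fv
  simp

end HBD_

open HBD_ in
theorem p_HBD : T_HBD := by
  intro d hd
  obtain ⟨C, hC⟩ := HGR.p_RES HGR.p_BEZ d (by omega)
  refine ⟨C, ?_⟩
  intro X hX f hf v hv
  obtain ⟨hv0, m, n, hmn, c, hc, horb⟩ := hv
  obtain ⟨hf1, hf2, hf3⟩ := hf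
  have hf' : f ∈ HGR.Maps d X := by
    refine ⟨hf1, hf2, ?_⟩
    intro x y h1 h2
    have := hf3 (x, y) (by
      unfold st mp
      ext
      · rw [← val_eq]
        exact h1
      · rw [← val_eq]
        exact h2)
    exact ⟨congrArg Prod.fst this, congrArg Prod.snd this⟩
  have hRES := hC X hX f hf'
  -- nonvanishing
  have hst : ∀ w : ℤ × ℤ, w ≠ 0 → st f w ≠ 0 := by
    intro w hw h0
    apply hw
    have h1 := st_map (Int.castRingHom ℂ) f w
    rw [h0] at h1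
    have h2 : mv (Int.castRingHom ℂ) (0 : ℤ × ℤ) = 0 := by
      unfold mv
      simp
    rw [h2] at h1
    have h3 := hf3 _ h1.symm
    have h4 : ((w.1 : ℤ) : ℂ) = 0 := congrArg Prod.fst h3
    have h5 : ((w.2 : ℤ) : ℂ) = 0 := congrArg Prod.snd h3
    exact Prod.ext (by exact_mod_cast h4) (by exact_mod_cast h5)
  have hcop0 : ∀ y : ℤ × ℤ, IsCoprime y.1 y.2 → y ≠ 0 := by
    rintro y hy rfl
    exact not_isUnit_zero (isCoprime_zero_left.1 hy)
  obtain ⟨c0, y0, hc0, hy0, hvy⟩ := primQ v hv0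
  let Y : Type := {y : ℤ × ℤ // IsCoprime y.1 y.2}
  have hstep : ∀ y : Y, ∃ (z : Y) (e : ℤ), e ≠ 0 ∧ st f y.1 = e • z.1 := by
    intro y
    obtain ⟨e, z, he, hz, hez⟩ := prim (st f y.1) (hst _ (hcop0 _ y.2))
    exact ⟨⟨z, hz⟩, e, he, hez⟩
  choose nx en hen hnx using hstep
  let p' : ℕ → Y := fun n => Nat.rec ⟨y0, hy0⟩ (fun _ y => nx y) n
  let p : ℕ → ℤ × ℤ := fun n => (p' n).1
  have hp0 : p 0 = y0 := rfl
  have hPO : PO f p := by
    refine ⟨fun n => (p' n).2, fun n => ⟨en (p' n), hen _, ?_⟩⟩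
    exact hnx (p' n)
  -- the orbit of v
  have horbG : ∀ n, ∃ G : ℚ, G ≠ 0 ∧ orb (qf f) v n = G • mv (Int.castRingHom ℚ) (p n) := by
    intro n
    induction n with
    | zero => exact ⟨c0, hc0, by rw [hp0, ← hvy]; rfl⟩
    | succ n ih =>
      obtain ⟨G, hG, hGn⟩ := ih
      obtain ⟨e, he, hen⟩ := hPO.nxt n
      refine ⟨G ^ d * e, mul_ne_zero (pow_ne_zero _ hG) (by exact_mod_cast he), ?_⟩
      rw [orb_succ, hGn, st_smul]
      unfold qf
      rw [← st_map, hen, mul_smul]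
      congr 1
      unfold mv
      ext
      · simp
      · simp
  -- periodicity
  have hper : ∀ l, ∃ e : ℚ, e ≠ 0 ∧ orb (qf f) v (n + l) = e • orb (qf f) v (m + l) := by
    intro l
    induction l with
    | zero => exact ⟨c, hc, horb⟩
    | succ l ih =>
      obtain ⟨e, he, hel⟩ := ih
      refine ⟨e ^ d, pow_ne_zero _ he, ?_⟩
      rw [← add_assoc, ← add_assoc, orb_succ, hel, st_smul, orb_succ]
  let M : ℕ → ℕ := fun n => HGR.mx (p n).1 (p n).2
  have hMper : ∀ l, M (n + l) = M (m + l) := by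
    intro l
    obtain ⟨e, he, hel⟩ := hper l
    obtain ⟨G1, hG1, h1⟩ := horbG (n + l)
    obtain ⟨G2, hG2, h2⟩ := horbG (m + l)
    rw [h1, h2, smul_smul] at hel
    refine mx_eq _ _ (hPO.cop _) (hPO.cop _) (G1⁻¹ * (e * G2))
      (mul_ne_zero (inv_ne_zero hG1) (mul_ne_zero he hG2)) ?_
    rw [mul_smul, ← hel, smul_smul, inv_mul_cancel₀ hG1, one_smul]
  -- the maximum
  obtain ⟨j0, hj0, hmax⟩ := Finset.exists_max_image (Finset.range (n + 1)) M ⟨0, by simp⟩
  have hall : ∀ j, M j ≤ M j0 := by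
    intro j
    induction j using Nat.strong_induction_on with
    | _ j ih =>
      by_cases hj : j < n + 1
      · exact hmax j (Finset.mem_range.2 hj)
      · obtain ⟨l, rfl⟩ : ∃ l, j = n + l := ⟨j - n, by omega⟩
        rw [hMper]
        exact ih (m + l) (by omega)
  have hM1 : 1 ≤ M j0 := by
    by_contra hcon
    have h0 : M j0 = 0 := by omega
    have h1 : HGR.mx (p j0).1 (p j0).2 = 0 := h0
    unfold HGR.mx at h1
    have h2 : (p j0).1.natAbs = 0 := by omega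
    have h3 : (p j0).2.natAbs = 0 := by omega
    exact hcop0 _ (hPO.cop j0) (Prod.ext (Int.natAbs_eq_zero.1 h2) (Int.natAbs_eq_zero.1 h3))
  have hkey : M j0 ^ d ≤ C * X ^ (2 * d - 1) * M (j0 + 1) := by
    obtain ⟨e, he, hee⟩ := hPO.nxt j0
    refine hRES (p j0).1 (p j0).2 (p (j0 + 1)).1 (p (j0 + 1)).2 e (hPO.cop j0)
      (hPO.cop (j0 + 1)) he ?_ ?_
    · have h1 := congrArg Prod.fst hee
      rw [val_eq]
      simpa [st] using h1
    · have h1 := congrArg Prod.snd hee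
      rw [val_eq]
      simpa [st] using h1
  have hfin : M j0 ≤ C * X ^ (2 * d - 1) := by
    have h1 : M j0 ^ (d - 1) * M j0 ≤ C * X ^ (2 * d - 1) * M j0 := by
      rw [← pow_succ]
      have : d - 1 + 1 = d := by omega
      rw [this]
      exact hkey.trans (Nat.mul_le_mul_left _ (hall (j0 + 1)))
    have h2 : M j0 ^ (d - 1) ≤ C * X ^ (2 * d - 1) := Nat.le_of_mul_le_mul_right h1 hM1
    have h3 : M j0 ≤ M j0 ^ (d - 1) := Nat.le_self_pow (by omega) _
    exact h3.trans h2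
  refine ⟨p, hPO, ⟨c0, hc0, by rw [hp0]; exact hvy⟩, fun j => ?_⟩
  have h1 : M j ≤ C * X ^ (2 * d - 1) := (hall j).trans hfin
  have h2 : (p j).1.natAbs ≤ C * X ^ (2 * d - 1) := (le_max_left _ _).trans h1
  have h3 : (p j).2.natAbs ≤ C * X ^ (2 * d - 1) := (le_max_right _ _).trans h1
  constructor
  · rw [← Int.natCast_natAbs]
    exact_mod_cast h2
  · rw [← Int.natCast_natAbs]
    exact_mod_cast h3

end Pool.Agent.UMR
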