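import Pool.Agent.UMR.Targets

set_option autoImplicit false
set_option maxHeartbeats 4000000

namespace Pool.Agent.UMR

open Finset
open scoped BigOperators

namespace HTGROW_

/-- a finite family of elements of `E`, not all zero: the supremum of the absolute values is `1`
for almost all places -/
theorem fin_sup {L Ω : Type} [Field L] [Field Ω] [Algebra L Ω] {E : Subfield Ω} {P : Type}
    {v : P → AbsoluteValue Ω ℝ} (h : Pl L Ω E v) {ι : Type} [Fintype ι] (a : ι → Ω)
    (ha : ∀ i, a i ∈ E) : {p | ∃ i, a i ≠ 0 ∧ v p (a i) ≠ 1}.Finite := by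
  classical
  have : {p | ∃ i, a i ≠ 0 ∧ v p (a i) ≠ 1} = ⋃ i, {p | a i ≠ 0 ∧ v p (a i) ≠ 1} := by
    ext p; simp
  rw [this]
  refine Set.finite_iUnion fun i => ?_
  by_cases hi : a i = 0
  · simp [hi]
  · refine (h.fin (a i) (ha i) hi).subset fun p hp => hp.2

theorem gn_one {K : Type} [Field K] (v : AbsoluteValue K ℝ) {n : ℕ} (c : Fin (n + 1) → K)
    (h : ∀ i, c i ≠ 0 → v (c i) = 1) (i : Fin (n + 1)) (hi : c i ≠ 0) : gn v c = 1 := by
  unfold gn
  refine le_antisymm (ciSup_le fun j => ?_) ?_
  · by_cases hj : c j = 0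
    · simp [hj]
    · exact (h j hj).le
  · rw [← h i hi]
    exact le_ciSup (f := fun i => v (c i)) (Set.finite_range _).bddAbove i

theorem gn_le_one {K : Type} [Field K] (v : AbsoluteValue K ℝ) {n : ℕ} (c : Fin (n + 1) → K)
    (h : ∀ i, c i ≠ 0 → v (c i) = 1) : gn v c ≤ 1 := by
  unfold gn
  refine ciSup_le fun j => ?_
  by_cases hj : c j = 0
  · simp [hj]
  · exact (h j hj).le

end HTGROW_

open HTGROW_

theorem p_HTGROW (h1 : T_BD) : T_HTGROW := by
  intro L Ω _ _ _ _ _ E P v hPl d f ρ hAG hρ hf
  classical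
  have hVV : ∀ p, VV (v p) := fun p => ⟨hPl.ultra p, fun n hn => by
    have := hPl.triv p (n : L) (by exact_mod_cast hn)
    simpa using this⟩
  -- the forms are not both zero
  have hfne : ∃ i, f.1 i ≠ 0 ∨ f.2 i ≠ 0 := by
    by_contra hcon
    push Not at hcon
    obtain ⟨γ, y, -, hy, -⟩ := hAG.gam (1, 0) (by simp)
    have hd := hAG.hd
    have := hy ⟨0, by omega⟩
    have h0 : st f (y ⟨0, by omega⟩) = 0 := by
      unfold st fv
      ext <;> simp [hcon]
    rw [h0] at this
    simpa using congrArg Prod.fst this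
  -- the bad set
  set B1 : Set P := {p | ∃ i : Fin (d + 1), f.1 i ≠ 0 ∧ v p (f.1 i) ≠ 1} with hB1
  set B2 : Set P := {p | ∃ i : Fin (d + 1), f.2 i ≠ 0 ∧ v p (f.2 i) ≠ 1} with hB2
  have hB1f : B1.Finite := fin_sup hPl f.1 fun i => (hf i).1
  have hB2f : B2.Finite := fin_sup hPl f.2 fun i => (hf i).2
  have hcn : ∀ p, p ∉ B1 ∪ B2 → cn (v p) f = 1 := by
    intro p hp
    have hp1 : ∀ i, f.1 i ≠ 0 → v p (f.1 i) = 1 := by
      intro i hi
      by_contra hcon
      exact hp (Or.inl ⟨i, hi, hcon⟩)
    have hp2 : ∀ i, f.2 i ≠ 0 → v p (f.2 i) = 1 := by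
      intro i hi
      by_contra hcon
      exact hp (Or.inr ⟨i, hi, hcon⟩)
    unfold cn
    obtain ⟨i, hi | hi⟩ := hfne
    · rw [gn_one (v p) f.1 hp1 i hi]
      exact max_eq_left (gn_le_one (v p) f.2 hp2)
    · rw [gn_one (v p) f.2 hp2 i hi]
      exact max_eq_right (gn_le_one (v p) f.1 hp1)
  have hcnfin : (Function.support fun p => Real.log (cn (v p) f)).Finite := by
    refine (hB1f.union hB2f).subset fun p hp => ?_
    by_contra hcon
    exact hp (by simp [hcn p hcon])
  -- supports of the heights
  have hnmfin : ∀ x : Ω × Ω, x ≠ 0 → x.1 ∈ E → x.2 ∈ E →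
      (Function.support fun p => Real.log (nm (v p) x)).Finite := by
    intro x hx hx1 hx2
    have hfin := fin_sup hPl (fun i : Fin 2 => if i = 0 then x.1 else x.2) (by
      intro i; by_cases hi : i = 0 <;> simp [hi, hx1, hx2])
    refine hfin.subset fun p hp => ?_
    by_contra hcon
    simp only [Set.mem_ofPred_eq, not_exists, not_and, not_not] at hcon
    have e1 : x.1 ≠ 0 → v p x.1 = 1 := by simpa using hcon 0
    have e2 : x.2 ≠ 0 → v p x.2 = 1 := by simpa using hcon 1
    apply hp
    have : nm (v p) x = 1 := by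
      unfold nm
      by_cases h10 : x.1 = 0
      · have h20 : x.2 ≠ 0 := fun h => hx (Prod.ext h10 h)
        rw [h10, e2 h20]; simp
      · by_cases h20 : x.2 = 0
        · rw [h20, e1 h10]; simp
        · rw [e1 h10, e2 h20]; simp
    simp [this]
  have hlogfin : ∀ z ∈ E, z ≠ 0 → (Function.support fun p => Real.log (v p z)).Finite := by
    intro z hz hz0
    refine (hPl.fin z hz hz0).subset fun p hp => ?_
    by_contra hcon
    simp only [Set.mem_ofPred_eq, not_not] at hcon
    exact hp (by simp [hcon])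
  set S : ℝ := ∑ᶠ p, Real.log (cn (v p) f) with hS
  refine ⟨|(2 * d - 1) * S|, abs_nonneg _, fun x hx hx1 hx2 => ⟨?_, ?_⟩⟩
  · -- positivity
    have key : ∀ a : Ω, a ∈ E → a ≠ 0 → (∀ p, v p a ≤ nm (v p) x) → 0 ≤ ht v x := by
      intro a ha ha0 hle
      rw [← hPl.pf a ha ha0]
      unfold ht
      refine finsum_le_finsum' (hlogfin a ha ha0) (hnmfin x hx hx1 hx2) fun p => ?_
      exact Real.log_le_log ((v p).pos ha0) (hle p)
    by_cases h10 : x.1 = 0
    · have h20 : x.2 ≠ 0 := fun h => hx (Prod.ext h10 h)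
      exact key x.2 hx2 h20 fun p => le_max_right _ _
    · exact key x.1 hx1 h10 fun p => le_max_left _ _
  · have hst1 : (st f x).1 ∈ E := by
      show ∑ i : Fin (d + 1), f.1 i * x.1 ^ (i : ℕ) * x.2 ^ (d - (i : ℕ)) ∈ E
      exact sum_mem fun i _ => mul_mem (mul_mem (hf i).1 (pow_mem hx1 _)) (pow_mem hx2 _)
    have hst2 : (st f x).2 ∈ E := by
      show ∑ i : Fin (d + 1), f.2 i * x.1 ^ (i : ℕ) * x.2 ^ (d - (i : ℕ)) ∈ E
      exact sum_mem fun i _ => mul_mem (mul_mem (hf i).2 (pow_mem hx1 _)) (pow_mem hx2 _)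
    have hnmpos : ∀ p, ∀ y : Ω × Ω, y ≠ 0 → 0 < nm (v p) y := by
      intro p y hy
      unfold nm
      by_cases h10 : y.1 = 0
      · have h20 : y.2 ≠ 0 := fun h => hy (Prod.ext h10 h)
        exact lt_max_of_lt_right ((v p).pos h20)
      · exact lt_max_of_lt_left ((v p).pos h10)
    have hcnpos : ∀ p, 0 < cn (v p) f := by
      intro p
      unfold cn
      obtain ⟨i, hi | hi⟩ := hfne
      · refine lt_max_of_lt_left (lt_of_lt_of_le ((v p).pos hi) ?_)
        exact le_ciSup (f := fun i => v p (f.1 i)) (Set.finite_range _).bddAbove i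
      · refine lt_max_of_lt_right (lt_of_lt_of_le ((v p).pos hi) ?_)
        exact le_ciSup (f := fun i => v p (f.2 i)) (Set.finite_range _).bddAbove i
    -- st f x ≠ 0
    have hstne : st f x ≠ 0 := by
      intro h0
      obtain ⟨γ, y, hγ, hy, hwd⟩ := hAG.gam (1, 0) (by simp)
      obtain ⟨γ', y', hγ', hy', hwd'⟩ := hAG.gam (1, 0) (by simp)
      have hγ0 : γ ≠ 0 := by
        rintro rfl
        have hd := hAG.hd
        rw [zero_pow (by omega)] at hγ
        exact hAG.ne hγ.symm
      have h1' := hwd x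
      rw [h0] at h1'
      have h2' : ∏ b, wd x (y b) = 0 := by
        have : γ * ∏ b, wd x (y b) = 0 := by rw [← h1']; simp [wd]
        exact (mul_eq_zero.mp this).resolve_left hγ0
      obtain ⟨b, -, hb⟩ := Finset.prod_eq_zero_iff.mp h2'
      -- y b is a multiple of x
      have : ∃ c : Ω, y b = c • x := by
        unfold wd at hb
        by_cases h10 : x.1 = 0
        · have h20 : x.2 ≠ 0 := fun h => hx (Prod.ext h10 h)
          refine ⟨(y b).2 / x.2, ?_⟩
          rw [h10] at hb
          have hb1 : (y b).1 = 0 := by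
            have : x.2 * (y b).1 = 0 := by linear_combination -hb
            exact (mul_eq_zero.mp this).resolve_left h20
          ext
          · simp [h10, hb1]
          · simp [h20]
        · refine ⟨(y b).1 / x.1, ?_⟩
          ext
          · simp [h10]
          · simp only [Prod.smul_snd, smul_eq_mul]
            field_simp
            linear_combination hb
      obtain ⟨c, hc⟩ := this
      have hfv : ∀ (g : Fin (d + 1) → Ω), fv g (c • x) = c ^ d * fv g x := by
        intro g
        unfold fv
        rw [Finset.mul_sum]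
        refine Finset.sum_congr rfl fun i _ => ?_
        simp only [Prod.smul_fst, Prod.smul_snd, smul_eq_mul]
        rw [mul_pow, mul_pow]
        have : c ^ d = c ^ (i : ℕ) * c ^ (d - (i : ℕ)) := by
          rw [← pow_add]; congr 1; have := i.2; omega
        rw [this]; ring
      have h3 := hy b
      rw [hc] at h3
      have h4 : fv f.1 x = 0 := congrArg Prod.fst h0
      have h5 := congrArg Prod.fst h3
      simp only [st, hfv, h4, mul_zero] at h5
      exact zero_ne_one h5
    have hpt : ∀ p, d * Real.log (nm (v p) x) + Real.log (v p ρ) -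
        (2 * d - 1) * Real.log (cn (v p) f) ≤ Real.log (nm (v p) (st f x)) := by
      intro p
      have h := (h1 Ω (v p) d f ρ (hVV p) hAG x).2
      have hl := Real.log_le_log (mul_pos ((v p).pos hAG.ne) (pow_pos (hnmpos p x hx) _)) h
      rw [Real.log_mul ((v p).pos hAG.ne).ne' (pow_pos (hnmpos p x hx) _).ne',
        Real.log_mul (pow_pos (hcnpos p) _).ne' (hnmpos p _ hstne).ne', Real.log_pow,
        Real.log_pow] at hl
      have hd := hAG.hd
      rw [Nat.cast_sub (by omega)] at hl
      push_cast at hl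
      linarith
    have hA := hnmfin x hx hx1 hx2
    have hR := hlogfin ρ hρ hAG.ne
    have hsum : ∑ᶠ p, (d * Real.log (nm (v p) x) + Real.log (v p ρ) -
        (2 * d - 1) * Real.log (cn (v p) f)) = d * ht v x - (2 * d - 1) * S := by
      rw [finsum_sub_distrib, finsum_add_distrib, ← mul_finsum, ← mul_finsum, hPl.pf ρ hρ hAG.ne]
      · unfold ht; ring
      · exact hA.subset fun p hp => by
          intro h; exact hp (by simp only [h, mul_zero])
      · exact hR
      · refine (hA.union hR).subset fun p hp => ?_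
        by_contra hcon
        simp only [Set.mem_union, Function.mem_support, not_or, not_not] at hcon
        exact hp (by simp only [hcon.1, hcon.2, mul_zero, add_zero])
      · exact hcnfin.subset fun p hp => by
          intro h; exact hp (by simp only [h, mul_zero])
    have hle : ∑ᶠ p, (d * Real.log (nm (v p) x) + Real.log (v p ρ) -
        (2 * d - 1) * Real.log (cn (v p) f)) ≤ ht v (st f x) := by
      unfold ht
      refine finsum_le_finsum' ?_ (hnmfin _ hstne hst1 hst2) hpt
      refine ((hA.union hR).union hcnfin).subset fun p hp => ?_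
      by_contra hcon
      simp only [Set.mem_union, Function.mem_support, not_or, not_not] at hcon
      exact hp (by simp only [hcon.1.1, hcon.1.2, hcon.2, mul_zero, add_zero, sub_zero])
    rw [hsum] at hle
    have := le_abs_self ((2 * d - 1) * S)
    linarith

end Pool.Agent.UMR
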