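import Pool.Agent.UMR.Targets

set_option autoImplicit false
set_option maxHeartbeats 4000000

namespace Pool.Agent.UMR.HTREL_

open Finset
open scoped BigOperators

variable {L Ω : Type} [Field L] [Field Ω] [Algebra L Ω]

theorem nm_nonneg (v : AbsoluteValue Ω ℝ) (x : Ω × Ω) : 0 ≤ nm v x :=
  le_max_of_le_left (v.nonneg _)

theorem nm_pos (v : AbsoluteValue Ω ℝ) {x : Ω × Ω} (hx : x ≠ 0) : 0 < nm v x := by
  by_cases h : x.1 = 0
  · have h2 : x.2 ≠ 0 := fun h2 => hx (Prod.ext h h2)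
    exact lt_max_of_lt_right (v.pos h2)
  · exact lt_max_of_lt_left (v.pos h)

theorem nm_smul (v : AbsoluteValue Ω ℝ) (s : Ω) (x : Ω × Ω) :
    nm v (s * x.1, s * x.2) = v s * nm v x := by
  simp only [nm, map_mul]
  exact (mul_max_of_nonneg _ _ (v.nonneg s)).symm

theorem v_sum_le {v : AbsoluteValue Ω ℝ} (hv : ∀ x y, v (x + y) ≤ max (v x) (v y)) {ι : Type}
    (s : Finset ι) (a : ι → Ω)
    (B : ℝ) (hB : 0 ≤ B) (h : ∀ i ∈ s, v (a i) ≤ B) : v (∑ i ∈ s, a i) ≤ B := by
  classical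
  induction s using Finset.induction_on with
  | empty => simpa using hB
  | insert b s hb ih =>
    rw [Finset.sum_insert hb]
    exact (hv _ _).trans (max_le (h b (Finset.mem_insert_self b s))
      (ih fun i hi => h i (Finset.mem_insert_of_mem hi)))

theorem supp_fin {E : Subfield Ω} {P : Type} {v : P → AbsoluteValue Ω ℝ} (hP : Pl L Ω E v)
    {x : Ω × Ω} (hx : x ≠ 0) (h1 : x.1 ∈ E) (h2 : x.2 ∈ E) :
    {p | Real.log (nm (v p) x) ≠ 0}.Finite := by
  by_cases h10 : x.1 = 0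
  · have h20 : x.2 ≠ 0 := fun h => hx (Prod.ext h10 h)
    refine (hP.fin _ h2 h20).subset fun p hp => ?_
    simp only [Set.mem_ofPred_eq] at hp ⊢
    intro h
    apply hp
    simp [nm, h10, h]
  · by_cases h20 : x.2 = 0
    · refine (hP.fin _ h1 h10).subset fun p hp => ?_
      simp only [Set.mem_ofPred_eq] at hp ⊢
      intro h
      apply hp
      simp [nm, h20, h]
    · refine ((hP.fin _ h1 h10).union (hP.fin _ h2 h20)).subset fun p hp => ?_
      simp only [Set.mem_ofPred_eq, Set.mem_union] at hp ⊢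
      by_contra h
      push Not at h
      apply hp
      simp [nm, h.1, h.2]

theorem triv_le {E : Subfield Ω} {P : Type} {v : P → AbsoluteValue Ω ℝ} (hP : Pl L Ω E v)
    (p : P) (c : L) : v p (algebraMap L Ω c) ≤ 1 := by
  by_cases hc : c = 0
  · simp [hc]
  · exact (hP.triv p c hc).le

theorem bound {E : Subfield Ω} {P : Type} {v : P → AbsoluteValue Ω ℝ} (hP : Pl L Ω E v)
    {k : ℕ} (y : Fin k → Ω × Ω) (T : Finset (Fin k)) (ν : Finset (Fin k) → L) (p : P) :
    v p (∑ S : Finset (Fin k), algebraMap L Ω (ν S) *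
      ∏ t ∈ T, (if t ∈ S then (y t).1 else (y t).2)) ≤ ∏ t ∈ T, nm (v p) (y t) := by
  refine v_sum_le (hP.ultra p) _ _ _ (Finset.prod_nonneg fun t _ => nm_nonneg _ _) fun S _ => ?_
  rw [map_mul, map_prod]
  calc v p (algebraMap L Ω (ν S)) * ∏ t ∈ T, v p (if t ∈ S then (y t).1 else (y t).2)
      ≤ 1 * ∏ t ∈ T, nm (v p) (y t) := by
        refine mul_le_mul (triv_le hP p _) ?_ (Finset.prod_nonneg fun t _ => (v p).nonneg _)
          zero_le_one
        refine Finset.prod_le_prod (fun t _ => (v p).nonneg _) fun t _ => ?_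
        split_ifs
        · exact le_max_left _ _
        · exact le_max_right _ _
    _ = _ := one_mul _

theorem memE {E : Subfield Ω} {P : Type} {v : P → AbsoluteValue Ω ℝ} (hP : Pl L Ω E v)
    {k : ℕ} (y : Fin k → Ω × Ω) (hy : ∀ t, (y t).1 ∈ E ∧ (y t).2 ∈ E ∧ y t ≠ 0)
    (T : Finset (Fin k)) (ν : Finset (Fin k) → L) :
    (∑ S : Finset (Fin k), algebraMap L Ω (ν S) *
      ∏ t ∈ T, (if t ∈ S then (y t).1 else (y t).2)) ∈ E := by
  refine sum_mem fun S _ => mul_mem (hP.base _) (prod_mem fun t _ => ?_)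
  split_ifs
  · exact (hy t).1
  · exact (hy t).2.1

theorem ht_eq {P : Type} (v : P → AbsoluteValue Ω ℝ) (x : Ω × Ω) (F : Finset P)
    (h : {p | Real.log (nm (v p) x) ≠ 0} ⊆ F) :
    ht v x = ∑ p ∈ F, Real.log (nm (v p) x) :=
  finsum_eq_sum_of_support_subset _ h

end Pool.Agent.UMR.HTREL_

namespace Pool.Agent.UMR

open Finset
open scoped BigOperators

theorem p_HTREL (h1 : T_MULTI) : T_HTREL := by
  classical
  intro L Ω _ _ _ E P v hP k μ y hμ hy hrel
  obtain ⟨l, ν₁, ν₂, a, b, ha, hb, hab, heq⟩ := h1 L Ω k μ y hμ hrel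
  refine ⟨l, ?_⟩
  have haE : a ∈ E := by rw [ha]; exact HTREL_.memE hP y hy _ _
  have hbE : b ∈ E := by rw [hb]; exact HTREL_.memE hP y hy _ _
  have hyl := hy l
  obtain ⟨s, hs0, hsE, hs1, hs2⟩ : ∃ s : Ω, s ≠ 0 ∧ s ∈ E ∧ (y l).1 = s * (-b) ∧
      (y l).2 = s * a := by
    by_cases ha0 : a = 0
    · have hb0 : b ≠ 0 := by
        rcases hab with h | h
        · exact absurd ha0 h
        · exact h
      have h2 : (y l).2 = 0 := by
        rw [ha0, zero_mul, zero_add] at heq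
        exact (mul_eq_zero.mp heq).resolve_left hb0
      have h1' : (y l).1 ≠ 0 := fun h => hyl.2.2 (Prod.ext h h2)
      refine ⟨-((y l).1 / b), ?_, ?_, ?_, ?_⟩
      · exact neg_ne_zero.mpr (div_ne_zero h1' hb0)
      · exact neg_mem (div_mem hyl.1 hbE)
      · field_simp
      · rw [ha0, mul_zero, h2]
    · have h2 : (y l).2 ≠ 0 := by
        intro h
        rw [h, mul_zero, add_zero] at heq
        exact hyl.2.2 (Prod.ext ((mul_eq_zero.mp heq).resolve_left ha0) h)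
      refine ⟨(y l).2 / a, div_ne_zero h2 ha0, div_mem hyl.2.1 haE, ?_, ?_⟩
      · field_simp
        linear_combination heq
      · field_simp
  have hne : ((-b, a) : Ω × Ω) ≠ 0 := by
    intro h
    rw [Prod.ext_iff] at h
    rcases hab with h' | h'
    · exact h' h.2
    · exact h' (neg_eq_zero.mp h.1)
  have hbE' : -b ∈ E := neg_mem hbE
  -- the common finite set
  have hfin : ({p | v p s ≠ 1} ∪ {p | Real.log (nm (v p) (y l)) ≠ 0} ∪
      {p | Real.log (nm (v p) ((-b, a) : Ω × Ω)) ≠ 0} ∪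
      ⋃ t : Fin k, {p | Real.log (nm (v p) (y t)) ≠ 0}).Finite := by
    refine Set.Finite.union (Set.Finite.union (Set.Finite.union ?_ ?_) ?_) ?_
    · exact hP.fin s hsE hs0
    · exact HTREL_.supp_fin hP hyl.2.2 hyl.1 hyl.2.1
    · exact HTREL_.supp_fin hP hne hbE' haE
    · exact Set.finite_iUnion fun t => HTREL_.supp_fin hP (hy t).2.2 (hy t).1 (hy t).2.1
  set F : Finset P := hfin.toFinset with hF
  have hFmem : ∀ p, p ∈ F ↔ p ∈ ({p | v p s ≠ 1} ∪ {p | Real.log (nm (v p) (y l)) ≠ 0} ∪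
      {p | Real.log (nm (v p) ((-b, a) : Ω × Ω)) ≠ 0} ∪
      ⋃ t : Fin k, {p | Real.log (nm (v p) (y t)) ≠ 0}) := fun p => hfin.mem_toFinset
  have hsF : Function.support (fun p => Real.log (v p s)) ⊆ F := by
    intro p hp
    rw [Finset.mem_coe, hFmem]
    refine Or.inl (Or.inl (Or.inl ?_))
    intro h
    exact hp (by simp [h])
  have hylF : {p | Real.log (nm (v p) (y l)) ≠ 0} ⊆ F := by
    intro p hp
    rw [Finset.mem_coe, hFmem]
    exact Or.inl (Or.inl (Or.inr hp))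
  have htF : ∀ t : Fin k, {p | Real.log (nm (v p) (y t)) ≠ 0} ⊆ F := by
    intro t p hp
    rw [Finset.mem_coe, hFmem]
    exact Or.inr (Set.mem_iUnion.mpr ⟨t, hp⟩)
  have hs_sum : ∑ p ∈ F, Real.log (v p s) = 0 := by
    rw [← finsum_eq_sum_of_support_subset _ hsF]
    exact hP.pf s hsE hs0
  have hsum : ∑ t ∈ univ.filter (fun t => t < l), ht v (y t) =
      ∑ p ∈ F, ∑ t ∈ univ.filter (fun t => t < l), Real.log (nm (v p) (y t)) := by
    rw [Finset.sum_comm]
    exact Finset.sum_congr rfl fun t _ => HTREL_.ht_eq v (y t) F (htF t)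
  rw [hsum, HTREL_.ht_eq v (y l) F hylF]
  have h3 : ∑ p ∈ F, Real.log (nm (v p) (y l)) =
      ∑ p ∈ F, Real.log (v p s) + ∑ p ∈ F, Real.log (nm (v p) ((-b, a) : Ω × Ω)) := by
    rw [← Finset.sum_add_distrib]
    refine Finset.sum_congr rfl fun p _ => ?_
    have : y l = (s * ((-b, a) : Ω × Ω).1, s * ((-b, a) : Ω × Ω).2) := Prod.ext hs1 hs2
    rw [this, HTREL_.nm_smul, Real.log_mul ((v p).ne_zero hs0) (HTREL_.nm_pos _ hne).ne']
  rw [h3, hs_sum, zero_add]
  refine Finset.sum_le_sum fun p _ => ?_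
  rw [← Real.log_prod fun t _ => (HTREL_.nm_pos (v p) (hy t).2.2).ne']
  refine Real.log_le_log (HTREL_.nm_pos _ hne) ?_
  simp only [nm, AbsoluteValue.map_neg]
  refine max_le ?_ ?_
  · rw [hb]; exact HTREL_.bound hP y _ _ p
  · rw [ha]; exact HTREL_.bound hP y _ _ p

end Pool.Agent.UMR
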