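import Pool.Agent.UMR.Targets

set_option autoImplicit false
set_option maxHeartbeats 4000000

/-!
# Project UMR: target ISO
-/

namespace Pool.Agent.UMR

namespace ISO_

open IntermediateField

theorem algL {L F Ω : Type} [Field L] [Field F] [Field Ω] [Algebra L F] [Algebra F Ω]
    [Algebra L Ω] [IsScalarTower L F Ω] [Algebra.IsAlgebraic F Ω] (S : Set F)
    (hF : ∀ z : F, IsAlgebraic (IntermediateField.adjoin L S) z)
    {K : Type} [Field K] [Algebra K Ω] (M : IntermediateField K Ω)
    (h1 : ∀ c : L, algebraMap L Ω c ∈ M) (h2 : ∀ s ∈ S, algebraMap F Ω s ∈ M) :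
    ∀ z : Ω, IsAlgebraic M z := by
  have h3 : ∀ y ∈ IntermediateField.adjoin L S, algebraMap F Ω y ∈ M := by
    intro y hy
    induction hy using IntermediateField.adjoin_induction with
    | mem x hx => exact h2 x hx
    | algebraMap x => rw [← IsScalarTower.algebraMap_apply]; exact h1 x
    | add x y _ _ hx hy => rw [map_add]; exact add_mem hx hy
    | inv x _ hx => rw [map_inv₀]; exact inv_mem hx
    | mul x y _ _ hx hy => rw [map_mul]; exact mul_mem hx hy
  have h4 : ∀ y : F, IsAlgebraic M (algebraMap F Ω y) := by
    intro y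
    let φ : (IntermediateField.adjoin L S) →+* M :=
      { toFun := fun a => ⟨algebraMap F Ω a, h3 a.1 a.2⟩
        map_one' := by ext; simp
        map_mul' := by intro a b; ext; simp
        map_zero' := by ext; simp
        map_add' := by intro a b; ext; simp }
    refine IsAlgebraic.ringHom_of_comp_eq φ (algebraMap F Ω) (hF y) φ.injective ?_
    ext a
    rfl
  intro z
  have hz : IsAlgebraic F z := Algebra.IsAlgebraic.isAlgebraic z
  let C : IntermediateField M Ω := algebraicClosure M Ω
  let ψ : F →+* C :=
    { toFun := fun a => ⟨algebraMap F Ω a, mem_algebraicClosure_iff.2 (h4 a)⟩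
      map_one' := by ext; simp
      map_mul' := by intro a b; ext; simp
      map_zero' := by ext; simp
      map_add' := by intro a b; ext; simp }
  have hz2 : IsAlgebraic C z := by
    refine IsAlgebraic.ringHom_of_comp_eq ψ (RingHom.id Ω) hz ψ.injective ?_
    ext a
    rfl
  have : z ∈ C := by
    have h5 : z ∈ algebraicClosure C Ω := mem_algebraicClosure_iff.2 hz2
    rw [algebraicClosure.algebraicClosure_eq_bot] at h5
    obtain ⟨c, rfl⟩ := IntermediateField.mem_bot.1 h5
    exact c.2
  exact mem_algebraicClosure_iff.1 this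

theorem trans_l {L Ω : Type} [Field L] [Field Ω] [Algebra L Ω] {k : ℕ} (t : Fin k → Ω)
    (ht : AlgebraicIndependent L t) (l : Fin k) :
    Transcendental (algebraicClosure (IntermediateField.adjoin L (t '' {j | j ≠ l})) Ω) (t l) := by
  apply Transcendental.algebraicClosure
  rw [IntermediateField.transcendental_adjoin_iff]
  exact ht.transcendental_adjoin (by simp)

theorem orb_mp {A B : Type} [CommRing A] [CommRing B] (φ : A →+* B) {d : ℕ} (f : Pr A d)
    (x : A × A) (n : ℕ) : orb (mp φ f) (mv φ x) n = mv φ (orb f x n) := by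
  have hst : ∀ y : A × A, st (mp φ f) (mv φ y) = mv φ (st f y) := by
    intro y
    simp [st, mp, mv, fv, map_sum, map_mul, map_pow]
  induction n with
  | zero => simp [orb]
  | succ n ih =>
    simp only [orb] at ih ⊢
    rw [Function.iterate_succ_apply', Function.iterate_succ_apply', ih, hst]

theorem wd_mv {A B : Type} [CommRing A] [CommRing B] (φ : A →+* B) (x y : A × A) :
    wd (mv φ x) (mv φ y) = φ (wd x y) := by
  simp [wd, mv]

end ISO_

open ISO_ in
theorem p_ISO (h1 : T_ISOA) (h2 : T_GAM) (h3 : T_PLS) (h4 : T_ACL) (h5 : T_TB) : T_ISO := by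
  intro L F _ _ _ _ _ hfg d k f x μ hd hNZ hx hD hμ hrel i j k' l hik hjl
  obtain ⟨n, t, ht, halg⟩ := h5 L F hfg
  let Ω := AlgebraicClosure F
  haveI : CharZero F := charZero_of_injective_algebraMap (algebraMap L F).injective
  haveI : CharZero Ω := charZero_of_injective_algebraMap (algebraMap F Ω).injective
  let φ : F →+* Ω := algebraMap F Ω
  obtain ⟨ρ, hρ⟩ := h2 Ω d (mp φ f) hd hNZ
  let tΩ : Fin n → Ω := fun a => φ (t a)
  have htΩ : AlgebraicIndependent L tΩ :=
    ht.map' (f := IsScalarTower.toAlgHom L F Ω) φ.injective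
  -- the quotient
  set w1 : F := wd (orb f x i) (orb f x j) * wd (orb f x k') (orb f x l) with hw1
  set w2 : F := wd (orb f x i) (orb f x k') * wd (orb f x j) (orb f x l) with hw2
  have hw2' : w2 ≠ 0 := mul_ne_zero (hD _ _ hik) (hD _ _ hjl)
  have hφw2 : φ w2 ≠ 0 := by rwa [Ne, map_eq_zero_iff φ φ.injective]
  have key : ∀ a : Fin n, IsAlgebraic (IntermediateField.adjoin L (tΩ '' {j | j ≠ a}))
      (φ (w1 / w2)) := by
    intro a
    let A := IntermediateField.adjoin L (tΩ '' {j | j ≠ a})
    let K : IntermediateField A Ω := algebraicClosure A Ω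
    haveI : CharZero A := charZero_of_injective_algebraMap (algebraMap L A).injective
    haveI : CharZero K := charZero_of_injective_algebraMap (algebraMap A K).injective
    haveI : IsAlgClosed K := IsAlgClosure.isAlgClosed A
    let s : Set Ω := Set.range (fun b => φ (f.1 b)) ∪ Set.range (fun b => φ (f.2 b)) ∪
      {φ x.1, φ x.2, ρ}
    have hs : s.Finite := by
      refine Set.Finite.union (Set.Finite.union (Set.finite_range _) (Set.finite_range _)) ?_
      exact Set.toFinite _
    have hLK : ∀ c : L, algebraMap L Ω c ∈ K := by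
      intro c
      have : algebraMap L Ω c = algebraMap A Ω (algebraMap L A c) := rfl
      rw [this]
      exact K.algebraMap_mem _
    obtain ⟨E, P, v, hPl, hsE⟩ := h3 K Ω (tΩ a) (trans_l tΩ htΩ a) (by
      refine algL (Set.range t) halg _ ?_ ?_
      · intro c
        have : algebraMap L Ω c = algebraMap K Ω ⟨algebraMap L Ω c, hLK c⟩ := rfl
        rw [this]
        exact IntermediateField.algebraMap_mem _ _
      · rintro _ ⟨b, rfl⟩
        by_cases hb : b = a
        · subst hb
          exact IntermediateField.subset_adjoin _ _ rfl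
        · have hbA : tΩ b ∈ A := IntermediateField.subset_adjoin _ _ ⟨b, hb, rfl⟩
          have : algebraMap F Ω (t b) = algebraMap K Ω (algebraMap A K ⟨tΩ b, hbA⟩) := rfl
          rw [this]
          exact IntermediateField.algebraMap_mem _ _) s hs
    let ι : L →+* K :=
      { toFun := fun c => ⟨algebraMap L Ω c, hLK c⟩
        map_one' := by ext; simp
        map_mul' := by intro a b; ext; simp
        map_zero' := by ext; simp
        map_add' := by intro a b; ext; simp }
    have hιinj : Function.Injective ι := ι.injective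
    have hι : ∀ c : L, algebraMap K Ω (ι c) = φ (algebraMap L F c) := by
      intro c
      change algebraMap L Ω c = algebraMap F Ω (algebraMap L F c)
      rw [← IsScalarTower.algebraMap_apply]
    obtain ⟨c, hc⟩ := h1 K Ω E P v hPl d k (mp φ f) ρ (mv φ x) (fun i S => ι (μ i S)) hρ
      (hsE (by simp [s])) (by
        intro b
        exact ⟨hsE (Or.inl (Or.inl ⟨b, rfl⟩)), hsE (Or.inl (Or.inr ⟨b, rfl⟩))⟩)
      (hsE (by simp [s, mv])) (hsE (by simp [s, mv])) (by
        intro h0
        apply hx
        have h01 : φ x.1 = 0 := congrArg Prod.fst h0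
        have h02 : φ x.2 = 0 := congrArg Prod.snd h0
        rw [map_eq_zero_iff φ φ.injective] at h01 h02
        exact Prod.ext h01 h02) (by
        intro n' m' hnm
        rw [orb_mp, orb_mp, wd_mv, Ne, map_eq_zero_iff φ φ.injective]
        exact hD n' m' hnm) (by
        intro i' h0
        apply hμ i'
        ext S
        have := congrFun h0 S
        simp only [Pi.zero_apply] at this
        rwa [map_eq_zero_iff ι hιinj] at this) (by
        intro i'
        have h6 := hrel i'
        unfold MRel at h6 ⊢
        have h7 := congrArg φ h6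
        rw [map_sum, map_zero] at h7
        rw [← h7]
        refine Finset.sum_congr rfl fun S _ => ?_
        rw [map_mul, map_prod]
        simp only [hι]
        congr 1
        refine Finset.prod_congr rfl fun t' _ => ?_
        rw [orb_mp]
        split_ifs <;> rfl) i j k' l hik hjl
    simp only [orb_mp, wd_mv] at hc
    rw [← map_mul, ← map_mul, ← hw1, ← hw2] at hc
    have hq : φ (w1 / w2) = algebraMap K Ω c := by
      rw [map_div₀, hc, mul_div_assoc, div_self hφw2, mul_one]
    rw [hq]
    exact mem_algebraicClosure_iff.1 c.2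
  have hall : IsAlgebraic L (φ (w1 / w2)) := by
    refine h4 L Ω n tΩ _ htΩ ?_ key
    refine algL (Set.range t) halg _ ?_ ?_ _
    · intro c
      exact IntermediateField.algebraMap_mem _ _
    · rintro _ ⟨b, rfl⟩
      exact IntermediateField.subset_adjoin _ _ ⟨b, rfl⟩
  have hall2 : IsAlgebraic L (w1 / w2) :=
    (isAlgebraic_algHom_iff (IsScalarTower.toAlgHom L F Ω) φ.injective).1 hall
  have hmem : w1 / w2 ∈ (algebraicClosure L F) := mem_algebraicClosure_iff.2 hall2
  rw [IntermediateField.eq_bot_of_isAlgClosed_of_isAlgebraic (algebraicClosure L F)] at hmem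
  obtain ⟨c, hc⟩ := IntermediateField.mem_bot.1 hmem
  refine ⟨c, ?_⟩
  rw [hc, div_mul_cancel₀ _ hw2']

end Pool.Agent.UMR
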