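import Pool.Agent.UMR.Targets

set_option autoImplicit false

/-!
# UMR-ISOA: constancy of the cross-ratios, one variable
-/

namespace Pool.Agent.UMR

namespace ISOA_

open Finset

lemma orb_succ {A : Type} [CommRing A] {d : ℕ} (f : Pr A d) (x : A × A) (n : ℕ) :
    orb f x (n + 1) = st f (orb f x n) := Function.iterate_succ_apply' _ _ _

lemma fv_mem {Ω : Type} [Field Ω] (E : Subfield Ω) {n : ℕ} (c : Fin (n + 1) → Ω) (x : Ω × Ω)
    (hc : ∀ i, c i ∈ E) (h1 : x.1 ∈ E) (h2 : x.2 ∈ E) : fv c x ∈ E := by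
  unfold fv
  exact sum_mem fun i _ => mul_mem (mul_mem (hc i) (pow_mem h1 _)) (pow_mem h2 _)

lemma orb_mem {Ω : Type} [Field Ω] (E : Subfield Ω) {d : ℕ} (f : Pr Ω d) (x : Ω × Ω)
    (hf : ∀ i, f.1 i ∈ E ∧ f.2 i ∈ E) (h1 : x.1 ∈ E) (h2 : x.2 ∈ E) (n : ℕ) :
    (orb f x n).1 ∈ E ∧ (orb f x n).2 ∈ E := by
  induction n with
  | zero => exact ⟨h1, h2⟩
  | succ n ih =>
    rw [orb_succ]
    exact ⟨fv_mem E _ _ (fun i => (hf i).1) ih.1 ih.2, fv_mem E _ _ (fun i => (hf i).2) ih.1 ih.2⟩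

lemma wd_mem {Ω : Type} [Field Ω] (E : Subfield Ω) (x y : Ω × Ω) (h1 : x.1 ∈ E) (h2 : x.2 ∈ E)
    (h3 : y.1 ∈ E) (h4 : y.2 ∈ E) : wd x y ∈ E :=
  sub_mem (mul_mem h1 h4) (mul_mem h2 h3)

/-- number of pairs -/
lemma sum_pairs (N : ℕ) (c : ℝ) :
    ∑ i : Fin N, ∑ _j ∈ Ioi i, c = c * (N * (N - 1) / 2) := by
  have h1 : ∀ i : Fin N, ∑ _j ∈ Ioi i, c = c * ((N - 1 - (i : ℕ) : ℕ) : ℝ) := by
    intro i
    rw [Finset.sum_const, Fin.card_Ioi, nsmul_eq_mul, mul_comm]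
  rw [Finset.sum_congr rfl fun i _ => h1 i, ← Finset.mul_sum]
  congr 1
  rw [Fin.sum_univ_eq_sum_range (fun i => ((N - 1 - i : ℕ) : ℝ)) N,
    Finset.sum_range_reflect (fun i => (i : ℝ)) N]
  rcases Nat.eq_zero_or_pos N with h | h
  · subst h; simp
  · have h2 := Finset.sum_range_id_mul_two N
    have h3 : ((∑ i ∈ range N, i : ℕ) : ℝ) * 2 = (N : ℝ) * ((N - 1 : ℕ) : ℝ) := by
      exact_mod_cast h2
    rw [Nat.cast_sum, Nat.cast_sub h, Nat.cast_one] at h3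
    linarith

/-- an exponential beats a linear function -/
lemma growth (d : ℕ) (hd : 2 ≤ d) (c C : ℝ) (hc : 0 < c) :
    ∃ m : ℕ, C * m < c * (((d ^ m : ℕ) : ℝ) - 1) / 2 := by
  have h1 : ∀ m : ℕ, (m : ℝ) ^ 2 ≤ 4 * (2 : ℝ) ^ m := by
    intro m
    have h2 : ∀ m : ℕ, m ^ 2 ≤ 4 * 2 ^ m := by
      intro m
      induction m using Nat.strong_induction_on with
      | _ m ih =>
        rcases lt_or_ge m 4 with h | h
        · interval_cases m <;> norm_num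
        · obtain ⟨n, rfl⟩ : ∃ n, m = n + 1 := ⟨m - 1, by omega⟩
          have h3 := ih n (by omega)
          have h4 : 3 ≤ n := by omega
          calc (n + 1) ^ 2 = n ^ 2 + (2 * n + 1) := by ring
            _ ≤ n ^ 2 + n ^ 2 := by
              apply Nat.add_le_add_left
              nlinarith
            _ ≤ 4 * 2 ^ n + 4 * 2 ^ n := Nat.add_le_add h3 h3
            _ = 4 * 2 ^ (n + 1) := by ring
    exact_mod_cast h2 m
  obtain ⟨m, hm⟩ := exists_nat_gt (max 1 (8 * (|C| + c) / c))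
  have hm1 : (1 : ℝ) < m := lt_of_le_of_lt (le_max_left _ _) hm
  have hm2 : 8 * (|C| + c) / c < m := lt_of_le_of_lt (le_max_right _ _) hm
  rw [div_lt_iff₀ hc] at hm2
  refine ⟨m, ?_⟩
  have h2 : (2 : ℝ) ^ m ≤ ((d ^ m : ℕ) : ℝ) := by
    rw [Nat.cast_pow]
    exact pow_le_pow_left₀ (by norm_num) (by exact_mod_cast hd) m
  have h3 := h1 m
  have h4 : C * m ≤ |C| * m := mul_le_mul_of_nonneg_right (le_abs_self _) (by positivity)
  have h5 : 8 * (|C| + c) * m < m * c * m := by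
    exact mul_lt_mul_of_pos_right hm2 (by linarith)
  have h6 : c * (m : ℝ) ^ 2 ≤ c * (4 * ((d ^ m : ℕ) : ℝ)) :=
    mul_le_mul_of_nonneg_left (by linarith) hc.le
  have h7 : c * 1 ≤ c * m := mul_le_mul_of_nonneg_left hm1.le hc.le
  nlinarith [abs_nonneg C]

/-- all the Green functions are nonnegative -/
lemma nonneg (h2 : T_DICH) (h3 : T_ENERGY) {Ω P : Type} [Field Ω] [IsAlgClosed Ω] [CharZero Ω]
    (v : P → AbsoluteValue Ω ℝ) (d : ℕ) (f : Pr Ω d) (ρ : Ω) (x : Ω × Ω) (hD : Dist f x)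
    (S : Finset P) (H : P → Ω × Ω → ℝ) (C : P → ℝ) (hLD : ∀ p, LD (v p) f ρ (H p) (C p))
    (hS : ∀ S' : Finset P, S ⊆ S' → ∀ n m, n ≠ m →
      ∑ p ∈ S', gg d (v p) ρ (H p) (orb f x n) (orb f x m) ≤ 0) (p₀ : P) :
    ∀ x y, wd x y ≠ 0 → 0 ≤ gg d (v p₀) ρ (H p₀) x y := by
  classical
  rcases h2 Ω (v p₀) d f ρ (H p₀) (C p₀) (hLD p₀) with h | ⟨c, hc, h⟩
  · exact h
  exfalso
  have hd : 2 ≤ d := (hLD p₀).ag.hd
  obtain ⟨T, hT, hTc⟩ := h (fun n => orb f x n) hD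
  set S' := insert p₀ S with hS'
  have hSS : S ⊆ S' := Finset.subset_insert _ _
  choose C' hC0 hC' using fun p => h3 Ω (v p) d f ρ (H p) (C p) (hLD p)
  obtain ⟨m, hm⟩ := growth d hd c (∑ p ∈ S'.erase p₀, C' p) hc
  -- the points
  set e : Fin (d ^ m) → ℕ := fun i => (hT.natEmbedding T (i : ℕ) : ℕ) with he
  have heT : ∀ i, e i ∈ T := fun i => (hT.natEmbedding T (i : ℕ)).2
  have hinj : ∀ i j, i ≠ j → e i ≠ e j := by
    intro i j hij hh
    exact hij (Fin.ext ((hT.natEmbedding T).injective (Subtype.ext hh)))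
  set y : Fin (d ^ m) → Ω × Ω := fun i => orb f x (e i) with hy
  have hwd : ∀ i j, i ≠ j → wd (y i) (y j) ≠ 0 := fun i j hij => hD _ _ (hinj i j hij)
  have hy0 : ∀ i, y i ≠ 0 := by
    intro i hi
    have h1 := hD (e i) (e i + 1) (Nat.succ_ne_self _).symm
    apply h1
    show wd (y i) _ = 0
    rw [hi]
    simp [wd]
  -- sum over the pairs
  have hne : ∀ i : Fin (d ^ m), ∀ j ∈ Ioi i, e i ≠ e j := by
    intro i j hj
    exact hinj i j (ne_of_lt (Finset.mem_Ioi.1 hj))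
  have hsum : ∑ p ∈ S', ∑ i, ∑ j ∈ Ioi i, gg d (v p) ρ (H p) (y i) (y j) ≤ 0 := by
    rw [Finset.sum_comm]
    refine Finset.sum_nonpos fun i _ => ?_
    rw [Finset.sum_comm]
    exact Finset.sum_nonpos fun j hj => hS S' hSS _ _ (hne i j hj)
  have hmem : p₀ ∈ S' := Finset.mem_insert_self _ _
  rw [← Finset.add_sum_erase _ _ hmem] at hsum
  have h4 : c * (((d ^ m : ℕ) : ℝ) * (((d ^ m : ℕ) : ℝ) - 1) / 2) ≤
      ∑ i, ∑ j ∈ Ioi i, gg d (v p₀) ρ (H p₀) (y i) (y j) := by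
    rw [← sum_pairs]
    exact Finset.sum_le_sum fun i _ => Finset.sum_le_sum fun j hj =>
      hTc _ (heT i) _ (heT j) (hne i j hj)
  have h5 : - ((∑ p ∈ S'.erase p₀, C' p) * m * ((d ^ m : ℕ) : ℝ)) ≤
      ∑ p ∈ S'.erase p₀, ∑ i, ∑ j ∈ Ioi i, gg d (v p) ρ (H p) (y i) (y j) := by
    rw [Finset.sum_mul, Finset.sum_mul, ← Finset.sum_neg_distrib]
    refine Finset.sum_le_sum fun p _ => ?_
    have := hC' p m y hwd hy0
    rw [Nat.cast_pow]
    exact this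
  have hN : (0 : ℝ) < ((d ^ m : ℕ) : ℝ) := by
    have : 0 < d ^ m := pow_pos (by omega) m
    exact_mod_cast this
  have h6 := mul_lt_mul_of_pos_right hm hN
  nlinarith

lemma wd_self {A : Type} [CommRing A] (x : A × A) : wd x x = 0 := by
  unfold wd
  ring

end ISOA_

open ISOA_ in
theorem p_ISOA (h1 : T_SUMG) (h2 : T_DICH) (h3 : T_ENERGY) : T_ISOA := by
  classical
  intro L Ω _ _ _ _ _ E P v hPl d k f ρ x μ hAG hρ hf hx1 hx2 hx0 hD hμ hrel i j k' l hik hjl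
  have : CharZero Ω := charZero_of_injective_algebraMap (algebraMap L Ω).injective
  obtain ⟨S, H, C, hLD, hS⟩ := h1 L Ω E P v hPl d k f ρ x μ hAG hρ hf hx1 hx2 hx0 hD hμ hrel
  have hnn := fun p => nonneg h2 h3 v d f ρ x hD S H C hLD hS p
  have hzero : ∀ p n m, n ≠ m → gg d (v p) ρ (H p) (orb f x n) (orb f x m) = 0 := by
    intro p n m hnm
    have h4 := hS (insert p S) (Finset.subset_insert _ _) n m hnm
    have h5 : ∀ p' ∈ insert p S, 0 ≤ gg d (v p') ρ (H p') (orb f x n) (orb f x m) :=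
      fun p' _ => hnn p' _ _ (hD n m hnm)
    have h6 := (Finset.sum_eq_zero_iff_of_nonneg h5).1 (le_antisymm h4 (Finset.sum_nonneg h5))
    exact h6 p (Finset.mem_insert_self _ _)
  have hlog : ∀ p n m, n ≠ m → Real.log (v p (wd (orb f x n) (orb f x m))) =
      H p (orb f x n) + H p (orb f x m) + kp d (v p) ρ := by
    intro p n m hnm
    have := hzero p n m hnm
    unfold gg at this
    linarith
  by_cases hij : i = j
  · refine ⟨0, ?_⟩
    rw [hij, wd_self, map_zero, zero_mul, zero_mul]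
  by_cases hkl : k' = l
  · refine ⟨0, ?_⟩
    rw [hkl, wd_self, map_zero, zero_mul, mul_zero]
  have hm := orb_mem E f x hf hx1 hx2
  have hw : ∀ n m, wd (orb f x n) (orb f x m) ∈ E := fun n m =>
    wd_mem E _ _ (hm n).1 (hm n).2 (hm m).1 (hm m).2
  have e1 := hD i j hij
  have e2 := hD k' l hkl
  have e3 := hD i k' hik
  have e4 := hD j l hjl
  obtain ⟨c, hc⟩ := hPl.const
    (wd (orb f x i) (orb f x j) * wd (orb f x k') (orb f x l) /
      (wd (orb f x i) (orb f x k') * wd (orb f x j) (orb f x l)))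
    (div_mem (mul_mem (hw _ _) (hw _ _)) (mul_mem (hw _ _) (hw _ _))) (by
      intro p
      have p1 : 0 < v p (wd (orb f x i) (orb f x j)) := (v p).pos e1
      have p2 : 0 < v p (wd (orb f x k') (orb f x l)) := (v p).pos e2
      have p3 : 0 < v p (wd (orb f x i) (orb f x k')) := (v p).pos e3
      have p4 : 0 < v p (wd (orb f x j) (orb f x l)) := (v p).pos e4
      rw [map_div₀, map_mul, map_mul, div_le_one (mul_pos p3 p4)]
      apply le_of_eq
      apply Real.log_injOn_pos (Set.mem_Ioi.2 (mul_pos p1 p2)) (Set.mem_Ioi.2 (mul_pos p3 p4))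
      rw [Real.log_mul p1.ne' p2.ne', Real.log_mul p3.ne' p4.ne', hlog p i j hij,
        hlog p k' l hkl, hlog p i k' hik, hlog p j l hjl]
      ring)
  exact ⟨c, by rw [← hc, div_mul_cancel₀ _ (mul_ne_zero e3 e4)]⟩

end Pool.Agent.UMR
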