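import Pool.Agent.UMR.Targets

set_option autoImplicit false

namespace Pool.Agent.UMR

open Finset
open scoped BigOperators

theorem p_ITER (h1 : T_COMP) : T_ITER := by
  intro A _ d f n
  induction n with
  | zero =>
    rw [pow_zero]
    refine ⟨((fun i => if i = 1 then 1 else 0), (fun i => if i = 0 then 1 else 0)), ?_⟩
    intro x
    simp [st, fv]
  | succ n ih =>
    rw [pow_succ']
    obtain ⟨g, hg⟩ := ih
    obtain ⟨h, hh⟩ := h1 A d (d ^ n) g f
    refine ⟨h, fun x => ?_⟩
    rw [hh, hg, Function.iterate_succ_apply]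

end Pool.Agent.UMR
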