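import Pool.Agent.UMR.Targets

set_option autoImplicit false

/-!
# LK: bound for the constant `ρ`
-/

namespace Pool.Agent.UMR

open Finset
open scoped BigOperators

namespace LK_

theorem nm_nonneg {K : Type} [Field K] (v : AbsoluteValue K ℝ) (x : K × K) : 0 ≤ nm v x :=
  le_max_of_le_left (v.nonneg _)

theorem nm_smul {K : Type} [Field K] (v : AbsoluteValue K ℝ) (c : K) (x : K × K) :
    nm v (c • x) = v c * nm v x := by
  unfold nm
  rw [Prod.smul_fst, Prod.smul_snd, smul_eq_mul, smul_eq_mul, v.map_mul, v.map_mul,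
    mul_max_of_nonneg _ _ (v.nonneg c)]

theorem wd_smul {K : Type} [Field K] (s : K) (x y : K × K) : wd x (s • y) = s * wd x y := by
  unfold wd
  simp only [Prod.smul_fst, Prod.smul_snd, smul_eq_mul]
  ring

/-- normalization -/
theorem norm_one {K : Type} [Field K] (v : AbsoluteValue K ℝ) (x : K × K) (hx : x ≠ 0) :
    ∃ (s : K) (z : K × K), x = s • z ∧ nm v z = 1 ∧ v s = nm v x := by
  have key : ∀ s : K, s ≠ 0 → v s = nm v x → ∃ (s : K) (z : K × K), x = s • z ∧ nm v z = 1 ∧
      v s = nm v x := by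
    intro s hs h
    refine ⟨s, s⁻¹ • x, ?_, ?_, h⟩
    · rw [smul_smul, mul_inv_cancel₀ hs, one_smul]
    · rw [nm_smul, ← h, ← v.map_mul, inv_mul_cancel₀ hs, v.map_one]
  rcases le_total (v x.1) (v x.2) with h | h
  · have h1 : nm v x = v x.2 := max_eq_right h
    refine key x.2 ?_ h1.symm
    intro h0
    have h2 : v x.1 ≤ 0 := by
      rw [h0, v.map_zero] at h
      exact h
    have h3 : x.1 = 0 := v.eq_zero.mp (le_antisymm h2 (v.nonneg _))
    exact hx (Prod.ext h3 h0)
  · have h1 : nm v x = v x.1 := max_eq_left h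
    refine key x.1 ?_ h1.symm
    intro h0
    have h2 : v x.2 ≤ 0 := by
      rw [h0, v.map_zero] at h
      exact h
    have h3 : x.2 = 0 := v.eq_zero.mp (le_antisymm h2 (v.nonneg _))
    exact hx (Prod.ext h0 h3)

theorem sum_le {K : Type} [Field K] {v : AbsoluteValue K ℝ} (hv : VV v) {ι : Type}
    (s : Finset ι) (g : ι → K) (M : ℝ) (hM : 0 ≤ M) (h : ∀ i ∈ s, v (g i) ≤ M) :
    v (∑ i ∈ s, g i) ≤ M := by
  classical
  induction s using Finset.induction_on with
  | empty => simpa using hM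
  | insert a s ha ih =>
    rw [Finset.sum_insert ha]
    exact le_trans (hv.ultra _ _) (max_le (h a (Finset.mem_insert_self _ _))
      (ih fun i hi => h i (Finset.mem_insert_of_mem hi)))

theorem le_gn {K : Type} [Field K] (v : AbsoluteValue K ℝ) {n : ℕ} (c : Fin (n + 1) → K)
    (i : Fin (n + 1)) : v (c i) ≤ gn v c :=
  le_ciSup (f := fun i => v (c i)) (Set.finite_range _).bddAbove i

theorem gn_nonneg {K : Type} [Field K] (v : AbsoluteValue K ℝ) {n : ℕ} (c : Fin (n + 1) → K) :
    0 ≤ gn v c := le_trans (v.nonneg _) (le_gn v c 0)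

theorem fv_le {K : Type} [Field K] {v : AbsoluteValue K ℝ} (hv : VV v) {n : ℕ}
    (c : Fin (n + 1) → K) (x : K × K) : v (fv c x) ≤ gn v c * nm v x ^ n := by
  unfold fv
  apply sum_le hv
  · exact mul_nonneg (gn_nonneg v c) (pow_nonneg (nm_nonneg v x) n)
  · intro i _
    rw [v.map_mul, v.map_mul, v.map_pow, v.map_pow]
    have h1 : (i : ℕ) + (n - (i : ℕ)) = n := by have := i.isLt; omega
    have h2 : nm v x ^ n = nm v x ^ (i : ℕ) * nm v x ^ (n - (i : ℕ)) := by rw [← pow_add, h1]
    rw [h2, ← mul_assoc]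
    apply mul_le_mul
    · apply mul_le_mul (le_gn v c i) (pow_le_pow_left₀ (v.nonneg _) (le_max_left _ _) _)
        (pow_nonneg (v.nonneg _) _) (gn_nonneg v c)
    · exact pow_le_pow_left₀ (v.nonneg _) (le_max_right _ _) _
    · exact pow_nonneg (v.nonneg _) _
    · exact mul_nonneg (gn_nonneg v c) (pow_nonneg (nm_nonneg v x) _)

end LK_

open LK_ in
theorem p_LK (hG : T_GEN) : T_LK := by
  intro K _ _ v d f ρ hv h hg
  have hd := h.hd
  have n10 : ((1, 0) : K × K) ≠ 0 := by
    intro h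
    have := congrArg Prod.fst h
    simp at this
  obtain ⟨γ, y, hγ, h1, h2⟩ := h.gam (1, 0) n10
  have hy0 : ∀ b, y b ≠ 0 := by
    intro b hb
    have h3 := congrArg Prod.fst (h1 b)
    rw [hb] at h3
    unfold st fv at h3
    simp only at h3
    have h4 : ∑ i : Fin (d + 1), f.1 i * (0 : K × K).1 ^ (i : ℕ) *
        (0 : K × K).2 ^ (d - (i : ℕ)) = 0 := by
      apply Finset.sum_eq_zero
      intro i _
      have hi : (i : ℕ) ≠ 0 ∨ d - (i : ℕ) ≠ 0 := by omega
      rcases hi with hi | hi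
      · simp [hi]
      · simp [hi]
    rw [h4] at h3
    exact zero_ne_one h3
  have hy1 : ∀ b, 1 ≤ nm v (y b) := by
    intro b
    have h3 := congrArg Prod.fst (h1 b)
    unfold st at h3
    simp only at h3
    have h4 := fv_le hv f.1 (y b)
    rw [h3, v.map_one] at h4
    have h5 : 1 ≤ nm v (y b) ^ d := by
      calc (1 : ℝ) ≤ gn v f.1 * nm v (y b) ^ d := h4
        _ ≤ 1 * nm v (y b) ^ d :=
          mul_le_mul_of_nonneg_right hg (pow_nonneg (nm_nonneg v _) d)
        _ = _ := one_mul _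
    by_contra hlt
    push Not at hlt
    have h6 : nm v (y b) ^ d < 1 := pow_lt_one₀ (nm_nonneg v _) hlt (by omega)
    linarith
  choose s z hs hz hvs using fun b => norm_one v (y b) (hy0 b)
  obtain ⟨x, hx1, _, hx2⟩ := hG K v hv (Set.range z) 1 (Set.finite_range z) (by
    rintro _ ⟨b, rfl⟩
    exact hz b)
  have h3 := h2 (x 0)
  have h4 : wd (st f (x 0)) (1, 0) = - fv f.2 (x 0) := by
    unfold wd st
    simp
  have h5 : v γ ≤ gn v f.2 := by
    have h6 : v (fv f.2 (x 0)) = v γ * ∏ b, nm v (y b) := by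
      rw [← v.map_neg, ← h4, h3, v.map_mul, map_prod]
      congr 1
      apply Finset.prod_congr rfl
      intro b _
      have : wd (x 0) (y b) = s b * wd (x 0) (z b) := by
        conv_lhs => rw [hs b]
        rw [wd_smul]
      rw [this, v.map_mul, hx2 0 (z b) ⟨b, rfl⟩, mul_one, hvs b]
    have h7 : v (fv f.2 (x 0)) ≤ gn v f.2 := by
      have := fv_le hv f.2 (x 0)
      rw [hx1 0, one_pow, mul_one] at this
      exact this
    have h8 : (1 : ℝ) ≤ ∏ b, nm v (y b) := by
      calc (1 : ℝ) = ∏ b : Fin d, (1 : ℝ) := by simp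
        _ ≤ _ := Finset.prod_le_prod (fun _ _ => zero_le_one) (fun b _ => hy1 b)
    calc v γ = v γ * 1 := (mul_one _).symm
      _ ≤ v γ * ∏ b, nm v (y b) := mul_le_mul_of_nonneg_left h8 (v.nonneg _)
      _ ≤ _ := by rw [← h6]; exact h7
  rw [← hγ, v.map_pow]
  exact pow_le_pow_left₀ (v.nonneg _) h5 d

end Pool.Agent.UMR
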