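import Pool.Agent.UMR.COMP

set_option autoImplicit false

/-! LONG: many points, one of them has a long orbit. -/

namespace Pool.Agent.UMR

open Finset
open scoped BigOperators

namespace LONG_

open COMP_

/-! ### Forms and their zeros -/

/-- the polynomial of a form in the chart `x.2 = 1` -/
noncomputable def pol {K : Type} [Field K] {n : ℕ} (c : Fin (n + 1) → K) : Polynomial K :=
  ∑ i : Fin (n + 1), Polynomial.C (c i) * Polynomial.X ^ (i : ℕ)

theorem eval_pol {K : Type} [Field K] {n : ℕ} (c : Fin (n + 1) → K) (x : K) :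
    (pol c).eval x = fv c (x, 1) := by
  unfold pol fv
  rw [Polynomial.eval_finset_sum]
  apply Finset.sum_congr rfl
  intro i _
  simp

theorem coeff_pol {K : Type} [Field K] {n : ℕ} (c : Fin (n + 1) → K) (i : Fin (n + 1)) :
    (pol c).coeff i = c i := by
  unfold pol
  rw [Polynomial.finset_sum_coeff, Finset.sum_eq_single i]
  · simp
  · intro j _ hj
    rw [Polynomial.coeff_C_mul_X_pow, if_neg]
    intro h
    exact hj (Fin.ext h.symm)
  · intro h
    exact absurd (Finset.mem_univ i) h

theorem natDegree_pol {K : Type} [Field K] {n : ℕ} (c : Fin (n + 1) → K) :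
    (pol c).natDegree ≤ n := by
  unfold pol
  apply Polynomial.natDegree_sum_le_of_forall_le
  intro i _
  refine (Polynomial.natDegree_C_mul_X_pow_le _ _).trans ?_
  exact Nat.lt_succ_iff.mp i.2

theorem pol_ne {K : Type} [Field K] {n : ℕ} (c : Fin (n + 1) → K) (hc : c ≠ 0) : pol c ≠ 0 := by
  intro h
  apply hc
  funext i
  rw [← coeff_pol c i, h]
  simp

theorem fv_smul {K : Type} [Field K] {n : ℕ} (c : Fin (n + 1) → K) (a : K) (x : K × K) :
    fv c (a * x.1, a * x.2) = a ^ n * fv c x := by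
  unfold fv
  rw [Finset.mul_sum]
  apply Finset.sum_congr rfl
  intro i _
  have hi : (i : ℕ) ≤ n := Nat.lt_succ_iff.mp i.2
  have h : a ^ n = a ^ (i : ℕ) * a ^ (n - (i : ℕ)) := by
    rw [← pow_add]
    congr 1
    omega
  rw [h]
  simp only [mul_pow]
  ring

theorem fv_chart {K : Type} [Field K] {n : ℕ} (c : Fin (n + 1) → K) (x : K × K) (hx : x.2 ≠ 0) :
    fv c x = x.2 ^ n * (pol c).eval (x.1 / x.2) := by
  rw [eval_pol, ← fv_smul]
  congr 1
  ext
  · show x.1 = x.2 * (x.1 / x.2)
    field_simp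
  · show x.2 = x.2 * 1
    rw [mul_one]

/-- a form which vanishes on the chart vanishes -/
theorem form_zero {K : Type} [Field K] [Infinite K] {n : ℕ} {φ : K × K → K} (hφ : IsF n φ)
    (h : ∀ x : K, φ (x, 1) = 0) : ∀ w, φ w = 0 := by
  obtain ⟨c, hc⟩ := hφ
  have h1 : pol c = 0 := by
    apply Polynomial.funext
    intro x
    rw [eval_pol, ← hc, h]
    simp
  have h2 : c = 0 := by
    by_contra hne
    exact pol_ne c hne h1
  intro w
  rw [hc, h2]
  simp [fv]

theorem fv_one_zero {K : Type} [Field K] {n : ℕ} (c : Fin (n + 1) → K) :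
    fv c (1, 0) = c (Fin.last n) := by
  unfold fv
  rw [Finset.sum_eq_single (Fin.last n)]
  · simp
  · intro j _ hj
    have h1 : (j : ℕ) ≠ n := fun h => hj (Fin.ext h)
    have h2 : n - (j : ℕ) ≠ 0 := by
      have := j.2
      omega
    simp [h2]
  · intro h
    exact absurd (Finset.mem_univ _) h

/-- a form of positive degree has a zero -/
theorem exists_zero {K : Type} [Field K] [IsAlgClosed K] {n : ℕ} {φ : K × K → K} (hn : 1 ≤ n)
    (hφ : IsF n φ) : ∃ z : K × K, z ≠ 0 ∧ φ z = 0 := by
  obtain ⟨c, hc⟩ := hφ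
  by_cases h : c (Fin.last n) = 0
  · refine ⟨(1, 0), ?_, ?_⟩
    · intro h1
      have := congrArg Prod.fst h1
      simp at this
    · rw [hc, fv_one_zero, h]
  · have h1 : (pol c).degree ≠ 0 := by
      intro h2
      have h3 : (pol c).natDegree = 0 := Polynomial.natDegree_eq_of_degree_eq_some h2
      have h4 := coeff_pol c (Fin.last n)
      rw [Polynomial.coeff_eq_zero_of_natDegree_lt] at h4
      · exact h h4.symm
      · rw [h3]
        exact hn
    obtain ⟨x, hx⟩ := IsAlgClosed.exists_root (pol c) h1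
    refine ⟨(x, 1), ?_, ?_⟩
    · intro h2
      have := congrArg Prod.snd h2
      simp at this
    · rw [hc, ← eval_pol]
      exact hx

/-- the number of zeros of a form -/
theorem card_zeros {K : Type} [Field K] [DecidableEq K] {n : ℕ} (c : Fin (n + 1) → K) (hc : c ≠ 0)
    (T : Finset (K × K)) (hT : ∀ v ∈ T, ∀ w ∈ T, v ≠ w → wd v w ≠ 0)
    (hz : ∀ v ∈ T, fv c v = 0) : T.card ≤ n + 1 := by
  classical
  let e : K × K → Option K := fun v => if v.2 = 0 then none else some (v.1 / v.2)
  have hinj : Set.InjOn e T := by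
    intro v hv w hw hvw
    by_contra hne
    apply hT v hv w hw hne
    by_cases h1 : v.2 = 0
    · by_cases h2 : w.2 = 0
      · unfold wd
        rw [h1, h2]
        ring
      · simp [e, h1, h2] at hvw
    · by_cases h2 : w.2 = 0
      · simp [e, h1, h2] at hvw
      · simp only [e, h1, h2, if_false, Option.some.injEq] at hvw
        rw [div_eq_div_iff h1 h2] at hvw
        unfold wd
        rw [hvw]
        ring
  have hsub : T.image e ⊆ insert none ((pol c).roots.toFinset.image some) := by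
    intro o ho
    rw [Finset.mem_image] at ho
    obtain ⟨v, hv, rfl⟩ := ho
    by_cases h1 : v.2 = 0
    · simp [e, h1]
    · have h2 := hz v hv
      rw [fv_chart c v h1] at h2
      have h3 : (pol c).eval (v.1 / v.2) = 0 := by
        rcases mul_eq_zero.1 h2 with h | h
        · exact absurd h (pow_ne_zero _ h1)
        · exact h
      simp only [e, h1, if_false, Finset.mem_insert, Finset.mem_image]
      right
      refine ⟨_, ?_, rfl⟩
      rw [Multiset.mem_toFinset, Polynomial.mem_roots (pol_ne c hc)]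
      exact h3
  rw [← Finset.card_image_of_injOn hinj]
  refine (Finset.card_le_card hsub).trans ?_
  refine (Finset.card_insert_le _ _).trans ?_
  have h1 : ((pol c).roots.toFinset.image some).card ≤ n := by
    refine Finset.card_image_le.trans ?_
    refine (Multiset.toFinset_card_le _).trans ?_
    exact (Polynomial.card_roots' _).trans (natDegree_pol c)
  omega

/-! ### Iterates -/

theorem isF_fst {A : Type} [CommRing A] : IsF 1 (fun x : A × A => x.1) := by
  refine ⟨![0, 1], fun x => ?_⟩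
  unfold fv
  rw [Fin.sum_univ_two]
  simp

theorem isF_snd {A : Type} [CommRing A] : IsF 1 (fun x : A × A => x.2) := by
  refine ⟨![1, 0], fun x => ?_⟩
  unfold fv
  rw [Fin.sum_univ_two]
  simp

theorem iter_form {A : Type} [CommRing A] {d : ℕ} (f : Pr A d) (n : ℕ) :
    ∃ h : Pr A (d ^ n), ∀ x, st h x = (st f)^[n] x := by
  induction n with
  | zero =>
    obtain ⟨c, hc⟩ := isF_fst (A := A)
    obtain ⟨e, he⟩ := isF_snd (A := A)
    refine ⟨(c, e), fun x => ?_⟩
    exact Prod.ext (hc x).symm (he x).symm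
  | succ n ih =>
    obtain ⟨h, hh⟩ := ih
    obtain ⟨k, hk⟩ := p_COMP A (d ^ n) d f h
    rw [pow_succ]
    refine ⟨k, fun x => ?_⟩
    rw [hk, hh, Function.iterate_succ_apply']

theorem nz_iter {K : Type} [Field K] {d : ℕ} {g : Pr K d} (hg : NZ g) (n : ℕ) :
    ∀ x, (st g)^[n] x = 0 → x = 0 := by
  induction n with
  | zero => intro x hx; exact hx
  | succ n ih =>
    intro x hx
    rw [Function.iterate_succ_apply'] at hx
    exact ih x (hg _ hx)

theorem wd_zero {K : Type} [Field K] {x y : K × K} (hx : x ≠ 0) (h : wd x y = 0) :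
    ∃ a : K, y = (a * x.1, a * x.2) := by
  unfold wd at h
  by_cases h1 : x.1 = 0
  · have h2 : x.2 ≠ 0 := by
      intro h2
      exact hx (Prod.ext h1 h2)
    refine ⟨y.2 / x.2, ?_⟩
    rw [h1, zero_mul, zero_sub, neg_eq_zero] at h
    have h3 : y.1 = 0 := by
      rcases mul_eq_zero.1 h with h4 | h4
      · exact absurd h4 h2
      · exact h4
    ext
    · show y.1 = y.2 / x.2 * x.1
      rw [h1, h3, mul_zero]
    · show y.2 = y.2 / x.2 * x.2
      field_simp
  · refine ⟨y.1 / x.1, ?_⟩
    ext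
    · show y.1 = y.1 / x.1 * x.1
      field_simp
    · show y.2 = y.1 / x.1 * x.2
      field_simp
      linear_combination h

theorem st_smul {K : Type} [Field K] {n : ℕ} (h : Pr K n) (a : K) (x : K × K) :
    st h (a * x.1, a * x.2) = (a ^ n * (st h x).1, a ^ n * (st h x).2) := by
  unfold st
  rw [fv_smul, fv_smul]

theorem isF_sub {A : Type} [CommRing A] {n : ℕ} {φ ψ : A × A → A} (h1 : IsF n φ)
    (h2 : IsF n ψ) : IsF n (fun x => φ x - ψ x) := by
  have h := isF_add h1 (isF_smul (-1) h2)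
  have e : (fun x => φ x - ψ x) = fun x => φ x + -1 * ψ x := by
    funext x
    ring
  rw [e]
  exact h

/-- a map all of whose points are fixed has a common zero -/
theorem all_fixed {K : Type} [Field K] [IsAlgClosed K] {M : ℕ} (hM : 1 ≤ M) (h : Pr K (M + 1))
    (hfix : ∀ w : K × K, wd w (st h w) = 0) : ∃ z : K × K, z ≠ 0 ∧ st h z = 0 := by
  haveI : Infinite K := IsAlgClosed.instInfinite
  set H : Fin (M + 1) → K := fun i => h.2 i.castSucc with hH
  have e1 : ∀ w : K × K, fv h.2 w = w.2 * fv H w + h.2 (Fin.last (M + 1)) * w.1 ^ (M + 1) := by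
    intro w
    unfold fv
    rw [Fin.sum_univ_castSucc, Finset.mul_sum]
    congr 1
    · apply Finset.sum_congr rfl
      intro i _
      have hi : (i : ℕ) ≤ M := Nat.lt_succ_iff.mp i.2
      have h2 : M + 1 - (i : ℕ) = M - (i : ℕ) + 1 := by omega
      simp only [Fin.val_castSucc, h2, pow_succ, hH]
      ring
    · simp
  have e2 : h.2 (Fin.last (M + 1)) = 0 := by
    have h1 := hfix (1, 0)
    unfold wd st at h1
    simp only [one_mul, zero_mul, sub_zero] at h1
    rw [fv_one_zero] at h1
    exact h1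
  have e3 : ∀ w : K × K, fv h.2 w = w.2 * fv H w := by
    intro w
    rw [e1, e2]
    ring
  have e4 : ∀ w : K × K, fv h.1 w - w.1 * fv H w = 0 := by
    have h1 : IsF (M + 1) (fun w : K × K => fv h.1 w - w.1 * fv H w) := by
      apply isF_sub ⟨h.1, fun _ => rfl⟩
      have h2 := isF_mul (isF_fst (A := K)) (⟨H, fun _ => rfl⟩ : IsF M (fun w => fv H w))
      rw [add_comm] at h2
      exact h2
    apply form_zero h1
    intro x
    have h2 := hfix (x, 1)
    unfold wd st at h2
    simp only [one_mul] at h2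
    rw [e3] at h2
    simp only [one_mul] at h2
    show fv h.1 (x, 1) - x * fv H (x, 1) = 0
    linear_combination -h2
  obtain ⟨z, hz1, hz2⟩ := exists_zero hM (⟨H, fun _ => rfl⟩ : IsF M (fun w => fv H w))
  refine ⟨z, hz1, ?_⟩
  have hz2' : fv H z = 0 := hz2
  have h1 := e4 z
  have h2 := e3 z
  rw [hz2', mul_zero] at h1 h2
  rw [sub_zero] at h1
  exact Prod.ext h1 h2

theorem not_all {K : Type} [Field K] [IsAlgClosed K] {d : ℕ} (hd : 2 ≤ d) {g : Pr K d} (hg : NZ g)
    {n m : ℕ} (hnm : n < m) (h : ∀ x : K × K, wd ((st g)^[n] x) ((st g)^[m] x) = 0) : False := by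
  obtain ⟨k, rfl⟩ := Nat.exists_eq_add_of_lt hnm
  obtain ⟨P, hP⟩ := iter_form g n
  obtain ⟨Q, hQ⟩ := iter_form g (k + 1)
  have hdn : 1 ≤ d ^ n := Nat.one_le_pow _ _ (by omega)
  have hfix : ∀ w : K × K, wd w (st Q w) = 0 := by
    intro w
    by_cases hw : w = 0
    · subst hw
      unfold wd
      simp
    -- a preimage
    have h1 : IsF (d ^ n) (fun x : K × K => wd (st P x) w) := by
      have h2 := isF_sub (isF_smul w.2 (⟨P.1, fun _ => rfl⟩ : IsF (d ^ n) (fun x => fv P.1 x)))
        (isF_smul w.1 (⟨P.2, fun _ => rfl⟩ : IsF (d ^ n) (fun x => fv P.2 x)))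
      have e : (fun x : K × K => wd (st P x) w) = fun x => w.2 * fv P.1 x - w.1 * fv P.2 x := by
        funext x
        unfold wd st
        ring
      rw [e]
      exact h2
    obtain ⟨x, hx1, hx2⟩ := exists_zero hdn h1
    have hx3 : st P x ≠ 0 := by
      intro h2
      apply hx1
      rw [hP] at h2
      exact nz_iter hg n x h2
    obtain ⟨a, ha⟩ := wd_zero hx3 hx2
    have h2 : st Q w = (a ^ (d ^ (k + 1)) * (st Q (st P x)).1,
        a ^ (d ^ (k + 1)) * (st Q (st P x)).2) := by
      rw [ha]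
      exact st_smul Q a (st P x)
    have h3 := h x
    have h4 : (st g)^[n + k + 1] x = st Q (st P x) := by
      rw [hQ, hP, ← Function.iterate_add_apply]
      congr 1
      ring
    rw [h4, ← hP] at h3
    rw [h2]
    conv_lhs => rw [ha]
    unfold wd at h3 ⊢
    show a * (st P x).1 * (a ^ (d ^ (k + 1)) * (st Q (st P x)).2) -
      a * (st P x).2 * (a ^ (d ^ (k + 1)) * (st Q (st P x)).1) = 0
    linear_combination a * a ^ (d ^ (k + 1)) * h3
  have hM : ∃ M, 1 ≤ M ∧ d ^ (k + 1) = M + 1 := by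
    have h1 : d ^ 1 ≤ d ^ (k + 1) := Nat.pow_le_pow_right (by omega) (by omega)
    rw [pow_one] at h1
    exact ⟨d ^ (k + 1) - 1, by omega, by omega⟩
  obtain ⟨M, hM1, hM2⟩ := hM
  revert Q
  rw [hM2]
  intro Q hQ hfix
  obtain ⟨z, hz1, hz2⟩ := all_fixed hM1 Q hfix
  rw [hQ] at hz2
  exact hz1 (nz_iter hg (k + 1) z hz2)

/-- one pair of indices -/
theorem one_pair {K : Type} [Field K] [IsAlgClosed K] [DecidableEq K] {d : ℕ} (hd : 2 ≤ d)
    {g : Pr K d} (hg : NZ g) {n m : ℕ} (hnm : n < m) (T : Finset (K × K))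
    (hT : ∀ v ∈ T, ∀ w ∈ T, v ≠ w → wd v w ≠ 0)
    (hz : ∀ v ∈ T, wd ((st g)^[n] v) ((st g)^[m] v) = 0) : T.card ≤ d ^ n + d ^ m + 1 := by
  obtain ⟨P, hP⟩ := iter_form g n
  obtain ⟨Q, hQ⟩ := iter_form g m
  have h1 : IsF (d ^ n + d ^ m) (fun x : K × K => wd ((st g)^[n] x) ((st g)^[m] x)) := by
    have h2 := isF_sub (isF_mul (⟨P.1, fun _ => rfl⟩ : IsF (d ^ n) (fun x => fv P.1 x))
        (⟨Q.2, fun _ => rfl⟩ : IsF (d ^ m) (fun x => fv Q.2 x)))
      (isF_mul (⟨P.2, fun _ => rfl⟩ : IsF (d ^ n) (fun x => fv P.2 x))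
        (⟨Q.1, fun _ => rfl⟩ : IsF (d ^ m) (fun x => fv Q.1 x)))
    have e : (fun x : K × K => wd ((st g)^[n] x) ((st g)^[m] x)) =
        fun x => fv P.1 x * fv Q.2 x - fv P.2 x * fv Q.1 x := by
      funext x
      rw [← hP, ← hQ]
      rfl
    rw [e]
    exact h2
  obtain ⟨c, hc⟩ := h1
  have hc0 : c ≠ 0 := by
    intro h2
    apply not_all hd hg hnm
    intro x
    have h3 : wd ((st g)^[n] x) ((st g)^[m] x) = fv c x := hc x
    rw [h3, h2]
    simp [fv]
  exact card_zeros c hc0 T hT fun v hv => by rw [← hc]; exact hz v hv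

theorem mv_fv {A B : Type} [CommRing A] [CommRing B] (φ : A →+* B) {n : ℕ} (c : Fin (n + 1) → A)
    (x : A × A) : fv (fun i => φ (c i)) (mv φ x) = φ (fv c x) := by
  unfold fv mv
  rw [map_sum]
  apply Finset.sum_congr rfl
  intro i _
  simp

theorem mv_st {A B : Type} [CommRing A] [CommRing B] (φ : A →+* B) {d : ℕ} (f : Pr A d)
    (x : A × A) : st (mp φ f) (mv φ x) = mv φ (st f x) := by
  unfold st mp
  exact Prod.ext (mv_fv φ f.1 x) (mv_fv φ f.2 x)

theorem mv_iter {A B : Type} [CommRing A] [CommRing B] (φ : A →+* B) {d : ℕ} (f : Pr A d)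
    (n : ℕ) (x : A × A) : (st (mp φ f))^[n] (mv φ x) = mv φ ((st f)^[n] x) := by
  induction n with
  | zero => rfl
  | succ n ih => rw [Function.iterate_succ_apply', Function.iterate_succ_apply', ih, mv_st]

theorem mv_wd {A B : Type} [CommRing A] [CommRing B] (φ : A →+* B) (x y : A × A) :
    wd (mv φ x) (mv φ y) = φ (wd x y) := by
  unfold wd mv
  simp

end LONG_

open LONG_ in
/-- LONG: many points, one of them has a long orbit. -/
theorem p_LONG : T_LONG := by
  classical
  intro d K hd
  refine ⟨K * K * (2 * d ^ K + 1), fun f hf T _ hT hcard => ?_⟩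
  by_contra hno
  push Not at hno
  set φ : ℚ →+* ℂ := algebraMap ℚ ℂ with hφ
  have hinj : Function.Injective (mv φ) := by
    intro x y hxy
    have h1 : φ x.1 = φ y.1 := congrArg Prod.fst hxy
    have h2 : φ x.2 = φ y.2 := congrArg Prod.snd hxy
    exact Prod.ext (φ.injective h1) (φ.injective h2)
  set S : ℕ × ℕ → Finset (ℚ × ℚ) := fun p =>
    T.filter fun v => p.1 < p.2 ∧ wd (orb f v p.1) (orb f v p.2) = 0 with hS
  have hcov : T ⊆ (Finset.range K ×ˢ Finset.range K).biUnion S := by
    intro v hv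
    obtain ⟨n, m, hn, hm, hne, h⟩ := hno v hv
    rw [Finset.mem_biUnion]
    rcases Nat.lt_or_gt_of_ne hne with h1 | h1
    · refine ⟨(n, m), by simp [hn, hm], ?_⟩
      rw [hS, Finset.mem_filter]
      exact ⟨hv, h1, h⟩
    · refine ⟨(m, n), by simp [hn, hm], ?_⟩
      rw [hS, Finset.mem_filter]
      refine ⟨hv, h1, ?_⟩
      show wd (orb f v m) (orb f v n) = 0
      unfold wd at h ⊢
      linear_combination -h
  have hS1 : ∀ p ∈ Finset.range K ×ˢ Finset.range K, (S p).card ≤ 2 * d ^ K + 1 := by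
    intro p hp
    rw [Finset.mem_product, Finset.mem_range, Finset.mem_range] at hp
    by_cases hlt : p.1 < p.2
    · have h1 := one_pair hd hf hlt ((S p).image (mv φ)) (by
        intro v hv w hw hvw
        rw [Finset.mem_image] at hv hw
        obtain ⟨v', hv', rfl⟩ := hv
        obtain ⟨w', hw', rfl⟩ := hw
        rw [mv_wd]
        intro h2
        have h3 : wd v' w' = 0 := by
          apply φ.injective
          rw [h2, map_zero]
        rw [hS, Finset.mem_filter] at hv' hw'
        exact hT v' hv'.1 w' hw'.1 (fun h => hvw (by rw [h])) h3) (by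
        intro v hv
        rw [Finset.mem_image] at hv
        obtain ⟨v', hv', rfl⟩ := hv
        rw [hS, Finset.mem_filter] at hv'
        rw [mv_iter, mv_iter, mv_wd]
        have h2 : wd ((st f)^[p.1] v') ((st f)^[p.2] v') = 0 := hv'.2.2
        rw [h2, map_zero])
      rw [Finset.card_image_of_injective _ hinj] at h1
      have h2 : d ^ p.1 ≤ d ^ K := Nat.pow_le_pow_right (by omega) hp.1.le
      have h3 : d ^ p.2 ≤ d ^ K := Nat.pow_le_pow_right (by omega) hp.2.le
      omega
    · have h1 : S p = ∅ := by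
        rw [hS]
        apply Finset.filter_eq_empty_iff.2
        intro v _ h
        exact hlt h.1
      rw [h1, Finset.card_empty]
      omega
  have h1 := (Finset.card_le_card hcov).trans (Finset.card_biUnion_le_card_mul _ _ _ hS1)
  rw [Finset.card_product, Finset.card_range] at h1
  omega

end Pool.Agent.UMR
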