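import Pool.Agent.UMR.Targets

set_option autoImplicit false

namespace Pool.Agent.UMR
namespace RESNZ_

open Polynomial Finset

/-- the dehomogenization -/
noncomputable def pl {A : Type} [CommRing A] {d : ℕ} (c : Fin (d + 1) → A) : Polynomial A :=
  ∑ i : Fin (d + 1), monomial (i : ℕ) (c i)

theorem pl_coeff {A : Type} [CommRing A] {d : ℕ} (c : Fin (d + 1) → A) (i : Fin (d + 1)) :
    (pl c).coeff (i : ℕ) = c i := by
  unfold pl
  rw [finsetSum_coeff, Finset.sum_eq_single i]
  · simp
  · intro b _ hb
    rw [coeff_monomial, if_neg]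
    intro h
    exact hb (Fin.ext h)
  · simp

theorem pl_natDegree {A : Type} [CommRing A] {d : ℕ} (c : Fin (d + 1) → A) :
    (pl c).natDegree ≤ d := by
  unfold pl
  refine natDegree_sum_le_of_forall_le _ _ ?_
  intro i _
  exact (natDegree_monomial_le _).trans (Nat.lt_succ_iff.1 i.2)

theorem pl_eval {A : Type} [CommRing A] {d : ℕ} (c : Fin (d + 1) → A) (r : A) :
    (pl c).eval r = fv c (r, 1) := by
  unfold pl fv
  rw [eval_finsetSum]
  refine Finset.sum_congr rfl ?_
  intro i _
  simp

theorem fv_smul {A : Type} [CommRing A] {d : ℕ} (c : Fin (d + 1) → A) (t : A) (x : A × A) :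
    fv c (t * x.1, t * x.2) = t ^ d * fv c x := by
  unfold fv
  rw [Finset.mul_sum]
  refine Finset.sum_congr rfl ?_
  intro i _
  have hi : (i : ℕ) ≤ d := Nat.lt_succ_iff.1 i.2
  have : t ^ d = t ^ (i : ℕ) * t ^ (d - (i : ℕ)) := by rw [← pow_add]; congr 1; omega
  rw [this]
  simp only [mul_pow]
  ring

theorem fv_one_zero {A : Type} [CommRing A] {d : ℕ} (c : Fin (d + 1) → A) (t : A) :
    fv c (t, 0) = c (Fin.last d) * t ^ d := by
  unfold fv
  rw [Finset.sum_eq_single (Fin.last d)]
  · simp
  · intro b _ hb
    have : (b : ℕ) < d := by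
      have := b.2
      have h2 : (b : ℕ) ≠ d := fun h => hb (Fin.ext h)
      omega
    have h3 : d - (b : ℕ) ≠ 0 := by omega
    simp [h3]
  · simp

theorem main {K : Type} [Field K] [IsAlgClosed K] (d : ℕ) (f : Pr K d) (hd : 1 ≤ d) :
    NZ f ↔ res f ≠ 0 := by
  have hP := pl_natDegree f.1
  have hQ := pl_natDegree f.2
  have hres : res f = (-1) ^ (d * (d - (pl f.1).natDegree)) *
      (pl f.2).coeff d ^ (d - (pl f.1).natDegree) *
      ((pl f.1).leadingCoeff ^ d * ((pl f.1).roots.map (fun r => (pl f.2).eval r)).prod) := by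
    have h1 : res f = resultant (pl f.1) (pl f.2) d d := rfl
    have h2 : d = (pl f.1).natDegree + (d - (pl f.1).natDegree) := by omega
    have h3 := resultant_add_left_deg (pl f.1) (pl f.2) (pl f.1).natDegree d
      (d - (pl f.1).natDegree) le_rfl
    rw [← h2] at h3
    rw [h1, h3, resultant_eq_prod_eval (pl f.1) (pl f.2) d hQ (IsAlgClosed.splits _)]
  have hPd : (pl f.1).coeff d = f.1 (Fin.last d) := by
    have := pl_coeff f.1 (Fin.last d); simpa using this
  have hQd : (pl f.2).coeff d = f.2 (Fin.last d) := by
    have := pl_coeff f.2 (Fin.last d); simpa using this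
  have hunit : ((-1 : K)) ^ (d * (d - (pl f.1).natDegree)) ≠ 0 := pow_ne_zero _ (by simp)
  constructor
  · intro hnz h0
    rw [hres] at h0
    rcases mul_eq_zero.1 h0 with h0 | h0
    · have h0 := (mul_eq_zero.1 h0).resolve_left hunit
      have hne : d - (pl f.1).natDegree ≠ 0 := by
        intro h; rw [h, pow_zero] at h0; exact one_ne_zero h0
      have hq0 : (pl f.2).coeff d = 0 := by
        by_contra h; exact pow_ne_zero _ h h0
      have hp0 : (pl f.1).coeff d = 0 := coeff_eq_zero_of_natDegree_lt (by omega)
      have := hnz (1, 0) (by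
        unfold st
        rw [fv_one_zero, fv_one_zero, ← hPd, ← hQd, hp0, hq0]
        simp)
      simp at this
    · rcases mul_eq_zero.1 h0 with h0 | h0
      · have hP0 : pl f.1 = 0 := by
          by_contra h
          exact pow_ne_zero _ (leadingCoeff_ne_zero.2 h) h0
        have hP0' : ∀ x, fv f.1 x = 0 := by
          have hc : ∀ i, f.1 i = 0 := by
            intro i; rw [← pl_coeff f.1 i, hP0]; simp
          intro x; unfold fv; simp [hc]
        by_cases hq : (pl f.2).coeff d = 0
        · have := hnz (1, 0) (by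
            unfold st
            rw [hP0' _, fv_one_zero, ← hQd, hq]
            simp)
          simp at this
        · have hdeg : (pl f.2).natDegree = d := le_antisymm hQ (le_natDegree_of_ne_zero hq)
          obtain ⟨r, hr⟩ := IsAlgClosed.exists_root (pl f.2) (by
            intro h
            have h4 : (pl f.2).natDegree = 0 := natDegree_eq_of_degree_eq_some h
            omega)
          have := hnz (r, 1) (by
            unfold st
            rw [hP0' _, ← pl_eval f.2 r]
            have : (pl f.2).eval r = 0 := hr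
            rw [this]; rfl)
          simp at this
      · rw [Multiset.prod_eq_zero_iff, Multiset.mem_map] at h0
        obtain ⟨r, hr, hr2⟩ := h0
        have hr1 : (pl f.1).eval r = 0 := by
          have := (mem_roots'.1 hr).2
          exact this
        have := hnz (r, 1) (by
          unfold st
          rw [← pl_eval f.2 r, ← pl_eval f.1 r, hr1, hr2]; rfl)
        simp at this
  · intro h0 x hx
    by_contra hx0
    apply h0
    have hx1 : fv f.1 x = 0 := congrArg Prod.fst hx
    have hx2 : fv f.2 x = 0 := congrArg Prod.snd hx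
    rw [hres]
    by_cases h2 : x.2 = 0
    · have h1 : x.1 ≠ 0 := by
        intro h1; exact hx0 (Prod.ext h1 h2)
      have hx' : x = (x.1, 0) := Prod.ext rfl h2
      rw [hx', fv_one_zero] at hx1 hx2
      have hp : (pl f.1).coeff d = 0 := by
        rw [hPd]; exact (mul_eq_zero.1 hx1).resolve_right (pow_ne_zero _ h1)
      have hq : (pl f.2).coeff d = 0 := by
        rw [hQd]; exact (mul_eq_zero.1 hx2).resolve_right (pow_ne_zero _ h1)
      by_cases hP0 : pl f.1 = 0
      · rw [hP0]; simp [show d ≠ 0 by omega]
      · have hlt : (pl f.1).natDegree ≠ d := by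
          intro h
          have : (pl f.1).leadingCoeff = 0 := by rw [leadingCoeff, h, hp]
          exact hP0 (leadingCoeff_eq_zero.1 this)
        have : d - (pl f.1).natDegree ≠ 0 := by omega
        rw [hq, zero_pow this]; simp
    · have hxs : x = (x.2 * (x.1 / x.2, (1:K)).1, x.2 * (x.1 / x.2, (1:K)).2) := by
        ext
        · simp; field_simp
        · simp
      rw [hxs, fv_smul] at hx1 hx2
      have hp : (pl f.1).eval (x.1 / x.2) = 0 := by
        rw [pl_eval]; exact (mul_eq_zero.1 hx1).resolve_left (pow_ne_zero _ h2)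
      have hq : (pl f.2).eval (x.1 / x.2) = 0 := by
        rw [pl_eval]; exact (mul_eq_zero.1 hx2).resolve_left (pow_ne_zero _ h2)
      by_cases hP0 : pl f.1 = 0
      · rw [hP0]; simp [show d ≠ 0 by omega]
      · have : ((pl f.1).roots.map (fun r => (pl f.2).eval r)).prod = 0 := by
          rw [Multiset.prod_eq_zero_iff, Multiset.mem_map]
          exact ⟨x.1 / x.2, (mem_roots hP0).2 hp, hq⟩
        rw [this]; simp

theorem res_mp {k K : Type} [Field k] [Field K] (φ : k →+* K) (d : ℕ) (f : Pr k d) :
    res (mp φ f) = φ (res f) := by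
  unfold res mp
  rw [← resultant_map_map]
  congr 1
  · rw [Polynomial.map_sum]; simp
  · rw [Polynomial.map_sum]; simp

end RESNZ_

theorem p_RESNZ : T_RESNZ := by
  intro k K _ _ _ φ d f hd
  rw [RESNZ_.main d (mp φ f) hd, RESNZ_.res_mp]
  simp

end Pool.Agent.UMR
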