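import Pool.Agent.UMR.Targets
import Pool.Agent.UMR.RESNZ

set_option autoImplicit false
set_option maxHeartbeats 4000000

/-! # LOWC: a lower bound for the number of conjugacy classes -/

namespace Pool.Agent.UMR

open Finset
open scoped BigOperators

/-- LOWC: there are many conjugacy classes. -/
def T_LOWC : Prop := ∀ d : ℕ, 2 ≤ d → ∃ c : ℝ, 0 < c ∧ ∀ X : ℕ, 1 ≤ X →
  ∃ S : Finset (Pr ℤ d), (∀ f ∈ S, f ∈ Maps d X) ∧ c * (X : ℝ) ^ (2 * d - 2) ≤ (S.card : ℝ) ∧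
    ∀ f ∈ S, ∀ g ∈ S, f ≠ g → ¬ Conj f g

namespace LOWC_

theorem res_mp' {A B : Type} [CommRing A] [CommRing B] (φ : A →+* B) (d : ℕ) (f : Pr A d) :
    res (mp φ f) = φ (res f) := by
  unfold res mp
  rw [← Polynomial.resultant_map_map]
  congr 1
  · rw [Polynomial.map_sum]; simp
  · rw [Polynomial.map_sum]; simp

theorem fv_smul {A : Type} [CommRing A] {n : ℕ} (c : Fin (n + 1) → A) (t : A) (x : A × A) :
    fv c (t • x) = t ^ n * fv c x := by
  unfold fv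
  rw [Finset.mul_sum]
  refine Finset.sum_congr rfl fun i _ => ?_
  have h : t ^ n = t ^ (i : ℕ) * t ^ (n - (i : ℕ)) := by
    rw [← pow_add]; congr 1; omega
  rw [h]
  simp only [Prod.smul_fst, Prod.smul_snd, smul_eq_mul, mul_pow]
  ring

theorem st_smul {A : Type} [CommRing A] {d : ℕ} (f : Pr A d) (t : A) (x : A × A) :
    st f (t • x) = t ^ d • st f x := by
  unfold st
  rw [fv_smul, fv_smul]
  rfl

theorem fv_one_zero {A : Type} [CommRing A] {n : ℕ} (c : Fin (n + 1) → A) :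
    fv c (1, 0) = c (Fin.last n) := by
  rw [RESNZ_.fv_one_zero]; simp

theorem fv_zero_one {A : Type} [CommRing A] {n : ℕ} (c : Fin (n + 1) → A) :
    fv c (0, 1) = c 0 := by
  unfold fv
  rw [Finset.sum_eq_single 0]
  · simp
  · intro b _ hb
    have h : (b : ℕ) ≠ 0 := fun h => hb (Fin.ext h)
    simp [h]
  · simp

theorem fv_one_one {A : Type} [CommRing A] {n : ℕ} (c : Fin (n + 1) → A) :
    fv c (1, 1) = ∑ i, c i := by
  unfold fv
  simp

/-- normalised maps: `0`, `1`, `∞` are fixed -/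
structure Nrm {e : ℕ} (g : Pr ℤ (e + 1)) : Prop where
  f1 : g.1 (Fin.last (e + 1)) = 1
  f0 : g.1 0 = 0
  g1 : g.2 (Fin.last (e + 1)) = 0
  g0 : g.2 0 ≠ 0
  s : ∑ i, g.1 i = ∑ i, g.2 i
  s0 : ∑ i, g.1 i ≠ 0
  mid : g.2 (Fin.last e).castSucc ≠ 1

theorem lin_add {A : Type} [CommRing A] (e₁ e₂ : A × A) (c : A) (x : A × A) :
    lin e₁ e₂ (c • x) = c • lin e₁ e₂ x := by
  unfold lin
  ext
  · simp only [Prod.smul_fst, Prod.smul_snd, smul_eq_mul]; ring
  · simp only [Prod.smul_fst, Prod.smul_snd, smul_eq_mul]; ring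

theorem qf_fst {d : ℕ} (f : Pr ℤ d) (i : Fin (d + 1)) : (qf f).1 i = (f.1 i : ℚ) := rfl
theorem qf_snd {d : ℕ} (f : Pr ℤ d) (i : Fin (d + 1)) : (qf f).2 i = (f.2 i : ℚ) := rfl

theorem wd_smul (c : ℚ) (x : ℚ × ℚ) : wd (c • x) x = 0 := by
  unfold wd
  simp only [Prod.smul_fst, Prod.smul_snd, smul_eq_mul]; ring

/-- the three fixed points -/
theorem fixed {e : ℕ} {f g : Pr ℤ (e + 1)} (hg : Nrm g) {e₁ e₂ : ℚ × ℚ} {c : ℚ} (hc : c ≠ 0)
    (h : ∀ x : ℚ × ℚ, lin e₁ e₂ (st (qf g) x) = c • st (qf f) (lin e₁ e₂ x)) :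
    wd (st (qf f) e₁) e₁ = 0 ∧ wd (st (qf f) e₂) e₂ = 0 ∧
      wd (st (qf f) (e₁ + e₂)) (e₁ + e₂) = 0 := by
  have key : ∀ (x : ℚ × ℚ) (t : ℚ), st (qf g) x = t • x →
      wd (st (qf f) (lin e₁ e₂ x)) (lin e₁ e₂ x) = 0 := by
    intro x t hx
    have h1 := h x
    rw [hx, lin_add] at h1
    have h2 : st (qf f) (lin e₁ e₂ x) = (c⁻¹ * t) • lin e₁ e₂ x := by
      rw [mul_smul, h1, smul_smul, inv_mul_cancel₀ hc, one_smul]
    rw [h2]
    exact wd_smul _ _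
  have l1 : lin e₁ e₂ (1, 0) = e₁ := by unfold lin; simp
  have l2 : lin e₁ e₂ (0, 1) = e₂ := by unfold lin; simp
  have l3 : lin e₁ e₂ (1, 1) = e₁ + e₂ := by unfold lin; ext <;> simp
  refine ⟨?_, ?_, ?_⟩
  · have := key (1, 0) 1 (by
      unfold st
      rw [fv_one_zero, fv_one_zero, qf_fst, qf_snd, hg.f1, hg.g1]; simp)
    rwa [l1] at this
  · have := key (0, 1) (g.2 0 : ℚ) (by
      unfold st
      rw [fv_zero_one, fv_zero_one, qf_fst, qf_snd, hg.f0]; simp)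
    rwa [l2] at this
  · have := key (1, 1) (∑ i, (g.1 i : ℚ)) (by
      unfold st
      rw [fv_one_one, fv_one_one]
      have h2 : ∑ i, (qf g).2 i = ∑ i, (g.1 i : ℚ) := by
        have h3 := hg.s
        have h4 : ((∑ i, g.1 i : ℤ) : ℚ) = ((∑ i, g.2 i : ℤ) : ℚ) := by rw [h3]
        push_cast at h4
        rw [h4]; rfl
      rw [h2]
      ext
      · simp [qf_fst]
      · simp)
    rwa [l3] at this

/-- the point of the projective line -/
noncomputable def pt (v : ℚ × ℚ) : Option ℚ := if v.2 = 0 then none else some (v.1 / v.2)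

theorem pt_eq {v w : ℚ × ℚ} (hv : v ≠ 0) (hw : w ≠ 0) (h : pt v = pt w) :
    ∃ γ : ℚ, w = γ • v := by
  unfold pt at h
  by_cases h1 : v.2 = 0
  · rw [if_pos h1] at h
    by_cases h2 : w.2 = 0
    · have h3 : v.1 ≠ 0 := fun h3 => hv (Prod.ext h3 h1)
      refine ⟨w.1 / v.1, Prod.ext ?_ ?_⟩
      · simp only [Prod.smul_fst, smul_eq_mul]; field_simp
      · simp [h1, h2]
    · rw [if_neg h2] at h
      exact absurd h (by simp)
  · rw [if_neg h1] at h
    by_cases h2 : w.2 = 0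
    · rw [if_pos h2] at h
      exact absurd h (by simp)
    · rw [if_neg h2] at h
      have h3 : v.1 / v.2 = w.1 / w.2 := Option.some.inj h
      refine ⟨w.2 / v.2, Prod.ext ?_ ?_⟩
      · simp only [Prod.smul_fst, smul_eq_mul]
        field_simp at h3 ⊢
        linarith
      · simp only [Prod.smul_snd, smul_eq_mul]; field_simp

/-- the polynomial of the fixed points -/
noncomputable def fp {d : ℕ} (f : Pr ℤ d) : Polynomial ℚ :=
  RESNZ_.pl (qf f).1 - Polynomial.X * RESNZ_.pl (qf f).2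

theorem fp_ne {e : ℕ} {f : Pr ℤ (e + 1)} (hf : Nrm f) : fp f ≠ 0 := by
  intro h
  have h1 := congrArg (fun p => Polynomial.coeff p (e + 1)) h
  simp only [fp, Polynomial.coeff_sub, Polynomial.coeff_X_mul, Polynomial.coeff_zero] at h1
  have h2 : (RESNZ_.pl (qf f).1).coeff (e + 1) = 1 := by
    have := RESNZ_.pl_coeff (qf f).1 (Fin.last (e + 1))
    simp only [Fin.val_last] at this
    rw [this, qf_fst, hf.f1]; simp
  have h3 : (RESNZ_.pl (qf f).2).coeff e = (f.2 (Fin.last e).castSucc : ℚ) := by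
    have := RESNZ_.pl_coeff (qf f).2 (Fin.last e).castSucc
    simp only [Fin.val_castSucc, Fin.val_last] at this
    rw [this, qf_snd]
  rw [h2, h3] at h1
  apply hf.mid
  have : (f.2 (Fin.last e).castSucc : ℚ) = 1 := by linarith
  exact_mod_cast this

theorem fp_deg {e : ℕ} (f : Pr ℤ (e + 1)) : (fp f).natDegree ≤ e + 2 := by
  unfold fp
  refine (Polynomial.natDegree_sub_le _ _).trans (max_le ?_ ?_)
  · exact (RESNZ_.pl_natDegree _).trans (by omega)
  · refine (Polynomial.natDegree_mul_le).trans ?_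
    have := RESNZ_.pl_natDegree (qf f).2
    have h2 := Polynomial.natDegree_X_le (R := ℚ)
    omega

/-- the fixed points -/
noncomputable def fx {d : ℕ} (f : Pr ℤ d) : Finset (Option ℚ) :=
  insert none ((fp f).roots.toFinset.image some)

theorem fx_card {e : ℕ} (f : Pr ℤ (e + 1)) : (fx f).card ≤ e + 3 := by
  unfold fx
  refine (Finset.card_insert_le _ _).trans ?_
  have h1 : ((fp f).roots.toFinset.image some).card ≤ e + 2 :=
    (Finset.card_image_le).trans ((Multiset.toFinset_card_le _).trans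
      ((Polynomial.card_roots' _).trans (fp_deg f)))
  omega

theorem fx_mem {e : ℕ} {f : Pr ℤ (e + 1)} (hf : Nrm f) {v : ℚ × ℚ}
    (h : wd (st (qf f) v) v = 0) : pt v ∈ fx f := by
  unfold pt
  split_ifs with h2
  · exact Finset.mem_insert_self _ _
  · refine Finset.mem_insert_of_mem (Finset.mem_image_of_mem _ ?_)
    rw [Multiset.mem_toFinset, Polynomial.mem_roots (fp_ne hf), Polynomial.IsRoot.def]
    unfold fp
    rw [Polynomial.eval_sub, Polynomial.eval_mul, Polynomial.eval_X, RESNZ_.pl_eval,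
      RESNZ_.pl_eval]
    have h3 : v = v.2 • ((v.1 / v.2, 1) : ℚ × ℚ) := by
      ext
      · simp only [Prod.smul_fst, smul_eq_mul]; field_simp
      · simp
    have h4 : st (qf f) v = v.2 ^ (e + 1) • st (qf f) (v.1 / v.2, 1) := by
      conv_lhs => rw [h3]
      rw [st_smul]
    rw [h4] at h
    unfold wd st at h
    simp only [Prod.smul_fst, Prod.smul_snd, smul_eq_mul] at h
    have h5 : v.2 ^ (e + 1) * v.2 * (fv (qf f).1 (v.1 / v.2, 1) -
        v.1 / v.2 * fv (qf f).2 (v.1 / v.2, 1)) = 0 := by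
      have h6 : v.1 = v.1 / v.2 * v.2 := by field_simp
      calc _ = v.2 ^ (e + 1) * fv (qf f).1 (v.1 / v.2, 1) * v.2 -
            v.2 ^ (e + 1) * fv (qf f).2 (v.1 / v.2, 1) * (v.1 / v.2 * v.2) := by ring
        _ = 0 := by rw [← h6]; exact h
    rcases mul_eq_zero.1 h5 with h6 | h6
    · exact absurd h6 (mul_ne_zero (pow_ne_zero _ h2) h2)
    · exact h6

theorem wd_ne {A : Type} [Field A] {x y : A × A} (h : wd x y ≠ 0) : x ≠ 0 ∧ y ≠ 0 ∧ x + y ≠ 0 := by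
  refine ⟨?_, ?_, ?_⟩
  · rintro rfl; apply h; unfold wd; simp
  · rintro rfl; apply h; unfold wd; simp
  · intro h0
    apply h
    have h1 : x = -y := eq_neg_of_add_eq_zero_left h0
    rw [h1]; unfold wd; simp; ring

/-- equal fixed points imply equality -/
theorem inj {e : ℕ} {f g g' : Pr ℤ (e + 1)} (hg : Nrm g) (hg' : Nrm g')
    {e₁ e₂ : ℚ × ℚ} {c : ℚ} (hw : wd e₁ e₂ ≠ 0) (hc : c ≠ 0)
    (h : ∀ x : ℚ × ℚ, lin e₁ e₂ (st (qf g) x) = c • st (qf f) (lin e₁ e₂ x))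
    {e₁' e₂' : ℚ × ℚ} {c' : ℚ} (hw' : wd e₁' e₂' ≠ 0)
    (h' : ∀ x : ℚ × ℚ, lin e₁' e₂' (st (qf g') x) = c' • st (qf f) (lin e₁' e₂' x))
    (hp1 : pt e₁ = pt e₁') (hp2 : pt e₂ = pt e₂') (hp3 : pt (e₁ + e₂) = pt (e₁' + e₂')) :
    g = g' := by
  obtain ⟨n1, n2, n3⟩ := wd_ne hw
  obtain ⟨n1', n2', n3'⟩ := wd_ne hw'
  obtain ⟨α, hα⟩ := pt_eq n1 n1' hp1
  obtain ⟨β, hβ⟩ := pt_eq n2 n2' hp2
  obtain ⟨γ, hγ⟩ := pt_eq n3 n3' hp3
  rw [hα, hβ] at hγ
  have q1 := congrArg Prod.fst hγ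
  have q2 := congrArg Prod.snd hγ
  simp only [Prod.fst_add, Prod.snd_add, Prod.smul_fst, Prod.smul_snd, smul_eq_mul] at q1 q2
  have hαγ : α = γ := by
    have h1 : (α - γ) * wd e₁ e₂ = 0 := by
      unfold wd
      linear_combination q1 * e₂.2 - q2 * e₂.1
    exact sub_eq_zero.1 ((mul_eq_zero.1 h1).resolve_right hw)
  have hβγ : β = γ := by
    have h1 : (β - γ) * wd e₁ e₂ = 0 := by
      unfold wd
      linear_combination q2 * e₁.1 - q1 * e₁.2
    exact sub_eq_zero.1 ((mul_eq_zero.1 h1).resolve_right hw)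
  have hγ0 : γ ≠ 0 := by
    rintro rfl
    rw [hαγ, zero_smul] at hα
    exact n1' hα
  rw [hαγ] at hα
  rw [hβγ] at hβ
  have hlin : ∀ x, lin e₁' e₂' x = γ • lin e₁ e₂ x := by
    intro x
    rw [hα, hβ]
    unfold lin
    ext
    · simp only [Prod.smul_fst, Prod.smul_snd, smul_eq_mul]; ring
    · simp only [Prod.smul_fst, Prod.smul_snd, smul_eq_mul]; ring
  have hlininj : ∀ x y : ℚ × ℚ, lin e₁ e₂ x = lin e₁ e₂ y → x = y := by
    intro x y hxy
    have q1 := congrArg Prod.fst hxy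
    have q2 := congrArg Prod.snd hxy
    simp only [lin] at q1 q2
    have h1 : (x.1 - y.1) * wd e₁ e₂ = 0 := by
      unfold wd
      linear_combination q1 * e₂.2 - q2 * e₂.1
    have h2 : (x.2 - y.2) * wd e₁ e₂ = 0 := by
      unfold wd
      linear_combination q2 * e₁.1 - q1 * e₁.2
    exact Prod.ext (sub_eq_zero.1 ((mul_eq_zero.1 h1).resolve_right hw))
      (sub_eq_zero.1 ((mul_eq_zero.1 h2).resolve_right hw))
  -- the two maps are proportional
  have hprop : ∀ x : ℚ × ℚ, st (qf g') x = (γ⁻¹ * c' * γ ^ (e + 1) * c⁻¹) • st (qf g) x := by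
    intro x
    apply hlininj
    rw [lin_add, h x]
    have h1 := h' x
    rw [hlin, hlin, st_smul] at h1
    have h2 : lin e₁ e₂ (st (qf g') x) = γ⁻¹ • (γ • lin e₁ e₂ (st (qf g') x)) := by
      rw [smul_smul, inv_mul_cancel₀ hγ0, one_smul]
    rw [h2, h1]
    simp only [smul_smul]
    congr 1
    field_simp
  set κ := γ⁻¹ * c' * γ ^ (e + 1) * c⁻¹ with hκ
  have hκ1 : κ = 1 := by
    have h1 := congrArg Prod.fst (hprop (1, 0))
    unfold st at h1
    simp only [Prod.smul_fst, smul_eq_mul] at h1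
    rw [fv_one_zero, fv_one_zero, qf_fst, qf_fst, hg.f1, hg'.f1] at h1
    simp at h1
    exact h1.symm
  rw [hκ1] at hprop
  simp only [one_smul] at hprop
  have hcoef : ∀ (a b : Fin (e + 1 + 1) → ℚ), (∀ x, fv a x = fv b x) → a = b := by
    intro a b hab
    have h1 : RESNZ_.pl a = RESNZ_.pl b := by
      apply Polynomial.funext
      intro r
      rw [RESNZ_.pl_eval, RESNZ_.pl_eval, hab]
    funext i
    rw [← RESNZ_.pl_coeff a i, ← RESNZ_.pl_coeff b i, h1]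
  have e1 : (qf g').1 = (qf g).1 := hcoef _ _ fun x => congrArg Prod.fst (hprop x)
  have e2 : (qf g').2 = (qf g).2 := hcoef _ _ fun x => congrArg Prod.snd (hprop x)
  refine Prod.ext (funext fun i => ?_) (funext fun i => ?_)
  · have := congrFun e1 i
    rw [qf_fst, qf_fst] at this
    exact_mod_cast this.symm
  · have := congrFun e2 i
    rw [qf_snd, qf_snd] at this
    exact_mod_cast this.symm

theorem conj_card {e : ℕ} {f : Pr ℤ (e + 1)} (hf : Nrm f) (F : Finset (Pr ℤ (e + 1)))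
    (hF : ∀ g ∈ F, Nrm g ∧ Conj f g) : F.card ≤ (e + 3) ^ 3 := by
  classical
  have hch : ∀ g : Pr ℤ (e + 1), ∃ (q : (ℚ × ℚ) × (ℚ × ℚ) × ℚ), Conj f g →
      (wd q.1 q.2.1 ≠ 0 ∧ q.2.2 ≠ 0 ∧
        ∀ x : ℚ × ℚ, lin q.1 q.2.1 (st (qf g) x) = q.2.2 • st (qf f) (lin q.1 q.2.1 x)) := by
    intro g
    by_cases h : Conj f g
    · obtain ⟨e₁, e₂, c, h1, h2, h3⟩ := h
      exact ⟨(e₁, e₂, c), fun _ => ⟨h1, h2, h3⟩⟩
    · exact ⟨0, fun h' => absurd h' h⟩
  choose q hq using hch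
  have h1 : F.card ≤ (fx f ×ˢ (fx f ×ˢ fx f)).card := by
    refine Finset.card_le_card_of_injOn
      (fun g => (pt (q g).1, pt (q g).2.1, pt ((q g).1 + (q g).2.1))) ?_ ?_
    · intro g hg
      obtain ⟨hn, hc⟩ := hF g hg
      obtain ⟨a1, a2, a3⟩ := hq g hc
      obtain ⟨b1, b2, b3⟩ := fixed hn a2 a3
      simp only [Finset.coe_product, Set.mem_prod, Finset.mem_coe]
      exact ⟨fx_mem hf b1, fx_mem hf b2, fx_mem hf b3⟩
    · intro g hg g' hg' hgg
      obtain ⟨hn, hc⟩ := hF g hg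
      obtain ⟨a1, a2, a3⟩ := hq g hc
      obtain ⟨hn', hc'⟩ := hF g' hg'
      obtain ⟨a1', a2', a3'⟩ := hq g' hc'
      simp only [Prod.mk.injEq] at hgg
      exact inj hn hn' a1 a2 a3 a1' a3' hgg.1 hgg.2.1 hgg.2.2
  refine h1.trans ?_
  rw [Finset.card_product, Finset.card_product]
  have h2 := fx_card f
  calc (fx f).card * ((fx f).card * (fx f).card) ≤ (e + 3) * ((e + 3) * (e + 3)) := by gcongr
    _ = (e + 3) ^ 3 := by ring

theorem conj_refl {d : ℕ} (f : Pr ℤ d) : Conj f f := by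
  refine ⟨(1, 0), (0, 1), 1, by unfold wd; simp, one_ne_zero, fun x => ?_⟩
  have h : ∀ y : ℚ × ℚ, lin (1, 0) (0, 1) y = y := by intro y; unfold lin; simp
  rw [h, h, one_smul]

theorem conj_symm {d : ℕ} {f g : Pr ℤ d} (h : Conj f g) : Conj g f := by
  obtain ⟨e₁, e₂, c, hw, hc, h⟩ := h
  have hδ0 : wd e₁ e₂ ≠ 0 := hw
  -- the adjugate
  refine ⟨(e₂.2, -e₁.2), (-e₂.1, e₁.1), (c * wd e₁ e₂ ^ d)⁻¹ * wd e₁ e₂, ?_, ?_, ?_⟩
  · have : wd ((e₂.2, -e₁.2) : ℚ × ℚ) (-e₂.1, e₁.1) = wd e₁ e₂ := by unfold wd; ring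
    rw [this]; exact hw
  · exact mul_ne_zero (inv_ne_zero (mul_ne_zero hc (pow_ne_zero _ hδ0))) hδ0
  · intro y
    have hNL : ∀ x : ℚ × ℚ, lin (e₂.2, -e₁.2) (-e₂.1, e₁.1) (lin e₁ e₂ x) = wd e₁ e₂ • x := by
      intro x
      unfold lin wd
      ext
      · simp only [Prod.smul_fst, smul_eq_mul]; ring
      · simp only [Prod.smul_snd, smul_eq_mul]; ring
    have hLN : ∀ x : ℚ × ℚ, lin e₁ e₂ (lin (e₂.2, -e₁.2) (-e₂.1, e₁.1) x) = wd e₁ e₂ • x := by
      intro x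
      unfold lin wd
      ext
      · simp only [Prod.smul_fst, smul_eq_mul]; ring
      · simp only [Prod.smul_snd, smul_eq_mul]; ring
    have h1 := h (lin (e₂.2, -e₁.2) (-e₂.1, e₁.1) y)
    rw [hLN, st_smul, smul_smul] at h1
    have h2 := congrArg (lin (e₂.2, -e₁.2) (-e₂.1, e₁.1)) h1
    rw [hNL, lin_add] at h2
    have h3 : lin (e₂.2, -e₁.2) (-e₂.1, e₁.1) (st (qf f) y) =
        (c * wd e₁ e₂ ^ d)⁻¹ • ((c * wd e₁ e₂ ^ d) •
          lin (e₂.2, -e₁.2) (-e₂.1, e₁.1) (st (qf f) y)) := by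
      rw [smul_smul, inv_mul_cancel₀ (mul_ne_zero hc (pow_ne_zero _ hδ0)), one_smul]
    rw [h3, ← h2, smul_smul]

/-- many pairwise non-conjugate maps in a family of normalised maps -/
theorem many {e : ℕ} (F : Finset (Pr ℤ (e + 1))) (hF : ∀ g ∈ F, Nrm g) :
    ∃ S : Finset (Pr ℤ (e + 1)), S ⊆ F ∧ F.card ≤ S.card * (e + 3) ^ 3 ∧
      ∀ f ∈ S, ∀ g ∈ S, f ≠ g → ¬ Conj f g := by
  classical
  obtain ⟨S, hS, hmax⟩ := Finset.exists_max_image
    (F.powerset.filter fun S => ∀ f ∈ S, ∀ g ∈ S, f ≠ g → ¬ Conj f g) Finset.card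
    ⟨∅, by simp⟩
  rw [Finset.mem_filter, Finset.mem_powerset] at hS
  refine ⟨S, hS.1, ?_, hS.2⟩
  have hcov : F ⊆ S.biUnion fun f => F.filter fun g => Conj f g := by
    intro g hg
    rw [Finset.mem_biUnion]
    by_cases hgS : g ∈ S
    · exact ⟨g, hgS, Finset.mem_filter.2 ⟨hg, conj_refl g⟩⟩
    · by_contra hno
      push Not at hno
      have h1 : ∀ f ∈ S, ¬ Conj f g := fun f hf hc => hno f hf (Finset.mem_filter.2 ⟨hg, hc⟩)
      have h2 := hmax (insert g S) (by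
        rw [Finset.mem_filter, Finset.mem_powerset]
        refine ⟨Finset.insert_subset hg hS.1, ?_⟩
        intro a ha b hb hab
        rw [Finset.mem_insert] at ha hb
        rcases ha with rfl | ha
        · rcases hb with rfl | hb
          · exact absurd rfl hab
          · exact fun hc => h1 b hb (conj_symm hc)
        · rcases hb with rfl | hb
          · exact h1 a ha
          · exact hS.2 a ha b hb hab)
      rw [Finset.card_insert_of_notMem hgS] at h2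
      omega
  refine (Finset.card_le_card hcov).trans (Finset.card_biUnion_le_card_mul _ _ _ ?_)
  intro f hf
  exact conj_card (hF f (hS.1 hf)) _ fun g hg =>
    ⟨hF g (Finset.mem_filter.1 hg).1, (Finset.mem_filter.1 hg).2⟩

/-- the family -/
def mk {e m : ℕ} (p : (Fin e → Fin (m + 1)) × (Fin e → Fin (m + 1))) : Pr ℤ (e + 1) :=
  (Fin.cons 0 (Fin.snoc (fun i => 2 * ((p.1 i : ℕ) : ℤ)) 1 : Fin (e + 1) → ℤ),
    Fin.cons (1 + 2 * ∑ i, ((p.1 i : ℕ) : ℤ) - 2 * ∑ i, ((p.2 i : ℕ) : ℤ))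
      (Fin.snoc (fun i => 2 * ((p.2 i : ℕ) : ℤ)) 0 : Fin (e + 1) → ℤ))

theorem cons_snoc_zero {e : ℕ} {A : Type} (a b : A) (c : Fin e → A) :
    (Fin.cons a (Fin.snoc c b : Fin (e + 1) → A) : Fin (e + 2) → A) 0 = a := rfl

theorem cons_snoc_last {e : ℕ} {A : Type} (a b : A) (c : Fin e → A) :
    (Fin.cons a (Fin.snoc c b : Fin (e + 1) → A) : Fin (e + 2) → A) (Fin.last (e + 1)) = b := by
  rw [← Fin.succ_last]
  simp

theorem cons_snoc_mid {e : ℕ} {A : Type} (a b : A) (c : Fin e → A) (i : Fin e) :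
    (Fin.cons a (Fin.snoc c b : Fin (e + 1) → A) : Fin (e + 2) → A) i.castSucc.succ = c i := by
  simp

theorem cons_snoc_sum {e : ℕ} (a b : ℤ) (c : Fin e → ℤ) :
    ∑ i, (Fin.cons a (Fin.snoc c b : Fin (e + 1) → ℤ) : Fin (e + 2) → ℤ) i =
      a + (∑ i, c i + b) := by
  rw [Fin.sum_univ_succ, Fin.sum_univ_castSucc]
  simp

theorem mk_nrm {e m : ℕ} (p : (Fin (e + 1) → Fin (m + 1)) × (Fin (e + 1) → Fin (m + 1))) :
    Nrm (mk p) := by
  have h0 : (mk p).2 0 = 1 + 2 * ∑ i, ((p.1 i : ℕ) : ℤ) - 2 * ∑ i, ((p.2 i : ℕ) : ℤ) := rfl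
  have hs1 : ∑ i, (mk p).1 i = 1 + 2 * ∑ i, ((p.1 i : ℕ) : ℤ) := by
    unfold mk
    rw [cons_snoc_sum, ← Finset.mul_sum]; ring
  have hs2 : ∑ i, (mk p).2 i = 1 + 2 * ∑ i, ((p.1 i : ℕ) : ℤ) := by
    unfold mk
    rw [cons_snoc_sum, ← Finset.mul_sum]; ring
  have hl1 : (mk p).1 (Fin.last (e + 1 + 1)) = 1 :=
    cons_snoc_last (0 : ℤ) 1 (fun i => 2 * ((p.1 i : ℕ) : ℤ))
  have hl2 : (mk p).2 (Fin.last (e + 1 + 1)) = 0 :=
    cons_snoc_last (1 + 2 * ∑ i, ((p.1 i : ℕ) : ℤ) - 2 * ∑ i, ((p.2 i : ℕ) : ℤ)) 0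
      (fun i => 2 * ((p.2 i : ℕ) : ℤ))
  refine ⟨hl1, rfl, hl2, ?_, ?_, ?_, ?_⟩
  · rw [h0]; omega
  · rw [hs1, hs2]
  · rw [hs1]; omega
  · have : (Fin.last (e + 1)).castSucc = ((Fin.last e).castSucc.succ : Fin (e + 3)) := by
      ext; simp
    rw [this]
    have h3 : (mk p).2 ((Fin.last e).castSucc.succ : Fin (e + 3)) =
        2 * ((p.2 (Fin.last e) : ℕ) : ℤ) :=
      cons_snoc_mid (1 + 2 * ∑ i, ((p.1 i : ℕ) : ℤ) - 2 * ∑ i, ((p.2 i : ℕ) : ℤ)) 0
        (fun i => 2 * ((p.2 i : ℕ) : ℤ)) (Fin.last e)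
    rw [h3]
    omega

theorem mk_inj {e m : ℕ} : Function.Injective (mk (e := e) (m := m)) := by
  intro p q h
  unfold mk at h
  rw [Prod.mk.injEq] at h
  obtain ⟨h1, h2⟩ := h
  refine Prod.ext (funext fun i => ?_) (funext fun i => ?_)
  · have h3 := congrFun h1 i.castSucc.succ
    rw [cons_snoc_mid, cons_snoc_mid] at h3
    ext; omega
  · have h3 := congrFun h2 i.castSucc.succ
    rw [cons_snoc_mid, cons_snoc_mid] at h3
    ext; omega

theorem mk_nz {e m : ℕ} (p : (Fin e → Fin (m + 1)) × (Fin e → Fin (m + 1))) :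
    NZ (mp (Int.castRingHom ℂ) (mk p)) := by
  -- reduction modulo two
  have h2 : res (mp (Int.castRingHom (ZMod 2)) (mk p)) ≠ 0 := by
    rw [← p_RESNZ (ZMod 2) (AlgebraicClosure (ZMod 2)) (algebraMap _ _) (e + 1) _ (by omega)]
    have hch : (2 : AlgebraicClosure (ZMod 2)) = 0 := by
      have h3 : (2 : ZMod 2) = 0 := rfl
      have h4 := congrArg (algebraMap (ZMod 2) (AlgebraicClosure (ZMod 2))) h3
      rwa [map_ofNat, map_zero] at h4
    intro x hx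
    have e1 : ∀ (a b : ℤ) (c : Fin e → ℤ), fv (fun i => algebraMap (ZMod 2)
        (AlgebraicClosure (ZMod 2)) (Int.castRingHom (ZMod 2)
          ((Fin.cons a (Fin.snoc (fun i => 2 * c i) b : Fin (e + 1) → ℤ) : Fin (e + 2) → ℤ) i))) x =
        (a : AlgebraicClosure (ZMod 2)) * x.2 ^ (e + 1) + b * x.1 ^ (e + 1) := by
      intro a b c
      unfold fv
      rw [Fin.sum_univ_succ, Fin.sum_univ_castSucc, Finset.sum_eq_zero]
      · simp
      · intro i _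
        beta_reduce
        rw [cons_snoc_mid]
        have h5 : (2 : ZMod 2) = 0 := rfl
        simp [h5]
    have h3 := congrArg Prod.fst hx
    have h4 := congrArg Prod.snd hx
    unfold st mp mk at h3 h4
    simp only at h3 h4
    rw [e1] at h3 h4
    simp only [Int.cast_zero, zero_mul, zero_add, Int.cast_one, one_mul, Prod.fst_zero,
      Prod.snd_zero, add_zero] at h3 h4
    push_cast at h4
    rw [hch] at h4
    simp only [zero_mul, add_zero, sub_zero, one_mul] at h4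
    exact Prod.ext (pow_eq_zero_iff (by omega) |>.1 h3) (pow_eq_zero_iff (by omega) |>.1 h4)
  rw [res_mp'] at h2
  have h3 : res (mk p) ≠ 0 := by
    intro h; rw [h] at h2; simp at h2
  have h4 : res (qf (mk p)) ≠ 0 := by
    unfold qf
    rw [res_mp']
    simpa using h3
  rw [← p_RESNZ ℚ ℂ (algebraMap ℚ ℂ) (e + 1) _ (by omega)] at h4
  have h5 : mp (algebraMap ℚ ℂ) (qf (mk p)) = mp (Int.castRingHom ℂ) (mk p) := by
    unfold qf mp
    simp
  rwa [h5] at h4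

theorem mk_maps {e m X : ℕ} (hX : 2 * (e + 1) * m + 1 ≤ X)
    (p : (Fin e → Fin (m + 1)) × (Fin e → Fin (m + 1))) : mk p ∈ Maps (e + 1) X := by
  have hb : ∀ q : Fin e → Fin (m + 1), 0 ≤ ∑ i, ((q i : ℕ) : ℤ) ∧
      ∑ i, ((q i : ℕ) : ℤ) ≤ e * m := by
    intro q
    refine ⟨Finset.sum_nonneg fun i _ => by positivity, ?_⟩
    calc ∑ i, ((q i : ℕ) : ℤ) ≤ ∑ _i : Fin e, (m : ℤ) :=
          Finset.sum_le_sum fun i _ => by have := (q i).2; omega
      _ = e * m := by simp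
  have hXz : 2 * ((e : ℤ) + 1) * m + 1 ≤ X := by exact_mod_cast hX
  have hq : ∀ (q : Fin e → Fin (m + 1)) (i : Fin e), |2 * ((q i : ℕ) : ℤ)| ≤ (X : ℤ) := by
    intro q i
    have h1 := (q i).2
    have h2 : (0 : ℤ) ≤ e * m := by positivity
    rw [abs_of_nonneg (by positivity)]
    have h3 : ((q i : ℕ) : ℤ) ≤ m := by omega
    nlinarith
  have hm0 : (0 : ℤ) ≤ e * m := by positivity
  have hm1 : (0 : ℤ) ≤ m := by positivity
  have gen : ∀ (a b : ℤ) (q : Fin e → Fin (m + 1)), |a| ≤ (X : ℤ) → |b| ≤ (X : ℤ) →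
      ∀ i, |(Fin.cons a (Fin.snoc (fun i => 2 * ((q i : ℕ) : ℤ)) b : Fin (e + 1) → ℤ) :
        Fin (e + 2) → ℤ) i| ≤ (X : ℤ) := by
    intro a b q ha hb' i
    refine Fin.cases ?_ (fun j => ?_) i
    · exact ha
    · refine Fin.lastCases ?_ (fun j => ?_) j
      · simpa using hb'
      · rw [cons_snoc_mid]
        exact hq q j
  refine ⟨gen _ _ _ ?_ ?_, gen _ _ _ ?_ ?_, mk_nz p⟩
  · simp
  · rw [abs_one]; nlinarith
  · obtain ⟨a1, a2⟩ := hb p.1
    obtain ⟨b1, b2⟩ := hb p.2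
    rw [abs_le]
    constructor <;> nlinarith
  · simp

end LOWC_

open LOWC_ in
theorem p_LOWC : T_LOWC := by
  classical
  intro d hd
  obtain ⟨e, rfl⟩ : ∃ e, d = e + 2 := ⟨d - 2, by omega⟩
  refine ⟨(((2 * (e + 2) : ℕ) : ℝ) ^ (2 * (e + 1)) * ((e + 4) ^ 3 : ℕ))⁻¹, by positivity, ?_⟩
  intro X hX
  set m := (X - 1) / (2 * (e + 2)) with hm
  have hm1 : 2 * (e + 1 + 1) * m + 1 ≤ X := by
    have := Nat.mul_div_le (X - 1) (2 * (e + 2))
    rw [← hm] at this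
    have h2 : 2 * (e + 1 + 1) * m = 2 * (e + 2) * m := by ring
    omega
  have hm2 : X ≤ 2 * (e + 2) * (m + 1) := by
    have := Nat.lt_mul_div_succ (X - 1) (show 0 < 2 * (e + 2) by omega)
    rw [← hm] at this
    omega
  let F : Finset (Pr ℤ (e + 1 + 1)) := Finset.univ.image (mk (e := e + 1) (m := m))
  have hFc : F.card = (m + 1) ^ (2 * (e + 1)) := by
    rw [Finset.card_image_of_injective _ mk_inj]
    simp
    ring
  obtain ⟨S, hS, hcard, hpair⟩ := many F (by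
    intro g hg
    obtain ⟨p, -, rfl⟩ := Finset.mem_image.1 hg
    exact mk_nrm p)
  refine ⟨S, ?_, ?_, hpair⟩
  · intro f hf
    obtain ⟨p, -, rfl⟩ := Finset.mem_image.1 (hS hf)
    exact mk_maps hm1 p
  · rw [hFc] at hcard
    have h1 : ((m + 1 : ℕ) : ℝ) ^ (2 * (e + 1)) ≤ S.card * ((e + 4) ^ 3 : ℕ) := by
      exact_mod_cast hcard
    have h2 : (X : ℝ) ≤ ((2 * (e + 2) : ℕ) : ℝ) * ((m + 1 : ℕ) : ℝ) := by exact_mod_cast hm2
    have h3 : 2 * (e + 2) - 2 = 2 * (e + 1) := by omega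
    rw [h3, inv_mul_le_iff₀ (by positivity)]
    calc (X : ℝ) ^ (2 * (e + 1)) ≤ (((2 * (e + 2) : ℕ) : ℝ) * ((m + 1 : ℕ) : ℝ)) ^ (2 * (e + 1)) := by
          gcongr
      _ = ((2 * (e + 2) : ℕ) : ℝ) ^ (2 * (e + 1)) * ((m + 1 : ℕ) : ℝ) ^ (2 * (e + 1)) := by
          rw [mul_pow]
      _ ≤ ((2 * (e + 2) : ℕ) : ℝ) ^ (2 * (e + 1)) * (S.card * ((e + 4) ^ 3 : ℕ)) := by gcongr
      _ = _ := by ring

end Pool.Agent.UMR
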