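import Pool.Agent.UMR.Targets

set_option autoImplicit false
set_option maxHeartbeats 4000000

namespace Pool.Agent.UMR

open Finset
open scoped BigOperators

namespace MINOR_

lemma fv_map {A B : Type} [CommRing A] [CommRing B] (φ : A →+* B) {n : ℕ}
    (c : Fin (n + 1) → A) (x : A × A) : φ (fv c x) = fv (fun i => φ (c i)) (mv φ x) := by
  unfold fv mv
  simp only [map_sum, map_mul, map_pow]

lemma st_map {A B : Type} [CommRing A] [CommRing B] (φ : A →+* B) {d : ℕ}
    (f : Pr A d) (x : A × A) : mv φ (st f x) = st (mp φ f) (mv φ x) := by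
  unfold st
  ext
  · exact fv_map φ _ _
  · exact fv_map φ _ _

lemma orb_map {A B : Type} [CommRing A] [CommRing B] (φ : A →+* B) {d : ℕ}
    (f : Pr A d) (x : A × A) (n : ℕ) : mv φ (orb f x n) = orb (mp φ f) (mv φ x) n := by
  unfold orb
  induction n with
  | zero => rfl
  | succ n ih => rw [Function.iterate_succ_apply', Function.iterate_succ_apply', st_map, ih]

lemma fv_smul {A : Type} [CommRing A] {n : ℕ} (c : Fin (n + 1) → A) (s : A) (x : A × A) :
    fv c (s • x) = s ^ n * fv c x := by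
  unfold fv
  rw [Finset.mul_sum]
  refine Finset.sum_congr rfl fun i _ => ?_
  simp only [Prod.smul_fst, Prod.smul_snd, smul_eq_mul]
  have h : s ^ n = s ^ (i : ℕ) * s ^ (n - (i : ℕ)) := by
    rw [← pow_add]
    congr 1
    have := i.2
    omega
  rw [h, mul_pow, mul_pow]
  ring

lemma st_smul {A : Type} [CommRing A] {d : ℕ} (f : Pr A d) (s : A) (x : A × A) :
    st f (s • x) = s ^ d • st f x := by
  unfold st
  ext
  · simp only [fv_smul, Prod.smul_fst, smul_eq_mul]
  · simp only [fv_smul, Prod.smul_snd, smul_eq_mul]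

lemma orb_eq {d : ℕ} (f : Pr ℤ d) (p : ℕ → ℤ × ℤ) (h : PO f p) (n : ℕ) :
    ∃ G : ℤ, orb f (p 0) n = G • p n := by
  induction n with
  | zero => exact ⟨1, by simp [orb]⟩
  | succ n ih =>
    obtain ⟨G, hG⟩ := ih
    obtain ⟨c, -, hc⟩ := h.nxt n
    refine ⟨G ^ d * c, ?_⟩
    have : orb f (p 0) (n + 1) = st f (orb f (p 0) n) := by
      unfold orb
      rw [Function.iterate_succ_apply']
    rw [this, hG, st_smul, hc, smul_smul]

end MINOR_

open MINOR_ in
theorem p_MINOR (hT : T_TAY) : T_MINOR := by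
  intro d k h Y q hq hch hY f p hPO hpY hCg hnd i
  choose G hG using fun l n => orb_eq (f l) (p l) (hPO l) n
  have hGq : ∀ l n, ¬ (q : ℤ) ∣ G l n := by
    intro l n hdiv
    apply hnd l n
    rw [hG l n]
    exact ⟨Dvd.dvd.mul_right hdiv _, Dvd.dvd.mul_right hdiv _⟩
  have hqp : Prime (q : ℤ) := Nat.prime_iff_prime_int.1 hq
  set N : Matrix (Finset (Fin k)) (Finset (Fin k)) ℤ :=
    Matrix.of fun (l : Finset (Fin k)) (S : Finset (Fin k)) =>
      ∏ t : Fin k, (if t ∈ S then (p l (i + t)).1 else (p l (i + t)).2) with hN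
  -- the generic orbit
  let σ : Type := (Fin (d + 1) ⊕ Fin (d + 1)) ⊕ Fin 2
  let gf : Pr (MvPolynomial σ ℤ) d :=
    (fun i => MvPolynomial.X (Sum.inl (Sum.inl i)), fun i => MvPolynomial.X (Sum.inl (Sum.inr i)))
  let gx : MvPolynomial σ ℤ × MvPolynomial σ ℤ :=
    (MvPolynomial.X (Sum.inr 0), MvPolynomial.X (Sum.inr 1))
  let P : Finset (Fin k) → σ → ℤ := fun l =>
    Sum.elim (Sum.elim (fun i => (f l).1 i) (fun i => (f l).2 i)) ![(p l 0).1, (p l 0).2]
  let Ψ : Finset (Fin k) → MvPolynomial σ ℤ := fun S =>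
    ∏ t : Fin k, (if t ∈ S then (orb gf gx (i + t)).1 else (orb gf gx (i + t)).2)
  have hev : ∀ l n, mv (MvPolynomial.eval (P l)) (orb gf gx n) = orb (f l) (p l 0) n := by
    intro l n
    rw [orb_map]
    congr 1
    · unfold mp
      ext j
      · simp [gf, P]
      · simp [gf, P]
    · unfold mv
      ext
      · simp [gx, P]
      · simp [gx, P]
  have hΨ : ∀ l S, MvPolynomial.eval (P l) (Ψ S) =
      (∏ t : Fin k, G l (i + t)) * N l S := by
    intro l S
    rw [hN, Matrix.of_apply, ← Finset.prod_mul_distrib]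
    simp only [Ψ, map_prod]
    refine Finset.prod_congr rfl fun t _ => ?_
    have h1 : MvPolynomial.eval (P l) (orb gf gx (i + t)).1 = G l (i + t) * (p l (i + t)).1 := by
      have := congrArg Prod.fst (hev l (i + t))
      rw [hG] at this
      exact this
    have h2 : MvPolynomial.eval (P l) (orb gf gx (i + t)).2 = G l (i + t) * (p l (i + t)).2 := by
      have := congrArg Prod.snd (hev l (i + t))
      rw [hG] at this
      exact this
    split_ifs
    · exact h1
    · exact h2
  have hdiv := hT σ (Finset (Fin k)) h q Ψ P (by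
    intro l l' j
    obtain ⟨c1, c2, c3, c4⟩ := hCg l l'
    rcases j with (j | j) | j
    · exact c1 j
    · exact c2 j
    · fin_cases j
      · exact c3
      · exact c4)
  have hcard : Fintype.card σ = 2 * d + 4 := by
    simp only [σ, Fintype.card_sum, Fintype.card_fin]
    ring
  have hcard2 : Fintype.card (Finset (Fin k)) = 2 ^ k := by
    rw [Fintype.card_finset, Fintype.card_fin]
  have hdet : (Matrix.of fun l s => MvPolynomial.eval (P l) (Ψ s)).det =
      (∏ l, ∏ t : Fin k, G l (i + t)) * N.det := by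
    rw [← Matrix.det_mul_column]
    congr 1
    ext l S
    simp only [Matrix.of_apply]
    rw [hΨ]
  rw [hcard, hcard2, hdet] at hdiv
  -- k ≥ 1
  have hc1 : 1 ≤ (h + (2 * d + 4)).choose (2 * d + 4) := Nat.choose_pos (by omega)
  obtain ⟨m, hm, hm1⟩ : ∃ m : ℕ, 2 ^ k = 2 * m ∧ 1 ≤ m := by
    rcases Nat.eq_zero_or_pos k with hk | hk
    · subst hk
      simp only [pow_zero] at hch
      omega
    · refine ⟨2 ^ (k - 1), ?_, Nat.one_le_two_pow⟩
      rw [← pow_succ']
      congr 1
      omega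
  have hle : m * (h + 1) ≤ (2 ^ k - (h + (2 * d + 4)).choose (2 * d + 4)) * (h + 1) := by
    apply Nat.mul_le_mul_right
    omega
  have hdiv2 : (q : ℤ) ^ (m * (h + 1)) ∣ (∏ l, ∏ t : Fin k, G l (i + t)) * N.det :=
    (pow_dvd_pow _ hle).trans hdiv
  have hcop : IsCoprime ((q : ℤ) ^ (m * (h + 1))) (∏ l, ∏ t : Fin k, G l (i + t)) := by
    apply IsCoprime.pow_left
    apply IsCoprime.prod_right
    intro l _
    apply IsCoprime.prod_right
    intro t _
    exact (Prime.coprime_iff_not_dvd hqp).2 (hGq _ _)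
  have hdiv3 : (q : ℤ) ^ (m * (h + 1)) ∣ N.det := hcop.dvd_of_dvd_mul_left hdiv2
  have hbd : |N.det| ≤ ((2 ^ k * Y ^ k : ℕ) : ℤ) ^ (2 ^ k) := by
    have h1 : ∀ l S, AbsoluteValue.abs (N l S) ≤ ((Y : ℤ)) ^ k := by
      intro l S
      rw [AbsoluteValue.abs_apply, hN, Matrix.of_apply, Finset.abs_prod]
      calc ∏ t : Fin k, |if t ∈ S then (p l (i + t)).1 else (p l (i + t)).2|
          ≤ ∏ t : Fin k, (Y : ℤ) := by
            apply Finset.prod_le_prod
            · intro t _
              exact abs_nonneg _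
            · intro t _
              split_ifs
              · exact (hpY l (i + t)).1
              · exact (hpY l (i + t)).2
        _ = (Y : ℤ) ^ k := by simp
    have h2 := Matrix.det_le (A := N) (abv := AbsoluteValue.abs) h1
    rw [AbsoluteValue.abs_apply, hcard2, nsmul_eq_mul] at h2
    refine h2.trans ?_
    push_cast
    rw [mul_pow]
    apply mul_le_mul_of_nonneg_right
    · have := Nat.factorial_le_pow (2 ^ k)
      exact_mod_cast this
    · positivity
  apply Int.eq_zero_of_abs_lt_dvd hdiv3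
  refine hbd.trans_lt ?_
  have h3 : ((2 ^ k * Y ^ k : ℕ)) ^ (2 ^ k) < q ^ (m * (h + 1)) := by
    calc ((2 ^ k * Y ^ k : ℕ)) ^ (2 ^ k) = ((2 ^ k * Y ^ k) ^ 2) ^ m := by
          rw [← pow_mul, ← hm]
      _ < (q ^ (h + 1)) ^ m := Nat.pow_lt_pow_left hY (by omega)
      _ = q ^ (m * (h + 1)) := by rw [← pow_mul, mul_comm]
  exact_mod_cast h3

end Pool.Agent.UMR
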