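import Pool.Agent.UMR.Targets

set_option autoImplicit false

namespace Pool.Agent.UMR

open Finset
open scoped BigOperators

namespace MULTI_

/-- the sums over the upper parts -/
noncomputable def Q {L Ω : Type} [Field L] [Field Ω] [Algebra L Ω] (k : ℕ)
    (μ : Finset (Fin k) → L) (y : Fin k → Ω × Ω) (l : ℕ) (T : Finset (Fin k)) : Ω :=
  ∑ S : Finset (Fin k), if S.filter (fun t : Fin k => l ≤ (t : ℕ)) = T then
    algebraMap L Ω (μ S) * ∏ t ∈ univ.filter (fun t : Fin k => (t : ℕ) < l),
      (if t ∈ S then (y t).1 else (y t).2) else 0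

end MULTI_

open MULTI_ in
theorem p_MULTI : T_MULTI := by
  intro L Ω _ _ _ k μ y hμ hrel
  have hZk : ∀ T, Q k μ y k T = 0 := by
    intro T
    unfold Q
    by_cases hT : T = ∅
    · subst hT
      rw [← hrel]
      refine Finset.sum_congr rfl fun S _ => ?_
      have e1 : S.filter (fun t : Fin k => k ≤ (t : ℕ)) = ∅ := by
        refine Finset.filter_eq_empty_iff.2 fun t _ => ?_
        have := t.2
        omega
      have e2 : univ.filter (fun t : Fin k => (t : ℕ) < k) = univ :=
        Finset.filter_true_of_mem fun t _ => t.2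
      rw [if_pos e1, e2]
    · refine Finset.sum_eq_zero fun S _ => ?_
      have e1 : S.filter (fun t : Fin k => k ≤ (t : ℕ)) = ∅ := by
        refine Finset.filter_eq_empty_iff.2 fun t _ => ?_
        have := t.2
        omega
      rw [if_neg]
      rw [e1]
      exact fun h => hT h.symm
  have hex : ∃ l, ∀ T, Q k μ y l T = 0 := ⟨k, hZk⟩
  classical
  have hl0 := Nat.find_spec hex
  have hlk : Nat.find hex ≤ k := Nat.find_min' hex hZk
  have hne : Nat.find hex ≠ 0 := by
    intro h0
    rw [h0] at hl0
    apply hμ
    funext T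
    have h := hl0 T
    unfold Q at h
    rw [Finset.sum_eq_single T] at h
    · rw [if_pos (Finset.filter_true_of_mem fun t _ => Nat.zero_le _)] at h
      rw [Finset.filter_false_of_mem (fun t _ => Nat.not_lt_zero _), Finset.prod_empty,
        mul_one] at h
      exact (map_eq_zero (algebraMap L Ω)).1 h
    · intro S _ hS
      rw [if_neg]
      rw [Finset.filter_true_of_mem fun t _ => Nat.zero_le _]
      exact hS
    · intro h
      exact absurd (Finset.mem_univ _) h
  obtain ⟨l, hl⟩ := Nat.exists_eq_succ_of_ne_zero hne
  have hlt : l < k := by omega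
  have hmin : ¬ ∀ T, Q k μ y l T = 0 := Nat.find_min hex (by omega)
  rw [hl] at hl0
  push Not at hmin
  obtain ⟨T, hT⟩ := hmin
  set l' : Fin k := ⟨l, hlt⟩ with hl'
  -- T is contained in {t ≥ l}
  have hTl : ∀ t ∈ T, l ≤ (t : ℕ) := by
    by_contra hcon
    push Not at hcon
    obtain ⟨t, htT, htl⟩ := hcon
    apply hT
    unfold Q
    refine Finset.sum_eq_zero fun S _ => ?_
    rw [if_neg]
    intro h
    rw [← h, Finset.mem_filter] at htT
    omega
  set T' := T.erase l' with hT'
  refine ⟨l', fun S => if l' ∈ S ∧ S.filter (fun t : Fin k => l + 1 ≤ (t : ℕ)) = T' then μ S else 0,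
    fun S => if l' ∉ S ∧ S.filter (fun t : Fin k => l + 1 ≤ (t : ℕ)) = T' then μ S else 0, _, _, rfl, rfl,
    ?_, ?_⟩
  · -- nonvanishing
    have hfil : ∀ S : Finset (Fin k), S.filter (fun t : Fin k => l ≤ (t : ℕ)) = T ↔
        (S.filter (fun t : Fin k => l + 1 ≤ (t : ℕ)) = T' ∧ (l' ∈ S ↔ l' ∈ T)) := by
      intro S
      constructor
      · intro h
        constructor
        · ext t
          rw [hT', Finset.mem_erase, ← h, Finset.mem_filter, Finset.mem_filter]
          constructor
          · rintro ⟨a, b⟩
            refine ⟨?_, a, by omega⟩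
            intro e
            rw [e, hl'] at b
            simp at b
          · rintro ⟨a, b, c⟩
            refine ⟨b, ?_⟩
            have : (t : ℕ) ≠ l := fun e => a (Fin.ext e)
            omega
        · rw [← h, Finset.mem_filter]
          simp [hl']
      · rintro ⟨h, h'⟩
        ext t
        rw [Finset.mem_filter]
        by_cases ht : t = l'
        · subst ht
          rw [h']
          simp [hl']
        · have e1 : t ∈ S.filter (fun t : Fin k => l + 1 ≤ (t : ℕ)) ↔ t ∈ T' := by rw [h]
          rw [Finset.mem_filter, hT', Finset.mem_erase] at e1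
          have htl : (t : ℕ) ≠ l := fun e => ht (Fin.ext e)
          constructor
          · rintro ⟨a, b⟩
            exact (e1.1 ⟨a, by omega⟩).2
          · intro a
            have b := hTl t a
            have c := e1.2 ⟨ht, a⟩
            exact ⟨c.1, b⟩
    have hfil2 : univ.filter (fun t : Fin k => t < l') =
        univ.filter (fun t : Fin k => (t : ℕ) < l) := by
      refine Finset.filter_congr fun t _ => ?_
      rw [Fin.lt_def]
    rw [hfil2]
    by_cases hlT : l' ∈ T
    · left
      intro h0
      apply hT
      rw [← h0]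
      unfold Q
      refine Finset.sum_congr rfl fun S _ => ?_
      beta_reduce
      by_cases hS : S.filter (fun t : Fin k => l ≤ (t : ℕ)) = T
      · have h2 := (hfil S).1 hS
        rw [if_pos hS, if_pos ⟨h2.2.2 hlT, h2.1⟩]
      · rw [if_neg hS, if_neg, map_zero, zero_mul]
        rintro ⟨a, b⟩
        exact hS ((hfil S).2 ⟨b, ⟨fun _ => hlT, fun _ => a⟩⟩)
    · right
      intro h0
      apply hT
      rw [← h0]
      unfold Q
      refine Finset.sum_congr rfl fun S _ => ?_
      beta_reduce
      by_cases hS : S.filter (fun t : Fin k => l ≤ (t : ℕ)) = T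
      · have h2 := (hfil S).1 hS
        rw [if_pos hS, if_pos ⟨fun h => hlT (h2.2.1 h), h2.1⟩]
      · rw [if_neg hS, if_neg, map_zero, zero_mul]
        rintro ⟨a, b⟩
        exact hS ((hfil S).2 ⟨b, ⟨fun h => absurd h a, fun h => absurd h hlT⟩⟩)
  · -- the relation
    have h := hl0 T'
    unfold Q at h
    rw [← h, Finset.sum_mul, Finset.sum_mul, ← Finset.sum_add_distrib]
    refine Finset.sum_congr rfl fun S _ => ?_
    have hfil2 : univ.filter (fun t : Fin k => (t : ℕ) < l.succ) =
        insert l' (univ.filter (fun t : Fin k => t < l')) := by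
      ext t
      simp only [Finset.mem_filter, Finset.mem_univ, true_and, Finset.mem_insert, Fin.lt_def]
      constructor
      · intro h
        by_cases e : (t : ℕ) = l
        · left; exact Fin.ext e
        · right
          change (t : ℕ) < l
          omega
      · rintro (h | h)
        · rw [h, hl']
          exact Nat.lt_succ_self l
        · have : (t : ℕ) < l := h
          omega
    rw [hfil2, Finset.prod_insert (by simp)]
    beta_reduce
    change _ = if S.filter (fun t : Fin k => l + 1 ≤ (t : ℕ)) = T' then _ else _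
    by_cases hS : S.filter (fun t : Fin k => l + 1 ≤ (t : ℕ)) = T'
    · rw [if_pos hS]
      by_cases hlS : l' ∈ S
      · rw [if_pos ⟨hlS, hS⟩, if_neg (fun h => h.1 hlS), map_zero, if_pos hlS]
        ring
      · rw [if_neg (fun h => hlS h.1), if_pos ⟨hlS, hS⟩, map_zero, if_neg hlS]
        ring
    · rw [if_neg hS, if_neg (fun h => hS h.2), if_neg (fun h => hS h.2), map_zero]
      ring

end Pool.Agent.UMR
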