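import Pool.Agent.UMR.Targets

set_option autoImplicit false

/-!
# NC: non-critical values
-/

namespace Pool.Agent.UMR

open Finset
open scoped BigOperators

namespace NC_

/-- the polynomial of a form -/
noncomputable def pl {K : Type} [Field K] {n : ℕ} (c : Fin (n + 1) → K) : Polynomial K :=
  ∑ i : Fin (n + 1), Polynomial.C (c i) * Polynomial.X ^ (i : ℕ)

theorem coeff_pl {K : Type} [Field K] {n : ℕ} (c : Fin (n + 1) → K) (j : ℕ) :
    (pl c).coeff j = if h : j < n + 1 then c ⟨j, h⟩ else 0 := by
  unfold pl
  rw [Polynomial.finsetSum_coeff]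
  simp only [Polynomial.coeff_C_mul_X_pow]
  split_ifs with h
  · rw [Finset.sum_eq_single (⟨j, h⟩ : Fin (n + 1))]
    · simp
    · intro b _ hb
      have : ¬ j = (b : ℕ) := fun e => hb (Fin.ext e.symm)
      simp [this]
    · intro h'
      exact absurd (Finset.mem_univ _) h'
  · apply Finset.sum_eq_zero
    intro b _
    have : ¬ j = (b : ℕ) := fun e => h (e ▸ b.isLt)
    simp [this]

theorem natDegree_pl {K : Type} [Field K] {n : ℕ} (c : Fin (n + 1) → K) :
    (pl c).natDegree ≤ n := by
  rw [Polynomial.natDegree_le_iff_coeff_eq_zero]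
  intro j hj
  rw [coeff_pl]
  have : ¬ j < n + 1 := by omega
  simp [this]

theorem eval_pl {K : Type} [Field K] {n : ℕ} (c : Fin (n + 1) → K) (t : K) :
    (pl c).eval t = fv c (t, 1) := by
  unfold pl fv
  rw [Polynomial.eval_finsetSum]
  simp

theorem fv_10 {K : Type} [Field K] {n : ℕ} (c : Fin (n + 1) → K) :
    fv c (1, 0) = (pl c).coeff n := by
  unfold fv
  rw [coeff_pl, dif_pos (Nat.lt_succ_self n)]
  rw [Finset.sum_eq_single (⟨n, Nat.lt_succ_self n⟩ : Fin (n + 1))]
  · simp
  · intro b _ hb
    have h1 : (b : ℕ) ≠ n := fun e => hb (Fin.ext e)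
    have h2 : n - (b : ℕ) ≠ 0 := by have := b.isLt; omega
    simp [h2]
  · intro h'
    exact absurd (Finset.mem_univ _) h'

theorem fv_smul {K : Type} [Field K] {n : ℕ} (c : Fin (n + 1) → K) (s : K) (x : K × K) :
    fv c (s • x) = s ^ n * fv c x := by
  unfold fv
  rw [Finset.mul_sum]
  apply Finset.sum_congr rfl
  intro i _
  have h1 : (i : ℕ) + (n - (i : ℕ)) = n := by have := i.isLt; omega
  have h2 : s ^ n = s ^ (i : ℕ) * s ^ (n - (i : ℕ)) := by rw [← pow_add, h1]
  rw [h2, Prod.smul_fst, Prod.smul_snd, smul_eq_mul, smul_eq_mul, mul_pow, mul_pow]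
  ring

/-- for almost all `t` the fibre over `(t, 1)` consists of `d` points -/
theorem fibre {K : Type} [Field K] [IsAlgClosed K] [CharZero K] {d : ℕ} (f : Pr K d)
    (hd : 1 ≤ d) (hf : NZ f) : ∃ B : Set K, B.Finite ∧ ∀ t ∉ B, ∃ a : Fin d → K,
      Function.Injective a ∧ ∀ b, fv f.2 (a b, 1) ≠ 0 ∧ fv f.1 (a b, 1) = t * fv f.2 (a b, 1) := by
  classical
  set p := pl f.1 with hp
  set q := pl f.2 with hq
  have hcommon : ∀ a : K, p.eval a ≠ 0 ∨ q.eval a ≠ 0 := by
    intro a
    by_contra h
    push Not at h
    have h1 : st f (a, 1) = 0 := by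
      unfold st
      rw [← eval_pl, ← eval_pl]
      exact Prod.ext h.1 h.2
    have h2 := congrArg Prod.snd (hf _ h1)
    simp at h2
  have hcop : IsCoprime p q := by
    rw [Polynomial.isCoprime_iff_aeval_ne_zero_of_isAlgClosed K K]
    intro a
    have := hcommon a
    simpa [Polynomial.coe_aeval_eq_eval] using this
  have htop : p.coeff d ≠ 0 ∨ q.coeff d ≠ 0 := by
    by_contra h
    push Not at h
    have h1 : st f (1, 0) = 0 := by
      unfold st
      rw [fv_10, fv_10]
      exact Prod.ext h.1 h.2
    have h2 := congrArg Prod.fst (hf _ h1)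
    simp at h2
  have hW : p.wronskian q ≠ 0 := by
    intro h
    obtain ⟨h1, h2⟩ := hcop.wronskian_eq_zero_iff.mp h
    have h3 : p.natDegree = 0 := Polynomial.derivative_eq_zero.mp h1
    have h4 : q.natDegree = 0 := Polynomial.derivative_eq_zero.mp h2
    rcases htop with h5 | h5
    · exact h5 (Polynomial.coeff_eq_zero_of_natDegree_lt (by omega))
    · exact h5 (Polynomial.coeff_eq_zero_of_natDegree_lt (by omega))
  refine ⟨((p.wronskian q).roots.toFinset.image (fun a => p.eval a / q.eval a) : Set K) ∪
    {p.coeff d / q.coeff d}, ?_, ?_⟩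
  · exact (Finset.finite_toSet _).union (Set.finite_singleton _)
  · intro t ht
    have ht1 : ∀ a, (p.wronskian q).IsRoot a → t ≠ p.eval a / q.eval a := by
      intro a ha h
      apply ht
      left
      rw [Finset.mem_coe, Finset.mem_image]
      exact ⟨a, by rw [Multiset.mem_toFinset, Polynomial.mem_roots hW]; exact ha, h.symm⟩
    have ht2 : t ≠ p.coeff d / q.coeff d := fun h => ht (Or.inr h)
    set P := p - Polynomial.C t * q with hP
    have hc : P.coeff d ≠ 0 := by
      rw [hP, Polynomial.coeff_sub, Polynomial.coeff_C_mul]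
      by_cases h0 : q.coeff d = 0
      · rw [h0, mul_zero, sub_zero]
        exact htop.resolve_right (fun h => h h0)
      · intro h
        apply ht2
        rw [eq_div_iff h0]
        linear_combination -h
    have hP0 : P ≠ 0 := by
      intro h
      rw [h] at hc
      simp at hc
    have hdegP : P.natDegree = d := by
      apply le_antisymm
      · rw [hP]
        apply (Polynomial.natDegree_sub_le _ _).trans
        apply max_le (natDegree_pl _)
        exact (Polynomial.natDegree_C_mul_le _ _).trans (natDegree_pl _)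
      · exact Polynomial.le_natDegree_of_ne_zero hc
    have hroot : ∀ a, P.IsRoot a → q.eval a ≠ 0 ∧ p.eval a = t * q.eval a := by
      intro a ha
      have h1 : p.eval a = t * q.eval a := by
        have h2 : P.eval a = 0 := ha
        rw [hP, Polynomial.eval_sub, Polynomial.eval_mul, Polynomial.eval_C] at h2
        linear_combination h2
      refine ⟨?_, h1⟩
      intro h0
      rw [h0, mul_zero] at h1
      rcases hcommon a with h | h
      · exact h h1
      · exact h h0
    have hnd : P.roots.Nodup := by
      rw [Multiset.nodup_iff_count_le_one]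
      intro a
      rw [Polynomial.count_roots]
      by_contra hlt
      push Not at hlt
      obtain ⟨h1, h2⟩ := (Polynomial.one_lt_rootMultiplicity_iff_isRoot hP0).mp hlt
      obtain ⟨h3, h4⟩ := hroot a h1
      have h5 : (Polynomial.derivative p).eval a = t * (Polynomial.derivative q).eval a := by
        have h6 : (Polynomial.derivative P).eval a = 0 := h2
        rw [hP, Polynomial.derivative_sub, Polynomial.derivative_C_mul, Polynomial.eval_sub,
          Polynomial.eval_mul, Polynomial.eval_C] at h6
        linear_combination h6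
      apply ht1 a
      · show (p.wronskian q).eval a = 0
        unfold Polynomial.wronskian
        rw [Polynomial.eval_sub, Polynomial.eval_mul, Polynomial.eval_mul, h4, h5]
        ring
      · rw [h4]
        field_simp
    have hcard : P.roots.toFinset.card = d := by
      rw [Multiset.toFinset_card_of_nodup hnd, ← (IsAlgClosed.splits P).natDegree_eq_card_roots,
        hdegP]
    refine ⟨fun b => ((Finset.equivFinOfCardEq hcard).symm b : K), ?_, ?_⟩
    · intro b b' h
      exact (Finset.equivFinOfCardEq hcard).symm.injective (Subtype.ext h)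
    · intro b
      have h1 : (((Finset.equivFinOfCardEq hcard).symm b : P.roots.toFinset) : K) ∈
          P.roots.toFinset := ((Finset.equivFinOfCardEq hcard).symm b).2
      rw [Multiset.mem_toFinset, Polynomial.mem_roots hP0] at h1
      have h2 := hroot _ h1
      rw [eval_pl, eval_pl] at h2
      exact h2

end NC_

open NC_ in
theorem p_NC : T_NC := by
  intro K _ _ _ d f N hd hf
  obtain ⟨B, hB, h⟩ := fibre f hd hf
  have hinf : (Bᶜ : Set K).Infinite := hB.infinite_compl
  let e := Set.Infinite.natEmbedding _ hinf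
  have ht : ∀ i : Fin N, ∃ a : Fin d → K, Function.Injective a ∧ ∀ b, fv f.2 (a b, 1) ≠ 0 ∧
      fv f.1 (a b, 1) = ((e (i : ℕ) : (Bᶜ : Set K)) : K) * fv f.2 (a b, 1) :=
    fun i => h _ (e (i : ℕ)).2
  choose a ha1 ha2 using ht
  have hs : ∀ (i : Fin N) (b : Fin d), ∃ s : K, s ^ d = (fv f.2 (a i b, 1))⁻¹ := fun i b =>
    IsAlgClosed.exists_pow_nat_eq _ (by omega)
  choose s hs using hs
  have hs0 : ∀ i b, s i b ≠ 0 := by
    intro i b h0
    have h1 := hs i b
    rw [h0, zero_pow (by omega)] at h1
    exact inv_ne_zero (ha2 i b).1 h1.symm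
  refine ⟨fun i => (((e (i : ℕ) : (Bᶜ : Set K)) : K), 1), fun i b => s i b • (a i b, 1),
    ?_, ?_, ?_⟩
  · intro i b
    unfold st
    rw [fv_smul, fv_smul, hs, (ha2 i b).2]
    have := (ha2 i b).1
    apply Prod.ext
    · simp only
      field_simp
    · simp only
      field_simp
  · intro i j hij
    unfold wd
    simp only [mul_one, one_mul]
    rw [sub_ne_zero]
    intro h0
    apply hij
    apply Fin.ext
    exact e.injective (Subtype.ext h0)
  · intro i b b' hbb
    unfold wd
    simp only [Prod.smul_mk, smul_eq_mul, mul_one]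
    have h1 : a i b ≠ a i b' := fun h0 => hbb (ha1 i h0)
    have h2 : s i b * a i b * s i b' - s i b * (s i b' * a i b') =
        s i b * s i b' * (a i b - a i b') := by ring
    rw [h2]
    exact mul_ne_zero (mul_ne_zero (hs0 i b) (hs0 i b')) (sub_ne_zero.mpr h1)

end Pool.Agent.UMR
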