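import Pool.Agent.UMR.Targets

set_option autoImplicit false

/-!
# Non-critical values and the constants (job UMR-NCG)
-/

namespace Pool.Agent.UMR

open Finset
open scoped BigOperators

namespace NCG_

theorem fv_smul {K : Type} [Field K] {n : ℕ} (c : Fin (n + 1) → K) (r : K) (x : K × K) :
    fv c (r • x) = r ^ n * fv c x := by
  simp only [fv, Finset.mul_sum]
  refine Finset.sum_congr rfl fun i _ => ?_
  have hi : (i : ℕ) ≤ n := Nat.lt_succ_iff.1 i.2
  have h : r ^ n = r ^ (i : ℕ) * r ^ (n - (i : ℕ)) := by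
    rw [← pow_add]; congr 1; omega
  simp only [Prod.smul_fst, Prod.smul_snd, smul_eq_mul, mul_pow, h]
  ring

theorem st_smul {K : Type} [Field K] {d : ℕ} (f : Pr K d) (r : K) (x : K × K) :
    st f (r • x) = r ^ d • st f x := by
  refine Prod.ext ?_ ?_
  · exact fv_smul f.1 r x
  · exact fv_smul f.2 r x

/-- Proportional vectors. -/
theorem prop_of_wd {K : Type} [Field K] {x z : K × K} (hx : x ≠ 0) (h : wd x z = 0) :
    ∃ c : K, z = c • x := by
  simp only [wd] at h
  by_cases h1 : x.1 = 0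
  · have h2 : x.2 ≠ 0 := by
      intro h2; exact hx (Prod.ext h1 h2)
    refine ⟨z.2 / x.2, Prod.ext ?_ ?_⟩
    · rw [h1, zero_mul, zero_sub, neg_eq_zero] at h
      have h3 : z.1 = 0 := by
        rcases mul_eq_zero.1 h with h | h
        · exact absurd h h2
        · exact h
      simp [h1, h3]
    · simp [h2]
  · refine ⟨z.1 / x.1, Prod.ext ?_ ?_⟩
    · simp [h1]
    · simp only [Prod.smul_snd, smul_eq_mul]
      field_simp
      linear_combination h

theorem wd_smul_right {K : Type} [Field K] (x z : K × K) (c : K) :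
    wd x (c • z) = c * wd x z := by
  simp only [wd, Prod.smul_fst, Prod.smul_snd, smul_eq_mul]; ring

theorem wd_smul_smul {K : Type} [Field K] (z : K × K) (a b : K) : wd (a • z) (b • z) = 0 := by
  simp only [wd, Prod.smul_fst, Prod.smul_snd, smul_eq_mul]; ring

theorem nz_of_ag {K : Type} [Field K] {d : ℕ} {f : Pr K d} {ρ : K} (h : AG f ρ) : NZ f := by
  intro x hx
  by_contra hx0
  have hw : ((1 : K), (0 : K)) ≠ 0 := fun h0 => one_ne_zero (congrArg Prod.fst h0)
  obtain ⟨γ, z, hγ, hz, hp⟩ := h.gam _ hw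
  have hd : d ≠ 0 := by have := h.hd; omega
  have hγ0 : γ ≠ 0 := by
    intro h0; rw [h0, zero_pow hd] at hγ; exact h.ne hγ.symm
  have h1 := hp x
  rw [hx] at h1
  have h2 : wd (0 : K × K) ((1 : K), (0 : K)) = 0 := by simp [wd]
  rw [h2] at h1
  rcases mul_eq_zero.1 h1.symm with h3 | h3
  · exact hγ0 h3
  · obtain ⟨b, -, hb⟩ := Finset.prod_eq_zero_iff.1 h3
    obtain ⟨c, hc⟩ := prop_of_wd hx0 hb
    have h4 := hz b
    rw [hc, st_smul, hx, smul_zero] at h4
    exact hw h4.symm

theorem one {K : Type} [Field K] {d : ℕ} {f : Pr K d} {ρ : K} (h : AG f ρ) (w : K × K)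
    (y : Fin d → K × K) (hy : ∀ b, st f (y b) = w) (hyy : ∀ a b, a ≠ b → wd (y a) (y b) ≠ 0) :
    ∃ γ : K, γ ^ d = ρ ∧ ∀ x, wd (st f x) w = γ * ∏ b, wd x (y b) := by
  have hd2 := h.hd
  have hd : d ≠ 0 := by omega
  have hy0 : ∀ b, y b ≠ 0 := by
    intro b hb
    obtain ⟨a, ha⟩ : ∃ a : Fin d, a ≠ b := by
      by_cases hb0 : (b : ℕ) = 0
      · exact ⟨⟨1, by omega⟩, fun h => by
          have := congrArg Fin.val h; simp at this; omega⟩
      · exact ⟨⟨0, by omega⟩, fun h => by
          have := congrArg Fin.val h; simp at this; omega⟩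
    have := hyy a b ha
    rw [hb] at this
    exact this (by simp [wd])
  have hw : w ≠ 0 := by
    intro h0
    have h1 := hy ⟨0, by omega⟩
    rw [h0] at h1
    exact hy0 _ (nz_of_ag h _ h1)
  obtain ⟨γ, z, hγ, hz, hp⟩ := h.gam w hw
  have hγ0 : γ ≠ 0 := by
    intro h0; rw [h0, zero_pow hd] at hγ; exact h.ne hγ.symm
  have key : ∀ b, ∃ (b' : Fin d) (ζ : K), y b = ζ • z b' ∧ ζ ^ d = 1 := by
    intro b
    have h1 := hp (y b)
    rw [hy b] at h1
    have h2 : wd w w = 0 := by simp only [wd]; ring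
    rw [h2] at h1
    rcases mul_eq_zero.1 h1.symm with h3 | h3
    · exact absurd h3 hγ0
    · obtain ⟨b', -, hb'⟩ := Finset.prod_eq_zero_iff.1 h3
      have hz0 : z b' ≠ 0 := by
        intro h0
        have h5 := hz b'
        rw [h0] at h5
        have h6 : st f (0 : K × K) = 0 := by
          have := st_smul f 0 (0 : K × K)
          rw [zero_pow hd, zero_smul, zero_smul] at this
          exact this
        rw [h6] at h5
        exact hw h5.symm
      have h4 : wd (z b') (y b) = 0 := by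
        have : wd (z b') (y b) = - wd (y b) (z b') := by simp only [wd]; ring
        rw [this, hb', neg_zero]
      obtain ⟨ζ, hζ⟩ := prop_of_wd hz0 h4
      refine ⟨b', ζ, hζ, ?_⟩
      have h5 := hy b
      rw [hζ, st_smul, hz b'] at h5
      by_contra hne
      have h6 : (ζ ^ d - 1) • w = 0 := by rw [sub_smul, one_smul, h5, sub_self]
      rcases smul_eq_zero.1 h6 with h7 | h7
      · exact hne (sub_eq_zero.1 h7)
      · exact hw h7
  choose σ ζ hσ hζ using key
  have hinj : Function.Injective σ := by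
    intro a b hab
    by_contra hne
    apply hyy a b hne
    rw [hσ a, hσ b, hab]
    exact wd_smul_smul _ _ _
  have hbij : Function.Bijective σ := Finite.injective_iff_bijective.1 hinj
  have hζ0 : ∀ b, ζ b ≠ 0 := by
    intro b h0
    have := hζ b
    rw [h0, zero_pow hd] at this
    exact zero_ne_one this
  have hP0 : ∏ b, ζ b ≠ 0 := Finset.prod_ne_zero_iff.2 fun b _ => hζ0 b
  refine ⟨γ / ∏ b, ζ b, ?_, ?_⟩
  · rw [div_pow, hγ, ← Finset.prod_pow]
    simp [hζ]
  · intro x
    have h1 : ∏ b, wd x (y b) = (∏ b, ζ b) * ∏ b, wd x (z b) := by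
      have h2 : ∏ b, wd x (y b) = ∏ b, (ζ b * wd x (z (σ b))) := by
        refine Finset.prod_congr rfl fun b _ => ?_
        rw [← wd_smul_right, ← hσ b]
      rw [h2, Finset.prod_mul_distrib]
      congr 1
      exact Function.Bijective.prod_comp hbij (fun b => wd x (z b))
    rw [h1, hp x]
    field_simp

end NCG_

open NCG_ in
theorem p_NCG (h1 : T_NC) : T_NCG := by
  intro K _ _ _ d f ρ N hag
  have hd := hag.hd
  obtain ⟨w, y, hy, hw, hyy⟩ := h1 K d f N (by omega) (nz_of_ag hag)
  have h2 : ∀ i : Fin N, ∃ γ : K, γ ^ d = ρ ∧ ∀ x, wd (st f x) (w i) = γ * ∏ b, wd x (y i b) :=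
    fun i => one hag (w i) (y i) (hy i) (hyy i)
  choose γ hγ hp using h2
  exact ⟨w, y, γ, hy, hw, hyy, hγ, hp⟩

end Pool.Agent.UMR
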