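import Pool.Agent.UMR.Targets

set_option autoImplicit false

/-!
# Orthogonal coordinates (job UMR-ORTH)
-/

namespace Pool.Agent.UMR

open Finset
open scoped BigOperators

namespace ORTH_

theorem le_gn {K : Type} [Field K] (v : AbsoluteValue K ℝ) {n : ℕ} (c : Fin (n + 1) → K)
    (i : Fin (n + 1)) : v (c i) ≤ gn v c :=
  le_ciSup (f := fun i => v (c i)) (Set.finite_range _).bddAbove i

theorem gn_attained {K : Type} [Field K] (v : AbsoluteValue K ℝ) {n : ℕ}
    (c : Fin (n + 1) → K) : ∃ i, v (c i) = gn v c := by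
  obtain ⟨i, hi⟩ := exists_eq_ciSup_of_finite (f := fun i => v (c i))
  exact ⟨i, hi⟩

theorem gn_le {K : Type} [Field K] (v : AbsoluteValue K ℝ) {n : ℕ} (c : Fin (n + 1) → K) {b : ℝ}
    (h : ∀ i, v (c i) ≤ b) : gn v c ≤ b := ciSup_le h

theorem gn_nonneg {K : Type} [Field K] (v : AbsoluteValue K ℝ) {n : ℕ} (c : Fin (n + 1) → K) :
    0 ≤ gn v c := le_trans (v.nonneg _) (le_gn v c 0)

theorem sub_le {K : Type} [Field K] {v : AbsoluteValue K ℝ} (hv : VV v) (x y : K) :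
    v (x - y) ≤ max (v x) (v y) := by
  have := hv.ultra x (-y)
  rwa [← sub_eq_add_neg, v.map_neg] at this

theorem mul_le_one' {K : Type} [Field K] {v : AbsoluteValue K ℝ} {x y : K} (hx : v x ≤ 1)
    (hy : v y ≤ 1) : v (x * y) ≤ 1 := by
  rw [v.map_mul]
  exact mul_le_one₀ hx (v.nonneg _) hy

theorem wd_le {K : Type} [Field K] {v : AbsoluteValue K ℝ} (hv : VV v) {x y : K × K}
    (hx : nm v x ≤ 1) (hy : nm v y ≤ 1) : v (wd x y) ≤ 1 := by
  have hx1 : v x.1 ≤ 1 := le_trans (le_max_left _ _) hx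
  have hx2 : v x.2 ≤ 1 := le_trans (le_max_right _ _) hx
  have hy1 : v y.1 ≤ 1 := le_trans (le_max_left _ _) hy
  have hy2 : v y.2 ≤ 1 := le_trans (le_max_right _ _) hy
  exact le_trans (sub_le hv _ _) (max_le (mul_le_one' hx1 hy2) (mul_le_one' hx2 hy1))

theorem lin_le {K : Type} [Field K] {v : AbsoluteValue K ℝ} (hv : VV v) {e₁ e₂ x : K × K}
    (h₁ : nm v e₁ ≤ 1) (h₂ : nm v e₂ ≤ 1) (hx : nm v x ≤ 1) : nm v (lin e₁ e₂ x) ≤ 1 := by
  have hx1 : v x.1 ≤ 1 := le_trans (le_max_left _ _) hx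
  have hx2 : v x.2 ≤ 1 := le_trans (le_max_right _ _) hx
  have a1 : v e₁.1 ≤ 1 := le_trans (le_max_left _ _) h₁
  have a2 : v e₁.2 ≤ 1 := le_trans (le_max_right _ _) h₁
  have b1 : v e₂.1 ≤ 1 := le_trans (le_max_left _ _) h₂
  have b2 : v e₂.2 ≤ 1 := le_trans (le_max_right _ _) h₂
  exact max_le (le_trans (hv.ultra _ _) (max_le (mul_le_one' hx1 a1) (mul_le_one' hx2 b1)))
    (le_trans (hv.ultra _ _) (max_le (mul_le_one' hx1 a2) (mul_le_one' hx2 b2)))

theorem nat_le {K : Type} [Field K] {v : AbsoluteValue K ℝ} (hv : VV v) (n : ℕ) :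
    v (n : K) ≤ 1 := by
  by_cases h : n = 0
  · simp [h]
  · exact (hv.nat n h).le

/-- One vector in general position with respect to finitely many vectors. -/
theorem gen {K : Type} [Field K] {v : AbsoluteValue K ℝ} (hv : VV v) {n : ℕ} (z : Fin n → K × K)
    (hz : ∀ j, nm v (z j) = 1) : ∃ x : K × K, nm v x ≤ 1 ∧ ∀ j, v (wd x (z j)) = 1 := by
  by_contra hcon
  have h1 : ∀ a : Fin (n + 1), ∃ j : Fin n, v (wd ((1 : K), ((a : ℕ) : K)) (z j)) ≠ 1 := by
    intro a
    by_contra h2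
    push Not at h2
    refine hcon ⟨((1 : K), ((a : ℕ) : K)), ?_, h2⟩
    exact max_le (by simp) (nat_le hv _)
  choose j hj using h1
  obtain ⟨a, b, hab, hjab⟩ := Fintype.exists_ne_map_eq_of_card_lt j (by simp)
  have hle : ∀ a : Fin (n + 1), v (wd ((1 : K), ((a : ℕ) : K)) (z (j a))) < 1 := by
    intro a
    refine lt_of_le_of_ne (wd_le hv (max_le (by simp) (nat_le hv _)) (hz _).le) (hj a)
  have ha := hle a
  have hb := hle b
  rw [hjab] at ha
  set w := z (j b) with hw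
  simp only [wd] at ha hb
  have h3 : v ((((a : ℕ) : K) - ((b : ℕ) : K)) * w.1) < 1 := by
    have : (((a : ℕ) : K) - ((b : ℕ) : K)) * w.1 =
        (1 * w.2 - ((b : ℕ) : K) * w.1) - (1 * w.2 - ((a : ℕ) : K) * w.1) := by ring
    rw [this]
    exact lt_of_le_of_lt (sub_le hv _ _) (max_lt hb ha)
  have h4 : v (((a : ℕ) : K) - ((b : ℕ) : K)) = 1 := by
    have hab' : (a : ℕ) ≠ (b : ℕ) := fun h => hab (Fin.ext h)
    rcases lt_or_gt_of_ne hab' with h | h
    · have h5 : ((a : ℕ) : K) - ((b : ℕ) : K) = -(((b : ℕ) - (a : ℕ) : ℕ) : K) := by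
        rw [Nat.cast_sub h.le]; ring
      rw [h5, v.map_neg]
      exact hv.nat _ (by omega)
    · have h5 : ((a : ℕ) : K) - ((b : ℕ) : K) = (((a : ℕ) - (b : ℕ) : ℕ) : K) := by
        rw [Nat.cast_sub h.le]
      rw [h5]
      exact hv.nat _ (by omega)
  rw [v.map_mul, h4, one_mul] at h3
  have h5 : v w.2 < 1 := by
    have : w.2 = (1 * w.2 - ((b : ℕ) : K) * w.1) + ((b : ℕ) : K) * w.1 := by ring
    rw [this]
    refine lt_of_le_of_lt (hv.ultra _ _) (max_lt hb ?_)
    rw [v.map_mul]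
    exact lt_of_le_of_lt (mul_le_of_le_one_left (v.nonneg _) (nat_le hv _)) h3
  have h6 : nm v w < 1 := max_lt h3 h5
  exact absurd (hz (j b)) h6.ne

theorem val_le (h2 : T_GAUSS) {K : Type} [Field K] [IsAlgClosed K] {v : AbsoluteValue K ℝ}
    (hv : VV v) {n : ℕ} (c : Fin (n + 1) → K) {y : K × K} (hy : nm v y ≤ 1) :
    v (fv c y) ≤ gn v c := by
  obtain ⟨z, hz, hc⟩ := h2 K v hv n c
  rw [hc y]
  refine mul_le_of_le_one_right (gn_nonneg v c) ?_
  exact Finset.prod_le_one (fun j _ => v.nonneg _) (fun j _ => wd_le hv hy (hz j).le)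

theorem sub_gn (h2 : T_GAUSS) {K : Type} [Field K] [IsAlgClosed K] {v : AbsoluteValue K ℝ}
    (hv : VV v) {n : ℕ} (c c' : Fin (n + 1) → K) {e₁ e₂ : K × K} (h₁ : nm v e₁ ≤ 1)
    (h₂ : nm v e₂ ≤ 1) (hc : ∀ x, fv c' x = fv c (lin e₁ e₂ x)) : gn v c' ≤ gn v c := by
  obtain ⟨z, hz, hz'⟩ := h2 K v hv n c'
  obtain ⟨x, hx, hx'⟩ := gen hv z hz
  have h3 : v (fv c' x) = gn v c' := by
    rw [hz' x]; simp [hx']
  rw [← h3, hc x]
  exact val_le h2 hv c (lin_le hv h₁ h₂ hx)

theorem fv_comb {K : Type} [Field K] {n : ℕ} (c c' : Fin (n + 1) → K) (s t : K) (x : K × K) :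
    fv (fun i => s * c i + t * c' i) x = s * fv c x + t * fv c' x := by
  simp only [fv, Finset.mul_sum, ← Finset.sum_add_distrib]
  exact Finset.sum_congr rfl fun i _ => by ring

/-- Orthogonality of `g` and `h - t₀ g`. -/
theorem orth {K : Type} [Field K] {v : AbsoluteValue K ℝ} (hv : VV v) {n : ℕ}
    (g k : Fin (n + 1) → K) (i₀ : Fin (n + 1)) (hg : gn v g = 1) (hi : v (g i₀) = 1)
    (hk : k i₀ = 0) (s t : K) :
    gn v (fun i => s * g i + t * k i) = max (v s) (v t * gn v k) := by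
  apply le_antisymm
  · refine gn_le v _ fun i => le_trans (hv.ultra _ _) (max_le_max ?_ ?_)
    · rw [v.map_mul]
      exact mul_le_of_le_one_right (v.nonneg _) (hg ▸ le_gn v g i)
    · rw [v.map_mul]
      exact mul_le_mul_of_nonneg_left (le_gn v k i) (v.nonneg _)
  · have h1 : v s ≤ gn v (fun i => s * g i + t * k i) := by
      have := le_gn v (fun i => s * g i + t * k i) i₀
      simp only [hk, mul_zero, add_zero, v.map_mul, hi, mul_one] at this
      exact this
    refine max_le h1 ?_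
    obtain ⟨i, hi'⟩ := gn_attained v k
    rw [← hi', ← v.map_mul]
    have h2 : t * k i = (s * g i + t * k i) - s * g i := by ring
    rw [h2]
    refine le_trans (sub_le hv _ _) (max_le (le_gn v (fun i => s * g i + t * k i) i) ?_)
    rw [v.map_mul]
    exact le_trans (mul_le_of_le_one_right (v.nonneg _) (hg ▸ le_gn v g i)) h1

theorem lin_lin {K : Type} [Field K] {e₁ e₂ a₁ a₂ : K × K}
    (h11 : a₁.1 * e₁.1 + a₁.2 * e₂.1 = 1) (h12 : a₁.1 * e₁.2 + a₁.2 * e₂.2 = 0)
    (h21 : a₂.1 * e₁.1 + a₂.2 * e₂.1 = 0) (h22 : a₂.1 * e₁.2 + a₂.2 * e₂.2 = 1) (x : K × K) :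
    lin e₁ e₂ (lin a₁ a₂ x) = x := by
  refine Prod.ext ?_ ?_
  · simp only [lin]
    linear_combination x.1 * h11 + x.2 * h21
  · simp only [lin]
    linear_combination x.1 * h12 + x.2 * h22

/-- The common part of the two cases. -/
theorem main (h2 : T_GAUSS) {K : Type} [Field K] [IsAlgClosed K] {v : AbsoluteValue K ℝ}
    (hv : VV v) {d : ℕ} (g k : Fin (d + 1) → K) (i₀ : Fin (d + 1)) (hg : gn v g = 1)
    (hi : v (g i₀) = 1) (hk : k i₀ = 0) (f' : Pr K d) {e₁ e₂ a₁ a₂ : K × K} (h₁ : nm v e₁ ≤ 1)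
    (h₂ : nm v e₂ ≤ 1) (g₁ : nm v a₁ ≤ 1) (g₂ : nm v a₂ ≤ 1)
    (hla : ∀ x, lin e₁ e₂ (lin a₁ a₂ x) = x)
    (h3 : ∀ x, fv f'.1 x = fv g (lin e₁ e₂ x)) (h4 : ∀ x, fv f'.2 x = fv k (lin e₁ e₂ x))
    (s t : K) : gn v (fun i => s * f'.1 i + t * f'.2 i) = max (v s) (v t * gn v k) := by
  rw [← orth hv g k i₀ hg hi hk s t]
  apply le_antisymm
  · refine sub_gn h2 hv _ _ h₁ h₂ fun x => ?_
    rw [fv_comb, fv_comb, h3, h4]
  · refine sub_gn h2 hv _ _ g₁ g₂ fun x => ?_
    rw [fv_comb, fv_comb, h3, h4, hla]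

end ORTH_

open ORTH_ in
theorem p_ORTH (h1 : T_CL) (h2 : T_GAUSS) : T_ORTH := by
  intro K _ _ v d f ρ hv hag hcn
  have hd : 0 < d := lt_of_lt_of_le (by norm_num) hag.hd
  have hone : gn v f.1 = 1 ∨ gn v f.2 = 1 := by
    rcases max_choice (gn v f.1) (gn v f.2) with h | h
    · left; rw [← h]; exact hcn
    · right; rw [← h]; exact hcn
  have hf1 : gn v f.1 ≤ 1 := hcn ▸ le_max_left _ _
  have hf2 : gn v f.2 ≤ 1 := hcn ▸ le_max_right _ _
  rcases hone with hg | hg
  · obtain ⟨i₀, hi⟩ := gn_attained v f.1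
    rw [hg] at hi
    have hne : f.1 i₀ ≠ 0 := by
      intro h0; rw [h0, map_zero] at hi; exact zero_ne_one hi
    set t₀ := f.2 i₀ / f.1 i₀ with ht₀
    have hvt : v t₀ ≤ 1 := by
      rw [ht₀, map_div₀, hi, div_one]; exact le_trans (le_gn v f.2 i₀) hf2
    set k : Fin (d + 1) → K := fun i => (-t₀) * f.1 i + 1 * f.2 i with hkdef
    have hk : k i₀ = 0 := by
      simp only [hkdef, ht₀]; field_simp; ring
    obtain ⟨h, hh⟩ := h1 K d f ((1 : K), t₀) ((0 : K), 1) ((1 : K), -t₀) ((0 : K), 1)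
    have e₁n : nm v ((1 : K), t₀) ≤ 1 := max_le (by simp) hvt
    have e₂n : nm v ((0 : K), (1 : K)) ≤ 1 := max_le (by simp) (by simp)
    have a₁n : nm v ((1 : K), -t₀) ≤ 1 := max_le (by simp) (by simpa using hvt)
    have hla : ∀ x : K × K, lin ((1 : K), t₀) ((0 : K), 1) (lin ((1 : K), -t₀) ((0 : K), 1) x)
        = x := lin_lin (by simp) (by simp) (by simp) (by simp)
    have h3 : ∀ x, fv h.1 x = fv f.1 (lin ((1 : K), t₀) ((0 : K), 1) x) := by
      intro x
      have := congrArg Prod.fst (hh x)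
      simp only [st, lin] at this ⊢
      rw [this]; ring
    have h4 : ∀ x, fv h.2 x = fv k (lin ((1 : K), t₀) ((0 : K), 1) x) := by
      intro x
      have := congrArg Prod.snd (hh x)
      rw [hkdef, fv_comb]
      simp only [st, lin] at this ⊢
      rw [this]; ring
    have hmain := main h2 hv f.1 k i₀ hg hi hk h e₁n e₂n a₁n e₂n hla h3 h4
    obtain ⟨i₁, hi₁⟩ := gn_attained v k
    have hlam : k i₁ ≠ 0 := by
      intro h0
      have hk0 : ∀ i, k i = 0 := by
        intro i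
        have h5 := le_gn v k i
        rw [← hi₁, h0, map_zero] at h5
        exact v.eq_zero.1 (le_antisymm h5 (v.nonneg _))
      obtain ⟨γ, y, -, hy, -⟩ := hag.gam ((0 : K), (1 : K)) (by
        intro h0; exact one_ne_zero (congrArg Prod.snd h0))
      have h6 := hy ⟨0, hd⟩
      have h7 : fv f.1 (y ⟨0, hd⟩) = 0 := congrArg Prod.fst h6
      have h8 : fv f.2 (y ⟨0, hd⟩) = 1 := congrArg Prod.snd h6
      have h9 : fv k (y ⟨0, hd⟩) = 0 := by simp [fv, hk0]
      rw [hkdef, fv_comb, h7, h8] at h9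
      simp at h9
    refine ⟨((1 : K), t₀), ((0 : K), 1), h, k i₁, e₁n, e₂n, by simp [wd], ?_, hlam, ?_, ?_, ?_, ?_⟩
    · intro x
      rw [hh x, hla]
    · refine le_trans (hv.ultra _ _) (max_le ?_ ?_)
      · exact mul_le_one' (by simpa using hvt) (le_trans (le_gn v f.1 i₁) hf1)
      · exact mul_le_one' (by simp) (le_trans (le_gn v f.2 i₁) hf2)
    · have := hmain 1 0
      simpa using this
    · have := hmain 0 1
      simp only [zero_mul, one_mul, zero_add, map_zero, map_one] at this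
      rw [hi₁, show h.2 = fun i => h.2 i from rfl, this]
      exact max_eq_right (gn_nonneg v k)
    · intro s t
      rw [hi₁]; exact hmain s t
  · obtain ⟨i₀, hi⟩ := gn_attained v f.2
    rw [hg] at hi
    have hne : f.2 i₀ ≠ 0 := by
      intro h0; rw [h0, map_zero] at hi; exact zero_ne_one hi
    set t₀ := f.1 i₀ / f.2 i₀ with ht₀
    have hvt : v t₀ ≤ 1 := by
      rw [ht₀, map_div₀, hi, div_one]; exact le_trans (le_gn v f.1 i₀) hf1
    set k : Fin (d + 1) → K := fun i => (-t₀) * f.2 i + 1 * f.1 i with hkdef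
    have hk : k i₀ = 0 := by
      simp only [hkdef, ht₀]; field_simp; ring
    obtain ⟨h, hh⟩ := h1 K d f (t₀, (1 : K)) ((1 : K), 0) ((0 : K), 1) ((1 : K), -t₀)
    have e₁n : nm v (t₀, (1 : K)) ≤ 1 := max_le hvt (by simp)
    have e₂n : nm v ((1 : K), (0 : K)) ≤ 1 := max_le (by simp) (by simp)
    have a₁n : nm v ((0 : K), (1 : K)) ≤ 1 := max_le (by simp) (by simp)
    have a₂n : nm v ((1 : K), -t₀) ≤ 1 := max_le (by simp) (by simpa using hvt)
    have hla : ∀ x : K × K, lin (t₀, (1 : K)) ((1 : K), 0) (lin ((0 : K), 1) ((1 : K), -t₀) x)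
        = x := lin_lin (by simp) (by simp) (by simp) (by simp)
    have h3 : ∀ x, fv h.1 x = fv f.2 (lin (t₀, (1 : K)) ((1 : K), 0) x) := by
      intro x
      have := congrArg Prod.fst (hh x)
      simp only [st, lin] at this ⊢
      rw [this]; ring
    have h4 : ∀ x, fv h.2 x = fv k (lin (t₀, (1 : K)) ((1 : K), 0) x) := by
      intro x
      have := congrArg Prod.snd (hh x)
      rw [hkdef, fv_comb]
      simp only [st, lin] at this ⊢
      rw [this]; ring
    have hmain := main h2 hv f.2 k i₀ hg hi hk h e₁n e₂n a₁n a₂n hla h3 h4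
    obtain ⟨i₁, hi₁⟩ := gn_attained v k
    have hlam : k i₁ ≠ 0 := by
      intro h0
      have hk0 : ∀ i, k i = 0 := by
        intro i
        have h5 := le_gn v k i
        rw [← hi₁, h0, map_zero] at h5
        exact v.eq_zero.1 (le_antisymm h5 (v.nonneg _))
      obtain ⟨γ, y, -, hy, -⟩ := hag.gam ((1 : K), (0 : K)) (by
        intro h0; exact one_ne_zero (congrArg Prod.fst h0))
      have h6 := hy ⟨0, hd⟩
      have h7 : fv f.1 (y ⟨0, hd⟩) = 1 := congrArg Prod.fst h6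
      have h8 : fv f.2 (y ⟨0, hd⟩) = 0 := congrArg Prod.snd h6
      have h9 : fv k (y ⟨0, hd⟩) = 0 := by simp [fv, hk0]
      rw [hkdef, fv_comb, h7, h8] at h9
      simp at h9
    refine ⟨(t₀, (1 : K)), ((1 : K), 0), h, k i₁, e₁n, e₂n, by simp [wd], ?_, hlam, ?_, ?_, ?_, ?_⟩
    · intro x
      rw [hh x, hla]
    · refine le_trans (hv.ultra _ _) (max_le ?_ ?_)
      · exact mul_le_one' (by simpa using hvt) (le_trans (le_gn v f.2 i₁) hf2)
      · exact mul_le_one' (by simp) (le_trans (le_gn v f.1 i₁) hf1)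
    · have := hmain 1 0
      simpa using this
    · have := hmain 0 1
      simp only [zero_mul, one_mul, zero_add, map_zero, map_one] at this
      rw [hi₁, show h.2 = fun i => h.2 i from rfl, this]
      exact max_eq_right (gn_nonneg v k)
    · intro s t
      rw [hi₁]; exact hmain s t

end Pool.Agent.UMR
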