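import Pool.Agent.UMR.Targets

set_option autoImplicit false

/-!
# UMR-PARAM: choice of the parameters of the determinant method
-/

namespace Pool.Agent.UMR

namespace PARAM_

open Filter Topology

/-- the choice of the exponent `s` -/
lemma exists_s (A B : ℕ) (ε : ℝ) (hε : 0 < ε) :
    ∃ s : ℕ, 2 * B ≤ 2 ^ s ∧ (A : ℝ) * (s + 2) ≤ ε * 2 ^ s := by
  have h1 : Tendsto (fun n : ℕ => (n : ℝ) ^ 1 / (2 : ℝ) ^ n) atTop (𝓝 0) :=
    tendsto_pow_const_div_const_pow_of_one_lt 1 (by norm_num)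
  have h2 : ∀ᶠ n : ℕ in atTop, (n : ℝ) ^ 1 / (2 : ℝ) ^ n < ε / (3 * (A + 1)) :=
    h1.eventually_lt_const (by positivity)
  have h3 : ∀ᶠ n : ℕ in atTop, 2 * B + 1 ≤ n := eventually_ge_atTop _
  obtain ⟨s, hs, hs'⟩ := (h2.and h3).exists
  refine ⟨s, ?_, ?_⟩
  · have := Nat.lt_two_pow_self (n := s)
    omega
  · rw [pow_one, div_lt_div_iff₀ (by positivity) (by positivity)] at hs
    have h4 : (1 : ℝ) ≤ s := by
      have : 1 ≤ s := by omega
      exact_mod_cast this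
    have h5 : (A : ℝ) * (s + 2) ≤ s * (3 * (A + 1)) := by
      have hA : (0 : ℝ) ≤ A := Nat.cast_nonneg _
      nlinarith
    linarith

/-- a natural number that is not much larger than a root -/
lemma exists_P (Q n : ℕ) (hQ : 1 ≤ Q) (hn : 1 ≤ n) :
    ∃ P : ℕ, 1 ≤ P ∧ Q < P ^ n ∧ P ^ n ≤ 2 ^ n * Q := by
  classical
  have hex : ∃ P : ℕ, Q < P ^ n := ⟨Q + 1, lt_of_lt_of_le (Nat.lt_succ_self Q)
    (Nat.le_self_pow (by omega) _)⟩
  set P := Nat.find hex with hP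
  have h1 : Q < P ^ n := Nat.find_spec hex
  have h2 : 2 ≤ P := by
    by_contra h
    have h3 : P ^ n ≤ 1 := by
      have : P ≤ 1 := by omega
      calc P ^ n ≤ 1 ^ n := Nat.pow_le_pow_left this n
        _ = 1 := one_pow _
    omega
  have h3 : ¬ Q < (P - 1) ^ n := Nat.find_min hex (by omega)
  refine ⟨P, by omega, h1, ?_⟩
  calc P ^ n ≤ (2 * (P - 1)) ^ n := Nat.pow_le_pow_left (by omega) n
    _ = 2 ^ n * (P - 1) ^ n := mul_pow _ _ _
    _ ≤ 2 ^ n * Q := Nat.mul_le_mul_left _ (not_lt.1 h3)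

end PARAM_

open PARAM_ in
theorem p_PARAM : T_PARAM := by
  intro d C ε hd hε
  set m := 2 * d + 4 with hm
  have hm0 : 0 < m := by omega
  obtain ⟨s, hs1, hs2⟩ := exists_s (4 * (2 * d) * m * m) m ε hε
  have hsm : m ≤ 2 ^ s := by omega
  set h := 2 ^ s - m with hh
  have hhm : h + m = 2 ^ s := by omega
  set k := 1 + m * (s + 1) with hk
  set D := max C 1 with hD
  have hD1 : 1 ≤ D := le_max_right _ _
  have hCD : C ≤ D := le_max_left _ _
  set K := (2 ^ k * D ^ k) ^ 2 with hK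
  have hK1 : 1 ≤ K := Nat.one_le_iff_ne_zero.2 (by positivity)
  set a : ℝ := (m : ℝ) / ((h + 1 : ℕ) : ℝ) with ha
  have hh1 : (0 : ℝ) < ((h + 1 : ℕ) : ℝ) := by positivity
  have ha0 : 0 ≤ a := by positivity
  have hNa : ((2 * k * (2 * d - 1) : ℕ) : ℝ) * a ≤ ε := by
    rw [ha, mul_div_assoc', div_le_iff₀ hh1]
    have h1 : (2 : ℝ) ^ s ≤ 2 * ((h + 1 : ℕ) : ℝ) := by
      have : 2 ^ s ≤ 2 * (h + 1) := by omega
      exact_mod_cast this
    have h2 : 2 * k * (2 * d - 1) * m * 2 ≤ 4 * (2 * d) * m * m * (s + 2) := by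
      have h3 : k ≤ m * (s + 2) := by
        rw [hk]
        calc 1 + m * (s + 1) ≤ m + m * (s + 1) := by omega
          _ = m * (s + 2) := by ring
      calc 2 * k * (2 * d - 1) * m * 2 ≤ 2 * (m * (s + 2)) * (2 * d) * m * 2 := by
            gcongr
            omega
        _ = 4 * (2 * d) * m * m * (s + 2) := by ring
    have h4 : ((2 * k * (2 * d - 1) : ℕ) : ℝ) * m * 2 ≤
        ((4 * (2 * d) * m * m : ℕ) : ℝ) * (s + 2) := by exact_mod_cast h2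
    have h5 : ε * 2 ^ s ≤ ε * (2 * ((h + 1 : ℕ) : ℝ)) := mul_le_mul_of_nonneg_left h1 hε.le
    linarith
  refine ⟨k, h, h + 1, ((h + 1 : ℕ) : ℝ) * ((2 : ℝ) ^ (h + 1)) ^ m *
    ((2 : ℝ) ^ (h + 1) * K) ^ a, by omega, ?_, ?_⟩
  · rw [hhm]
    calc 2 * (2 ^ s).choose m ≤ 2 * (2 ^ s) ^ m := Nat.mul_le_mul_left _ (Nat.choose_le_pow _ _)
      _ = 2 ^ (1 + m * s) := by rw [← pow_mul, pow_add, pow_one, mul_comm s m]
      _ ≤ 2 ^ k := Nat.pow_le_pow_right (by norm_num) (by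
          rw [hk]
          exact Nat.add_le_add_left (Nat.mul_le_mul_left _ (Nat.le_succ _)) _)
  intro X hX
  set Q := (2 ^ k * (D * X ^ (2 * d - 1)) ^ k) ^ 2 with hQ
  have hDX : 1 ≤ D * X ^ (2 * d - 1) :=
    Nat.one_le_iff_ne_zero.2 (Nat.mul_ne_zero (by omega) (pow_ne_zero _ (by omega)))
  have hQ1 : 1 ≤ Q := Nat.one_le_pow _ _ (Nat.mul_pos (by positivity) (pow_pos hDX k))
  have hQK : Q = K * X ^ (2 * k * (2 * d - 1)) := by
    rw [hQ, hK, mul_pow D, ← pow_mul X, ← mul_assoc, mul_pow (2 ^ k * D ^ k), ← pow_mul X]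
    congr 2
    ring
  obtain ⟨P, hP1, hPQ, hP2⟩ := exists_P Q (h + 1) hQ1 (by omega)
  refine ⟨P, hP1, ?_, ?_, ?_⟩
  · refine lt_of_le_of_lt ?_ hPQ
    rw [hQ]
    gcongr
  · refine lt_of_le_of_lt ?_ hPQ
    have h1 : D * X ^ (2 * d - 1) ≤ (D * X ^ (2 * d - 1)) ^ k := Nat.le_self_pow (by omega) _
    calc C * X ^ (2 * d) ≤ D * X ^ (2 * (2 * d - 1)) :=
          Nat.mul_le_mul hCD (Nat.pow_le_pow_right (by omega) (by omega))
      _ ≤ D ^ 2 * X ^ (2 * (2 * d - 1)) := by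
          gcongr
          exact Nat.le_self_pow (by norm_num) D
      _ = (D * X ^ (2 * d - 1)) ^ 2 := by
          rw [mul_pow, ← pow_mul, mul_comm 2 (2 * d - 1)]
      _ ≤ Q := by
          rw [hQ]
          refine Nat.pow_le_pow_left ?_ 2
          calc D * X ^ (2 * d - 1) ≤ (D * X ^ (2 * d - 1)) ^ k := h1
            _ = 1 * (D * X ^ (2 * d - 1)) ^ k := (one_mul _).symm
            _ ≤ 2 ^ k * (D * X ^ (2 * d - 1)) ^ k :=
              Nat.mul_le_mul_right _ (Nat.one_le_two_pow)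
  · have hX1 : (1 : ℝ) ≤ X := by exact_mod_cast hX
    have hX0 : (0 : ℝ) ≤ X := by linarith
    have hP0 : (0 : ℝ) ≤ P := Nat.cast_nonneg _
    have h1 : ((P : ℝ)) ^ (h + 1) ≤ ((2 : ℝ) ^ (h + 1) * K) * (X : ℝ) ^ (2 * k * (2 * d - 1)) := by
      have : P ^ (h + 1) ≤ 2 ^ (h + 1) * K * X ^ (2 * k * (2 * d - 1)) := by
        rw [mul_assoc, ← hQK]; exact hP2
      exact_mod_cast this
    have h2 : (P : ℝ) ^ m = ((P : ℝ) ^ (h + 1)) ^ a := by
      rw [← Real.rpow_natCast (P : ℝ) (h + 1), ← Real.rpow_mul hP0, ← Real.rpow_natCast, ha,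
        mul_div_cancel₀ _ hh1.ne']
    have h3 : (P : ℝ) ^ m ≤ ((2 : ℝ) ^ (h + 1) * K) ^ a * (X : ℝ) ^ ε := by
      rw [h2]
      calc ((P : ℝ) ^ (h + 1)) ^ a ≤
            (((2 : ℝ) ^ (h + 1) * K) * (X : ℝ) ^ (2 * k * (2 * d - 1))) ^ a :=
            Real.rpow_le_rpow (by positivity) h1 ha0
        _ = ((2 : ℝ) ^ (h + 1) * K) ^ a * ((X : ℝ) ^ (2 * k * (2 * d - 1))) ^ a :=
            Real.mul_rpow (by positivity) (by positivity)
        _ ≤ ((2 : ℝ) ^ (h + 1) * K) ^ a * (X : ℝ) ^ ε := by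
            refine mul_le_mul_of_nonneg_left ?_ (by positivity)
            rw [← Real.rpow_natCast (X : ℝ), ← Real.rpow_mul hX0]
            exact Real.rpow_le_rpow_of_exponent_le hX1 hNa
    calc ((h + 1 : ℕ) : ℝ) * ((2 : ℝ) ^ (h + 1) * P) ^ m =
          ((h + 1 : ℕ) : ℝ) * ((2 : ℝ) ^ (h + 1)) ^ m * (P : ℝ) ^ m := by
          rw [mul_pow]; ring
      _ ≤ ((h + 1 : ℕ) : ℝ) * ((2 : ℝ) ^ (h + 1)) ^ m *
          (((2 : ℝ) ^ (h + 1) * K) ^ a * (X : ℝ) ^ ε) :=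
          mul_le_mul_of_nonneg_left h3 (by positivity)
      _ = _ := by ring

end Pool.Agent.UMR
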