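import Pool.Agent.UMR.Targets

/-!
UMR, PLS: places of a field of transcendence degree one.
-/

set_option autoImplicit false

namespace Pool.Agent.UMR

open Finset

namespace PLS_

section basic

variable {K Ω : Type} [Field K] [Field Ω] [Algebra K Ω]

lemma sum_le (V : AbsoluteValue Ω ℝ) (hV : ∀ x y, V (x + y) ≤ max (V x) (V y)) {ι : Type}
    (s : Finset ι) (f : ι → Ω) (B : ℝ) (hB : 0 ≤ B) (h : ∀ i ∈ s, V (f i) ≤ B) :
    V (∑ i ∈ s, f i) ≤ B := by
  classical
  induction s using Finset.induction_on with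
  | empty => simpa using hB
  | insert a s ha ih =>
    rw [Finset.sum_insert ha]
    refine (hV _ _).trans (max_le (h a (Finset.mem_insert_self a s)) (ih ?_))
    intro i hi
    exact h i (Finset.mem_insert_of_mem hi)

/-- integral elements have absolute value at most one -/
lemma le_one_of_root (V : AbsoluteValue Ω ℝ) (hV : ∀ x y, V (x + y) ≤ max (V x) (V y))
    (p : Polynomial K) (hp : p.Monic) (hc : ∀ i, V (algebraMap K Ω (p.coeff i)) ≤ 1) (y : Ω)
    (hy : Polynomial.aeval y p = 0) : V y ≤ 1 := by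
  by_contra hlt
  push Not at hlt
  rw [Polynomial.aeval_eq_sum_range, Finset.sum_range_succ] at hy
  have h1 : p.coeff p.natDegree = 1 := hp
  rw [h1, one_smul] at hy
  set n := p.natDegree with hn
  rcases Nat.eq_zero_or_pos n with h0 | h0
  · rw [h0] at hy
    simp at hy
  have h2 : y ^ n = - ∑ i ∈ range n, p.coeff i • y ^ i := by
    rw [eq_neg_iff_add_eq_zero, add_comm]
    exact hy
  have h3 : V (y ^ n) ≤ V y ^ (n - 1) := by
    rw [h2, AbsoluteValue.map_neg]
    apply sum_le V hV
    · positivity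
    · intro i hi
      rw [Finset.mem_range] at hi
      rw [Algebra.smul_def, map_mul, map_pow]
      calc V (algebraMap K Ω (p.coeff i)) * V y ^ i ≤ 1 * V y ^ i :=
            mul_le_mul_of_nonneg_right (hc i) (by positivity)
        _ = V y ^ i := one_mul _
        _ ≤ V y ^ (n - 1) := pow_le_pow_right₀ hlt.le (by omega)
  rw [map_pow] at h3
  have h4 : V y ^ (n - 1) < V y ^ n := pow_lt_pow_right₀ hlt (by omega)
  linarith

end basic

/-- The data on the base field. -/
structure Base (L K : Type) [Field L] [Field K] [Algebra L K] {P : Type}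
    (w : P → AbsoluteValue K ℝ) : Prop where
  ultra : ∀ p x y, w p (x + y) ≤ max (w p x) (w p y)
  triv : ∀ p (c : L), c ≠ 0 → w p (algebraMap L K c) = 1
  fin : ∀ z, z ≠ 0 → {p | w p z ≠ 1}.Finite
  pf : ∀ z, z ≠ 0 → ∑ᶠ p, Real.log (w p z) = 0
  const : ∀ z, (∀ p, w p z ≤ 1) → ∃ c : L, z = algebraMap L K c

section main

variable {L K Ω : Type} [Field L] [IsAlgClosed L] [Field K] [CharZero K] [Field Ω]
  [IsAlgClosed Ω] [Algebra L K] [Algebra K Ω] [Algebra L Ω] [IsScalarTower L K Ω]
  [Algebra.IsAlgebraic K Ω] {P : Type} {w : P → AbsoluteValue K ℝ}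

omit [IsAlgClosed L] [CharZero K] [IsAlgClosed Ω] [Algebra L Ω] [IsScalarTower L K Ω] in
lemma fin_le (hw : Base L K w) (V : P → AbsoluteValue Ω ℝ)
    (hV : ∀ p x y, V p (x + y) ≤ max (V p x) (V p y))
    (hVw : ∀ p z, V p (algebraMap K Ω z) = w p z) (y : Ω) : {p | ¬ V p y ≤ 1}.Finite := by
  have hint : IsIntegral K y := Algebra.IsIntegral.isIntegral y
  have h1 : {p | ¬ V p y ≤ 1} ⊆ ⋃ i ∈ (minpoly K y).support,
      {p | w p ((minpoly K y).coeff i) ≠ 1} := by
    intro p hp
    by_contra hcon
    apply hp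
    refine le_one_of_root (V p) (hV p) (minpoly K y) (minpoly.monic hint) ?_ y
      (minpoly.aeval K y)
    intro i
    rw [hVw]
    by_cases hi : (minpoly K y).coeff i = 0
    · rw [hi, map_zero]; exact zero_le_one
    · by_contra hne
      apply hcon
      simp only [Set.mem_iUnion]
      exact ⟨i, Polynomial.mem_support_iff.2 hi, fun h => hne h.le⟩
  refine Set.Finite.subset ?_ h1
  refine Set.Finite.biUnion (Finset.finite_toSet _) ?_
  intro i hi
  exact hw.fin _ (Polynomial.mem_support_iff.1 hi)

omit [IsAlgClosed L] [CharZero K] [IsAlgClosed Ω] [Algebra L Ω] [IsScalarTower L K Ω] in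
lemma fin_ne (hw : Base L K w) (V : P → AbsoluteValue Ω ℝ)
    (hV : ∀ p x y, V p (x + y) ≤ max (V p x) (V p y))
    (hVw : ∀ p z, V p (algebraMap K Ω z) = w p z) (y : Ω) (hy : y ≠ 0) :
    {p | V p y ≠ 1}.Finite := by
  refine Set.Finite.subset ((fin_le hw V hV hVw y).union (fin_le hw V hV hVw y⁻¹)) ?_
  intro p hp
  by_contra hcon
  simp only [Set.mem_union, Set.mem_ofPred_eq, not_or, not_not] at hcon
  apply hp
  have h1 : V p y * V p y⁻¹ = 1 := by rw [← map_mul, mul_inv_cancel₀ hy, map_one]
  have h0 : 0 < V p y := (V p).pos hy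
  refine le_antisymm hcon.1 ?_
  calc (1 : ℝ) = V p y * V p y⁻¹ := h1.symm
    _ ≤ V p y * 1 := mul_le_mul_of_nonneg_left hcon.2 h0.le
    _ = V p y := mul_one _

omit [CharZero K] in
/-- an element all of whose conjugates have absolute value at most one at all places is constant -/
lemma const_aux (hw : Base L K w) (V : P → AbsoluteValue Ω ℝ)
    (hV : ∀ p x y, V p (x + y) ≤ max (V p x) (V p y))
    (hVw : ∀ p z, V p (algebraMap K Ω z) = w p z) (z : Ω)
    (h : ∀ p, ∀ y : Ω, Polynomial.aeval y (minpoly K z) = 0 → V p y ≤ 1) :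
    ∃ c : L, z = algebraMap L Ω c := by
  have hint : IsIntegral K z := Algebra.IsIntegral.isIntegral z
  have hmon := minpoly.monic hint
  -- the coefficients
  have hcoef : ∀ i p, w p ((minpoly K z).coeff i) ≤ 1 := by
    intro i p
    rw [← hVw]
    let O : Subring Ω :=
      { carrier := {x | V p x ≤ 1}
        mul_mem' := fun {a b} ha hb => by
          simp only [Set.mem_ofPred_eq] at ha hb ⊢
          rw [map_mul]
          exact mul_le_one₀ ha ((V p).nonneg b) hb
        one_mem' := by simp
        add_mem' := fun {a b} ha hb => (hV p a b).trans (max_le ha hb)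
        zero_mem' := by simp
        neg_mem' := fun {a} ha => by simpa using ha }
    have hO : ∀ x, x ∈ O ↔ V p x ≤ 1 := fun x => Iff.rfl
    rw [← hO, ← Polynomial.coeff_map]
    have hsp : ((minpoly K z).map (algebraMap K Ω)).Splits := IsAlgClosed.splits _
    rw [hsp.eq_prod_roots, (hmon.map (algebraMap K Ω)).leadingCoeff, Polynomial.C_1, one_mul]
    have hroots : ∀ y ∈ ((minpoly K z).map (algebraMap K Ω)).roots, y ∈ O := by
      intro y hy
      rw [hO]
      apply h p y
      rw [Polynomial.mem_roots_map (minpoly.ne_zero hint)] at hy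
      exact hy
    generalize ((minpoly K z).map (algebraMap K Ω)).roots = m at hroots
    have key : ∃ q : Polynomial O, q.map O.subtype =
        (Multiset.map (fun x => Polynomial.X - Polynomial.C x) m).prod := by
      induction m using Multiset.induction_on with
      | empty => exact ⟨1, by simp⟩
      | cons a m ih =>
        obtain ⟨q, hq⟩ := ih (fun y hy => hroots y (Multiset.mem_cons_of_mem hy))
        refine ⟨(Polynomial.X - Polynomial.C ⟨a, hroots a (Multiset.mem_cons_self a m)⟩) * q, ?_⟩
        rw [Polynomial.map_mul, hq, Multiset.map_cons, Multiset.prod_cons]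
        simp
    obtain ⟨q, hq⟩ := key
    rw [← hq, Polynomial.coeff_map]
    exact (q.coeff i).2
  have hL : ∀ i, ∃ c : L, (minpoly K z).coeff i = algebraMap L K c := fun i =>
    hw.const _ (fun p => hcoef i p)
  have hlift : (minpoly K z) ∈ Polynomial.lifts (algebraMap L K) := by
    rw [Polynomial.lifts_iff_coeff_lifts]
    intro i
    obtain ⟨c, hc⟩ := hL i
    exact ⟨c, hc.symm⟩
  obtain ⟨q, hq⟩ := (Polynomial.mem_lifts _).1 hlift
  have hq0 : q ≠ 0 := by
    intro h0
    rw [h0, Polynomial.map_zero] at hq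
    exact minpoly.ne_zero hint hq.symm
  have hroot : (q.map (algebraMap L Ω)).IsRoot z := by
    rw [IsScalarTower.algebraMap_eq L K Ω, ← Polynomial.map_map, hq, Polynomial.IsRoot,
      Polynomial.eval_map_algebraMap]
    exact minpoly.aeval K z
  obtain ⟨c, hc⟩ := (IsAlgClosed.splits q).mem_range_of_isRoot hq0 hroot
  exact ⟨c, hc.symm⟩

theorem main (hw : Base L K w) (V : P → AbsoluteValue Ω ℝ)
    (hV : ∀ p x y, V p (x + y) ≤ max (V p x) (V p y))
    (hVw : ∀ p z, V p (algebraMap K Ω z) = w p z) (s : Set Ω) (hs : s.Finite) :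
    ∃ (E : Subfield Ω) (P : Type) (v : P → AbsoluteValue Ω ℝ), Pl L Ω E v ∧ s ⊆ E := by
  classical
  have hcl : IsAlgClosure K Ω := ⟨inferInstance, inferInstance⟩
  have hnorm : Normal K Ω := IsAlgClosure.normal K Ω
  have hsfin : Finite s := hs
  have hfd0 : FiniteDimensional K (IntermediateField.adjoin K s) :=
    IntermediateField.finiteDimensional_adjoin (fun x _ => Algebra.IsIntegral.isIntegral x)
  set N : IntermediateField K Ω :=
    IntermediateField.normalClosure K (IntermediateField.adjoin K s) Ω with hN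
  have hfd : FiniteDimensional K N := normalClosure.is_finiteDimensional K _ Ω
  have hnormal : Normal K N := normalClosure.normal K _ Ω
  have hgal : IsGalois K N := { }
  let lft : (N ≃ₐ[K] N) → (Ω ≃ₐ[K] Ω) := fun τ => τ.liftNormal Ω
  have hlft : ∀ (τ : N ≃ₐ[K] N) (z : N), lft τ (z : Ω) = ((τ z : N) : Ω) := fun τ z =>
    AlgEquiv.liftNormal_commutes τ Ω z
  let v : P × (N ≃ₐ[K] N) → AbsoluteValue Ω ℝ := fun a =>
    (V a.1).comp (f := (lft a.2 : Ω →+* Ω)) (lft a.2).injective
  have hv : ∀ a x, v a x = V a.1 (lft a.2 x) := fun a x => rfl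
  have hfin : ∀ z : Ω, z ≠ 0 → {a | v a z ≠ 1}.Finite := by
    intro z hz
    have h1 : {a | v a z ≠ 1} ⊆
        (⋃ τ : N ≃ₐ[K] N, {p | V p (lft τ z) ≠ 1}) ×ˢ (Set.univ : Set (N ≃ₐ[K] N)) := by
      rintro ⟨p, τ⟩ hp
      refine ⟨?_, Set.mem_univ _⟩
      simp only [Set.mem_iUnion]
      exact ⟨τ, hp⟩
    refine Set.Finite.subset (Set.Finite.prod (Set.finite_iUnion ?_) Set.finite_univ) h1
    intro τ
    exact fin_ne hw V hV hVw _ (by simpa using hz)
  refine ⟨N.toSubfield, P × (N ≃ₐ[K] N), v, ⟨?_, ?_, ?_, ?_, ?_, ?_⟩, ?_⟩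
  · intro a x y
    rw [hv, hv, hv, map_add]
    exact hV _ _ _
  · intro a c hc
    rw [hv, IsScalarTower.algebraMap_apply L K Ω, AlgEquiv.commutes, hVw]
    exact hw.triv _ c hc
  · intro z _ hz
    exact hfin z hz
  · intro z hzE hz
    have hzN : z ∈ N := hzE
    set z' : N := ⟨z, hzN⟩ with hz'
    have hz'0 : z' ≠ 0 := fun h => hz (congrArg Subtype.val h)
    have hnz : Algebra.norm K z' ≠ 0 := by
      rw [Ne, Algebra.norm_eq_zero_iff]
      exact hz'0
    set W0 : Finset P := (hfin z hz).toFinset.image Prod.fst with hW0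
    have hmem : ∀ p τ, p ∉ W0 → v (p, τ) z = 1 := by
      intro p τ hp
      by_contra hne
      apply hp
      rw [hW0, Finset.mem_image]
      exact ⟨(p, τ), (Set.Finite.mem_toFinset _).2 hne, rfl⟩
    have hprod : ∀ p, ∑ τ : N ≃ₐ[K] N, Real.log (v (p, τ) z) =
        Real.log (w p (Algebra.norm K z')) := by
      intro p
      rw [← Real.log_prod (fun τ _ => by
        rw [hv]; exact ((V p).pos (by simpa using hz)).ne')]
      congr 1
      rw [← hVw, IsScalarTower.algebraMap_apply K N Ω, Algebra.norm_eq_prod_automorphisms K z',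
        IntermediateField.algebraMap_apply, IntermediateField.coe_prod, map_prod]
      apply Finset.prod_congr rfl
      intro τ _
      rw [hv, ← hlft]
    have h1 : Function.support (fun a => Real.log (v a z)) ⊆
        ((W0 ×ˢ (Finset.univ : Finset (N ≃ₐ[K] N)) : Finset _) : Set (P × (N ≃ₐ[K] N))) := by
      rintro ⟨p, τ⟩ ha
      rw [Finset.mem_coe, Finset.mem_product]
      refine ⟨?_, Finset.mem_univ _⟩
      by_contra hp
      apply ha
      simp only
      rw [hmem p τ hp, Real.log_one]
    rw [finsum_eq_sum_of_support_subset _ h1, Finset.sum_product]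
    rw [Finset.sum_congr rfl (fun p _ => hprod p)]
    rw [← finsum_eq_sum_of_support_subset (fun p => Real.log (w p (Algebra.norm K z')))]
    · exact hw.pf _ hnz
    · intro p hp
      by_contra hpW
      apply hp
      simp only
      rw [← hprod p]
      apply Finset.sum_eq_zero
      intro τ _
      rw [hmem p τ hpW, Real.log_one]
  · intro z hzE hz
    have hzN : z ∈ N := hzE
    apply const_aux hw V hV hVw z
    intro p y hy
    -- `y` is a conjugate of `z`
    have hconj : IsConjRoot K y z :=
      ((isConjRoot_iff_aeval_eq_zero (Algebra.IsIntegral.isIntegral z)).2 hy).symm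
    obtain ⟨σ, hσ⟩ := isConjRoot_iff_exists_algEquiv.1 hconj
    have h1 : lft (σ.restrictNormal N) z = σ z := by
      have h2 := hlft (σ.restrictNormal N) ⟨z, hzN⟩
      have h3 := AlgEquiv.restrictNormal_commutes σ N ⟨z, hzN⟩
      exact h2.trans h3
    rw [← hσ, ← h1, ← hv (p, σ.restrictNormal N)]
    exact hz _
  · intro c
    rw [IsScalarTower.algebraMap_apply L K Ω]
    exact N.algebraMap_mem _
  · intro x hx
    exact (IntermediateField.le_normalClosure (IntermediateField.adjoin K s))
      (IntermediateField.subset_adjoin K s hx)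

end main

end PLS_

theorem p_PLS (h1 : T_EXT) (h2 : T_PLZ) : T_PLS := by
  classical
  intro L Ω iL iLc iL0 iΩ iΩc iA t ht halg s hs
  obtain ⟨P, w, hultra, htriv, hfin, hpf, hconst⟩ := h2 L
  -- the base field
  let K := IntermediateField.adjoin L {t}
  have hK : Algebra.IsAlgebraic K Ω := ⟨halg⟩
  have hK0 : CharZero K := charZero_of_injective_algebraMap (algebraMap L K).injective
  let e : RatFunc L ≃ₐ[L] K := RatFunc.algEquivOfTranscendental t ht
  let w' : P → AbsoluteValue K ℝ := fun p =>
    (w p).comp (f := (e.symm : K →+* RatFunc L)) e.symm.injective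
  have hw' : ∀ p z, w' p z = w p (e.symm z) := fun p z => rfl
  have hbase : PLS_.Base L K w' := by
    refine ⟨?_, ?_, ?_, ?_, ?_⟩
    · intro p x y
      rw [hw', hw', hw', map_add]
      exact hultra _ _ _
    · intro p c hc
      rw [hw', AlgEquiv.commutes, RatFunc.algebraMap_eq_C]
      exact htriv p c hc
    · intro z hz
      exact hfin (e.symm z) (by simpa using hz)
    · intro z hz
      exact hpf (e.symm z) (by simpa using hz)
    · intro z hz
      obtain ⟨c, hc⟩ := hconst (e.symm z) (fun p => hz p)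
      refine ⟨c, ?_⟩
      rw [← RatFunc.algebraMap_eq_C, AlgEquiv.symm_apply_eq, AlgEquiv.commutes] at hc
      exact hc
  have hext : ∀ p, ∃ V : AbsoluteValue Ω ℝ, (∀ x y, V (x + y) ≤ max (V x) (V y)) ∧
      ∀ z, V (algebraMap K Ω z) = w' p z := fun p => h1 K Ω (w' p) (hbase.ultra p)
  choose V hV hVw using hext
  exact PLS_.main hbase V hV hVw s hs

end Pool.Agent.UMR
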