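import Mathlib

set_option autoImplicit false

/-!
# Project UMR: uniform boundedness of rational preperiodic points for rational maps outside
`X ^ ε` conjugacy classes (MP_c076ed_nt)

Definitions and exact targets. The complete proofs are in `Blueprint.lean.txt`.
-/

namespace Pool.Agent.UMR

open Finset
open scoped BigOperators

/-! ## Forms, pairs of forms, orbits -/

/-- The value at `x` of the binary form of degree `n` with coefficients `c`. -/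
def fv {A : Type} [CommRing A] {n : ℕ} (c : Fin (n + 1) → A) (x : A × A) : A :=
  ∑ i : Fin (n + 1), c i * x.1 ^ (i : ℕ) * x.2 ^ (n - (i : ℕ))

/-- Pairs of binary forms of degree `d`. -/
abbrev Pr (A : Type) (d : ℕ) : Type := (Fin (d + 1) → A) × (Fin (d + 1) → A)

/-- The map on homogeneous coordinates. -/
def st {A : Type} [CommRing A] {d : ℕ} (f : Pr A d) (x : A × A) : A × A := (fv f.1 x, fv f.2 x)

/-- The iterates of a point. -/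
def orb {A : Type} [CommRing A] {d : ℕ} (f : Pr A d) (x : A × A) (n : ℕ) : A × A := (st f)^[n] x

/-- The wedge product: zero if and only if the points are proportional. -/
def wd {A : Type} [CommRing A] (x y : A × A) : A := x.1 * y.2 - x.2 * y.1

/-- no common zero (to be used over algebraically closed fields) -/
def NZ {K : Type} [Field K] {d : ℕ} (f : Pr K d) : Prop := ∀ x : K × K, st f x = 0 → x = 0

/-- change of the coefficients -/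
def mp {A B : Type} [CommRing A] [CommRing B] (φ : A →+* B) {d : ℕ} (f : Pr A d) : Pr B d :=
  (fun i => φ (f.1 i), fun i => φ (f.2 i))

/-- change of the ring, for points -/
def mv {A B : Type} [CommRing A] [CommRing B] (φ : A →+* B) (x : A × A) : B × B := (φ x.1, φ x.2)

/-- the linear map with columns `e₁`, `e₂`; its determinant is `wd e₁ e₂` -/
def lin {A : Type} [CommRing A] (e₁ e₂ : A × A) (x : A × A) : A × A :=
  (x.1 * e₁.1 + x.2 * e₂.1, x.1 * e₁.2 + x.2 * e₂.2)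

/-- equality of all the cross-ratios of the first `N` points of two sequences -/
def CRel {A : Type} [CommRing A] (x x' : ℕ → A × A) (N : ℕ) : Prop :=
  ∀ i j k l, i < N → j < N → k < N → l < N →
    wd (x i) (x j) * wd (x k) (x l) * (wd (x' i) (x' k) * wd (x' j) (x' l)) =
      wd (x' i) (x' j) * wd (x' k) (x' l) * (wd (x i) (x k) * wd (x j) (x l))

/-- a multilinear relation between `k` points -/
def MRel {A : Type} [CommRing A] (k : ℕ) (μ : Finset (Fin k) → A) (y : Fin k → A × A) : Prop :=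
  ∑ S : Finset (Fin k), μ S * ∏ t : Fin k, (if t ∈ S then (y t).1 else (y t).2) = 0

/-- all iterates are different points of the projective line -/
def Dist {A : Type} [CommRing A] {d : ℕ} (f : Pr A d) (x : A × A) : Prop :=
  ∀ n m : ℕ, n ≠ m → wd (orb f x n) (orb f x m) ≠ 0

/-! ## Block 1: algebra of forms -/

/-- COMP: composition of pairs of forms. -/
def T_COMP : Prop := ∀ (A : Type) [CommRing A] (d e : ℕ) (g : Pr A e) (f : Pr A d),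
  ∃ h : Pr A (d * e), ∀ x, st h x = st g (st f x)

/-- ITER (from T_COMP): iterates are pairs of forms. -/
def T_ITER : Prop := ∀ (A : Type) [CommRing A] (d : ℕ) (f : Pr A d) (n : ℕ),
  ∃ h : Pr A (d ^ n), ∀ x, st h x = (st f)^[n] x

/-- CL (from T_COMP): linear changes on both sides. -/
def T_CL : Prop := ∀ (A : Type) [CommRing A] (d : ℕ) (f : Pr A d) (e₁ e₂ a₁ a₂ : A × A),
  ∃ h : Pr A d, ∀ x, st h x = lin a₁ a₂ (st f (lin e₁ e₂ x))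

/-- FACT: forms over an algebraically closed field are products of linear forms. -/
def T_FACT : Prop := ∀ (K : Type) [Field K] [IsAlgClosed K] (n : ℕ) (c : Fin (n + 1) → K),
  ∃ (a : K) (z : Fin n → K × K), (∀ j, z j ≠ 0) ∧ (∀ x, fv c x = a * ∏ j, wd x (z j)) ∧
    (c ≠ 0 → a ≠ 0)

/-- The algebraic data of a pair: `ρ` plays the role of the resultant. -/
structure AG {K : Type} [Field K] {d : ℕ} (f : Pr K d) (ρ : K) : Prop where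
  hd : 2 ≤ d
  ne : ρ ≠ 0
  gam : ∀ w : K × K, w ≠ 0 → ∃ (γ : K) (y : Fin d → K × K), γ ^ d = ρ ∧
    (∀ b, st f (y b) = w) ∧ ∀ x, wd (st f x) w = γ * ∏ b, wd x (y b)

/-- GAM (from T_FACT). -/
def T_GAM : Prop := ∀ (K : Type) [Field K] [IsAlgClosed K] [CharZero K] (d : ℕ) (f : Pr K d),
  2 ≤ d → NZ f → ∃ ρ : K, AG f ρ

/-- NC (from T_FACT): non-critical values. -/
def T_NC : Prop := ∀ (K : Type) [Field K] [IsAlgClosed K] [CharZero K] (d : ℕ) (f : Pr K d)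
  (N : ℕ), 1 ≤ d → NZ f → ∃ (w : Fin N → K × K) (y : Fin N → Fin d → K × K),
    (∀ i b, st f (y i b) = w i) ∧ (∀ i j, i ≠ j → wd (w i) (w j) ≠ 0) ∧
    ∀ i a b, a ≠ b → wd (y i a) (y i b) ≠ 0

/-- NCG (from T_NC): non-critical values and the constants `γ`. -/
def T_NCG : Prop := ∀ (K : Type) [Field K] [IsAlgClosed K] [CharZero K] (d : ℕ) (f : Pr K d)
  (ρ : K) (N : ℕ), AG f ρ → ∃ (w : Fin N → K × K) (y : Fin N → Fin d → K × K) (γ : Fin N → K),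
    (∀ i b, st f (y i b) = w i) ∧ (∀ i j, i ≠ j → wd (w i) (w j) ≠ 0) ∧
    (∀ i a b, a ≠ b → wd (y i a) (y i b) ≠ 0) ∧ (∀ i, γ i ^ d = ρ) ∧
    ∀ i x, wd (st f x) (w i) = γ i * ∏ b, wd x (y i b)

/-- `φ` is a form of degree `n` -/
def IsForm {K : Type} [Field K] (n : ℕ) (φ : K × K → K) : Prop :=
  ∃ c : Fin (n + 1) → K, ∀ x, φ x = fv c x

/-- the product of the wedges of all the pairs -/
def VP {K : Type} [Field K] {N : ℕ} (x : Fin N → K × K) : K := ∏ i, ∏ j ∈ Ioi i, wd (x i) (x j)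

/-- VAN: the determinant of `N` forms of degree `N - 1` at `N` points. -/
def T_VAN : Prop := ∀ (K : Type) [Field K] (N : ℕ) (φ : Fin N → K × K → K), 1 ≤ N →
  (∀ s, IsForm (N - 1) (φ s)) → ∃ κ : K, ∀ x : Fin N → K × K,
    (Matrix.of fun s i => φ s (x i)).det = κ * VP x

/-- the exponents in the determinant formula -/
def ee (d : ℕ) : ℕ → ℕ
  | 0 => 0
  | m + 1 => d * ee d m + d ^ m * (d ^ m - 1) / 2

/-- DSTEP (from T_NCG, T_VAN): one step of the determinant formula. -/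
def T_DSTEP : Prop := ∀ (K : Type) [Field K] [IsAlgClosed K] [CharZero K] (d : ℕ) (f : Pr K d)
  (ρ : K), AG f ρ → ∀ (N : ℕ) (ψ : Fin N → K × K → K) (κ : K), 1 ≤ N →
  (∀ s, IsForm (N - 1) (ψ s)) →
  (∀ x : Fin N → K × K, (Matrix.of fun s i => ψ s (x i)).det = κ * VP x) →
  ∀ (e : Fin d × Fin N ≃ Fin (d * N)), ∃ κ' : K, (κ' = ρ ^ (N * (N - 1) / 2) * κ ^ d ∨
    κ' = - (ρ ^ (N * (N - 1) / 2) * κ ^ d)) ∧
    ∀ x : Fin (d * N) → K × K, (Matrix.of fun s i => (x i).1 ^ ((e.symm s).1 : ℕ) *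
      (x i).2 ^ (d - 1 - ((e.symm s).1 : ℕ)) * ψ (e.symm s).2 (st f (x i))).det = κ' * VP x

/-! ## Block 2: nonarchimedean absolute values -/

/-- nonarchimedean, residue characteristic zero -/
structure VV {K : Type} [Field K] (v : AbsoluteValue K ℝ) : Prop where
  ultra : ∀ x y, v (x + y) ≤ max (v x) (v y)
  nat : ∀ n : ℕ, n ≠ 0 → v (n : K) = 1

/-- norm of a vector -/
noncomputable def nm {K : Type} [Field K] (v : AbsoluteValue K ℝ) (x : K × K) : ℝ :=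
  max (v x.1) (v x.2)

/-- norm of a form -/
noncomputable def gn {K : Type} [Field K] (v : AbsoluteValue K ℝ) {n : ℕ} (c : Fin (n + 1) → K) :
    ℝ := ⨆ i, v (c i)

/-- norm of a pair of forms -/
noncomputable def cn {K : Type} [Field K] (v : AbsoluteValue K ℝ) {d : ℕ} (f : Pr K d) : ℝ :=
  max (gn v f.1) (gn v f.2)

/-- GEN: generic vectors. -/
def T_GEN : Prop := ∀ (K : Type) [Field K] (v : AbsoluteValue K ℝ), VV v →
  ∀ (Z : Set (K × K)) (N : ℕ), Z.Finite → (∀ z ∈ Z, nm v z = 1) → ∃ x : Fin N → K × K,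
    (∀ i, nm v (x i) = 1) ∧ (∀ i j, i ≠ j → v (wd (x i) (x j)) = 1) ∧
    ∀ i, ∀ z ∈ Z, v (wd (x i) z) = 1

/-- GAUSS (from T_FACT, T_GEN): Gauss lemma. -/
def T_GAUSS : Prop := ∀ (K : Type) [Field K] [IsAlgClosed K] (v : AbsoluteValue K ℝ), VV v →
  ∀ (n : ℕ) (c : Fin (n + 1) → K), ∃ z : Fin n → K × K, (∀ j, nm v (z j) = 1) ∧
    ∀ x, v (fv c x) = gn v c * ∏ j, v (wd x (z j))

/-- BD (from T_GEN): upper and lower bounds for the norm of the image. -/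
def T_BD : Prop := ∀ (K : Type) [Field K] [IsAlgClosed K] (v : AbsoluteValue K ℝ) (d : ℕ)
  (f : Pr K d) (ρ : K), VV v → AG f ρ → ∀ x : K × K,
    nm v (st f x) ≤ cn v f * nm v x ^ d ∧
    v ρ * nm v x ^ d ≤ cn v f ^ (2 * d - 1) * nm v (st f x)

/-- `H` is the escape rate (local homogeneous height) of `f`. -/
structure LD {K : Type} [Field K] {d : ℕ} (v : AbsoluteValue K ℝ) (f : Pr K d) (ρ : K)
    (H : K × K → ℝ) (C : ℝ) : Prop where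
  vv : VV v
  ag : AG f ρ
  fe : ∀ x, x ≠ 0 → H (st f x) = d * H x
  near : ∀ x, x ≠ 0 → |H x - Real.log (nm v x)| ≤ C
  hom : ∀ (c : K) (x : K × K), c ≠ 0 → x ≠ 0 → H (c • x) = H x + Real.log (v c)

/-- ESC (from T_BD): existence of the escape rate. -/
def T_ESC : Prop := ∀ (K : Type) [Field K] [IsAlgClosed K] (v : AbsoluteValue K ℝ) (d : ℕ)
  (f : Pr K d) (ρ : K), VV v → AG f ρ → ∃ (H : K × K → ℝ) (C : ℝ), LD v f ρ H C

/-- GR (from T_BD): the escape rate in the case of good reduction. -/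
def T_GR : Prop := ∀ (K : Type) [Field K] [IsAlgClosed K] (v : AbsoluteValue K ℝ) (d : ℕ)
  (f : Pr K d) (ρ : K), VV v → AG f ρ → v ρ = 1 → cn v f ≤ 1 →
  LD v f ρ (fun x => Real.log (nm v x)) 0

/-- `κ` -/
noncomputable def kp {K : Type} [Field K] (d : ℕ) (v : AbsoluteValue K ℝ) (ρ : K) : ℝ :=
  - Real.log (v ρ) / (d * (d - 1))

/-- the Green function -/
noncomputable def gg {K : Type} [Field K] (d : ℕ) (v : AbsoluteValue K ℝ) (ρ : K)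
    (H : K × K → ℝ) (x y : K × K) : ℝ :=
  - Real.log (v (wd x y)) + H x + H y + kp d v ρ

/-- the supremum of the escape rate on the unit ball -/
noncomputable def GG {K : Type} [Field K] (v : AbsoluteValue K ℝ) (H : K × K → ℝ) : ℝ :=
  sSup {r | ∃ x, x ≠ 0 ∧ nm v x ≤ 1 ∧ r = H x}

/-- DETV (from T_VAN, T_DSTEP): Baker's bound for products of wedges. -/
def T_DETV : Prop := ∀ (K : Type) [Field K] [IsAlgClosed K] [CharZero K] (v : AbsoluteValue K ℝ)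
  (d : ℕ) (f : Pr K d) (ρ : K), VV v → AG f ρ → ∀ (m : ℕ) (x : Fin (d ^ m) → K × K),
    v ρ ^ (ee d m) * v (VP x) ≤
      ∏ i, ∏ k ∈ range m, nm v ((st f)^[k] (x i)) ^ (d - 1)

/-- ENERGY (from T_DETV): lower bound for the energy of `d ^ m` points. -/
def T_ENERGY : Prop := ∀ (K : Type) [Field K] [IsAlgClosed K] [CharZero K]
  (v : AbsoluteValue K ℝ) (d : ℕ) (f : Pr K d) (ρ : K) (H : K × K → ℝ) (C : ℝ), LD v f ρ H C →
  ∃ C' : ℝ, 0 ≤ C' ∧ ∀ (m : ℕ) (x : Fin (d ^ m) → K × K), (∀ i j, i ≠ j → wd (x i) (x j) ≠ 0) →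
    (∀ i, x i ≠ 0) → - (C' * m * d ^ m) ≤ ∑ i, ∑ j ∈ Ioi i, gg d v ρ H (x i) (x j)

/-- `f'` is the conjugate of `f` by the linear map with columns `e₁`, `e₂` -/
def Cj {K : Type} [Field K] {d : ℕ} (f f' : Pr K d) (e₁ e₂ : K × K) : Prop :=
  ∀ x, lin e₁ e₂ (st f' x) = st f (lin e₁ e₂ x)

/-- CJX (from T_CL): existence of the conjugate. -/
def T_CJX : Prop := ∀ (K : Type) [Field K] (d : ℕ) (f : Pr K d) (e₁ e₂ : K × K),
  wd e₁ e₂ ≠ 0 → ∃ f' : Pr K d, Cj f f' e₁ e₂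

/-- CONJ: the data of the conjugate. -/
def T_CONJ : Prop := ∀ (K : Type) [Field K] [IsAlgClosed K] (v : AbsoluteValue K ℝ) (d : ℕ)
  (f f' : Pr K d) (ρ : K) (H : K × K → ℝ) (C : ℝ) (e₁ e₂ : K × K), LD v f ρ H C →
  wd e₁ e₂ ≠ 0 → Cj f f' e₁ e₂ →
  ∃ C' : ℝ, LD v f' (ρ * wd e₁ e₂ ^ (d * (d - 1))) (fun x => H (lin e₁ e₂ x)) C'

/-- SCALE: the data of a multiple. -/
def T_SCALE : Prop := ∀ (K : Type) [Field K] [IsAlgClosed K] (v : AbsoluteValue K ℝ) (d : ℕ)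
  (f : Pr K d) (ρ : K) (H : K × K → ℝ) (C : ℝ) (s : K), LD v f ρ H C → s ≠ 0 →
  ∃ C' : ℝ, LD v ((fun i => s * f.1 i, fun i => s * f.2 i) : Pr K d) (ρ * s ^ (2 * d))
    (fun x => H x + Real.log (v s) / (d - 1)) C'

/-- ORTH (from T_CL, T_GAUSS): orthogonal coordinates. -/
def T_ORTH : Prop := ∀ (K : Type) [Field K] [IsAlgClosed K] (v : AbsoluteValue K ℝ) (d : ℕ)
  (f : Pr K d) (ρ : K), VV v → AG f ρ → cn v f = 1 → ∃ (e₁ e₂ : K × K) (f' : Pr K d) (lam : K),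
    nm v e₁ ≤ 1 ∧ nm v e₂ ≤ 1 ∧ v (wd e₁ e₂) = 1 ∧ Cj f f' e₁ e₂ ∧ lam ≠ 0 ∧ v lam ≤ 1 ∧
    gn v f'.1 = 1 ∧ gn v f'.2 = v lam ∧
    ∀ s t : K, gn v (fun i => s * f'.1 i + t * f'.2 i) = max (v s) (v t * v lam)

/-- LK (from T_GEN): bound for `κ`. -/
def T_LK : Prop := ∀ (K : Type) [Field K] [IsAlgClosed K] (v : AbsoluteValue K ℝ) (d : ℕ)
  (f : Pr K d) (ρ : K), VV v → AG f ρ → gn v f.1 ≤ 1 → v ρ ≤ gn v f.2 ^ d

/-- GRHO (from T_ITER, T_CL, T_GAUSS, T_GEN). -/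
def T_GRHO : Prop := ∀ (K : Type) [Field K] [IsAlgClosed K] (v : AbsoluteValue K ℝ) (d : ℕ)
  (f : Pr K d) (ρ : K) (H : K × K → ℝ) (C : ℝ) (lam : K), LD v f ρ H C → lam ≠ 0 →
  (∀ s t : K, gn v (fun i => s * f.1 i + t * f.2 i) = max (v s) (v t * v lam)) →
  ∀ y : K × K, y ≠ 0 → nm v y ≤ 1 → H (y.1, lam * y.2) ≤ d * GG v H

/-- TWO (from T_ENERGY): positivity of the energy for two circles. -/
def T_TWO : Prop := ∀ (K : Type) [Field K] [IsAlgClosed K] [CharZero K] (v : AbsoluteValue K ℝ)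
  (d : ℕ) (f : Pr K d) (ρ : K) (H : K × K → ℝ) (C : ℝ) (lam : K) (g : ℝ), LD v f ρ H C →
  lam ≠ 0 → v lam < 1 → (∀ y : K × K, y ≠ 0 → nm v y ≤ 1 → H (y.1, lam * y.2) ≤ g) →
  g ≤ GG v H → 0 ≤ kp d v ρ + 2 * GG v H ∧
    (GG v H - g) ^ 2 ≤ - Real.log (v lam) * (kp d v ρ + 2 * GG v H)

/-- POS (from T_SCALE, T_ORTH, T_CONJ, T_LK, T_GRHO, T_TWO, T_BD): positivity in every frame. -/
def T_POS : Prop := ∀ (K : Type) [Field K] [IsAlgClosed K] [CharZero K] (v : AbsoluteValue K ℝ)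
  (d : ℕ) (f : Pr K d) (ρ : K) (H : K × K → ℝ) (C : ℝ), LD v f ρ H C →
  kp d v ρ + 2 / (d - 1) * Real.log (cn v f) ≤ 16 * (kp d v ρ + 2 * GG v H)

/-- ETA (from T_ITER, T_GAUSS): the escape rate near finitely many points. -/
def T_ETA : Prop := ∀ (K : Type) [Field K] [IsAlgClosed K] (v : AbsoluteValue K ℝ) (d : ℕ)
  (f : Pr K d) (ρ : K) (H : K × K → ℝ) (C : ℝ), LD v f ρ H C → ∀ k : ℕ,
  ∃ (Z : Finset (K × K)) (η : K × K → ℝ → ℝ), Z.Nonempty ∧ (∀ z ∈ Z, nm v z = 1) ∧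
    (∀ x : K × K, nm v x = 1 → ∀ z ∈ Z, (∀ z' ∈ Z, v (wd x z) ≤ v (wd x z')) → wd x z ≠ 0 →
      |H x - η z (v (wd x z))| ≤ C / d ^ k) ∧
    (∀ z ∈ Z, ∀ (y : K × K) (r : ℝ), 0 < r → y ≠ 0 → nm v y ≤ 1 → v (wd y z) ≤ r →
      H y ≤ η z r + C / d ^ k) ∧
    (∀ z ∈ Z, ∀ r r' : ℝ, 0 < r → r ≤ r' → η z r ≤ η z r' ∧
      η z r' ≤ η z r + (Real.log r' - Real.log r)) ∧
    ∀ z ∈ Z, ∃ b : ℝ, ∀ r : ℝ, 0 < r → b ≤ η z r

/-- CLASS (from T_ETA, T_CJX, T_CONJ, T_POS): at a bad place every infinite set of points has an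
infinite subset with positive Green function. -/
def T_CLASS : Prop := ∀ (K : Type) [Field K] [IsAlgClosed K] [CharZero K]
  (v : AbsoluteValue K ℝ) (d : ℕ) (f : Pr K d) (ρ : K) (H : K × K → ℝ) (C c : ℝ),
  LD v f ρ H C → 0 < c →
  (∀ (e₁ e₂ : K × K) (f' : Pr K d), wd e₁ e₂ ≠ 0 → Cj f f' e₁ e₂ →
    c ≤ kp d v (ρ * wd e₁ e₂ ^ (d * (d - 1))) + 2 / (d - 1) * Real.log (cn v f')) →
  ∀ x : ℕ → K × K, (∀ n m, n ≠ m → wd (x n) (x m) ≠ 0) → ∃ T : Set ℕ, T.Infinite ∧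
    ∀ n ∈ T, ∀ m ∈ T, n ≠ m → c / 64 ≤ gg d v ρ H (x n) (x m)

/-- GOODB (from T_BD): lower bound for the Green function. -/
def T_GOODB : Prop := ∀ (K : Type) [Field K] [IsAlgClosed K] (v : AbsoluteValue K ℝ) (d : ℕ)
  (f : Pr K d) (ρ : K) (H : K × K → ℝ) (C : ℝ), LD v f ρ H C → ∀ x y : K × K, wd x y ≠ 0 →
  - ((2 * d - 1) * (kp d v ρ + 2 / (d - 1) * Real.log (cn v f))) ≤ gg d v ρ H x y

/-- DICH (from T_CONJ, T_CLASS, T_GOODB): dichotomy. -/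
def T_DICH : Prop := ∀ (K : Type) [Field K] [IsAlgClosed K] [CharZero K]
  (v : AbsoluteValue K ℝ) (d : ℕ) (f : Pr K d) (ρ : K) (H : K × K → ℝ) (C : ℝ), LD v f ρ H C →
  (∀ x y, wd x y ≠ 0 → 0 ≤ gg d v ρ H x y) ∨
  ∃ c : ℝ, 0 < c ∧ ∀ x : ℕ → K × K, (∀ n m, n ≠ m → wd (x n) (x m) ≠ 0) →
    ∃ T : Set ℕ, T.Infinite ∧ ∀ n ∈ T, ∀ m ∈ T, n ≠ m → c ≤ gg d v ρ H (x n) (x m)

/-! ## Block 3: places -/

/-- A family of absolute values of `Ω`, trivial on `L`, with a product formula on the subfield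
`E`. -/
structure Pl (L Ω : Type) [Field L] [Field Ω] [Algebra L Ω] (E : Subfield Ω) {P : Type}
    (v : P → AbsoluteValue Ω ℝ) : Prop where
  ultra : ∀ p x y, v p (x + y) ≤ max (v p x) (v p y)
  triv : ∀ p (c : L), c ≠ 0 → v p (algebraMap L Ω c) = 1
  fin : ∀ z ∈ E, z ≠ 0 → {p | v p z ≠ 1}.Finite
  pf : ∀ z ∈ E, z ≠ 0 → ∑ᶠ p, Real.log (v p z) = 0
  const : ∀ z ∈ E, (∀ p, v p z ≤ 1) → ∃ c : L, z = algebraMap L Ω c
  base : ∀ c : L, algebraMap L Ω c ∈ E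

/-- EXT: extension of nonarchimedean absolute values to algebraic extensions. -/
def T_EXT : Prop := ∀ (K Ω : Type) [Field K] [Field Ω] [Algebra K Ω] [Algebra.IsAlgebraic K Ω]
  (v : AbsoluteValue K ℝ), (∀ x y, v (x + y) ≤ max (v x) (v y)) →
  ∃ V : AbsoluteValue Ω ℝ, (∀ x y, V (x + y) ≤ max (V x) (V y)) ∧
    ∀ z, V (algebraMap K Ω z) = v z

/-- PLZ: the places of the field of rational functions. -/
def T_PLZ : Prop := ∀ (L : Type) [Field L] [IsAlgClosed L], ∃ (P : Type)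
  (w : P → AbsoluteValue (RatFunc L) ℝ), (∀ p x y, w p (x + y) ≤ max (w p x) (w p y)) ∧
    (∀ p (c : L), c ≠ 0 → w p (RatFunc.C c) = 1) ∧
    (∀ z, z ≠ 0 → {p | w p z ≠ 1}.Finite) ∧
    (∀ z, z ≠ 0 → ∑ᶠ p, Real.log (w p z) = 0) ∧
    ∀ z, (∀ p, w p z ≤ 1) → ∃ c : L, z = RatFunc.C c

/-- PLS (from T_EXT, T_PLZ): places of a field of transcendence degree one. -/
def T_PLS : Prop := ∀ (L Ω : Type) [Field L] [IsAlgClosed L] [CharZero L] [Field Ω]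
  [IsAlgClosed Ω] [Algebra L Ω] (t : Ω), Transcendental L t →
  (∀ z : Ω, IsAlgebraic (IntermediateField.adjoin L {t}) z) → ∀ s : Set Ω, s.Finite →
  ∃ (E : Subfield Ω) (P : Type) (v : P → AbsoluteValue Ω ℝ), Pl L Ω E v ∧ s ⊆ E

/-- ACL: elements that are algebraic over all the coordinate subfields. -/
def T_ACL : Prop := ∀ (L Ω : Type) [Field L] [Field Ω] [Algebra L Ω] (k : ℕ) (t : Fin k → Ω)
  (z : Ω), AlgebraicIndependent L t → IsAlgebraic (IntermediateField.adjoin L (Set.range t)) z →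
  (∀ l, IsAlgebraic (IntermediateField.adjoin L (t '' {j | j ≠ l})) z) → IsAlgebraic L z

/-- TB: finite transcendence bases. -/
def T_TB : Prop := ∀ (L F : Type) [Field L] [Field F] [Algebra L F],
  (∃ s : Set F, s.Finite ∧ IntermediateField.adjoin L s = ⊤) →
  ∃ (k : ℕ) (t : Fin k → F), AlgebraicIndependent L t ∧
    ∀ z : F, IsAlgebraic (IntermediateField.adjoin L (Set.range t)) z

/-! ## Block 4: heights and orbits over function fields -/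

/-- the height -/
noncomputable def ht {Ω P : Type} [Field Ω] (v : P → AbsoluteValue Ω ℝ) (x : Ω × Ω) : ℝ :=
  ∑ᶠ p, Real.log (nm (v p) x)

/-- SEQ: a sequence of heights. -/
def T_SEQ : Prop := ∀ (d k : ℕ) (C : ℝ) (h : ℕ → ℝ), 2 ≤ d → 0 ≤ C → (∀ n, 0 ≤ h n) →
  (∀ n, d * h n - C ≤ h (n + 1)) →
  (∀ i, ∃ l, l < k ∧ h (i + l) ≤ ∑ j ∈ range l, h (i + j)) → ∀ n, h n ≤ C * (k + 1)

/-- MULTI: solving the multilinear relation for one of the points. -/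
def T_MULTI : Prop := ∀ (L Ω : Type) [Field L] [Field Ω] [Algebra L Ω] (k : ℕ)
  (μ : Finset (Fin k) → L) (y : Fin k → Ω × Ω), μ ≠ 0 →
  MRel k (fun S => algebraMap L Ω (μ S)) y → ∃ (l : Fin k) (ν₁ ν₂ : Finset (Fin k) → L) (a b : Ω),
    a = ∑ S : Finset (Fin k), algebraMap L Ω (ν₁ S) *
      ∏ t ∈ univ.filter (fun t => t < l), (if t ∈ S then (y t).1 else (y t).2) ∧
    b = ∑ S : Finset (Fin k), algebraMap L Ω (ν₂ S) *
      ∏ t ∈ univ.filter (fun t => t < l), (if t ∈ S then (y t).1 else (y t).2) ∧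
    (a ≠ 0 ∨ b ≠ 0) ∧ a * (y l).1 + b * (y l).2 = 0

/-- HTREL (from T_MULTI): the relation bounds a height. -/
def T_HTREL : Prop := ∀ (L Ω : Type) [Field L] [Field Ω] [Algebra L Ω] (E : Subfield Ω) (P : Type)
  (v : P → AbsoluteValue Ω ℝ), Pl L Ω E v → ∀ (k : ℕ) (μ : Finset (Fin k) → L)
  (y : Fin k → Ω × Ω), μ ≠ 0 → (∀ t, (y t).1 ∈ E ∧ (y t).2 ∈ E ∧ y t ≠ 0) →
  MRel k (fun S => algebraMap L Ω (μ S)) y →
  ∃ l : Fin k, ht v (y l) ≤ ∑ t ∈ univ.filter (fun t => t < l), ht v (y t)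

/-- HTGROW (from T_BD): growth of the height, and positivity. -/
def T_HTGROW : Prop := ∀ (L Ω : Type) [Field L] [CharZero L] [Field Ω] [IsAlgClosed Ω]
  [Algebra L Ω] (E : Subfield Ω) (P : Type) (v : P → AbsoluteValue Ω ℝ), Pl L Ω E v →
  ∀ (d : ℕ) (f : Pr Ω d) (ρ : Ω), AG f ρ → ρ ∈ E → (∀ i, f.1 i ∈ E ∧ f.2 i ∈ E) →
  ∃ C : ℝ, 0 ≤ C ∧ ∀ x : Ω × Ω, x ≠ 0 → x.1 ∈ E → x.2 ∈ E →
    0 ≤ ht v x ∧ d * ht v x - C ≤ ht v (st f x)

/-- HBDD (from T_SEQ, T_HTREL, T_HTGROW): the heights of the orbit are bounded. -/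
def T_HBDD : Prop := ∀ (L Ω : Type) [Field L] [CharZero L] [Field Ω] [IsAlgClosed Ω]
  [Algebra L Ω] (E : Subfield Ω) (P : Type) (v : P → AbsoluteValue Ω ℝ), Pl L Ω E v →
  ∀ (d k : ℕ) (f : Pr Ω d) (ρ : Ω) (x : Ω × Ω) (μ : ℕ → Finset (Fin k) → L), AG f ρ → ρ ∈ E →
  (∀ i, f.1 i ∈ E ∧ f.2 i ∈ E) → x.1 ∈ E → x.2 ∈ E → x ≠ 0 → (∀ i, μ i ≠ 0) →
  (∀ i, MRel k (fun S => algebraMap L Ω (μ i S)) (fun t : Fin k => orb f x (i + t))) →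
  ∃ B : ℝ, ∀ n, ht v (orb f x n) ≤ B ∧ orb f x n ≠ 0 ∧ (orb f x n).1 ∈ E ∧ (orb f x n).2 ∈ E

/-- SUMG (from T_HBDD, T_ESC, T_GR): the sum of the Green functions. -/
def T_SUMG : Prop := ∀ (L Ω : Type) [Field L] [CharZero L] [Field Ω] [IsAlgClosed Ω]
  [Algebra L Ω] (E : Subfield Ω) (P : Type) (v : P → AbsoluteValue Ω ℝ), Pl L Ω E v →
  ∀ (d k : ℕ) (f : Pr Ω d) (ρ : Ω) (x : Ω × Ω) (μ : ℕ → Finset (Fin k) → L), AG f ρ → ρ ∈ E →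
  (∀ i, f.1 i ∈ E ∧ f.2 i ∈ E) → x.1 ∈ E → x.2 ∈ E → x ≠ 0 → Dist f x → (∀ i, μ i ≠ 0) →
  (∀ i, MRel k (fun S => algebraMap L Ω (μ i S)) (fun t : Fin k => orb f x (i + t))) →
  ∃ (S : Finset P) (H : P → Ω × Ω → ℝ) (C : P → ℝ), (∀ p, LD (v p) f ρ (H p) (C p)) ∧
    ∀ S' : Finset P, S ⊆ S' → ∀ n m, n ≠ m →
      ∑ p ∈ S', gg d (v p) ρ (H p) (orb f x n) (orb f x m) ≤ 0

/-- ISOA (from T_SUMG, T_DICH, T_ENERGY): constancy of the cross-ratios, one variable. -/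
def T_ISOA : Prop := ∀ (L Ω : Type) [Field L] [CharZero L] [Field Ω] [IsAlgClosed Ω]
  [Algebra L Ω] (E : Subfield Ω) (P : Type) (v : P → AbsoluteValue Ω ℝ), Pl L Ω E v →
  ∀ (d k : ℕ) (f : Pr Ω d) (ρ : Ω) (x : Ω × Ω) (μ : ℕ → Finset (Fin k) → L), AG f ρ → ρ ∈ E →
  (∀ i, f.1 i ∈ E ∧ f.2 i ∈ E) → x.1 ∈ E → x.2 ∈ E → x ≠ 0 → Dist f x → (∀ i, μ i ≠ 0) →
  (∀ i, MRel k (fun S => algebraMap L Ω (μ i S)) (fun t : Fin k => orb f x (i + t))) →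
  ∀ i j k' l : ℕ, i ≠ k' → j ≠ l → ∃ c : L,
    wd (orb f x i) (orb f x j) * wd (orb f x k') (orb f x l) = algebraMap L Ω c *
      (wd (orb f x i) (orb f x k') * wd (orb f x j) (orb f x l))

/-- ISO (from T_ISOA, T_GAM, T_PLS, T_ACL, T_TB): constancy of the cross-ratios. -/
def T_ISO : Prop := ∀ (L F : Type) [Field L] [IsAlgClosed L] [CharZero L] [Field F]
  [Algebra L F], (∃ s : Set F, s.Finite ∧ IntermediateField.adjoin L s = ⊤) →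
  ∀ (d k : ℕ) (f : Pr F d) (x : F × F) (μ : ℕ → Finset (Fin k) → L), 2 ≤ d →
  NZ (mp (algebraMap F (AlgebraicClosure F)) f) → x ≠ 0 → Dist f x → (∀ i, μ i ≠ 0) →
  (∀ i, MRel k (fun S => algebraMap L F (μ i S)) (fun t : Fin k => orb f x (i + t))) →
  ∀ i j k' l : ℕ, i ≠ k' → j ≠ l → ∃ c : L,
    wd (orb f x i) (orb f x j) * wd (orb f x k') (orb f x l) = algebraMap L F c *
      (wd (orb f x i) (orb f x k') * wd (orb f x j) (orb f x l))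

/-- the resultant -/
noncomputable def res {A : Type} [CommRing A] {d : ℕ} (f : Pr A d) : A :=
  Polynomial.resultant (∑ i : Fin (d + 1), Polynomial.monomial (i : ℕ) (f.1 i))
    (∑ i : Fin (d + 1), Polynomial.monomial (i : ℕ) (f.2 i)) d d

/-- RESNZ: the resultant detects common zeros. -/
def T_RESNZ : Prop := ∀ (k K : Type) [Field k] [Field K] [IsAlgClosed K] (φ : k →+* K) (d : ℕ)
  (f : Pr k d), 1 ≤ d → (NZ (mp φ f) ↔ res f ≠ 0)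

/-- GINF (from T_ISO, T_RESNZ): infinitely many orbits with common relations. -/
def T_GINF : Prop := ∀ (L : Type) [Field L] [IsAlgClosed L] [CharZero L] (d k : ℕ)
  (μ : ℕ → Finset (Fin k) → L) (f : ℕ → Pr L d) (x : ℕ → L × L), 2 ≤ d → (∀ i, μ i ≠ 0) →
  (∀ j, NZ (f j)) → (∀ j, x j ≠ 0) → (∀ j, Dist (f j) (x j)) →
  (∀ j i, MRel k (μ i) (fun t : Fin k => orb (f j) (x j) (i + t))) →
  ∃ j j', j ≠ j' ∧ ∀ N, CRel (orb (f j) (x j)) (orb (f j') (x j')) N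

/-- GEOM (from T_GINF, T_RESNZ): the finite version, by compactness. -/
def T_GEOM : Prop := ∀ d k : ℕ, 2 ≤ d → ∃ K M : ℕ, 2 * d + 3 ≤ K ∧
  ∀ (μ : ℕ → Finset (Fin k) → ℚ) (f : Fin (M + 1) → Pr ℚ d) (x : Fin (M + 1) → ℚ × ℚ),
    (∀ i, i < K → μ i ≠ 0) → (∀ j, NZ (mp (algebraMap ℚ ℂ) (f j))) → (∀ j, x j ≠ 0) →
    (∀ j n m, n < K → m < K → n ≠ m → wd (orb (f j) (x j) n) (orb (f j) (x j) m) ≠ 0) →
    (∀ j i, i < K → MRel k (μ i) (fun t : Fin k => orb (f j) (x j) (i + t))) →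
    ∃ j j', j ≠ j' ∧ CRel (orb (f j) (x j)) (orb (f j') (x j')) (2 * d + 3)

/-! ## Block 5: arithmetic -/

/-- The integral pairs with coefficients at most `X` and without common zero: endomorphisms of
degree `d` of the projective line over the rationals of height at most `X`. -/
def Maps (d X : ℕ) : Set (Pr ℤ d) :=
  {f | (∀ i, |f.1 i| ≤ (X : ℤ)) ∧ (∀ i, |f.2 i| ≤ (X : ℤ)) ∧ NZ (mp (Int.castRingHom ℂ) f)}

/-- rational pair of an integral pair -/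
noncomputable def qf {d : ℕ} (f : Pr ℤ d) : Pr ℚ d := mp (Int.castRingHom ℚ) f

/-- The rational point with homogeneous coordinates `v` is preperiodic. -/
def Prep {d : ℕ} (f : Pr ℤ d) (v : ℚ × ℚ) : Prop :=
  v ≠ 0 ∧ ∃ m n : ℕ, m < n ∧ ∃ c : ℚ, c ≠ 0 ∧ orb (qf f) v n = c • orb (qf f) v m

/-- Conjugacy over the rationals. -/
def Conj {d : ℕ} (f g : Pr ℤ d) : Prop :=
  ∃ (e₁ e₂ : ℚ × ℚ) (c : ℚ), wd e₁ e₂ ≠ 0 ∧ c ≠ 0 ∧
    ∀ x : ℚ × ℚ, lin e₁ e₂ (st (qf g) x) = c • st (qf f) (lin e₁ e₂ x)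

/-- an orbit of rational points, given by primitive integer vectors -/
structure PO {d : ℕ} (f : Pr ℤ d) (p : ℕ → ℤ × ℤ) : Prop where
  cop : ∀ n, IsCoprime (p n).1 (p n).2
  nxt : ∀ n, ∃ c : ℤ, c ≠ 0 ∧ st f (p n) = c • p (n + 1)

/-- BZ: Bezout identities, an integer `D` in the place of the resultant. -/
def T_BZ : Prop := ∀ d : ℕ, 1 ≤ d → ∃ C : ℕ, ∀ X : ℕ, 1 ≤ X → ∀ f ∈ Maps d X,
  ∃ D : ℤ, D ≠ 0 ∧ |D| ≤ C * (X : ℤ) ^ (2 * d) ∧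
    ∀ (q : ℕ) (x : ℤ × ℤ), q.Prime → (q : ℤ) ∣ (st f x).1 → (q : ℤ) ∣ (st f x).2 →
      ¬ (q : ℤ) ∣ D → (q : ℤ) ∣ x.1 ∧ (q : ℤ) ∣ x.2

/-- HBD: primitive coordinates of preperiodic points are small. -/
def T_HBD : Prop := ∀ d : ℕ, 2 ≤ d → ∃ C : ℕ, ∀ X : ℕ, 1 ≤ X → ∀ f ∈ Maps d X, ∀ v : ℚ × ℚ,
  Prep f v → ∃ p : ℕ → ℤ × ℤ, PO f p ∧ (∃ c : ℚ, c ≠ 0 ∧ v = c • mv (Int.castRingHom ℚ) (p 0)) ∧
    ∀ n, |(p n).1| ≤ C * (X : ℤ) ^ (2 * d - 1) ∧ |(p n).2| ≤ C * (X : ℤ) ^ (2 * d - 1)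

/-- LONG (from T_ITER, T_FACT): long orbits. -/
def T_LONG : Prop := ∀ d K : ℕ, 2 ≤ d → ∃ B : ℕ, ∀ f : Pr ℚ d, NZ (mp (algebraMap ℚ ℂ) f) →
  ∀ T : Finset (ℚ × ℚ), (∀ v ∈ T, v ≠ 0) → (∀ v ∈ T, ∀ w ∈ T, v ≠ w → wd v w ≠ 0) →
  B < T.card → ∃ v ∈ T, ∀ n m, n < K → m < K → n ≠ m → wd (orb f v n) (orb f v m) ≠ 0

/-- TAY: divisibility of a determinant of values of integral polynomials at congruent points. -/
def T_TAY : Prop := ∀ (σ ι : Type) [Fintype σ] [Fintype ι] [DecidableEq ι] (h q : ℕ)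
  (Ψ : ι → MvPolynomial σ ℤ) (P : ι → σ → ℤ), (∀ l l' i, (q : ℤ) ∣ P l i - P l' i) →
  (q : ℤ) ^ ((Fintype.card ι - (h + Fintype.card σ).choose (Fintype.card σ)) * (h + 1)) ∣
    (Matrix.of fun l s => MvPolynomial.eval (P l) (Ψ s)).det

/-- congruence of the parameters modulo `q` -/
def Cg {d : ℕ} (q : ℕ) (f f' : Pr ℤ d) (x x' : ℤ × ℤ) : Prop :=
  (∀ i, (q : ℤ) ∣ f.1 i - f'.1 i) ∧ (∀ i, (q : ℤ) ∣ f.2 i - f'.2 i) ∧ (q : ℤ) ∣ x.1 - x'.1 ∧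
    (q : ℤ) ∣ x.2 - x'.2

/-- MINOR (from T_TAY): vanishing minors. -/
def T_MINOR : Prop := ∀ (d k h Y q : ℕ), q.Prime →
  2 * (h + (2 * d + 4)).choose (2 * d + 4) ≤ 2 ^ k → (2 ^ k * Y ^ k) ^ 2 < q ^ (h + 1) →
  ∀ (f : Finset (Fin k) → Pr ℤ d) (p : Finset (Fin k) → ℕ → ℤ × ℤ),
    (∀ l, PO (f l) (p l)) → (∀ l n, |(p l n).1| ≤ (Y : ℤ) ∧ |(p l n).2| ≤ (Y : ℤ)) →
    (∀ l l', Cg q (f l) (f l') (p l 0) (p l' 0)) →
    (∀ l n, ¬ ((q : ℤ) ∣ (orb (f l) (p l 0) n).1 ∧ (q : ℤ) ∣ (orb (f l) (p l 0) n).2)) →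
    ∀ i : ℕ, (Matrix.of fun (l : Finset (Fin k)) (S : Finset (Fin k)) =>
      ∏ t : Fin k, (if t ∈ S then (p l (i + t)).1 else (p l (i + t)).2)).det = 0

/-- REL (from T_MINOR): the relations on a class. -/
def T_REL : Prop := ∀ (d k h Y q : ℕ), q.Prime →
  2 * (h + (2 * d + 4)).choose (2 * d + 4) ≤ 2 ^ k → (2 ^ k * Y ^ k) ^ 2 < q ^ (h + 1) →
  ∀ (c : Set (Pr ℤ d × (ℕ → ℤ × ℤ))),
    (∀ a ∈ c, PO a.1 a.2) → (∀ a ∈ c, ∀ n, |(a.2 n).1| ≤ (Y : ℤ) ∧ |(a.2 n).2| ≤ (Y : ℤ)) →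
    (∀ a ∈ c, ∀ b ∈ c, Cg q a.1 b.1 (a.2 0) (b.2 0)) →
    (∀ a ∈ c, ∀ n, ¬ ((q : ℤ) ∣ (orb a.1 (a.2 0) n).1 ∧ (q : ℤ) ∣ (orb a.1 (a.2 0) n).2)) →
    ∃ μ : ℕ → Finset (Fin k) → ℚ, (∀ i, μ i ≠ 0) ∧
      ∀ a ∈ c, ∀ i, MRel k (μ i) (fun t : Fin k => mv (Int.castRingHom ℚ) (a.2 (i + t)))

/-- PRI: primes. -/
def T_PRI : Prop := ∀ J P : ℕ, 1 ≤ P → ∃ s : Finset ℕ, s.card = J ∧
  (∀ q ∈ s, q.Prime ∧ P < q ∧ q ≤ 2 ^ J * P) ∧
  ∀ D : ℤ, D ≠ 0 → |D| < (P : ℤ) ^ J → ∃ q ∈ s, ¬ (q : ℤ) ∣ D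

/-- CONJQ (from T_FACT, T_CL, T_COMP): from cross-ratios to conjugacy. -/
def T_CONJQ : Prop := ∀ (d : ℕ) (f g : Pr ℤ d) (x y : ℚ × ℚ), 2 ≤ d →
  NZ (mp (Int.castRingHom ℂ) f) → NZ (mp (Int.castRingHom ℂ) g) →
  (∀ n m, n < 2 * d + 3 → m < 2 * d + 3 → n ≠ m → wd (orb (qf f) x n) (orb (qf f) x m) ≠ 0) →
  (∀ n m, n < 2 * d + 3 → m < 2 * d + 3 → n ≠ m → wd (orb (qf g) y n) (orb (qf g) y m) ≠ 0) →
  CRel (orb (qf f) x) (orb (qf g) y) (2 * d + 3) → Conj f g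

/-- PARAM: choice of the parameters of the determinant method. -/
def T_PARAM : Prop := ∀ (d C : ℕ) (ε : ℝ), 2 ≤ d → 0 < ε → ∃ (k h J : ℕ) (C' : ℝ), 1 ≤ k ∧
  2 * (h + (2 * d + 4)).choose (2 * d + 4) ≤ 2 ^ k ∧
  ∀ X : ℕ, 1 ≤ X → ∃ P : ℕ, 1 ≤ P ∧ (2 ^ k * (C * X ^ (2 * d - 1)) ^ k) ^ 2 < P ^ (h + 1) ∧
    C * X ^ (2 * d) < P ^ J ∧
    (J : ℝ) * ((2 : ℝ) ^ J * P) ^ (2 * d + 4) ≤ C' * (X : ℝ) ^ ε

/-- FINAL (from T_GEOM, T_REL, T_PRI, T_BZ, T_HBD, T_LONG, T_CONJQ, T_PARAM): the theorem. -/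
def T_FINAL : Prop := ∀ (d : ℕ) (ε : ℝ), 2 ≤ d → 0 < ε → ∃ (B : ℕ) (C : ℝ), ∀ X : ℕ, 1 ≤ X →
  ∃ R : Finset (Pr ℤ d), (R.card : ℝ) ≤ C * (X : ℝ) ^ ε ∧ ∀ f ∈ Maps d X,
    (∃ T : Finset (ℚ × ℚ), B < T.card ∧ (∀ v ∈ T, Prep f v) ∧
      ∀ v ∈ T, ∀ w ∈ T, v ≠ w → wd v w ≠ 0) → ∃ g ∈ R, Conj f g

end Pool.Agent.UMR
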