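import Mathlib
import Pool.Agent.UMR.Targets

set_option autoImplicit false

/-!
# UMR, block 3: the places of the rational function field in one variable (T_PLZ)
-/

namespace Pool.Agent.UMR

namespace PLZ_

open Polynomial

variable {L : Type} [Field L]

open scoped Classical in
/-- the function attached to an integer valued degree -/
noncomputable def fn (deg : RatFunc L → ℤ) (z : RatFunc L) : ℝ :=
  if z = 0 then 0 else Real.exp (deg z)

theorem fn_zero (deg : RatFunc L → ℤ) : fn deg 0 = 0 := by simp [fn]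

theorem fn_ne (deg : RatFunc L → ℤ) {z : RatFunc L} (hz : z ≠ 0) :
    fn deg z = Real.exp (deg z) := by simp [fn, hz]

theorem fn_nonneg (deg : RatFunc L → ℤ) (z : RatFunc L) : 0 ≤ fn deg z := by
  by_cases hz : z = 0
  · rw [hz, fn_zero]
  · rw [fn_ne deg hz]; exact (Real.exp_pos _).le

theorem fn_add (deg : RatFunc L → ℤ)
    (ha : ∀ x y, x ≠ 0 → y ≠ 0 → x + y ≠ 0 → deg (x + y) ≤ max (deg x) (deg y))
    (x y : RatFunc L) : fn deg (x + y) ≤ max (fn deg x) (fn deg y) := by
  by_cases hx : x = 0
  · rw [hx, zero_add]; exact le_max_right _ _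
  by_cases hy : y = 0
  · rw [hy, add_zero]; exact le_max_left _ _
  by_cases hxy : x + y = 0
  · rw [hxy, fn_zero]; exact (fn_nonneg deg x).trans (le_max_left _ _)
  rw [fn_ne deg hx, fn_ne deg hy, fn_ne deg hxy]
  have h := ha x y hx hy hxy
  rcases le_max_iff.mp h with h | h
  · exact le_max_of_le_left (Real.exp_le_exp.mpr (by exact_mod_cast h))
  · exact le_max_of_le_right (Real.exp_le_exp.mpr (by exact_mod_cast h))

/-- the absolute value attached to an integer valued degree -/
noncomputable def val (deg : RatFunc L → ℤ)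
    (hm : ∀ x y, x ≠ 0 → y ≠ 0 → deg (x * y) = deg x + deg y)
    (ha : ∀ x y, x ≠ 0 → y ≠ 0 → x + y ≠ 0 → deg (x + y) ≤ max (deg x) (deg y)) :
    AbsoluteValue (RatFunc L) ℝ where
  toFun := fn deg
  map_mul' x y := by
    by_cases hx : x = 0
    · rw [hx, zero_mul, fn_zero, zero_mul]
    by_cases hy : y = 0
    · rw [hy, mul_zero, fn_zero, mul_zero]
    rw [fn_ne deg hx, fn_ne deg hy, fn_ne deg (mul_ne_zero hx hy), hm x y hx hy, ← Real.exp_add]
    push_cast
    rfl
  nonneg' := fn_nonneg deg
  eq_zero' x := by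
    constructor
    · intro h
      by_contra hx
      rw [fn_ne deg hx] at h
      exact (Real.exp_pos _).ne' h
    · intro h
      rw [h, fn_zero]
  add_le' x y := (fn_add deg ha x y).trans
    (max_le (le_add_of_nonneg_right (fn_nonneg deg y)) (le_add_of_nonneg_left (fn_nonneg deg x)))

/-- the degree at a finite place -/
noncomputable def fdeg (c : L) (z : RatFunc L) : ℤ :=
  (z.denom.rootMultiplicity c : ℤ) - z.num.rootMultiplicity c

theorem fdeg_mul (c : L) (x y : RatFunc L) (hx : x ≠ 0) (hy : y ≠ 0) :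
    fdeg c (x * y) = fdeg c x + fdeg c y := by
  have h := RatFunc.num_denom_mul x y
  have hx1 := RatFunc.num_ne_zero hx
  have hy1 := RatFunc.num_ne_zero hy
  have hxy1 := RatFunc.num_ne_zero (mul_ne_zero hx hy)
  have hx2 := RatFunc.denom_ne_zero x
  have hy2 := RatFunc.denom_ne_zero y
  have hxy2 := RatFunc.denom_ne_zero (x * y)
  have h2 := congrArg (rootMultiplicity c) h
  rw [rootMultiplicity_mul (mul_ne_zero hxy1 (mul_ne_zero hx2 hy2)),
    rootMultiplicity_mul (mul_ne_zero hx2 hy2),
    rootMultiplicity_mul (mul_ne_zero (mul_ne_zero hx1 hy1) hxy2),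
    rootMultiplicity_mul (mul_ne_zero hx1 hy1)] at h2
  unfold fdeg
  omega

theorem fdeg_add (c : L) (x y : RatFunc L) (hx : x ≠ 0) (hy : y ≠ 0) (hxy : x + y ≠ 0) :
    fdeg c (x + y) ≤ max (fdeg c x) (fdeg c y) := by
  have h := RatFunc.num_denom_add x y
  have hx1 := RatFunc.num_ne_zero hx
  have hy1 := RatFunc.num_ne_zero hy
  have hxy1 := RatFunc.num_ne_zero hxy
  have hx2 := RatFunc.denom_ne_zero x
  have hy2 := RatFunc.denom_ne_zero y
  have hxy2 := RatFunc.denom_ne_zero (x + y)
  have hL : (x + y).num * (x.denom * y.denom) ≠ 0 := mul_ne_zero hxy1 (mul_ne_zero hx2 hy2)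
  have hs : x.num * y.denom + x.denom * y.num ≠ 0 := by
    intro h0
    rw [h0, zero_mul] at h
    exact hL h
  have h2 := congrArg (rootMultiplicity c) h
  rw [rootMultiplicity_mul hL, rootMultiplicity_mul (mul_ne_zero hx2 hy2),
    rootMultiplicity_mul (mul_ne_zero hs hxy2)] at h2
  have h3 := rootMultiplicity_add c hs
  rw [rootMultiplicity_mul (mul_ne_zero hx1 hy2), rootMultiplicity_mul (mul_ne_zero hx2 hy1)] at h3
  unfold fdeg
  omega

theorem fdeg_C (c : L) (a : L) : fdeg c (RatFunc.C a) = 0 := by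
  unfold fdeg
  rw [RatFunc.num_C, RatFunc.denom_C, rootMultiplicity_C]
  have : rootMultiplicity c (1 : L[X]) = 0 := by
    rw [← C_1, rootMultiplicity_C]
  rw [this]
  rfl

/-- the places -/
noncomputable def w : Option L → AbsoluteValue (RatFunc L) ℝ
  | none => val RatFunc.intDegree (fun _ _ hx hy => RatFunc.intDegree_mul hx hy)
      (fun _ _ _ hy hxy => RatFunc.intDegree_add_le hy hxy)
  | some c => val (fdeg c) (fdeg_mul c) (fdeg_add c)

theorem w_none (z : RatFunc L) (hz : z ≠ 0) : w none z = Real.exp (z.intDegree) :=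
  fn_ne _ hz

theorem w_some (c : L) (z : RatFunc L) (hz : z ≠ 0) : w (some c) z = Real.exp (fdeg c z) :=
  fn_ne _ hz

theorem w_add (p : Option L) (x y : RatFunc L) : w p (x + y) ≤ max (w p x) (w p y) := by
  rcases p with _ | c
  · exact fn_add _ (fun _ _ _ hy hxy => RatFunc.intDegree_add_le hy hxy) x y
  · exact fn_add _ (fdeg_add c) x y

theorem w_C (p : Option L) (c : L) (hc : c ≠ 0) : w p (RatFunc.C c) = 1 := by
  have h0 : (RatFunc.C c : RatFunc L) ≠ 0 := by
    intro h
    apply hc
    exact RatFunc.C_injective (by rw [h, map_zero])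
  rcases p with _ | a
  · rw [w_none _ h0, RatFunc.intDegree_C]; simp
  · rw [w_some _ _ h0, fdeg_C]; simp

open scoped Classical in
theorem sum_mult [IsAlgClosed L] (p : L[X]) (S : Finset L)
    (hS : p.roots.toFinset ⊆ S) : ∑ c ∈ S, (rootMultiplicity c p : ℤ) = p.natDegree := by
  have h1 : p.roots.card = p.natDegree := IsAlgClosed.card_roots_eq_natDegree
  rw [← h1, ← Multiset.sum_count_eq_card (s := S) (m := p.roots)]
  · push_cast
    refine Finset.sum_congr rfl fun c _ => ?_
    rw [count_roots]
  · intro a ha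
    exact hS (Multiset.mem_toFinset.mpr ha)

open scoped Classical in
/-- the support -/
noncomputable def supp (z : RatFunc L) : Finset L := z.num.roots.toFinset ∪ z.denom.roots.toFinset

theorem fdeg_eq_zero (z : RatFunc L) (c : L) (hc : c ∉ supp z) : fdeg c z = 0 := by
  classical
  unfold supp at hc
  rw [Finset.mem_union, not_or, Multiset.mem_toFinset, Multiset.mem_toFinset] at hc
  unfold fdeg
  rw [← count_roots, ← count_roots, Multiset.count_eq_zero_of_notMem hc.1,
    Multiset.count_eq_zero_of_notMem hc.2]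
  rfl

theorem w_fin (z : RatFunc L) (hz : z ≠ 0) :
    {p | w p z ≠ 1} ⊆ ((Finset.insertNone (supp z) : Finset (Option L)) : Set (Option L)) := by
  intro p hp
  rcases p with _ | c
  · simp
  · by_contra h
    have hc : c ∉ supp z := by
      intro hc
      apply h
      simpa using hc
    apply hp
    rw [w_some c z hz, fdeg_eq_zero z c hc]
    simp

theorem w_sum [IsAlgClosed L] (z : RatFunc L) (hz : z ≠ 0) :
    ∑ᶠ p, Real.log (w p z) = 0 := by
  classical
  have hsub : Function.support (fun p => Real.log (w p z)) ⊆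
      ((Finset.insertNone (supp z) : Finset (Option L)) : Set (Option L)) := by
    intro p hp
    apply w_fin z hz
    intro h1
    apply hp
    show Real.log (w p z) = 0
    rw [h1, Real.log_one]
  rw [finsum_eq_sum_of_support_subset _ hsub, Finset.sum_insertNone]
  have e1 : Real.log (w none z) = ((z.intDegree : ℤ) : ℝ) := by
    rw [w_none z hz, Real.log_exp]
  have e2 : ∀ c : L, Real.log (w (some c) z) = ((fdeg c z : ℤ) : ℝ) := by
    intro c
    rw [w_some c z hz, Real.log_exp]
  rw [e1, Finset.sum_congr rfl (fun c _ => e2 c), ← Int.cast_sum, ← Int.cast_add]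
  have h1 := sum_mult z.num (supp z) Finset.subset_union_left
  have h2 := sum_mult z.denom (supp z) Finset.subset_union_right
  have h3 : ∑ c ∈ supp z, fdeg c z = (z.denom.natDegree : ℤ) - z.num.natDegree := by
    unfold fdeg
    rw [Finset.sum_sub_distrib, h1, h2]
  rw [h3]
  unfold RatFunc.intDegree
  have : ((z.num.natDegree : ℤ) - z.denom.natDegree + ((z.denom.natDegree : ℤ) - z.num.natDegree))
    = 0 := by ring
  rw [this, Int.cast_zero]

theorem w_const [IsAlgClosed L] (z : RatFunc L) (h : ∀ p, w p z ≤ 1) :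
    ∃ c : L, z = RatFunc.C c := by
  by_cases hz : z = 0
  · exact ⟨0, by rw [hz, map_zero]⟩
  have hdeg : ∀ c : L, fdeg c z ≤ 0 := by
    intro c
    have h1 := h (some c)
    rw [w_some c z hz, ← Real.exp_zero, Real.exp_le_exp] at h1
    exact_mod_cast h1
  have hinf : z.intDegree ≤ 0 := by
    have h1 := h none
    rw [w_none z hz, ← Real.exp_zero, Real.exp_le_exp] at h1
    exact_mod_cast h1
  -- the denominator has no roots
  have hroot : ∀ c : L, ¬ z.denom.IsRoot c := by
    intro c hc
    have h1 : 0 < z.denom.rootMultiplicity c :=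
      (rootMultiplicity_pos (RatFunc.denom_ne_zero z)).mpr hc
    have h2 : ¬ z.num.IsRoot c := by
      intro h3
      obtain ⟨a, b, hab⟩ := RatFunc.isCoprime_num_denom z
      have h4 := congrArg (fun p => eval c p) hab
      simp only [eval_add, eval_mul, eval_one] at h4
      rw [IsRoot.def] at hc h3
      rw [hc, h3] at h4
      simp at h4
    have h3 : z.num.rootMultiplicity c = 0 := rootMultiplicity_eq_zero h2
    have h5 := hdeg c
    unfold fdeg at h5
    omega
  have hd0 : z.denom.natDegree = 0 := by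
    by_contra h0
    have hd : z.denom.degree ≠ 0 := by
      intro h1
      exact h0 (natDegree_eq_of_degree_eq_some h1)
    obtain ⟨c, hc⟩ := IsAlgClosed.exists_root z.denom hd
    exact hroot c hc
  have hd1 : z.denom = 1 := eq_one_of_monic_natDegree_zero (RatFunc.monic_denom z) hd0
  have hn0 : z.num.natDegree = 0 := by
    unfold RatFunc.intDegree at hinf
    omega
  refine ⟨z.num.coeff 0, ?_⟩
  have h1 : z.num = C (z.num.coeff 0) := eq_C_of_natDegree_eq_zero hn0
  rw [← RatFunc.num_div_denom z, hd1, map_one, div_one]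
  rw [h1]
  simp

end PLZ_

theorem p_PLZ : T_PLZ := by
  intro L _ _
  exact ⟨Option L, PLZ_.w, PLZ_.w_add, PLZ_.w_C,
    fun z hz => (Finset.finite_toSet _).subset (PLZ_.w_fin z hz), PLZ_.w_sum, PLZ_.w_const⟩

end Pool.Agent.UMR
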