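import Pool.Agent.UMR.Targets

set_option autoImplicit false
set_option maxHeartbeats 4000000

/-!
# Project UMR: target POS
-/

namespace Pool.Agent.UMR

namespace POS_

variable {K : Type} [Field K]

theorem nm_pos (v : AbsoluteValue K ℝ) {x : K × K} (hx : x ≠ 0) : 0 < nm v x := by
  unfold nm
  by_cases h : x.1 = 0
  · have h2 : x.2 ≠ 0 := fun h2 => hx (Prod.ext h h2)
    exact lt_max_of_lt_right (v.pos h2)
  · exact lt_max_of_lt_left (v.pos h)

theorem lub {d : ℕ} (v : AbsoluteValue K ℝ) (f : Pr K d) (ρ : K) (H : K × K → ℝ) (C : ℝ)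
    (h : LD v f ρ H C) : IsLUB {r | ∃ x, x ≠ 0 ∧ nm v x ≤ 1 ∧ r = H x} (GG v H) := by
  apply isLUB_csSup
  · refine ⟨H (1, 0), (1, 0), ?_, ?_, rfl⟩
    · intro h0
      have := congrArg Prod.fst h0
      simp at this
    · simp [nm]
  · refine ⟨C, ?_⟩
    rintro r ⟨x, hx, hx1, rfl⟩
    have h1 := h.near x hx
    have h2 := (abs_le.1 h1).2
    have h3 : Real.log (nm v x) ≤ 0 := Real.log_nonpos (nm_pos v hx).le hx1
    linarith

theorem wd_le (v : AbsoluteValue K ℝ) (hv : VV v) (x y : K × K) :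
    v (wd x y) ≤ nm v x * nm v y := by
  unfold wd
  have h1 : v (x.1 * y.2 - x.2 * y.1) ≤ max (v (x.1 * y.2)) (v (x.2 * y.1)) := by
    have := hv.ultra (x.1 * y.2) (-(x.2 * y.1))
    rwa [← sub_eq_add_neg, v.map_neg] at this
  refine h1.trans (max_le ?_ ?_)
  · rw [map_mul]
    exact mul_le_mul (le_max_left _ _) (le_max_right _ _) (v.nonneg _)
      (le_trans (v.nonneg _) (le_max_left _ _))
  · rw [map_mul]
    exact mul_le_mul (le_max_right _ _) (le_max_left _ _) (v.nonneg _)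
      (le_trans (v.nonneg _) (le_max_left _ _))

theorem lin_le (v : AbsoluteValue K ℝ) (hv : VV v) (e₁ e₂ x : K × K) (h1 : nm v e₁ ≤ 1)
    (h2 : nm v e₂ ≤ 1) : nm v (lin e₁ e₂ x) ≤ nm v x := by
  have a1 : v e₁.1 ≤ 1 := le_trans (le_max_left _ _) h1
  have a2 : v e₁.2 ≤ 1 := le_trans (le_max_right _ _) h1
  have b1 : v e₂.1 ≤ 1 := le_trans (le_max_left _ _) h2
  have b2 : v e₂.2 ≤ 1 := le_trans (le_max_right _ _) h2
  have x1 : v x.1 ≤ nm v x := le_max_left _ _
  have x2 : v x.2 ≤ nm v x := le_max_right _ _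
  have key : ∀ a b : K, v a ≤ 1 → v b ≤ 1 → v (x.1 * a + x.2 * b) ≤ nm v x := by
    intro a b ha hb
    refine (hv.ultra _ _).trans (max_le ?_ ?_)
    · rw [map_mul]
      calc v x.1 * v a ≤ v x.1 * 1 := mul_le_mul_of_nonneg_left ha (v.nonneg _)
        _ ≤ nm v x := by rw [mul_one]; exact x1
    · rw [map_mul]
      calc v x.2 * v b ≤ v x.2 * 1 := mul_le_mul_of_nonneg_left hb (v.nonneg _)
        _ ≤ nm v x := by rw [mul_one]; exact x2
  exact max_le (key _ _ a1 b1) (key _ _ a2 b2)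

theorem GG_lin (v : AbsoluteValue K ℝ) (hv : VV v) (H : K × K → ℝ) (e₁ e₂ : K × K)
    (h1 : nm v e₁ ≤ 1) (h2 : nm v e₂ ≤ 1) (h3 : v (wd e₁ e₂) = 1) :
    GG v (fun x => H (lin e₁ e₂ x)) = GG v H := by
  unfold GG
  congr 1
  have hD : wd e₁ e₂ ≠ 0 := by
    intro h0
    rw [h0, map_zero] at h3
    norm_num at h3
  ext r
  constructor
  · rintro ⟨x, hx, hx1, rfl⟩
    refine ⟨lin e₁ e₂ x, ?_, (lin_le v hv _ _ _ h1 h2).trans hx1, rfl⟩
    intro h0
    apply hx
    have c1 : x.1 * e₁.1 + x.2 * e₂.1 = 0 := congrArg Prod.fst h0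
    have c2 : x.1 * e₁.2 + x.2 * e₂.2 = 0 := congrArg Prod.snd h0
    have d1 : x.1 * wd e₁ e₂ = 0 := by
      unfold wd
      linear_combination e₂.2 * c1 - e₂.1 * c2
    have d2 : x.2 * wd e₁ e₂ = 0 := by
      unfold wd
      linear_combination e₁.1 * c2 - e₁.2 * c1
    exact Prod.ext ((mul_eq_zero.1 d1).resolve_right hD) ((mul_eq_zero.1 d2).resolve_right hD)
  · rintro ⟨x, hx, hx1, rfl⟩
    let y : K × K := (wd x e₂ / wd e₁ e₂, wd e₁ x / wd e₁ e₂)
    have hlin : lin e₁ e₂ y = x := by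
      have c1 : (wd x e₂ / wd e₁ e₂) * e₁.1 + (wd e₁ x / wd e₁ e₂) * e₂.1 = x.1 := by
        have : (wd x e₂ / wd e₁ e₂) * e₁.1 + (wd e₁ x / wd e₁ e₂) * e₂.1
            = (wd x e₂ * e₁.1 + wd e₁ x * e₂.1) / wd e₁ e₂ := by ring
        rw [this, div_eq_iff hD]
        unfold wd
        ring
      have c2 : (wd x e₂ / wd e₁ e₂) * e₁.2 + (wd e₁ x / wd e₁ e₂) * e₂.2 = x.2 := by
        have : (wd x e₂ / wd e₁ e₂) * e₁.2 + (wd e₁ x / wd e₁ e₂) * e₂.2
            = (wd x e₂ * e₁.2 + wd e₁ x * e₂.2) / wd e₁ e₂ := by ring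
        rw [this, div_eq_iff hD]
        unfold wd
        ring
      exact Prod.ext c1 c2
    refine ⟨y, ?_, ?_, ?_⟩
    · intro h0
      apply hx
      rw [← hlin, h0]
      simp [lin]
    · refine max_le ?_ ?_
      · change v (wd x e₂ / wd e₁ e₂) ≤ 1
        rw [map_div₀, h3, div_one]
        refine (wd_le v hv _ _).trans ?_
        exact mul_le_one₀ hx1 (le_trans (v.nonneg _) (le_max_left _ _)) h2
      · change v (wd e₁ x / wd e₁ e₂) ≤ 1
        rw [map_div₀, h3, div_one]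
        refine (wd_le v hv _ _).trans ?_
        exact mul_le_one₀ h1 (le_trans (v.nonneg _) (le_max_left _ _)) hx1
    · change H x = H (lin e₁ e₂ y)
      rw [hlin]

theorem GG_add {d : ℕ} (v : AbsoluteValue K ℝ) (f : Pr K d) (ρ : K) (H : K × K → ℝ) (C : ℝ)
    (h : LD v f ρ H C) (a : ℝ) : GG v (fun x => H x + a) = GG v H + a := by
  have h1 := lub v f ρ H C h
  have h2 : IsLUB {r | ∃ x, x ≠ 0 ∧ nm v x ≤ 1 ∧ r = H x + a} (GG v H + a) := by
    constructor
    · rintro r ⟨x, hx, hx1, rfl⟩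
      have := h1.1 ⟨x, hx, hx1, rfl⟩
      linarith
    · intro b hb
      have : GG v H ≤ b - a := by
        apply h1.2
        rintro r ⟨x, hx, hx1, rfl⟩
        have := hb ⟨x, hx, hx1, rfl⟩
        linarith
      linarith
  exact h2.csSup_eq ⟨H (1, 0) + a, (1, 0), by
    intro h0
    have := congrArg Prod.fst h0
    simp at this, by simp [nm], rfl⟩

theorem gn_nonneg (v : AbsoluteValue K ℝ) {n : ℕ} (c : Fin (n + 1) → K) : 0 ≤ gn v c :=
  Real.iSup_nonneg fun _ => v.nonneg _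

theorem gn_le (v : AbsoluteValue K ℝ) {n : ℕ} (c : Fin (n + 1) → K) (i : Fin (n + 1)) :
    v (c i) ≤ gn v c :=
  le_ciSup (f := fun i => v (c i)) (Set.finite_range _).bddAbove i

theorem gn_attained (v : AbsoluteValue K ℝ) {n : ℕ} (c : Fin (n + 1) → K) :
    ∃ i, v (c i) = gn v c :=
  exists_eq_ciSup_of_finite (f := fun i => v (c i))

theorem gn_smul (v : AbsoluteValue K ℝ) {n : ℕ} (s : K) (c : Fin (n + 1) → K) :
    gn v (fun i => s * c i) = v s * gn v c := by
  unfold gn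
  rw [Real.mul_iSup_of_nonneg (v.nonneg _)]
  simp only [map_mul]

end POS_

open POS_ in
theorem p_POS (h1 : T_SCALE) (h2 : T_ORTH) (h3 : T_CONJ) (h4 : T_LK) (h5 : T_GRHO) (h6 : T_TWO)
    (h7 : T_BD) : T_POS := by
  intro K _ _ _ v d f ρ H C hLD
  have hd : 2 ≤ d := hLD.ag.hd
  have hdR : (2 : ℝ) ≤ d := by exact_mod_cast hd
  have hd1 : (0 : ℝ) < (d : ℝ) - 1 := by linarith
  have hd0 : (0 : ℝ) < (d : ℝ) := by linarith
  -- the coefficient norm is positive
  have hcn : 0 < cn v f := by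
    by_contra hcon
    have hcn0 : cn v f = 0 :=
      le_antisymm (not_lt.1 hcon) (le_trans (gn_nonneg v _) (le_max_left _ _))
    have h8 := (h7 K v d f ρ hLD.vv hLD.ag (1, 0)).2
    have h9 : nm v ((1 : K), (0 : K)) = 1 := by simp [nm]
    rw [hcn0, h9, one_pow, mul_one, zero_pow (by omega), zero_mul] at h8
    exact absurd h8 (not_le.2 (v.pos hLD.ag.ne))
  -- scaling
  obtain ⟨s, hs⟩ : ∃ s : K, v s = (cn v f)⁻¹ := by
    rcases max_choice (gn v f.1) (gn v f.2) with h | h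
    · obtain ⟨i, hi⟩ := gn_attained v f.1
      exact ⟨(f.1 i)⁻¹, by rw [map_inv₀, hi]; unfold cn; rw [h]⟩
    · obtain ⟨i, hi⟩ := gn_attained v f.2
      exact ⟨(f.2 i)⁻¹, by rw [map_inv₀, hi]; unfold cn; rw [h]⟩
  have hs0 : s ≠ 0 := by
    intro h0
    rw [h0, map_zero] at hs
    exact absurd hs.symm (inv_ne_zero hcn.ne')
  obtain ⟨C1, hLD1⟩ := h1 K v d f ρ H C s hLD hs0
  set f1 : Pr K d := (fun i => s * f.1 i, fun i => s * f.2 i) with hf1
  have hcn1 : cn v f1 = 1 := by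
    unfold cn
    rw [hf1]
    simp only [gn_smul]
    rw [← mul_max_of_nonneg _ _ (v.nonneg s), hs]
    exact inv_mul_cancel₀ hcn.ne'
  obtain ⟨e₁, e₂, f', lam, he1, he2, hdet, hCj, hlam, hlam1, hg1, hg2, hgst⟩ :=
    h2 K v d f1 _ hLD1.vv hLD1.ag hcn1
  have hD : wd e₁ e₂ ≠ 0 := by
    intro h0
    rw [h0, map_zero] at hdet
    norm_num at hdet
  obtain ⟨C', hLD2⟩ := h3 K v d f1 f' _ _ C1 e₁ e₂ hLD1 hD hCj
  set H1 : K × K → ℝ := fun x => H x + Real.log (v s) / (d - 1) with hH1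
  set H2 : K × K → ℝ := fun x => H1 (lin e₁ e₂ x) with hH2
  set ρ2 : K := ρ * s ^ (2 * d) * wd e₁ e₂ ^ (d * (d - 1)) with hρ2
  have hvv := hLD.vv
  have hGG : GG v H2 = GG v H + Real.log (v s) / (d - 1) := by
    rw [hH2, GG_lin v hvv H1 e₁ e₂ he1 he2 hdet, hH1]
    exact GG_add v f ρ H C hLD _
  have hlogρ : Real.log (v ρ2) = Real.log (v ρ) + 2 * d * Real.log (v s) := by
    rw [hρ2, map_mul, map_mul, map_pow, map_pow, hdet, one_pow, mul_one,
      Real.log_mul (v.pos hLD.ag.ne).ne' (pow_ne_zero _ (v.pos hs0).ne'), Real.log_pow]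
    push_cast
    ring
  have hkp : kp d v ρ2 = kp d v ρ - 2 * Real.log (v s) / (d - 1) := by
    unfold kp
    rw [hlogρ]
    field_simp
    ring
  have hlogcn : Real.log (cn v f) = - Real.log (v s) := by
    rw [hs, Real.log_inv, neg_neg]
  -- reduced claim
  suffices hmain : kp d v ρ2 ≤ 16 * (kp d v ρ2 + 2 * GG v H2) by
    rw [hGG] at hmain
    rw [hlogcn]
    have e1 : kp d v ρ + 2 / (d - 1) * -Real.log (v s) = kp d v ρ2 := by
      rw [hkp]; ring
    have e2 : kp d v ρ2 + 2 * (GG v H + Real.log (v s) / (d - 1)) = kp d v ρ + 2 * GG v H := by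
      rw [hkp]; ring
    rw [e1, ← e2]
    exact hmain
  have hlub := lub v f' ρ2 H2 C' hLD2
  have hcn2 : cn v f' = 1 := by
    unfold cn
    rw [hg1, hg2]
    exact max_eq_left hlam1
  -- st f' x ≠ 0
  have hst0 : ∀ x : K × K, x ≠ 0 → st f' x ≠ 0 := by
    intro x hx h0
    have h8 := (h7 K v d f' ρ2 hvv hLD2.ag x).2
    have h9 : nm v (st f' x) = 0 := by rw [h0]; simp [nm]
    rw [h9, mul_zero] at h8
    exact absurd h8 (not_le.2 (mul_pos (v.pos hLD2.ag.ne) (pow_pos (nm_pos v hx) _)))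
  have hiter : ∀ (n : ℕ) (x : K × K), x ≠ 0 → nm v x ≤ 1 →
      (st f')^[n] x ≠ 0 ∧ nm v ((st f')^[n] x) ≤ 1 ∧ H2 ((st f')^[n] x) = d ^ n * H2 x := by
    intro n
    induction n with
    | zero => intro x hx hx1; exact ⟨hx, hx1, by simp⟩
    | succ n ih =>
      intro x hx hx1
      obtain ⟨i1, i2, i3⟩ := ih x hx hx1
      rw [Function.iterate_succ_apply']
      refine ⟨hst0 _ i1, ?_, ?_⟩
      · refine ((h7 K v d f' ρ2 hvv hLD2.ag _).1).trans ?_
        rw [hcn2, one_mul]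
        exact pow_le_one₀ (nm_pos v i1).le i2
      · rw [hLD2.fe _ i1, i3, pow_succ]
        ring
  have hH2le : ∀ x : K × K, x ≠ 0 → nm v x ≤ 1 → H2 x ≤ 0 := by
    intro x hx hx1
    by_contra hcon
    push Not at hcon
    have hb : ∀ n : ℕ, (d : ℝ) ^ n * H2 x ≤ C' := by
      intro n
      obtain ⟨i1, i2, i3⟩ := hiter n x hx hx1
      have h8 := (abs_le.1 (hLD2.near _ i1)).2
      have h9 : Real.log (nm v ((st f')^[n] x)) ≤ 0 := Real.log_nonpos (nm_pos v i1).le i2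
      rw [i3] at h8
      linarith
    obtain ⟨n, hn⟩ := pow_unbounded_of_one_lt (C' / H2 x) (by linarith : (1 : ℝ) < d)
    have := hb n
    rw [div_lt_iff₀ hcon] at hn
    linarith
  have hG0 : GG v H2 ≤ 0 := by
    apply hlub.2
    rintro r ⟨x, hx, hx1, rfl⟩
    exact hH2le x hx hx1
  -- lower bound for kp
  have hlamlog : Real.log (v lam) ≤ 0 := Real.log_nonpos (v.nonneg _) hlam1
  have hkpL : - Real.log (v lam) / (d - 1) ≤ kp d v ρ2 := by
    have h8 := h4 K v d f' ρ2 hvv hLD2.ag hg1.le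
    rw [hg2] at h8
    have h9 : Real.log (v ρ2) ≤ d * Real.log (v lam) := by
      rw [← Real.log_pow]
      exact Real.log_le_log (v.pos hLD2.ag.ne) h8
    unfold kp
    rw [div_le_div_iff₀ hd1 (mul_pos hd0 hd1)]
    nlinarith
  have hgr := h5 K v d f' ρ2 H2 C' lam hLD2 hlam hgst
  rcases hlam1.lt_or_eq with hlt | heq
  · have hg : (d : ℝ) * GG v H2 ≤ GG v H2 := by nlinarith
    obtain ⟨hE, hT⟩ := h6 K v d f' ρ2 H2 C' lam _ hLD2 hlam hlt hgr hg
    set G := GG v H2 with hGdef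
    set κ := kp d v ρ2 with hκ
    set L := - Real.log (v lam) with hL
    have hLpos : 0 < L := by
      have := Real.log_neg (v.pos hlam) hlt
      rw [hL]; linarith
    have hκpos : 0 < κ := lt_of_lt_of_le (div_pos hLpos hd1) hkpL
    have hL2 : L ≤ (d - 1) * κ := by
      rw [div_le_iff₀ hd1] at hkpL
      linarith
    have h10 : ((d : ℝ) - 1) ^ 2 * G ^ 2 ≤ (d - 1) * κ * (κ + 2 * G) := by
      calc ((d : ℝ) - 1) ^ 2 * G ^ 2 = (G - d * G) ^ 2 := by ring
        _ ≤ L * (κ + 2 * G) := hT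
        _ ≤ (d - 1) * κ * (κ + 2 * G) := mul_le_mul_of_nonneg_right hL2 hE
    have h11 : ((d : ℝ) - 1) * G ^ 2 ≤ κ * (κ + 2 * G) := by
      have : ((d : ℝ) - 1) * (((d : ℝ) - 1) * G ^ 2) ≤ ((d : ℝ) - 1) * (κ * (κ + 2 * G)) := by
        nlinarith [h10]
      exact le_of_mul_le_mul_left this hd1
    have h12 : G ^ 2 ≤ κ * (κ + 2 * G) := by
      have : G ^ 2 ≤ ((d : ℝ) - 1) * G ^ 2 := by nlinarith [sq_nonneg G]
      linarith
    by_cases hc : - κ / 4 ≤ G
    · linarith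
    · push Not at hc
      have h13 : κ ^ 2 / 16 ≤ G ^ 2 := by nlinarith
      have h14 : κ * (κ / 16) ≤ κ * (κ + 2 * G) := by nlinarith
      have h15 : κ / 16 ≤ κ + 2 * G := le_of_mul_le_mul_left h14 hκpos
      linarith
  · have hG : GG v H2 ≤ d * GG v H2 := by
      apply hlub.2
      rintro r ⟨x, hx, hx1, rfl⟩
      have h8 := hgr (x.1, x.2 / lam) (by
        intro h0
        apply hx
        have c1 : x.1 = 0 := congrArg Prod.fst h0
        have c2 : x.2 / lam = 0 := congrArg Prod.snd h0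
        rw [div_eq_zero_iff] at c2
        exact Prod.ext c1 (c2.resolve_right hlam)) (by
        refine max_le ((le_max_left _ _).trans hx1) ?_
        change v (x.2 / lam) ≤ 1
        rw [map_div₀, heq, div_one]
        exact (le_max_right _ _).trans hx1)
      have h9 : ((x.1, x.2 / lam) : K × K).1 = x.1 := rfl
      have h10 : lam * ((x.1, x.2 / lam) : K × K).2 = x.2 := by
        change lam * (x.2 / lam) = x.2
        rw [mul_div_cancel₀ _ hlam]
      rw [h9, h10] at h8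
      exact h8
    have hG1 : GG v H2 = 0 := by nlinarith
    rw [hG1]
    have : 0 ≤ kp d v ρ2 := by
      rw [heq, Real.log_one] at hkpL
      simpa using hkpL
    linarith

end Pool.Agent.UMR
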