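import Pool.Agent.UMR.Targets
import Pool.Agent.UBX.PRIMES

set_option autoImplicit false

namespace Pool.Agent.UMR

theorem p_PRI : T_PRI := by
  intro J P hP
  obtain ⟨s, hs, h⟩ := Pool.Agent.UBX.p_PRIMES J P hP
  refine ⟨s, hs, h, fun D hD hlt => ?_⟩
  rcases Nat.eq_zero_or_pos J with rfl | hJ
  · exfalso
    simp only [pow_zero] at hlt
    have : 0 < |D| := abs_pos.mpr hD
    omega
  · have hle : D.natAbs ≤ P ^ J := by
      have h1 : (D.natAbs : ℤ) < (P : ℤ) ^ J := by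
        rw [Int.natCast_natAbs]; exact hlt
      exact_mod_cast h1.le
    obtain ⟨p, hp, hpd⟩ := Pool.Agent.UBX.p_AVOID J P D.natAbs s hs
      (fun p hp => ⟨(h p hp).1, (h p hp).2.1⟩) (Int.natAbs_ne_zero.mpr hD) hle hJ
    refine ⟨p, hp, fun hd => hpd ?_⟩
    exact Int.natCast_dvd.mp hd

end Pool.Agent.UMR
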