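import Pool.Agent.UMR.Targets
import Pool.Agent.UBX.SPAN

set_option autoImplicit false

namespace Pool.Agent.UMR

open Finset

theorem p_REL (hM : T_MINOR) : T_REL := by
  classical
  intro d k h Y q hq hch hpow c hPO hbd hcg hprim
  have key : ∀ i : ℕ, ∃ μ : Finset (Fin k) → ℚ, μ ≠ 0 ∧ ∀ a ∈ c,
      MRel k μ (fun t : Fin k => mv (Int.castRingHom ℚ) (a.2 (i + t))) := by
    intro i
    let e : Finset (Fin k) ≃ Fin (Fintype.card (Finset (Fin k))) := Fintype.equivFin _
    let w : {a // a ∈ c} → Finset (Fin k) → ℤ := fun a S =>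
      ∏ t : Fin k, (if t ∈ S then (a.1.2 (i + t)).1 else (a.1.2 (i + t)).2)
    obtain ⟨μ, hμ0, hμ⟩ := Pool.Agent.UBX.p_SPAN {a // a ∈ c} (Fintype.card (Finset (Fin k)))
      (fun a j => (w a (e.symm j) : ℚ)) (by
        intro s
        have h1 := hM d k h Y q hq hch hpow (fun S => (s (e S)).1.1) (fun S => (s (e S)).1.2)
          (fun S => hPO _ (s (e S)).2) (fun S n => hbd _ (s (e S)).2 n)
          (fun S S' => hcg _ (s (e S)).2 _ (s (e S')).2) (fun S n => hprim _ (s (e S)).2 n) i
        have h2 : (Matrix.of fun l j : Fin (Fintype.card (Finset (Fin k))) =>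
            ((w (s l) (e.symm j) : ℤ) : ℚ)) =
            ((Matrix.of fun (l : Finset (Fin k)) (S : Finset (Fin k)) =>
              ∏ t : Fin k, (if t ∈ S then ((s (e l)).1.2 (i + t)).1
                else ((s (e l)).1.2 (i + t)).2)).map (Int.cast : ℤ → ℚ)).submatrix e.symm e.symm := by
          ext l j
          simp [w]
        rw [h2, Matrix.det_submatrix_equiv_self]
        have h3 := congrArg (Int.cast : ℤ → ℚ) h1
        rw [Int.cast_det] at h3
        rw [h3]
        simp)
    refine ⟨fun S => μ (e S), ?_, fun a ha => ?_⟩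
    · intro h0
      apply hμ0
      funext j
      have := congrFun h0 (e.symm j)
      simpa using this
    · have h1 := hμ ⟨a, ha⟩
      unfold MRel
      rw [← Equiv.sum_comp e.symm] 
      rw [← h1]
      refine Finset.sum_congr rfl fun j _ => ?_
      simp only [w, Equiv.apply_symm_apply]
      congr 1
      rw [Int.cast_prod]
      refine Finset.prod_congr rfl fun t _ => ?_
      unfold mv
      split_ifs <;> simp
  choose μ h1 h2 using key
  exact ⟨μ, h1, fun a ha i => h2 i a ha⟩

end Pool.Agent.UMR
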