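import Pool.Agent.UMR.Targets

set_option autoImplicit false

namespace Pool.Agent.UMR

open Finset
open scoped BigOperators

theorem p_SEQ : T_SEQ := by
  intro d k C h hd hC h0 hstep hrel n
  have hd' : (2 : ℝ) ≤ d := by exact_mod_cast hd
  have h1 : ∀ n, h n ≤ (h (n + 1) + C) / 2 := by
    intro n
    have a := hstep n
    have b := h0 n
    nlinarith
  have hA : ∀ s n, h n ≤ h (n + s) / 2 ^ s + C * (1 - 1 / 2 ^ s) := by
    intro s
    induction s with
    | zero => intro n; simp
    | succ s ih =>
      intro n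
      have a := h1 n
      have b := ih (n + 1)
      rw [show n + 1 + s = n + (s + 1) by ring] at b
      have hp : (2 : ℝ) ^ (s + 1) = 2 * 2 ^ s := by ring
      have hpos : (0 : ℝ) < 2 ^ s := by positivity
      have e : h (n + (s + 1)) / 2 ^ (s + 1) + C * (1 - 1 / 2 ^ (s + 1)) =
          ((h (n + (s + 1)) / 2 ^ s + C * (1 - 1 / 2 ^ s)) + C) / 2 := by
        rw [hp]
        field_simp
        ring
      rw [e]
      linarith
  have hB : ∀ l i, ∑ j ∈ range l, h (i + j) ≤ h (i + l) * (1 - 1 / 2 ^ l) + C * l := by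
    intro l
    induction l with
    | zero => intro i; simp
    | succ l ih =>
      intro i
      rw [Finset.sum_range_succ']
      have a := ih (i + 1)
      have b := hA (l + 1) i
      have e1 : ∑ j ∈ range l, h (i + (j + 1)) = ∑ j ∈ range l, h (i + 1 + j) :=
        Finset.sum_congr rfl fun j _ => by rw [show i + (j + 1) = i + 1 + j by ring]
      rw [e1, add_zero]
      rw [show i + 1 + l = i + (l + 1) by ring] at a
      have hp : (2 : ℝ) ^ (l + 1) = 2 * 2 ^ l := by ring
      have hpos : (0 : ℝ) < 2 ^ l := by positivity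
      have e2 : h (i + (l + 1)) * (1 - 1 / 2 ^ l) + h (i + (l + 1)) / 2 ^ (l + 1) =
          h (i + (l + 1)) * (1 - 1 / 2 ^ (l + 1)) := by
        rw [hp]
        field_simp
        ring
      have e3 : C * (1 - 1 / 2 ^ (l + 1)) ≤ C := by
        have : (0 : ℝ) ≤ 1 / 2 ^ (l + 1) := by positivity
        nlinarith
      push_cast
      linarith
  obtain ⟨l, hl, hrel'⟩ := hrel n
  have a := hB l n
  have b := hA l n
  have hpos : (0 : ℝ) < 2 ^ l := by positivity
  have c1 : h (n + l) / 2 ^ l ≤ C * l := by
    have e : h (n + l) * (1 - 1 / 2 ^ l) = h (n + l) - h (n + l) / 2 ^ l := by ring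
    rw [e] at a
    linarith
  have c2 : C * (1 - 1 / 2 ^ l) ≤ C := by
    have : (0 : ℝ) ≤ 1 / 2 ^ l := by positivity
    nlinarith
  have c3 : C * l ≤ C * k := mul_le_mul_of_nonneg_left (by exact_mod_cast hl.le) hC
  linarith

end Pool.Agent.UMR
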