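import Pool.Agent.UMR.Targets

set_option autoImplicit false
set_option maxHeartbeats 4000000

/-!
# Project UMR, target SUMG: the sum of the Green functions
-/

namespace Pool.Agent.UMR

open Finset
open scoped BigOperators

namespace SUMG_

theorem nm_nonneg {K : Type} [Field K] (v : AbsoluteValue K ℝ) (x : K × K) : 0 ≤ nm v x :=
  le_max_of_le_left (v.nonneg _)

theorem nm_pos {K : Type} [Field K] (v : AbsoluteValue K ℝ) {x : K × K} (hx : x ≠ 0) :
    0 < nm v x := by
  unfold nm
  rw [lt_max_iff]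
  by_contra hc
  push Not at hc
  refine hx (Prod.ext ?_ ?_)
  · exact v.eq_zero.mp (le_antisymm hc.1 (v.nonneg _))
  · exact v.eq_zero.mp (le_antisymm hc.2 (v.nonneg _))

theorem wd_le {K : Type} [Field K] {v : AbsoluteValue K ℝ} (hv : ∀ x y, v (x + y) ≤ max (v x) (v y))
    (x y : K × K) : v (wd x y) ≤ nm v x * nm v y := by
  unfold wd
  have h1 := hv (x.1 * y.2) (-(x.2 * y.1))
  rw [← sub_eq_add_neg, v.map_neg, v.map_mul, v.map_mul] at h1
  have a1 : v x.1 ≤ nm v x := le_max_left _ _
  have a2 : v x.2 ≤ nm v x := le_max_right _ _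
  have b1 : v y.1 ≤ nm v y := le_max_left _ _
  have b2 : v y.2 ≤ nm v y := le_max_right _ _
  refine h1.trans (max_le ?_ ?_)
  · exact mul_le_mul a1 b2 (v.nonneg _) (nm_nonneg v x)
  · exact mul_le_mul a2 b1 (v.nonneg _) (nm_nonneg v x)

variable {L Ω : Type} [Field L] [Field Ω] [Algebra L Ω] {E : Subfield Ω} {P : Type}
  {v : P → AbsoluteValue Ω ℝ}

theorem vv [CharZero L] (hP : Pl L Ω E v) (p : P) : VV (v p) := by
  refine ⟨hP.ultra p, fun n hn => ?_⟩
  have h1 := hP.triv p (n : L) (Nat.cast_ne_zero.mpr hn)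
  rwa [map_natCast] at h1

/-- the norms of a vector are almost all one -/
theorem fin_nm (hP : Pl L Ω E v) {y : Ω × Ω} (h1 : y.1 ∈ E) (h2 : y.2 ∈ E) (hy : y ≠ 0) :
    {p | nm (v p) y ≠ 1}.Finite := by
  by_cases a1 : y.1 = 0
  · have a2 : y.2 ≠ 0 := fun h0 => hy (Prod.ext a1 h0)
    refine (hP.fin y.2 h2 a2).subset (fun p hp => ?_)
    intro hc
    refine hp ?_
    unfold nm
    rw [a1, (v p).map_zero, hc]
    simp
  · by_cases a2 : y.2 = 0
    · refine (hP.fin y.1 h1 a1).subset (fun p hp => ?_)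
      intro hc
      refine hp ?_
      unfold nm
      rw [a2, (v p).map_zero, hc]
      simp
    · refine ((hP.fin y.1 h1 a1).union (hP.fin y.2 h2 a2)).subset (fun p hp => ?_)
      by_contra hc
      simp only [Set.mem_union, Set.mem_setOf_eq, not_or, not_not] at hc
      refine hp ?_
      unfold nm
      rw [hc.1, hc.2, max_self]

theorem fin_gt (hP : Pl L Ω E v) {z : Ω} (hz : z ∈ E) : {p | 1 < v p z}.Finite := by
  by_cases h0 : z = 0
  · have : {p | 1 < v p z} = ∅ := by
      ext p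
      simp only [Set.mem_setOf_eq, Set.mem_empty_iff_false, iff_false, not_lt]
      rw [h0, (v p).map_zero]
      exact zero_le_one
    rw [this]
    exact Set.finite_empty
  · exact (hP.fin z hz h0).subset (fun p hp => (ne_of_gt hp))

/-- almost everywhere the coefficients are integral -/
theorem fin_cn (hP : Pl L Ω E v) {d : ℕ} {f : Pr Ω d} (hf : ∀ i, f.1 i ∈ E ∧ f.2 i ∈ E) :
    {p | 1 < cn (v p) f}.Finite := by
  have h1 : (⋃ i : Fin (d + 1), ({p | 1 < v p (f.1 i)} ∪ {p | 1 < v p (f.2 i)})).Finite :=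
    Set.finite_iUnion (fun i => (fin_gt hP (hf i).1).union (fin_gt hP (hf i).2))
  refine h1.subset (fun p hp => ?_)
  by_contra hc
  simp only [Set.mem_iUnion, Set.mem_union, Set.mem_setOf_eq, not_exists, not_or, not_lt] at hc
  have h2 : cn (v p) f ≤ 1 := max_le (ciSup_le fun i => (hc i).1) (ciSup_le fun i => (hc i).2)
  exact absurd hp (not_lt.mpr h2)

/-- the height is nonnegative -/
theorem ht_nonneg (hP : Pl L Ω E v) {y : Ω × Ω} (h1 : y.1 ∈ E) (h2 : y.2 ∈ E) (hy : y ≠ 0) :
    0 ≤ ht v y := by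
  have hs : Function.HasFiniteSupport (fun p => Real.log (nm (v p) y)) := by
    refine (fin_nm hP h1 h2 hy).subset (fun p hp => ?_)
    intro hc
    refine hp ?_
    simp only [hc, Real.log_one]
  have key : ∀ z : Ω, z ∈ E → z ≠ 0 → (∀ p, v p z ≤ nm (v p) y) → 0 ≤ ht v y := by
    intro z hz hz0 hle
    rw [← hP.pf z hz hz0]
    refine finsum_le_finsum' ?_ hs (fun p => Real.log_le_log ((v p).pos hz0) (hle p))
    refine (hP.fin z hz hz0).subset (fun p hp => ?_)
    intro hc
    refine hp ?_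
    simp only [hc, Real.log_one]
  by_cases a1 : y.1 = 0
  · have a2 : y.2 ≠ 0 := fun h0 => hy (Prod.ext a1 h0)
    exact key y.2 h2 a2 (fun p => le_max_right _ _)
  · exact key y.1 h1 a1 (fun p => le_max_left _ _)

/-- a bounded sequence with `s (n+1) = d s n` is zero -/
theorem zero_of_bdd {d : ℕ} (hd : 2 ≤ d) {s : ℕ → ℝ} {M : ℝ} (h1 : ∀ n, s (n + 1) = d * s n)
    (h2 : ∀ n, |s n| ≤ M) (n : ℕ) : s n = 0 := by
  by_contra hc
  have hd' : (2 : ℝ) ≤ d := by exact_mod_cast hd
  have h3 : ∀ k, (2 : ℝ) ^ k * |s n| ≤ |s (n + k)| := by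
    intro k
    induction k with
    | zero => simp
    | succ k ih =>
      rw [← add_assoc, h1, abs_mul, abs_of_nonneg (by linarith : (0 : ℝ) ≤ d), pow_succ]
      have h0 : 0 ≤ |s (n + k)| := abs_nonneg _
      nlinarith
  have hpos : 0 < |s n| := abs_pos.mpr hc
  obtain ⟨k, hk⟩ := pow_unbounded_of_one_lt (M / |s n|) (one_lt_two : (1 : ℝ) < 2)
  rw [div_lt_iff₀ hpos] at hk
  linarith [h3 k, h2 (n + k)]

/-- partial sums of a function of sum zero that is nonnegative outside `S` -/
theorem sum_le_zero {S : Finset P} {F : P → ℝ} (hF : Function.HasFiniteSupport F)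
    (h0 : ∑ᶠ p, F p = 0) (hS : ∀ p, p ∉ S → 0 ≤ F p) {S' : Finset P} (hSS : S ⊆ S') :
    ∑ p ∈ S', F p ≤ 0 := by
  classical
  rw [← h0, finsum_eq_sum_of_support_toFinset_subset F hF (s := S' ∪ hF.toFinset)
    Finset.subset_union_right]
  refine Finset.sum_le_sum_of_subset_of_nonneg Finset.subset_union_left (fun p _ hp => hS p ?_)
  exact fun h => hp (hSS h)

end SUMG_

open SUMG_ in
theorem p_SUMG (h1 : T_HBDD) (h2 : T_ESC) (h3 : T_GR) : T_SUMG := by
  intro L Ω _ _ _ _ _ E P v hP d k f ρ x μ hag hρ hf hx1 hx2 hx hdist hμ hrel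
  classical
  obtain ⟨B, hB⟩ := h1 L Ω E P v hP d k f ρ x μ hag hρ hf hx1 hx2 hx hμ hrel
  have hd : 2 ≤ d := hag.hd
  -- the exceptional places
  have hfin : ({p | v p ρ ≠ 1} ∪ {p | 1 < cn (v p) f}).Finite :=
    (hP.fin ρ hρ hag.ne).union (fin_cn hP hf)
  set S : Finset P := hfin.toFinset with hS
  have hSρ : ∀ p, p ∉ S → v p ρ = 1 := by
    intro p hp
    by_contra hc
    exact hp (hfin.mem_toFinset.mpr (Or.inl hc))
  have hSf : ∀ p, p ∉ S → cn (v p) f ≤ 1 := by
    intro p hp
    by_contra hc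
    exact hp (hfin.mem_toFinset.mpr (Or.inr (not_le.mp hc)))
  have hex : ∀ p, ∃ (Hp : Ω × Ω → ℝ) (Cp : ℝ), LD (v p) f ρ Hp Cp ∧
      (p ∉ S → ∀ y, Hp y = Real.log (nm (v p) y)) := by
    intro p
    by_cases hp : p ∈ S
    · obtain ⟨Hp, Cp, h⟩ := h2 Ω (v p) d f ρ (vv hP p) hag
      exact ⟨Hp, Cp, h, fun h' => absurd hp h'⟩
    · exact ⟨_, 0, h3 Ω (v p) d f ρ (vv hP p) hag (hSρ p hp) (hSf p hp), fun _ _ => rfl⟩
  choose H C hLD hout using hex
  refine ⟨S, H, C, hLD, ?_⟩
  -- supports
  have supN : ∀ n, Function.HasFiniteSupport (fun p => Real.log (nm (v p) (orb f x n))) := by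
    intro n
    obtain ⟨-, b0, b1, b2⟩ := hB n
    refine (fin_nm hP b1 b2 b0).subset (fun p hp => ?_)
    intro hc
    refine hp ?_
    simp only [hc, Real.log_one]
  have supH : ∀ n, Function.HasFiniteSupport (fun p => H p (orb f x n)) := by
    intro n
    refine ((supN n).union S.finite_toSet).subset (fun p hp => ?_)
    by_cases hpS : p ∈ S
    · exact Or.inr hpS
    · refine Or.inl ?_
      have : H p (orb f x n) ≠ 0 := hp
      rw [hout p hpS] at this
      exact this
  set s : ℕ → ℝ := fun n => ∑ᶠ p, H p (orb f x n) with hs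
  have hs1 : ∀ n, s (n + 1) = d * s n := by
    intro n
    simp only [hs]
    rw [mul_finsum]
    refine finsum_congr (fun p => ?_)
    have e : orb f x (n + 1) = st f (orb f x n) := Function.iterate_succ_apply' _ _ _
    rw [e]
    exact (hLD p).fe _ (hB n).2.1
  have hs2 : ∀ n, |s n - ht v (orb f x n)| ≤ ∑ p ∈ S, |C p| := by
    intro n
    have e1 : s n - ht v (orb f x n) =
        ∑ᶠ p, (H p (orb f x n) - Real.log (nm (v p) (orb f x n))) :=
      (finsum_sub_distrib (supH n) (supN n)).symm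
    have e2 : ∑ᶠ p, (H p (orb f x n) - Real.log (nm (v p) (orb f x n))) =
        ∑ p ∈ S, (H p (orb f x n) - Real.log (nm (v p) (orb f x n))) := by
      refine finsum_eq_sum_of_support_subset _ (fun p hp => ?_)
      by_contra hc
      refine hp ?_
      show H p (orb f x n) - Real.log (nm (v p) (orb f x n)) = 0
      rw [hout p hc, sub_self]
    rw [e1, e2]
    refine (Finset.abs_sum_le_sum_abs _ _).trans (Finset.sum_le_sum (fun p _ => ?_))
    exact ((hLD p).near _ (hB n).2.1).trans (le_abs_self _)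
  have hs3 : ∀ n, s n = 0 := by
    refine zero_of_bdd hd hs1 (M := B + ∑ p ∈ S, |C p|) (fun n => ?_)
    obtain ⟨b, b0, b1, b2⟩ := hB n
    have h0 := ht_nonneg hP b1 b2 b0
    have h1 := abs_le.mp (hs2 n)
    have h4 : 0 ≤ ∑ p ∈ S, |C p| := Finset.sum_nonneg (fun p _ => abs_nonneg _)
    rw [abs_le]
    constructor
    · linarith [h1.1, h1.2]
    · linarith [h1.1, h1.2]
  intro S' hSS n m hnm
  obtain ⟨-, n0, n1, n2⟩ := hB n
  obtain ⟨-, m0, m1, m2⟩ := hB m
  have hw0 : wd (orb f x n) (orb f x m) ≠ 0 := hdist n m hnm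
  have hwE : wd (orb f x n) (orb f x m) ∈ E := E.sub_mem (E.mul_mem n1 m2) (E.mul_mem n2 m1)
  have supW : Function.HasFiniteSupport
      (fun p => Real.log (v p (wd (orb f x n) (orb f x m)))) := by
    refine (hP.fin _ hwE hw0).subset (fun p hp => ?_)
    intro hc
    refine hp ?_
    simp only [hc, Real.log_one]
  have supρ : Function.HasFiniteSupport (fun p => Real.log (v p ρ)) := by
    refine (hP.fin _ hρ hag.ne).subset (fun p hp => ?_)
    intro hc
    refine hp ?_
    simp only [hc, Real.log_one]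
  have supK : Function.HasFiniteSupport (fun p => kp d (v p) ρ) := by
    refine supρ.subset (fun p hp => ?_)
    intro hc
    refine hp ?_
    have hc' : Real.log (v p ρ) = 0 := hc
    simp only [kp, hc', neg_zero, zero_div]
  have supW' : Function.HasFiniteSupport
      (fun p => - Real.log (v p (wd (orb f x n) (orb f x m)))) := by
    refine supW.subset (fun p hp => ?_)
    intro hc
    refine hp ?_
    have hc' : Real.log (v p (wd (orb f x n) (orb f x m))) = 0 := hc
    simp only [hc', neg_zero]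
  have sup1 : Function.HasFiniteSupport
      (fun p => - Real.log (v p (wd (orb f x n) (orb f x m))) + H p (orb f x n)) := by
    refine (supW'.union (supH n)).subset (Function.support_add _ _)
  have sup2 : Function.HasFiniteSupport
      (fun p => - Real.log (v p (wd (orb f x n) (orb f x m))) + H p (orb f x n) +
        H p (orb f x m)) := by
    refine (sup1.union (supH m)).subset (Function.support_add _ _)
  have sup3 : Function.HasFiniteSupport
      (fun p => gg d (v p) ρ (H p) (orb f x n) (orb f x m)) := by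
    refine (sup2.union supK).subset (Function.support_add _ _)
  have hsum : ∑ᶠ p, gg d (v p) ρ (H p) (orb f x n) (orb f x m) = 0 := by
    have e1 : ∑ᶠ p, gg d (v p) ρ (H p) (orb f x n) (orb f x m) =
        ∑ᶠ p, - Real.log (v p (wd (orb f x n) (orb f x m))) + ∑ᶠ p, H p (orb f x n) +
          ∑ᶠ p, H p (orb f x m) + ∑ᶠ p, kp d (v p) ρ := by
      rw [← finsum_add_distrib supW' (supH n), ← finsum_add_distrib sup1 (supH m),
        ← finsum_add_distrib sup2 supK]
      rfl
    have e2 : ∑ᶠ p, - Real.log (v p (wd (orb f x n) (orb f x m))) = 0 := by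
      rw [finsum_neg_distrib, hP.pf _ hwE hw0, neg_zero]
    have e3 : ∑ᶠ p, kp d (v p) ρ = 0 := by
      have : ∀ p, kp d (v p) ρ = (-1 / ((d : ℝ) * (d - 1))) * Real.log (v p ρ) := by
        intro p
        unfold kp
        ring
      rw [finsum_congr this, ← mul_finsum, hP.pf _ hρ hag.ne, mul_zero]
    have e4 : ∑ᶠ p, H p (orb f x n) = 0 := hs3 n
    have e5 : ∑ᶠ p, H p (orb f x m) = 0 := hs3 m
    rw [e1, e2, e3, e4, e5]
    norm_num
  refine sum_le_zero sup3 hsum (S := S) (fun p hp => ?_) hSS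
  simp only [gg]
  rw [hout p hp, hout p hp]
  have hk : kp d (v p) ρ = 0 := by
    simp only [kp, hSρ p hp, Real.log_one, neg_zero, zero_div]
  rw [hk]
  have hle := wd_le (hP.ultra p) (orb f x n) (orb f x m)
  have hlog := Real.log_le_log ((v p).pos hw0) hle
  rw [Real.log_mul (nm_pos _ n0).ne' (nm_pos _ m0).ne'] at hlog
  linarith

end Pool.Agent.UMR
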