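import Pool.Agent.UMR.Targets

set_option autoImplicit false

/-!
# UMR-TAY: divisibility of a determinant of values of integral polynomials at congruent points
-/

namespace Pool.Agent.UMR

namespace TAY_

open Finset

variable {R : Type} [CommRing R]

theorem det_dvd {ι : Type} [Fintype ι] [DecidableEq ι] {D : Type} [Fintype D] [DecidableEq D]
    (P : R) (h q : ℕ) (hq : Fintype.card D ≤ q) (a : ι → D → R) (b : D → ι → R) (N : ι → ι → R) :
    P ^ (h * (Fintype.card ι - q)) ∣
      Matrix.det (Matrix.of fun l j => ∑ α, a l α * b α j + P ^ h * N l j) := by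
  classical
  set g : ι → Option D → (ι → R) := fun l s => s.elim (P ^ h • N l) (fun α => a l α • b α)
    with hg
  have h1 : (Matrix.of fun l j => ∑ α, a l α * b α j + P ^ h * N l j) =
      Matrix.of (fun l => ∑ s : Option D, g l s) := by
    ext l j
    rw [Matrix.of_apply, Matrix.of_apply, Fintype.sum_option, Pi.add_apply, Finset.sum_apply]
    simp only [hg, Option.elim_none, Option.elim_some, Pi.smul_apply, smul_eq_mul]
    ring
  have h2 : Matrix.det (Matrix.of (fun l => ∑ s : Option D, g l s)) =
      ∑ s : ι → Option D, Matrix.det (Matrix.of fun l => g l (s l)) :=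
    MultilinearMap.map_sum (Matrix.detRowAlternating (n := ι) (R := R)).toMultilinearMap g
  rw [h1, h2]
  refine Finset.dvd_sum fun s _ => ?_
  set c : ι → R := fun l => (s l).elim (P ^ h) (a l) with hc
  set m : ι → ι → R := fun l => (s l).elim (N l) b with hm
  have h3 : (Matrix.of fun l => g l (s l)) = Matrix.of fun l j => c l * m l j := by
    ext l j
    rw [Matrix.of_apply, Matrix.of_apply]
    simp only [hg, hc, hm]
    rcases s l with _ | α <;> simp
  rw [h3]
  have h4 : Matrix.det (Matrix.of fun l j => c l * m l j) = (∏ l, c l) * Matrix.det (Matrix.of m) :=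
    Matrix.det_mul_column c (Matrix.of m)
  rw [h4]
  by_cases hinj : ∃ l l', l ≠ l' ∧ s l = s l' ∧ s l ≠ none
  · obtain ⟨l, l', hne, he, hn⟩ := hinj
    have h5 : Matrix.det (Matrix.of m) = 0 := by
      refine Matrix.det_zero_of_row_eq hne ?_
      show m l = m l'
      simp only [hm]
      rw [← he]
      obtain ⟨α, hα⟩ := Option.ne_none_iff_exists'.1 hn
      rw [hα]
      rfl
    rw [h5, mul_zero]
    exact dvd_zero _
  · push Not at hinj
    refine dvd_mul_of_dvd_left ?_ _
    set Z : Finset ι := Finset.univ.filter fun l => s l = none with hZ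
    have h6 : ∏ l ∈ Z, c l ∣ ∏ l, c l := Finset.prod_dvd_prod_of_subset _ _ _ (Finset.subset_univ _)
    have h7 : ∏ l ∈ Z, c l = P ^ (h * Z.card) := by
      rw [pow_mul, Finset.prod_congr rfl (g := fun _ => P ^ h), Finset.prod_const]
      intro l hl
      have : s l = none := (Finset.mem_filter.1 hl).2
      simp only [hc, this, Option.elim_none]
    have h8 : Fintype.card ι - q ≤ Z.card := by
      have h9 : (Finset.univ.filter fun l => s l ≠ none).card ≤ Fintype.card D := by
        have h10 : ((Finset.univ.filter fun l => s l ≠ none).image s) ⊆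
            (Finset.univ : Finset (Option D)).erase none := by
          intro x hx
          rw [Finset.mem_image] at hx
          obtain ⟨l, hl, rfl⟩ := hx
          rw [Finset.mem_erase]
          exact ⟨(Finset.mem_filter.1 hl).2, Finset.mem_univ _⟩
        have h11 := Finset.card_le_card h10
        rw [Finset.card_erase_of_mem (Finset.mem_univ _), Finset.card_univ, Fintype.card_option,
          Finset.card_image_of_injOn] at h11
        · simpa using h11
        · intro l hl l' hl' he
          by_contra hne
          exact (Finset.mem_filter.1 (Finset.mem_coe.1 hl)).2 (hinj l l' hne he)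
      have h12 := Finset.card_filter_add_card_filter_not (s := (Finset.univ : Finset ι))
        (fun l => s l = none)
      rw [Finset.card_univ] at h12
      have h13 : (Finset.univ.filter fun l => ¬ s l = none).card ≤ Fintype.card D := h9
      have h14 : Z.card + (Finset.univ.filter fun l => ¬ s l = none).card = Fintype.card ι := by
        convert h12 using 3
      omega
    rw [h7] at h6
    exact (pow_dvd_pow P (Nat.mul_le_mul_left h h8)).trans h6

/-- exponents of degree at most `h` -/
noncomputable def S (σ : Type) [Fintype σ] (h : ℕ) : Finset (σ →₀ ℕ) := by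
  classical
  exact (Finset.univ : Finset (Sym (Option σ) h)).image
    (fun s => Finsupp.equivFunOnFinite.symm (fun i => s.1.count (some i)))

theorem mem_S {σ : Type} [Fintype σ] {h : ℕ} {d : σ →₀ ℕ} : d ∈ S σ h ↔ ∑ i, d i ≤ h := by
  classical
  unfold S
  rw [Finset.mem_image]
  constructor
  · rintro ⟨s, -, rfl⟩
    have h1 := Multiset.sum_count_eq_card (s := (Finset.univ : Finset (Option σ))) (m := s.1)
      (fun a _ => Finset.mem_univ a)
    rw [Fintype.sum_option] at h1
    have h2 : Multiset.card s.1 = h := s.2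
    rw [h2] at h1
    have h3 : ∀ i : σ, (Finsupp.equivFunOnFinite.symm
        (fun i => Multiset.count (some i) s.1) : σ →₀ ℕ) i = Multiset.count (some i) s.1 :=
      fun i => rfl
    rw [Finset.sum_congr rfl fun i _ => h3 i]
    omega
  · intro hd
    have hcard : Multiset.card ((∑ i, d i • ({some i} : Multiset (Option σ))) +
        (h - ∑ i, d i) • ({none} : Multiset (Option σ))) = h := by
      rw [Multiset.card_add, Multiset.card_nsmul, Multiset.card_singleton, Multiset.card_sum]
      simp only [Multiset.card_nsmul, Multiset.card_singleton]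
      simp only [mul_one]
      omega
    refine ⟨⟨_, hcard⟩, Finset.mem_univ _, ?_⟩
    ext i
    show Multiset.count (some i) ((∑ i, d i • ({some i} : Multiset (Option σ))) +
        (h - ∑ i, d i) • ({none} : Multiset (Option σ))) = d i
    rw [Multiset.count_add, Multiset.count_nsmul, Multiset.count_sum']
    have h4 : ∀ j : σ, Multiset.count (some i) (d j • ({some j} : Multiset (Option σ))) =
        if i = j then d j else 0 := by
      intro j
      rw [Multiset.count_nsmul, Multiset.count_singleton]
      by_cases hij : i = j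
      · subst hij; simp
      · rw [if_neg hij, if_neg (fun hh => hij (Option.some_injective _ hh)), mul_zero]
    rw [Finset.sum_congr rfl fun j _ => h4 j, Finset.sum_ite_eq, if_pos (Finset.mem_univ _),
      Multiset.count_singleton, if_neg (by simp), mul_zero, add_zero]

theorem card_S (σ : Type) [Fintype σ] (h : ℕ) :
    (S σ h).card ≤ (h + Fintype.card σ).choose (Fintype.card σ) := by
  classical
  unfold S
  refine le_trans Finset.card_image_le ?_
  rw [Finset.card_univ, Sym.card_sym_eq_choose, Fintype.card_option]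
  have h1 : Fintype.card σ + 1 + h - 1 = h + Fintype.card σ := by omega
  rw [h1]
  exact le_of_eq (Nat.choose_symm_of_eq_add (by omega))

/-- Taylor expansion -/
theorem expand {σ : Type} [Fintype σ] (P : R) (h : ℕ) (ψ : MvPolynomial σ R) :
    ∃ N : (σ → R) → R,
    ∀ w : σ → R, MvPolynomial.eval (fun k => P * w k) ψ =
      ∑ α : {d // d ∈ S σ h}, (P ^ (∑ i, α.1 i) * ∏ i, w i ^ α.1 i) *
        MvPolynomial.coeff α.1 ψ + P ^ (h + 1) * N w := by
  classical
  refine ⟨fun w => ∑ d ∈ ψ.support.filter (fun d => ¬ ∑ i, d i ≤ h),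
    MvPolynomial.coeff d ψ * (P ^ (∑ i, d i - (h + 1)) * ∏ i, w i ^ d i), fun w => ?_⟩
  have hprod : ∀ d : σ →₀ ℕ, ∏ i, (P * w i) ^ d i = P ^ (∑ i, d i) * ∏ i, w i ^ d i := by
    intro d
    rw [← Finset.prod_pow_eq_pow_sum, ← Finset.prod_mul_distrib]
    exact Finset.prod_congr rfl fun i _ => mul_pow _ _ _
  rw [MvPolynomial.eval_eq', ← Finset.sum_filter_add_sum_filter_not _ (fun d => ∑ i, d i ≤ h)]
  congr 1
  · rw [Finset.sum_coe_sort (S σ h) (fun d => (P ^ (∑ i, d i) * ∏ i, w i ^ d i) *
      MvPolynomial.coeff d ψ)]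
    have hsub : ψ.support.filter (fun d => ∑ i, d i ≤ h) ⊆ S σ h := by
      intro d hd
      exact mem_S.2 (Finset.mem_filter.1 hd).2
    rw [← Finset.sum_subset hsub]
    · refine Finset.sum_congr rfl fun d _ => ?_
      rw [hprod, mul_comm]
    · intro d hd hd'
      have : MvPolynomial.coeff d ψ = 0 := by
        by_contra hne
        exact hd' (Finset.mem_filter.2 ⟨MvPolynomial.mem_support_iff.2 hne, mem_S.1 hd⟩)
      rw [this, mul_zero]
  · rw [Finset.mul_sum]
    refine Finset.sum_congr rfl fun d hd => ?_
    have h1 : ¬ ∑ i, d i ≤ h := (Finset.mem_filter.1 hd).2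
    have h2 : P ^ (∑ i, d i) = P ^ (h + 1) * P ^ (∑ i, d i - (h + 1)) := by
      rw [← pow_add]; congr 1; omega
    rw [hprod]
    calc MvPolynomial.coeff d ψ * (P ^ (∑ i, d i) * ∏ i, w i ^ d i) =
          MvPolynomial.coeff d ψ * ((P ^ (h + 1) * P ^ (∑ i, d i - (h + 1))) *
            ∏ i, w i ^ d i) := by rw [h2]
      _ = _ := by ring

end TAY_

open TAY_ in
theorem p_TAY : T_TAY := by
  classical
  intro σ ι _ _ _ h q Ψ P hP
  rcases isEmpty_or_nonempty ι with hι | ⟨⟨l0⟩⟩
  · have h0 : Fintype.card ι = 0 := Fintype.card_eq_zero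
    rw [h0, Nat.zero_sub, zero_mul, pow_zero]
    exact one_dvd _
  have hw : ∀ l k, ∃ w : ℤ, P l k = (q : ℤ) * w + P l0 k := by
    intro l k
    obtain ⟨w, hw⟩ := hP l l0 k
    exact ⟨w, by rw [← hw]; ring⟩
  choose w hw using hw
  -- shifted polynomials
  set ψ : ι → MvPolynomial σ ℤ := fun j =>
    MvPolynomial.bind₁ (fun k => MvPolynomial.X k + MvPolynomial.C (P l0 k)) (Ψ j) with hψ
  have hev : ∀ l j, MvPolynomial.eval (P l) (Ψ j) =
      MvPolynomial.eval (fun k => (q : ℤ) * w l k) (ψ j) := by
    intro l j
    have h1 : MvPolynomial.eval (fun k => (q : ℤ) * w l k) (ψ j) =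
        MvPolynomial.eval (fun k => MvPolynomial.eval (fun k => (q : ℤ) * w l k)
          (MvPolynomial.X k + MvPolynomial.C (P l0 k))) (Ψ j) := by
      simp only [hψ]
      rw [MvPolynomial.eval, MvPolynomial.eval₂Hom_bind₁]
      rfl
    have h5 : P l = fun k => MvPolynomial.eval (fun k => (q : ℤ) * w l k)
        (MvPolynomial.X k + MvPolynomial.C (P l0 k)) := by
      funext k
      rw [MvPolynomial.eval_add, MvPolynomial.eval_X, MvPolynomial.eval_C]
      exact hw l k
    rw [h1, ← h5]
  choose N hN using fun j => expand (q : ℤ) h (ψ j)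
  have hM : (Matrix.of fun l s => MvPolynomial.eval (P l) (Ψ s)) =
      Matrix.of fun l s => ∑ α : {d // d ∈ S σ h},
        ((q : ℤ) ^ (∑ i, α.1 i) * ∏ i, w l i ^ α.1 i) *
        MvPolynomial.coeff α.1 (ψ s) + (q : ℤ) ^ (h + 1) * N s (w l) := by
    ext l j
    rw [Matrix.of_apply, Matrix.of_apply, hev, hN]
  rw [hM, mul_comm (_ - _)]
  exact det_dvd (D := {d // d ∈ S σ h}) (q : ℤ) (h + 1)
    ((h + Fintype.card σ).choose (Fintype.card σ))
    (by rw [Fintype.card_coe]; exact card_S σ h)
    (fun l α => (q : ℤ) ^ (∑ i, α.1 i) * ∏ i, w l i ^ α.1 i)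
    (fun α j => MvPolynomial.coeff α.1 (ψ j)) (fun l j => N j (w l))

end Pool.Agent.UMR
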