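import Pool.Agent.UMR.Targets

/-!
# Project UMR, TB: a finite transcendence basis of a finitely generated extension
-/

set_option autoImplicit false

namespace Pool.Agent.UMR

theorem p_TB : T_TB := by
  intro L F _ _ _ ⟨s, hs, htop⟩
  have h1 : Algebra.IsAlgebraic (IntermediateField.adjoin L s) F := by
    rw [htop]
    exact ⟨fun z => isAlgebraic_algebraMap (⟨z, trivial⟩ : (⊤ : IntermediateField L F))⟩
  have h2 : Algebra.IsAlgebraic (Algebra.adjoin L s) F :=
    ⟨fun z => IntermediateField.isAlgebraic_adjoin_iff.mp (h1.isAlgebraic z)⟩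
  obtain ⟨t, hts, ht⟩ := exists_isTranscendenceBasis_subset (R := L) (A := F) s
  have htf : t.Finite := hs.subset hts
  have : Fintype t := htf.fintype
  let e : Fin (Fintype.card t) ≃ t := (Fintype.equivFin t).symm
  refine ⟨Fintype.card t, fun i => (e i : F), ?_, ?_⟩
  · exact ht.1.comp e e.injective
  · intro z
    have hr : Set.range (fun i => (e i : F)) = Set.range ((↑) : t → F) := by
      ext y
      constructor
      · rintro ⟨i, rfl⟩
        exact ⟨e i, rfl⟩
      · rintro ⟨i, rfl⟩
        exact ⟨e.symm i, by simp⟩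
    rw [hr]
    have h3 := ht.isAlgebraic
    exact IntermediateField.isAlgebraic_adjoin_iff.mpr (h3.isAlgebraic z)

end Pool.Agent.UMR
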