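import Pool.Agent.UMR.Targets

set_option autoImplicit false
set_option maxHeartbeats 4000000

/-!
# Project UMR, target TWO: positivity of the energy for two circles
-/

namespace Pool.Agent.UMR

open Finset Filter Topology
open scoped BigOperators

namespace TWO_

variable {K : Type} [Field K]

theorem nm_le_iff (v : AbsoluteValue K ℝ) (x : K × K) (r : ℝ) :
    nm v x ≤ r ↔ v x.1 ≤ r ∧ v x.2 ≤ r := by
  unfold nm
  exact max_le_iff

theorem nm_nonneg (v : AbsoluteValue K ℝ) (x : K × K) : 0 ≤ nm v x :=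
  le_max_of_le_left (v.nonneg _)

/-- the escape rate is bounded above on the unit ball -/
theorem bdd {d : ℕ} {v : AbsoluteValue K ℝ} {f : Pr K d} {ρ : K} {H : K × K → ℝ} {C : ℝ}
    (h : LD v f ρ H C) : BddAbove {r | ∃ x, x ≠ 0 ∧ nm v x ≤ 1 ∧ r = H x} := by
  refine ⟨C, ?_⟩
  rintro _ ⟨x, hx, hx1, rfl⟩
  have h1 := (abs_le.mp (h.near x hx)).2
  have h2 : Real.log (nm v x) ≤ 0 := Real.log_nonpos (nm_nonneg v x) hx1
  linarith

theorem le_GG {d : ℕ} {v : AbsoluteValue K ℝ} {f : Pr K d} {ρ : K} {H : K × K → ℝ} {C : ℝ}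
    (h : LD v f ρ H C) {x : K × K} (hx : x ≠ 0) (hx1 : nm v x ≤ 1) : H x ≤ GG v H :=
  le_csSup (bdd h) ⟨x, hx, hx1, rfl⟩

/-- `v (a - 1) = 1` for `v a < 1` -/
theorem sub_one {v : AbsoluteValue K ℝ} (hv : VV v) {a : K} (ha : v a < 1) : v (a - 1) = 1 := by
  refine le_antisymm ?_ ?_
  · have := hv.ultra a (-1)
    rw [← sub_eq_add_neg, v.map_neg, v.map_one] at this
    exact this.trans (max_le ha.le le_rfl)
  · by_contra hc
    push Not at hc
    have h1 := hv.ultra (a) (-(a - 1))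
    have e : a + -(a - 1) = 1 := by ring
    rw [e, v.map_one, v.map_neg] at h1
    rcases le_max_iff.mp h1 with h | h <;> linarith

theorem nat_sub {v : AbsoluteValue K ℝ} (hv : VV v) {a b : ℕ} (h : a ≠ b) :
    v ((a : K) - b) = 1 := by
  rcases Nat.lt_or_gt_of_ne h with h | h
  · have e : (a : K) - b = -((b - a : ℕ) : K) := by
      rw [Nat.cast_sub h.le]
      ring
    rw [e, v.map_neg]
    exact hv.nat _ (by omega)
  · have e : (a : K) - b = ((a - b : ℕ) : K) := by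
      rw [Nat.cast_sub h.le]
    rw [e]
    exact hv.nat _ (by omega)

theorem off {N : ℕ} (b : Fin N → Fin N → ℝ) (hb : ∀ i j, b i j = b j i) :
    2 * ∑ i, ∑ j ∈ Ioi i, b i j = ∑ i, ∑ j, b i j - ∑ i, b i i := by
  have h1 := Finset.sum_sum_Ioi_add_eq_sum_sum_off_diag b
  have h2 : ∀ i : Fin N, ∑ j ∈ {i}ᶜ, b j i = ∑ j, b i j - b i i := by
    intro i
    rw [← Finset.sum_compl_add_sum {i} (fun j => b i j), Finset.sum_singleton, add_sub_cancel_right]
    exact Finset.sum_congr rfl (fun j _ => hb j i)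
  rw [Finset.sum_congr rfl (fun i _ => h2 i), Finset.sum_sub_distrib] at h1
  rw [← h1, Finset.mul_sum]
  refine Finset.sum_congr rfl (fun i _ => ?_)
  rw [Finset.mul_sum]
  refine Finset.sum_congr rfl (fun j _ => ?_)
  rw [hb j i]
  ring

/-- the number of indices `≥ M` below `N` -/
theorem count {N M : ℕ} (h : M ≤ N) : ∑ i : Fin N, (if M ≤ (i : ℕ) then (1 : ℝ) else 0) = N - M := by
  rw [Fin.sum_univ_eq_sum_range (fun i => if M ≤ i then (1 : ℝ) else 0) N]
  have h1 := Finset.sum_range_add_sum_Ico (fun i => if M ≤ i then (1 : ℝ) else 0) h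
  rw [← h1]
  have h2 : ∑ k ∈ range M, (if M ≤ k then (1 : ℝ) else 0) = 0 :=
    Finset.sum_eq_zero (fun k hk => by
      rw [Finset.mem_range] at hk
      rw [if_neg (by omega)])
  have h3 : ∑ k ∈ Ico M N, (if M ≤ k then (1 : ℝ) else 0) = N - M := by
    rw [Finset.sum_congr rfl (fun k hk => if_pos (Finset.mem_Ico.mp hk).1), Finset.sum_const,
      Nat.card_Ico, nsmul_eq_mul, mul_one, Nat.cast_sub h]
  rw [h2, h3, zero_add]

theorem sum_two {N : ℕ} (E D L : ℝ) (t : Fin N → ℝ) {S : ℝ} (hS : ∑ i, t i = S) :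
    ∑ i, ∑ j, (E - D * (t i + t j) + L * (t i * t j)) =
      (N : ℝ) * N * E - 2 * D * N * S + L * S ^ 2 := by
  have : ∀ i, ∑ j, (E - D * (t i + t j) + L * (t i * t j)) =
      N * E - D * (N * t i + S) + L * (t i * S) := by
    intro i
    rw [Finset.sum_add_distrib, Finset.sum_sub_distrib, ← Finset.mul_sum, ← Finset.mul_sum,
      Finset.sum_add_distrib, ← Finset.mul_sum, hS]
    simp only [Finset.sum_const, Finset.card_univ, Fintype.card_fin, nsmul_eq_mul]
  rw [Finset.sum_congr rfl (fun i _ => this i)]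
  simp only [Finset.sum_add_distrib, Finset.sum_sub_distrib, ← Finset.mul_sum, ← Finset.sum_mul,
    hS, Finset.sum_const, Finset.card_univ, Fintype.card_fin, nsmul_eq_mul]
  ring

theorem sum_one {N : ℕ} (E D L : ℝ) (t : Fin N → ℝ) {S : ℝ} (hS : ∑ i, t i = S)
    (ht : ∀ i, t i * t i = t i) :
    ∑ i, (E - D * (t i + t i) + L * (t i * t i)) = N * E - 2 * D * S + L * S := by
  rw [Finset.sum_congr rfl (fun i _ => by rw [ht i]), Finset.sum_add_distrib,
    Finset.sum_sub_distrib, ← Finset.mul_sum, ← Finset.mul_sum, Finset.sum_add_distrib, hS]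
  simp only [Finset.sum_const, Finset.card_univ, Fintype.card_fin, nsmul_eq_mul]
  ring

/-- the quadratic expression from the energy -/
theorem energy_bound {v : AbsoluteValue K ℝ} {d : ℕ} {f : Pr K d} {ρ : K} {H : K × K → ℝ}
    {C : ℝ} {lam : K} {g : ℝ} (h : LD v f ρ H C) (hlam : lam ≠ 0) (hlam1 : v lam < 1)
    (hg : ∀ y : K × K, y ≠ 0 → nm v y ≤ 1 → H (y.1, lam * y.2) ≤ g) {C' : ℝ}
    (hE : ∀ (m : ℕ) (x : Fin (d ^ m) → K × K), (∀ i j, i ≠ j → wd (x i) (x j) ≠ 0) →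
      (∀ i, x i ≠ 0) → - (C' * m * d ^ m) ≤ ∑ i, ∑ j ∈ Ioi i, gg d v ρ H (x i) (x j))
    (m M : ℕ) (hM : M ≤ d ^ m) :
    - (2 * C' * m * d ^ m) ≤ (d : ℝ) ^ m * (d : ℝ) ^ m * (kp d v ρ + 2 * GG v H) -
      2 * (GG v H - g) * d ^ m * (d ^ m - M) + - Real.log (v lam) * (d ^ m - M) ^ 2 -
      (d ^ m * (kp d v ρ + 2 * GG v H) - 2 * (GG v H - g) * (d ^ m - M) +
        - Real.log (v lam) * (d ^ m - M)) := by
  have hv := h.vv
  set E : ℝ := kp d v ρ + 2 * GG v H with hEdef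
  set D : ℝ := GG v H - g with hD
  set L : ℝ := - Real.log (v lam) with hL
  set t : Fin (d ^ m) → ℝ := fun i => if M ≤ (i : ℕ) then 1 else 0 with ht
  set x : Fin (d ^ m) → K × K := fun i =>
    if M ≤ (i : ℕ) then (1, lam * (((i : ℕ) + 1 : ℕ) : K)) else ((((i : ℕ) + 1 : ℕ) : K), 1) with hx
  have v1 : ∀ n : ℕ, v ((n + 1 : ℕ) : K) = 1 := fun n => hv.nat _ (by omega)
  have x0 : ∀ i, x i ≠ 0 := by
    intro i
    simp only [hx]
    split_ifs
    · intro h0
      exact one_ne_zero (congrArg Prod.fst h0)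
    · intro h0
      exact one_ne_zero (congrArg Prod.snd h0)
  -- values of the wedges
  have w11 : ∀ a b : ℕ, a ≠ b →
      v (wd ((((a + 1 : ℕ) : K), 1) : K × K) (((b + 1 : ℕ) : K), 1)) = 1 := by
    intro a b hab
    have e : wd ((((a + 1 : ℕ) : K), 1) : K × K) (((b + 1 : ℕ) : K), 1) =
        ((a + 1 : ℕ) : K) - ((b + 1 : ℕ) : K) := by
      simp only [wd]
      ring
    rw [e]
    exact nat_sub hv (by omega)
  have w12 : ∀ a b : ℕ,
      v (wd ((((a + 1 : ℕ) : K), 1) : K × K) (1, lam * ((b + 1 : ℕ) : K))) = 1 := by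
    intro a b
    have e : wd ((((a + 1 : ℕ) : K), 1) : K × K) (1, lam * ((b + 1 : ℕ) : K)) =
        ((a + 1 : ℕ) : K) * (lam * ((b + 1 : ℕ) : K)) - 1 := by
      simp only [wd]
      ring
    rw [e]
    refine sub_one hv ?_
    rw [v.map_mul, v.map_mul, v1, v1, one_mul, mul_one]
    exact hlam1
  have w21 : ∀ a b : ℕ,
      v (wd ((1, lam * ((b + 1 : ℕ) : K)) : K × K) (((a + 1 : ℕ) : K), 1)) = 1 := by
    intro a b
    have e : wd ((1, lam * ((b + 1 : ℕ) : K)) : K × K) (((a + 1 : ℕ) : K), 1) =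
        -(((a + 1 : ℕ) : K) * (lam * ((b + 1 : ℕ) : K)) - 1) := by
      simp only [wd]
      ring
    rw [e, v.map_neg]
    refine sub_one hv ?_
    rw [v.map_mul, v.map_mul, v1, v1, one_mul, mul_one]
    exact hlam1
  have w22 : ∀ a b : ℕ, a ≠ b →
      v (wd ((1, lam * ((a + 1 : ℕ) : K)) : K × K) (1, lam * ((b + 1 : ℕ) : K))) = v lam := by
    intro a b hab
    have e : wd ((1, lam * ((a + 1 : ℕ) : K)) : K × K) (1, lam * ((b + 1 : ℕ) : K)) =
        lam * (((b + 1 : ℕ) : K) - ((a + 1 : ℕ) : K)) := by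
      simp only [wd]
      ring
    rw [e, v.map_mul, nat_sub hv (by omega), mul_one]
  have vlam : 0 < v lam := v.pos hlam
  have hH1 : ∀ a : ℕ, H (((a + 1 : ℕ) : K), 1) ≤ GG v H := by
    intro a
    refine le_GG h ?_ ?_
    · intro h0
      exact one_ne_zero (congrArg Prod.snd h0)
    · rw [nm_le_iff]
      simp only [v.map_one, le_refl, and_true]
      exact (v1 a).le
  have hH2 : ∀ a : ℕ, H (1, lam * ((a + 1 : ℕ) : K)) ≤ g := by
    intro a
    refine hg (1, ((a + 1 : ℕ) : K)) ?_ ?_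
    · intro h0
      exact one_ne_zero (congrArg Prod.fst h0)
    · rw [nm_le_iff]
      simp only [v.map_one, le_refl, true_and]
      exact (v1 a).le
  have wx : ∀ i j, i ≠ j → wd (x i) (x j) ≠ 0 := by
    intro i j hij
    have hij' : (i : ℕ) ≠ j := fun h0 => hij (Fin.ext h0)
    have : 0 < v (wd (x i) (x j)) := by
      simp only [hx]
      split_ifs
      · rw [w22 _ _ hij']
        exact vlam
      · rw [w21]
        exact one_pos
      · rw [w12]
        exact one_pos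
      · rw [w11 _ _ hij']
        exact one_pos
    exact v.pos_iff.mp this
  have key : ∀ i j, i ≠ j → gg d v ρ H (x i) (x j) ≤ E - D * (t i + t j) + L * (t i * t j) := by
    intro i j hij
    have hij' : (i : ℕ) ≠ j := fun h0 => hij (Fin.ext h0)
    simp only [hx, ht, gg]
    split_ifs
    · rw [w22 _ _ hij']
      have := hH2 i
      have := hH2 j
      linarith
    · rw [w21, Real.log_one]
      have := hH2 i
      have := hH1 j
      linarith
    · rw [w12, Real.log_one]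
      have := hH1 i
      have := hH2 j
      linarith
    · rw [w11 _ _ hij', Real.log_one]
      have := hH1 i
      have := hH1 j
      linarith
  have hen := hE m x wx x0
  have hle : ∑ i, ∑ j ∈ Ioi i, gg d v ρ H (x i) (x j) ≤
      ∑ i, ∑ j ∈ Ioi i, (E - D * (t i + t j) + L * (t i * t j)) := by
    refine Finset.sum_le_sum (fun i _ => Finset.sum_le_sum (fun j hj => key i j ?_))
    exact (Finset.mem_Ioi.mp hj).ne
  have hoff := off (fun i j => E - D * (t i + t j) + L * (t i * t j)) (fun i j => by ring)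
  have hsum : ∑ i, t i = (d : ℝ) ^ m - M := by
    have := count hM
    rw [ht]
    rw [this]
    push_cast
    ring
  have htt : ∀ i, t i * t i = t i := by
    intro i
    simp only [ht]
    split_ifs <;> norm_num
  have s1 := sum_two E D L t (S := (d : ℝ) ^ m - M) hsum
  have s2 := sum_one E D L t (S := (d : ℝ) ^ m - M) hsum htt
  push_cast at s1 s2
  rw [s1, s2] at hoff
  linarith

/-- the limit of the energies -/
theorem Q_nonneg {v : AbsoluteValue K ℝ} {d : ℕ} {f : Pr K d} {ρ : K} {H : K × K → ℝ}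
    {C : ℝ} {lam : K} {g : ℝ} (h : LD v f ρ H C) (hlam : lam ≠ 0) (hlam1 : v lam < 1)
    (hg : ∀ y : K × K, y ≠ 0 → nm v y ≤ 1 → H (y.1, lam * y.2) ≤ g) (hgG : g ≤ GG v H) {C' : ℝ}
    (hE : ∀ (m : ℕ) (x : Fin (d ^ m) → K × K), (∀ i j, i ≠ j → wd (x i) (x j) ≠ 0) →
      (∀ i, x i ≠ 0) → - (C' * m * d ^ m) ≤ ∑ i, ∑ j ∈ Ioi i, gg d v ρ H (x i) (x j))
    {β : ℝ} (hβ0 : 0 ≤ β) (hβ1 : β ≤ 1) :
    0 ≤ (kp d v ρ + 2 * GG v H) - 2 * (GG v H - g) * β + - Real.log (v lam) * β ^ 2 := by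
  have hL : 0 ≤ - Real.log (v lam) := by
    have := Real.log_nonpos (v.nonneg lam) hlam1.le
    linarith
  have hD : 0 ≤ GG v H - g := by linarith
  set E : ℝ := kp d v ρ + 2 * GG v H with hEdef
  set D : ℝ := GG v H - g with hDd
  set L : ℝ := - Real.log (v lam) with hLd
  have hd : 2 ≤ d := h.ag.hd
  have hd1 : (1 : ℝ) < d := by exact_mod_cast (by omega : 1 < d)
  have key : ∀ m : ℕ, -((2 * D + |E| + 2 * D + L) * (1 / (d : ℝ) ^ m) + 2 * C' * (m / (d : ℝ) ^ m))
      ≤ E - 2 * D * β + L * β ^ 2 := by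
    intro m
    have hN : (1 : ℝ) ≤ (d : ℝ) ^ m := one_le_pow₀ hd1.le
    have hNpos : (0 : ℝ) < (d : ℝ) ^ m := by linarith
    set N2 : ℕ := ⌊β * (d : ℝ) ^ m⌋₊ with hN2
    have h1 : (N2 : ℝ) ≤ β * (d : ℝ) ^ m := Nat.floor_le (by positivity)
    have h2 : β * (d : ℝ) ^ m < N2 + 1 := Nat.lt_floor_add_one _
    have h3 : N2 ≤ d ^ m := by
      have : (N2 : ℝ) ≤ ((d ^ m : ℕ) : ℝ) := by
        push_cast
        nlinarith
      exact_mod_cast this
    have hb := energy_bound h hlam hlam1 hg hE m (d ^ m - N2) (Nat.sub_le _ _)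
    rw [← hEdef, ← hDd, ← hLd] at hb
    have e : ((d ^ m - N2 : ℕ) : ℝ) = (d : ℝ) ^ m - N2 := by
      rw [Nat.cast_sub h3]
      push_cast
      rfl
    rw [e] at hb
    have e2 : (d : ℝ) ^ m - ((d : ℝ) ^ m - N2) = N2 := by ring
    rw [e2] at hb
    set N : ℝ := (d : ℝ) ^ m with hNd
    have hE1 : -|E| ≤ E := neg_abs_le E
    have n2 : (0 : ℝ) ≤ N2 := Nat.cast_nonneg _
    have i1 : L * (N2 : ℝ) ^ 2 ≤ L * (β * N) ^ 2 := by gcongr
    have i2 : 2 * D * N * (β * N - 1) ≤ 2 * D * N * N2 := by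
      have : 0 ≤ 2 * D * N := by positivity
      exact mul_le_mul_of_nonneg_left (by linarith) this
    have i3 : -(N * |E|) ≤ N * E := by nlinarith
    have i4 : 2 * D * (N2 : ℝ) ≤ 2 * D * N := by
      have : (N2 : ℝ) ≤ N := by nlinarith
      have h0 : 0 ≤ 2 * D := by positivity
      exact mul_le_mul_of_nonneg_left this h0
    have i5 : 0 ≤ L * (N2 : ℝ) := by positivity
    have i6 : 0 ≤ L * N := by positivity
    have main : -((2 * D + |E| + 2 * D + L) * N + 2 * C' * m * N) ≤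
        N ^ 2 * (E - 2 * D * β + L * β ^ 2) := by nlinarith
    have hdiv : -((2 * D + |E| + 2 * D + L) * (1 / N) + 2 * C' * (m / N)) =
        -((2 * D + |E| + 2 * D + L) * N + 2 * C' * m * N) / N ^ 2 := by
      field_simp
    rw [hdiv, div_le_iff₀ (by positivity)]
    linarith
  have lim : Tendsto (fun m : ℕ =>
      -((2 * D + |E| + 2 * D + L) * (1 / (d : ℝ) ^ m) + 2 * C' * (m / (d : ℝ) ^ m))) atTop
      (𝓝 (-((2 * D + |E| + 2 * D + L) * 0 + 2 * C' * 0))) := by
    have l1 : Tendsto (fun m : ℕ => 1 / (d : ℝ) ^ m) atTop (𝓝 0) := by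
      have := tendsto_pow_const_div_const_pow_of_one_lt 0 hd1
      simpa using this
    have l2 : Tendsto (fun m : ℕ => (m : ℝ) / (d : ℝ) ^ m) atTop (𝓝 0) := by
      have := tendsto_pow_const_div_const_pow_of_one_lt 1 hd1
      simpa using this
    exact ((l1.const_mul _).add (l2.const_mul _)).neg
  have := le_of_tendsto' lim key
  simpa using this

/-- `GG ≤ g + L` -/
theorem GG_le {v : AbsoluteValue K ℝ} {d : ℕ} {f : Pr K d} {ρ : K} {H : K × K → ℝ}
    {C : ℝ} {lam : K} {g : ℝ} (h : LD v f ρ H C) (hlam : lam ≠ 0) (hlam1 : v lam < 1)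
    (hg : ∀ y : K × K, y ≠ 0 → nm v y ≤ 1 → H (y.1, lam * y.2) ≤ g) :
    GG v H ≤ g + - Real.log (v lam) := by
  refine csSup_le ?_ ?_
  · refine ⟨H (1, 0), (1, 0), ?_, ?_, rfl⟩
    · intro h0
      exact one_ne_zero (congrArg Prod.fst h0)
    · rw [nm_le_iff]
      simp
  · rintro _ ⟨x, hx, hx1, rfl⟩
    rw [nm_le_iff] at hx1
    have h1 := h.hom lam x hlam hx
    have h2 : lam • x = ((lam * x.1, x.2).1, lam * (lam * x.1, x.2).2) := rfl
    have h3 : H (lam • x) ≤ g := by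
      rw [h2]
      refine hg (lam * x.1, x.2) ?_ ?_
      · intro h0
        have a1 : lam * x.1 = 0 := congrArg Prod.fst h0
        have a2 : x.2 = 0 := congrArg Prod.snd h0
        exact hx (Prod.ext ((mul_eq_zero.mp a1).resolve_left hlam) a2)
      · rw [nm_le_iff]
        refine ⟨?_, hx1.2⟩
        show v (lam * x.1) ≤ 1
        rw [v.map_mul]
        nlinarith [v.nonneg lam, v.nonneg x.1, hx1.1]
    linarith

end TWO_

theorem p_TWO (h1 : T_ENERGY) : T_TWO := by
  intro K _ _ _ v d f ρ H C lam g h hlam hlam1 hg hgG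
  obtain ⟨C', -, hE⟩ := h1 K v d f ρ H C h
  have hL : 0 < - Real.log (v lam) := by
    have := Real.log_neg (v.pos hlam) hlam1
    linarith
  have hD : 0 ≤ GG v H - g := by linarith
  have hDL : GG v H - g ≤ - Real.log (v lam) := by
    have := TWO_.GG_le h hlam hlam1 hg
    linarith
  have q0 := TWO_.Q_nonneg h hlam hlam1 hg hgG hE le_rfl zero_le_one
  have q1 := TWO_.Q_nonneg h hlam hlam1 hg hgG hE (div_nonneg hD hL.le)
    ((div_le_one hL).mpr hDL)
  refine ⟨by linarith, ?_⟩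
  set D := GG v H - g
  set L := - Real.log (v lam)
  set E := kp d v ρ + 2 * GG v H
  have e : E - 2 * D * (D / L) + L * (D / L) ^ 2 = E - D ^ 2 / L := by
    field_simp
    ring
  rw [e] at q1
  have : D ^ 2 / L ≤ E := by linarith
  rw [div_le_iff₀ hL] at this
  linarith

end Pool.Agent.UMR
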