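import Pool.Agent.UMR.Targets

set_option autoImplicit false
set_option maxHeartbeats 4000000

namespace Pool.Agent.UMR

open Finset
open scoped BigOperators

theorem p_VAN : T_VAN := by
  intro K _ N φ hN hφ
  obtain ⟨M, rfl⟩ : ∃ M, N = M + 1 := ⟨N - 1, by omega⟩
  choose c hc using hφ
  refine ⟨(Matrix.of fun (s : Fin (M + 1)) (t : Fin (M + 1)) => (c s (Fin.cast (by simp) t) : K)).det *
    ∏ i : Fin (M + 1), ∏ _j ∈ Ioi i, (-1 : K), fun x => ?_⟩
  have hmat : (Matrix.of fun s i => φ s (x i)) =
      (Matrix.of fun (s : Fin (M + 1)) (t : Fin (M + 1)) => (c s (Fin.cast (by simp) t) : K)) *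
        (Matrix.projVandermonde (fun i => (x i).1) (fun i => (x i).2)).transpose := by
    ext s i
    rw [Matrix.mul_apply]
    simp only [Matrix.of_apply, Matrix.transpose_apply, Matrix.projVandermonde_apply]
    rw [hc]
    unfold fv
    refine Finset.sum_congr rfl fun t _ => ?_
    have h1 : ((Fin.rev t : Fin (M + 1)) : ℕ) = M + 1 - 1 - (t : ℕ) := by
      rw [Fin.val_rev]; omega
    rw [h1]
    simp only [Nat.add_sub_cancel]
    exact mul_assoc _ _ _
  rw [hmat, Matrix.det_mul, Matrix.det_transpose, Matrix.det_projVandermonde, mul_assoc]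
  congr 1
  unfold VP
  rw [← Finset.prod_mul_distrib]
  refine Finset.prod_congr rfl fun i _ => ?_
  rw [← Finset.prod_mul_distrib]
  refine Finset.prod_congr rfl fun j _ => ?_
  unfold wd
  ring

end Pool.Agent.UMR
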