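import Pool.Agent.UMR.Targets

set_option autoImplicit false

/-!
# UMR, target COMP: composition of pairs of binary forms
-/

namespace Pool.Agent.UMR

open Finset
open scoped BigOperators

namespace COMP_

/-- `φ` is a form of degree `n` over a commutative ring -/
def IsF {A : Type} [CommRing A] (n : ℕ) (φ : A × A → A) : Prop :=
  ∃ c : Fin (n + 1) → A, ∀ x, φ x = fv c x

theorem isF_zero {A : Type} [CommRing A] (n : ℕ) : IsF n (fun _ : A × A => (0 : A)) :=
  ⟨fun _ => 0, fun x => by simp [fv]⟩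

theorem isF_add {A : Type} [CommRing A] {n : ℕ} {φ ψ : A × A → A} (h1 : IsF n φ)
    (h2 : IsF n ψ) : IsF n (fun x => φ x + ψ x) := by
  obtain ⟨c, hc⟩ := h1
  obtain ⟨e, he⟩ := h2
  refine ⟨fun i => c i + e i, fun x => ?_⟩
  show φ x + ψ x = _
  rw [hc, he]
  unfold fv
  rw [← Finset.sum_add_distrib]
  refine Finset.sum_congr rfl fun i _ => ?_
  ring

theorem isF_smul {A : Type} [CommRing A] {n : ℕ} {φ : A × A → A} (a : A) (h1 : IsF n φ) :
    IsF n (fun x => a * φ x) := by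
  obtain ⟨c, hc⟩ := h1
  refine ⟨fun i => a * c i, fun x => ?_⟩
  show a * φ x = _
  rw [hc]
  unfold fv
  rw [Finset.mul_sum]
  refine Finset.sum_congr rfl fun i _ => ?_
  ring

theorem isF_sum {A : Type} [CommRing A] {n : ℕ} {ι : Type} (s : Finset ι)
    (φ : ι → A × A → A) (h : ∀ i ∈ s, IsF n (φ i)) : IsF n (fun x => ∑ i ∈ s, φ i x) := by
  classical
  induction s using Finset.induction_on with
  | empty => simpa using isF_zero (A := A) n
  | insert a s ha ih =>
    have h1 := isF_add (h a (Finset.mem_insert_self a s))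
      (ih fun i hi => h i (Finset.mem_insert_of_mem hi))
    have h2 : (fun x => ∑ i ∈ insert a s, φ i x) = fun x => φ a x + ∑ i ∈ s, φ i x := by
      funext x
      rw [Finset.sum_insert ha]
    rw [h2]
    exact h1

theorem isF_mul {A : Type} [CommRing A] {a b : ℕ} {φ ψ : A × A → A} (h1 : IsF a φ)
    (h2 : IsF b ψ) : IsF (a + b) (fun x => φ x * ψ x) := by
  obtain ⟨c, hc⟩ := h1
  obtain ⟨e, he⟩ := h2
  refine ⟨fun s => ∑ i : Fin (a + 1), ∑ j : Fin (b + 1),
    if (i : ℕ) + (j : ℕ) = (s : ℕ) then c i * e j else 0, fun x => ?_⟩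
  show φ x * ψ x = _
  rw [hc, he]
  unfold fv
  rw [Finset.sum_mul_sum]
  have h3 : ∀ s : Fin (a + b + 1), (∑ i : Fin (a + 1), ∑ j : Fin (b + 1),
      if (i : ℕ) + (j : ℕ) = (s : ℕ) then c i * e j else 0) * x.1 ^ (s : ℕ) *
        x.2 ^ (a + b - (s : ℕ)) = ∑ i : Fin (a + 1), ∑ j : Fin (b + 1),
      if (i : ℕ) + (j : ℕ) = (s : ℕ) then c i * e j * x.1 ^ (s : ℕ) *
        x.2 ^ (a + b - (s : ℕ)) else 0 := by
    intro s
    rw [Finset.sum_mul, Finset.sum_mul]
    refine Finset.sum_congr rfl fun i _ => ?_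
    rw [Finset.sum_mul, Finset.sum_mul]
    refine Finset.sum_congr rfl fun j _ => ?_
    split_ifs
    · rfl
    · ring
  simp only [h3]
  symm
  rw [Finset.sum_comm]
  refine Finset.sum_congr rfl fun i _ => ?_
  rw [Finset.sum_comm]
  refine Finset.sum_congr rfl fun j _ => ?_
  have hi : (i : ℕ) ≤ a := Nat.lt_succ_iff.mp i.2
  have hj : (j : ℕ) ≤ b := Nat.lt_succ_iff.mp j.2
  have hs : (i : ℕ) + (j : ℕ) < a + b + 1 := by omega
  rw [Finset.sum_eq_single (⟨(i : ℕ) + (j : ℕ), hs⟩ : Fin (a + b + 1))]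
  · rw [if_pos rfl]
    have h4 : a + b - ((i : ℕ) + (j : ℕ)) = (a - (i : ℕ)) + (b - (j : ℕ)) := by omega
    simp only [h4, pow_add]
    ring
  · intro s _ hne
    rw [if_neg]
    intro h5
    exact hne (Fin.ext h5.symm)
  · intro h5
    exact absurd (Finset.mem_univ _) h5

theorem isF_one {A : Type} [CommRing A] : IsF 0 (fun _ : A × A => (1 : A)) :=
  ⟨fun _ => 1, fun x => by simp [fv]⟩

theorem isF_pow {A : Type} [CommRing A] {a : ℕ} {φ : A × A → A} (h : IsF a φ) (k : ℕ) :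
    IsF (a * k) (fun x => φ x ^ k) := by
  induction k with
  | zero => simpa using isF_one (A := A)
  | succ k ih =>
    have h1 := isF_mul ih h
    have h2 : a * (k + 1) = a * k + a := by ring
    rw [h2]
    have h3 : (fun x => φ x ^ (k + 1)) = fun x => φ x ^ k * φ x := by
      funext x
      rw [pow_succ]
    rw [h3]
    exact h1

theorem isF_comp {A : Type} [CommRing A] {d e : ℕ} (c : Fin (e + 1) → A) (f : Pr A d) :
    IsF (d * e) (fun x => fv c (st f x)) := by
  have h : (fun x => fv c (st f x)) = fun x => ∑ i : Fin (e + 1),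
      c i * ((fv f.1 x) ^ (i : ℕ) * (fv f.2 x) ^ (e - (i : ℕ))) := by
    funext x
    simp only [fv, st, mul_assoc]
  rw [h]
  refine isF_sum _ _ fun i _ => isF_smul _ ?_
  have hi : (i : ℕ) ≤ e := Nat.lt_succ_iff.mp i.2
  have h1 : d * e = d * (i : ℕ) + d * (e - (i : ℕ)) := by
    rw [← Nat.mul_add]
    congr 1
    omega
  rw [h1]
  exact isF_mul (isF_pow ⟨f.1, fun _ => rfl⟩ _) (isF_pow ⟨f.2, fun _ => rfl⟩ _)

end COMP_

open COMP_ in
theorem p_COMP : T_COMP := by
  intro A _ d e g f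
  obtain ⟨c1, h1⟩ := isF_comp g.1 f
  obtain ⟨c2, h2⟩ := isF_comp g.2 f
  refine ⟨(c1, c2), fun x => ?_⟩
  exact Prod.ext (h1 x).symm (h2 x).symm

end Pool.Agent.UMR
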