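import Pool.Agent.UMR.Targets

set_option autoImplicit false

/-! UMR: HBDD, the heights of the orbit are bounded. -/

namespace Pool.Agent.UMR

open Finset
open scoped BigOperators

namespace HBDD_

theorem fv_smul {A : Type} [CommRing A] {n : ℕ} (c : Fin (n + 1) → A) (a : A) (x : A × A) :
    fv c (a • x) = a ^ n * fv c x := by
  unfold fv
  rw [mul_sum]
  refine sum_congr rfl fun i _ => ?_
  have hi : (i : ℕ) + (n - (i : ℕ)) = n := by omega
  have e1 : (a • x).1 = a * x.1 := rfl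
  have e2 : (a • x).2 = a * x.2 := rfl
  rw [e1, e2, mul_pow, mul_pow]
  have e3 : a ^ n = a ^ (i : ℕ) * a ^ (n - (i : ℕ)) := by rw [← pow_add, hi]
  rw [e3]
  ring

theorem fv_zero {A : Type} [CommRing A] {n : ℕ} (hn : n ≠ 0) (c : Fin (n + 1) → A) :
    fv c (0 : A × A) = 0 := by
  have := fv_smul c (0 : A) (0 : A × A)
  rwa [zero_smul, zero_pow hn, zero_mul] at this

theorem exists_smul {K : Type} [Field K] {x y : K × K} (hy : y ≠ 0) (h : wd x y = 0) :
    ∃ c : K, x = c • y := by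
  unfold wd at h
  by_cases h1 : y.1 = 0
  · have h2 : y.2 ≠ 0 := by
      intro h2
      exact hy (Prod.ext h1 h2)
    rw [h1, mul_zero, sub_zero] at h
    have h3 : x.1 = 0 := (mul_eq_zero.1 h).resolve_right h2
    refine ⟨x.2 / y.2, Prod.ext ?_ ?_⟩
    · change x.1 = x.2 / y.2 * y.1
      rw [h1, h3, mul_zero]
    · change x.2 = x.2 / y.2 * y.2
      field_simp
  · refine ⟨x.1 / y.1, Prod.ext ?_ ?_⟩
    · change x.1 = x.1 / y.1 * y.1
      field_simp
    · change x.2 = x.1 / y.1 * y.2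
      field_simp
      linear_combination -h

theorem nz_of_ag {K : Type} [Field K] {d : ℕ} {f : Pr K d} {ρ : K} (h : AG f ρ) : NZ f := by
  have hd := h.hd
  intro x hx
  by_contra hx0
  have hw : ((1 : K), (0 : K)) ≠ 0 := by
    intro h1
    exact one_ne_zero (congrArg Prod.fst h1)
  obtain ⟨γ, y, hγ, hy, hprod⟩ := h.gam _ hw
  have hγ0 : γ ≠ 0 := by
    intro h1
    rw [h1, zero_pow (by omega)] at hγ
    exact h.ne hγ.symm
  have h1 := hprod x
  rw [hx] at h1
  have h2 : wd (0 : K × K) ((1 : K), (0 : K)) = 0 := by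
    simp [wd]
  rw [h2] at h1
  have h3 : ∏ b, wd x (y b) = 0 := by
    rcases mul_eq_zero.1 h1.symm with h4 | h4
    · exact absurd h4 hγ0
    · exact h4
  obtain ⟨b, -, hb⟩ := Finset.prod_eq_zero_iff.1 h3
  have hyb : y b ≠ 0 := by
    intro h4
    have h5 := hy b
    rw [h4] at h5
    have h6 : st f (0 : K × K) = 0 := Prod.ext (fv_zero (by omega) _) (fv_zero (by omega) _)
    rw [h6] at h5
    exact hw h5.symm
  obtain ⟨c, hc⟩ := exists_smul hyb hb
  have hc0 : c ≠ 0 := by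
    intro h4
    rw [h4, zero_smul] at hc
    exact hx0 hc
  have h7 : st f x = c ^ d • st f (y b) := by
    rw [hc]
    exact Prod.ext (fv_smul _ _ _) (fv_smul _ _ _)
  rw [hx, hy b] at h7
  have h8 := congrArg Prod.fst h7
  have h9 : (0 : K) = c ^ d * 1 := h8
  rw [mul_one] at h9
  exact pow_ne_zero d hc0 h9.symm

theorem fv_mem {Ω : Type} [Field Ω] (E : Subfield Ω) {n : ℕ} (c : Fin (n + 1) → Ω)
    (hc : ∀ i, c i ∈ E) (x : Ω × Ω) (h1 : x.1 ∈ E) (h2 : x.2 ∈ E) : fv c x ∈ E := by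
  unfold fv
  exact E.sum_mem fun i _ => E.mul_mem (E.mul_mem (hc i) (E.pow_mem h1 _)) (E.pow_mem h2 _)

theorem sum_filter_lt {k : ℕ} (l : Fin k) (g : ℕ → ℝ) :
    ∑ t ∈ univ.filter (fun t : Fin k => t < l), g t = ∑ j ∈ range (l : ℕ), g j := by
  refine Finset.sum_nbij (fun t : Fin k => (t : ℕ)) ?_ ?_ ?_ ?_
  · intro t ht
    rw [mem_filter] at ht
    exact mem_range.2 ht.2
  · intro a _ b _ hab
    exact Fin.ext hab
  · intro j hj
    have hj' : j < (l : ℕ) := by simpa using hj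
    refine ⟨⟨j, hj'.trans l.2⟩, ?_, rfl⟩
    simp only [coe_filter, mem_univ, true_and, Set.mem_ofPred_eq]
    exact hj'
  · intro a _
    rfl

end HBDD_

open HBDD_ in
theorem p_HBDD (h1 : T_SEQ) (h2 : T_HTREL) (h3 : T_HTGROW) : T_HBDD := by
  intro L Ω _ _ _ _ _ E P v hPl d k f ρ x μ hag hρ hf hx1 hx2 hx0 hμ hrel
  obtain ⟨C, hC, hgrow⟩ := h3 L Ω E P v hPl d f ρ hag hρ hf
  have hnz := nz_of_ag hag
  have hall : ∀ n, orb f x n ≠ 0 ∧ (orb f x n).1 ∈ E ∧ (orb f x n).2 ∈ E := by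
    intro n
    induction n with
    | zero => exact ⟨hx0, hx1, hx2⟩
    | succ n ih =>
      have e : orb f x (n + 1) = st f (orb f x n) := Function.iterate_succ_apply' _ _ _
      rw [e]
      exact ⟨fun h => ih.1 (hnz _ h), fv_mem E _ (fun i => (hf i).1) _ ih.2.1 ih.2.2,
        fv_mem E _ (fun i => (hf i).2) _ ih.2.1 ih.2.2⟩
  have hb := h1 d k C (fun n => ht v (orb f x n)) hag.hd hC
    (fun n => (hgrow _ (hall n).1 (hall n).2.1 (hall n).2.2).1)
    (fun n => by
      have e : orb f x (n + 1) = st f (orb f x n) := Function.iterate_succ_apply' _ _ _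
      rw [e]
      exact (hgrow _ (hall n).1 (hall n).2.1 (hall n).2.2).2)
    (fun i => by
      obtain ⟨l, hl⟩ := h2 L Ω E P v hPl k (μ i) (fun t : Fin k => orb f x (i + t)) (hμ i)
        (fun t => ⟨(hall _).2.1, (hall _).2.2, (hall _).1⟩) (hrel i)
      refine ⟨l, l.2, ?_⟩
      rw [← sum_filter_lt l (fun j => ht v (orb f x (i + j)))]
      exact hl)
  exact ⟨C * (k + 1), fun n => ⟨hb n, hall n⟩⟩

end Pool.Agent.UMR
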