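import Pool.Agent.UMR.Targets

set_option autoImplicit false
set_option maxHeartbeats 4000000

/-! # SCALE: the data of a multiple -/

namespace Pool.Agent.UMR

open Finset
open scoped BigOperators

namespace SCALE_

theorem fv_scale {K : Type} [Field K] {n : ℕ} (s : K) (c : Fin (n + 1) → K) (x : K × K) :
    fv (fun i => s * c i) x = s * fv c x := by
  unfold fv
  rw [Finset.mul_sum]
  exact Finset.sum_congr rfl fun i _ => by ring

theorem st_scale {K : Type} [Field K] {d : ℕ} (s : K) (f : Pr K d) (x : K × K) :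
    st ((fun i => s * f.1 i, fun i => s * f.2 i) : Pr K d) x = s • st f x := by
  unfold st
  simp only [fv_scale]
  rfl

theorem st_ne {K : Type} [Field K] {d : ℕ} {f : Pr K d} {ρ : K} (h : AG f ρ) {x : K × K}
    (hx : x ≠ 0) : st f x ≠ 0 := by
  intro h0
  have key : ∀ w : K × K, w ≠ 0 → ∃ b : Fin d → K × K, (∀ j, st f (b j) = w) ∧
      ∃ j, wd x (b j) = 0 := by
    intro w hw
    obtain ⟨γ, y, hγ, hy, hx'⟩ := h.gam w hw
    have h1 := hx' x
    rw [h0] at h1
    have hγ0 : γ ≠ 0 := by
      rintro rfl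
      rw [zero_pow (by have := h.hd; omega)] at hγ
      exact h.ne hγ.symm
    have h2 : ∏ b, wd x (y b) = 0 := by
      have h3 : wd (0 : K × K) w = 0 := by unfold wd; simp
      rw [h3] at h1
      exact (mul_eq_zero.1 h1.symm).resolve_left hγ0
    obtain ⟨b, -, hb⟩ := Finset.prod_eq_zero_iff.1 h2
    exact ⟨y, hy, b, hb⟩
  obtain ⟨y, hy, j, hj⟩ := key (1, 0) (by intro h; simpa using congrArg Prod.fst h)
  have hyj0 : y j ≠ 0 := by
    intro h1
    have h2 := hy j
    rw [h1] at h2
    have h3 : st f (0 : K × K) = 0 := by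
      unfold st fv
      ext
      · simp only [Prod.fst_zero, Prod.snd_zero]
        refine Finset.sum_eq_zero fun i _ => ?_
        by_cases hi : (i : ℕ) = 0
        · have : d - (i : ℕ) ≠ 0 := by have := h.hd; omega
          rw [zero_pow this, mul_zero]
        · rw [zero_pow hi]; ring
      · simp only [Prod.fst_zero, Prod.snd_zero]
        refine Finset.sum_eq_zero fun i _ => ?_
        by_cases hi : (i : ℕ) = 0
        · have : d - (i : ℕ) ≠ 0 := by have := h.hd; omega
          rw [zero_pow this, mul_zero]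
        · rw [zero_pow hi]; ring
    rw [h3] at h2
    have := congrArg Prod.fst h2
    simp at this
  -- x is a multiple of y j
  have hprop : ∃ c : K, y j = c • x := by
    unfold wd at hj
    by_cases h1 : x.1 = 0
    · have h2 : x.2 ≠ 0 := fun h2 => hx (Prod.ext h1 h2)
      refine ⟨(y j).2 / x.2, Prod.ext ?_ ?_⟩
      · simp only [Prod.smul_fst, smul_eq_mul, h1, mul_zero]
        rw [h1] at hj
        have : x.2 * (y j).1 = 0 := by linear_combination -hj
        exact (mul_eq_zero.1 this).resolve_left h2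
      · simp only [Prod.smul_snd, smul_eq_mul]
        field_simp
    · refine ⟨(y j).1 / x.1, Prod.ext ?_ ?_⟩
      · simp only [Prod.smul_fst, smul_eq_mul]
        field_simp
      · simp only [Prod.smul_snd, smul_eq_mul]
        field_simp
        linear_combination hj
  obtain ⟨c, hc⟩ := hprop
  have h4 := hy j
  have hst : st f (c • x) = c ^ d • st f x := by
    unfold st fv
    ext
    · simp only [Prod.smul_fst, Prod.smul_snd, smul_eq_mul, Finset.mul_sum]
      refine Finset.sum_congr rfl fun i _ => ?_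
      have h : c ^ d = c ^ (i : ℕ) * c ^ (d - (i : ℕ)) := by
        rw [← pow_add]; congr 1; omega
      rw [h]; ring
    · simp only [Prod.smul_fst, Prod.smul_snd, smul_eq_mul, Finset.mul_sum]
      refine Finset.sum_congr rfl fun i _ => ?_
      have h : c ^ d = c ^ (i : ℕ) * c ^ (d - (i : ℕ)) := by
        rw [← pow_add]; congr 1; omega
      rw [h]; ring
  rw [hc, hst, h0, smul_zero] at h4
  have := congrArg Prod.fst h4
  simp at this

end SCALE_

open SCALE_ in
theorem p_SCALE : T_SCALE := by
  intro K _ _ v d f ρ H C s hL hs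
  have hd := hL.ag.hd
  have hd2 : (2 : ℝ) ≤ d := by exact_mod_cast hd
  have hvs : 0 < v s := v.pos hs
  refine ⟨C + |Real.log (v s) / (d - 1)|, hL.vv, ⟨hd, mul_ne_zero hL.ag.ne (pow_ne_zero _ hs), ?_⟩,
    ?_, ?_, ?_⟩
  · intro w hw
    obtain ⟨γ, y, hγ, hy, hx⟩ := hL.ag.gam (s⁻¹ • w) (smul_ne_zero (inv_ne_zero hs) hw)
    refine ⟨s ^ 2 * γ, y, ?_, fun b => ?_, fun x => ?_⟩
    · rw [mul_pow, hγ, ← pow_mul]; ring
    · rw [st_scale, hy b, smul_smul, mul_inv_cancel₀ hs, one_smul]
    · rw [st_scale]
      have h1 := hx x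
      unfold wd at h1 ⊢
      simp only [Prod.smul_fst, Prod.smul_snd, smul_eq_mul] at h1 ⊢
      have h2 : s ^ 2 * γ * ∏ b, (x.1 * (y b).2 - x.2 * (y b).1) =
          s ^ 2 * (γ * ∏ b, (x.1 * (y b).2 - x.2 * (y b).1)) := by ring
      rw [h2, ← h1]
      field_simp
  · intro x hx
    rw [st_scale, hL.hom s _ hs (st_ne hL.ag hx), hL.fe x hx]
    have : (d : ℝ) - 1 ≠ 0 := by linarith
    field_simp
    ring
  · intro x hx
    have h1 := hL.near x hx
    have : H x + Real.log (v s) / (d - 1) - Real.log (nm v x) =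
      (H x - Real.log (nm v x)) + Real.log (v s) / (d - 1) := by ring
    rw [this]
    exact (abs_add_le _ _).trans (by linarith)
  · intro c x hc hx
    rw [hL.hom c x hc hx]
    ring

end Pool.Agent.UMR
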